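import Pool.Agent.P.MP_6b977f_mp.Deg

namespace Pool.Agent.P.MP_6b977f_mp

open Real MeasureTheory Filter Topology Complex
open scoped RealInnerProductSpace ContDiff

noncomputable section

structure Fam (k : ℕ → ℝ) (F : ℕ → E → ℂ) (I : ℝ) : Prop where
  hk : Tendsto k atTop atTop
  conc : Conc k F
  real : ∀ n, tilde (F n) = F n
  corr : ∃ c, Corr k F F c 0 ∧ ∫ η, c η * c (-η) = I

def LS (k : ℕ → ℝ) (F : ℕ → E → ℂ) (M : E3 → ℂ) (n : ℕ) : ℂ :=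
  Lam (fun p => M ((k n)⁻¹ • p)) (F n) (F n) (F n) (F n)

lemma LS_sw12 (k : ℕ → ℝ) (F : ℕ → E → ℂ) (M : E3 → ℂ) (n : ℕ) :
    LS k F M n = LS k F (fun p => M (sw12 p)) n := Lam_sw12 _ _ _ _ _

lemma LS_sw13 (k : ℕ → ℝ) (F : ℕ → E → ℂ) (M : E3 → ℂ) (n : ℕ) :
    LS k F M n = LS k F (fun p => M (sw13 p)) n := Lam_sw13 _ _ _ _ _

lemma LS_add {k : ℕ → ℝ} {F : ℕ → E → ℂ} {M N : E3 → ℂ} {B C : ℝ} (hM : Bdd M B) (hN : Bdd N C)
    {n : ℕ} (h : Good (F n)) : LS k F (fun p => M p + N p) n = LS k F M n + LS k F N n :=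
  Lam_add (hM.comp (by fun_prop)) (hN.comp (by fun_prop)) h h h h

def an (s ρ : ℝ) (x : E) : ℝ := cl (2 - |‖x‖ ^ 2 - s| / ρ)

@[fun_prop] lemma continuous_an (s ρ : ℝ) : Continuous (an s ρ) := by unfold an; fun_prop

lemma U01_an (s ρ : ℝ) : U01 (an s ρ) :=
  ⟨continuous_an s ρ, fun _ => cl_nonneg _, fun _ => cl_le_one _, fun x => by simp [an]⟩

lemma an_zero {s ρ : ℝ} (hρ : 0 < ρ) {x : E} (h : 2 * ρ ≤ |‖x‖ ^ 2 - s|) : an s ρ x = 0 :=
  cl_of_nonpos (by rw [sub_nonpos, le_div_iff₀ hρ]; exact h)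

lemma an_one {s ρ : ℝ} (hρ : 0 < ρ) {x : E} (h : |‖x‖ ^ 2 - s| ≤ ρ) : an s ρ x = 1 :=
  cl_of_one_le (by have := (div_le_one hρ).2 h; linarith)

def del (s ρ : ℝ) : ℝ := ∫ p : E × E, (an s ρ (p.1 + p.2) + an s ρ (p.1 - p.2)) ∂(om.prod om)

lemma an_ev {s : ℝ} {x : E} (h : ‖x‖ ^ 2 ≠ s) : ∀ᶠ ρ in 𝓝[>] (0 : ℝ), an s ρ x = 0 := by
  have h0 : 0 < |‖x‖ ^ 2 - s| / 2 := by have := abs_pos.2 (sub_ne_zero.2 h); positivity
  filter_upwards [Ioo_mem_nhdsGT h0] with ρ hρ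
  exact an_zero hρ.1 (by linarith [hρ.2])

lemma del_tendsto (s : ℝ) : Tendsto (del s) (𝓝[>] 0) (𝓝 0) := by
  have key := tendsto_integral_filter_of_dominated_convergence (l := 𝓝[>] (0 : ℝ))
    (μ := om.prod om) (F := fun ρ p => an s ρ (p.1 + p.2) + an s ρ (p.1 - p.2))
    (f := fun _ => (0 : ℝ)) (fun _ => 2)
    (Eventually.of_forall fun t => Continuous.aestronglyMeasurable (by fun_prop))
    (Eventually.of_forall fun t => Eventually.of_forall fun y => by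
      refine (norm_add_le _ _).trans ?_
      have := (U01_an s t).abs_le (y.1 + y.2)
      have := (U01_an s t).abs_le (y.1 - y.2)
      simp only [Real.norm_eq_abs]
      linarith)
    (integrable_const _) ?_
  · unfold del
    simpa using key
  filter_upwards [ae_norm_prod, ae_inner_ne ((s - 2) / 2), ae_inner_ne ((2 - s) / 2)]
    with p hp h1 h2
  obtain ⟨e1, e2⟩ := norm_add_sub_sq hp.1 hp.2
  refine tendsto_const_nhds.congr' ?_
  filter_upwards [an_ev (s := s) (x := p.1 + p.2) (fun h => h1 (by linarith)),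
    an_ev (s := s) (x := p.1 - p.2) (fun h => h2 (by linarith))] with ρ a1 a2
  rw [a1, a2, add_zero]

lemma W_zero (M : E3 → ℂ) : W M 0 0 = ∫ p : E × E, M (0, p.1 + p.2, p.1 - p.2) ∂(om.prod om) := by
  simp [W]

lemma W_diff {M N : E3 → ℂ} {B C : ℝ} (hM : Bdd M B) (hN : Bdd N C) {s ρ : ℝ}
    (h : ∀ x y, ‖M (0, x, y) - N (0, x, y)‖ ≤ an s ρ x + an s ρ y) :
    ‖W M 0 0 - W N 0 0‖ ≤ del s ρ := by
  have hi : ∀ {M : E3 → ℂ} {B : ℝ}, Bdd M B →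
      Integrable (fun p : E × E => M (0, p.1 + p.2, p.1 - p.2)) (om.prod om) := fun hM =>
    Integrable.of_bound (hM.meas.comp (by fun_prop)).aestronglyMeasurable _
      (Eventually.of_forall fun p => hM.le _)
  rw [W_zero, W_zero, ← integral_sub (hi hM) (hi hN)]
  refine norm_integral_le_of_norm_le ?_ (Eventually.of_forall fun p => h _ _)
  refine Integrable.of_bound (Continuous.aestronglyMeasurable (by fun_prop)) 2
    (Eventually.of_forall fun y => (norm_add_le _ _).trans ?_)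
  have := (U01_an s ρ).abs_le (y.1 + y.2)
  have := (U01_an s ρ).abs_le (y.1 - y.2)
  simp only [Real.norm_eq_abs]
  linarith

def W3 (M : E3 → ℂ) : ℂ := W M 0 0 + W (fun p => M (sw12 p)) 0 0 + W (fun p => M (sw13 p)) 0 0

lemma Fam.wick {k : ℕ → ℝ} {F : ℕ → E → ℂ} {I : ℝ} (h : Fam k F I) {M : E3 → ℂ}
    (hM : Continuous M) {B ρ : ℝ} (hB : ∀ p, ‖M p‖ ≤ B) (hρ : 0 < ρ) (hV : Van ρ M) :
    Tendsto (LS k F M) atTop (𝓝 (I * W3 M)) := by
  obtain ⟨c, hc, hI⟩ := h.corr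
  have := wick_one h.hk h.conc hc hM hB hρ hV
  rwa [hI] at this

def LG (k : ℕ → ℝ) (F : ℕ → E → ℂ) (ρ : ℝ) (N : E3 → ℂ) : ℕ → ℂ :=
  LS k F (fun p => (an 4 ρ p.1 : ℂ) * N p)

def mm (ρ : ℝ) (p : E3) : ℂ := 1 - an 4 ρ p.1 - an 4 ρ p.2.1 - an 4 ρ p.2.2

@[fun_prop] lemma continuous_mm (ρ : ℝ) : Continuous (mm ρ) := by unfold mm; fun_prop

lemma norm_mm_le (ρ : ℝ) (p : E3) : ‖mm ρ p‖ ≤ 4 := by
  have h := (U01_an 4 ρ).norm_le
  refine (norm_sub_le _ _).trans ((add_le_add ((norm_sub_le _ _).trans (add_le_add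
    ((norm_sub_le _ _).trans (add_le_add norm_one.le (h _))) (h _))) (h _)).trans ?_)
  norm_num

lemma van_mm {ρ : ℝ} (hρ : 0 < ρ) (hρ1 : ρ ≤ 1) : Van ρ (mm ρ) := by
  intro p hS h
  unfold SS at hS
  have n1 := sq_nonneg ‖p.1‖
  have n2 := sq_nonneg ‖p.2.1‖
  have n3 := sq_nonneg ‖p.2.2‖
  have z : ∀ x : E, ‖x‖ ^ 2 ≤ 2 * ρ → an 4 ρ x = 0 := fun x hx =>
    an_zero hρ (le_abs.2 (Or.inr (by linarith)))
  have o : ∀ x : E, 4 - ρ ≤ ‖x‖ ^ 2 → ‖x‖ ^ 2 ≤ 4 + ρ → an 4 ρ x = 1 := fun x hx hx' =>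
    an_one hρ (abs_le.2 ⟨by linarith, by linarith⟩)
  unfold mm
  rcases h with h | h | h
  · rw [o _ h (by linarith), z p.2.1 (by linarith), z p.2.2 (by linarith)]; simp
  · rw [o _ h (by linarith), z p.1 (by linarith), z p.2.2 (by linarith)]; simp
  · rw [o _ h (by linarith), z p.1 (by linarith), z p.2.1 (by linarith)]; simp

lemma W_mm {N : E3 → ℂ} (hN : Continuous N) (h1 : ∀ p, ‖N p‖ ≤ 1) {ρ : ℝ} (hρ : 0 < ρ)
    (hρ1 : ρ ≤ 1) : ‖W (fun p => mm ρ p * N p) 0 0 - W N 0 0‖ ≤ del 4 ρ := by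
  have bN : Bdd N 1 := ⟨hN.measurable, h1⟩
  refine W_diff (Bdd.mul ⟨(continuous_mm ρ).measurable, norm_mm_le ρ⟩ bN) bN fun x y => ?_
  have : an 4 ρ 0 = 0 := an_zero hρ (by simp; linarith)
  have e : mm ρ (0, x, y) * N (0, x, y) - N (0, x, y) =
      -(((an 4 ρ x + an 4 ρ y : ℝ) : ℂ) * N (0, x, y)) := by
    simp only [mm, this]; push_cast; ring
  have := (U01_an 4 ρ).nonneg x
  have := (U01_an 4 ρ).nonneg y
  rw [e, norm_neg, norm_mul, Complex.norm_real, Real.norm_of_nonneg (by positivity)]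
  exact mul_le_of_le_one_right (by positivity) (h1 _)

lemma mm_sw12 (ρ : ℝ) (p : E3) : mm ρ (sw12 p) = mm ρ p := by simp only [mm, sw12]; ring

lemma mm_sw13 (ρ : ℝ) (p : E3) : mm ρ (sw13 p) = mm ρ p := by simp only [mm, sw13]; ring

lemma Fam.decomp {k : ℕ → ℝ} {F : ℕ → E → ℂ} {I : ℝ} (h : Fam k F I) {ε : ℝ} (hε : 0 < ε) :
    ∀ᶠ ρ in 𝓝[>] (0 : ℝ), ∀ N : E3 → ℂ, Continuous N → (∀ p, ‖N p‖ ≤ 1) → ∀ᶠ n in atTop,
      ‖LS k F N n - (LG k F ρ N n + LG k F ρ (fun p => N (sw12 p)) n +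
        LG k F ρ (fun p => N (sw13 p)) n) - I * W3 N‖ ≤ ε := by
  have t : Tendsto (fun ρ => |I| * (3 * del 4 ρ)) (𝓝[>] 0) (𝓝 0) := by
    simpa using ((del_tendsto 4).const_mul 3).const_mul |I|
  filter_upwards [t.eventually (gt_mem_nhds (half_pos hε)), Ioo_mem_nhdsGT one_pos]
    with ρ hρ ⟨hρ0, hρ1⟩ N hN h1
  have bN : Bdd N 1 := ⟨hN.measurable, h1⟩
  have bM := Bdd.mul ⟨(continuous_mm ρ).measurable, norm_mm_le ρ⟩ bN
  have w := h.wick (M := fun p => mm ρ p * N p) (by fun_prop) bM.le hρ0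
    (fun p a b => by simp only [van_mm hρ0 hρ1.le p a b, zero_mul])
  have d : ‖(I : ℂ) * W3 (fun p => mm ρ p * N p) - I * W3 N‖ ≤ |I| * (3 * del 4 ρ) := by
    rw [← mul_sub, norm_mul, Complex.norm_real, Real.norm_eq_abs]
    refine mul_le_mul_of_nonneg_left ?_ (abs_nonneg _)
    have a1 := W_mm hN h1 hρ0 hρ1.le
    have a2 := W_mm (N := fun p => N (sw12 p)) (by fun_prop) (fun p => h1 _) hρ0 hρ1.le
    have a3 := W_mm (N := fun p => N (sw13 p)) (by fun_prop) (fun p => h1 _) hρ0 hρ1.le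
    unfold W3
    simp only [mm_sw12, mm_sw13]
    refine le_trans (le_of_eq ?_) ((norm_add_le _ _).trans
      ((add_le_add ((norm_add_le _ _).trans (add_le_add a1 a2)) a3).trans (le_of_eq (by ring))))
    congr 1
    ring
  filter_upwards [h.conc.good h.hk, (tendsto_iff_norm_sub_tendsto_zero.1 w).eventually
    (gt_mem_nhds (half_pos hε))] with n hg hn
  have hb : ∀ {f : E3 → E}, Continuous f → Bdd (fun p => (an 4 ρ (f p) : ℂ) * N p) (1 * 1) :=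
    fun hf => Bdd.mul ⟨Continuous.measurable (by fun_prop), fun p => (U01_an 4 ρ).norm_le _⟩ bN
  have e : LS k F N n = LS k F (fun p => mm ρ p * N p) n + (LG k F ρ N n +
      LG k F ρ (fun p => N (sw12 p)) n + LG k F ρ (fun p => N (sw13 p)) n) := by
    have e2 : LG k F ρ (fun p => N (sw12 p)) n =
      LS k F (fun p => (an 4 ρ p.2.1 : ℂ) * N p) n :=
      (LS_sw12 k F (fun p => (an 4 ρ p.2.1 : ℂ) * N p) n).symm
    have e3 : LG k F ρ (fun p => N (sw13 p)) n =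
      LS k F (fun p => (an 4 ρ p.2.2 : ℂ) * N p) n :=
      (LS_sw13 k F (fun p => (an 4 ρ p.2.2 : ℂ) * N p) n).symm
    rw [e2, e3, LG, ← LS_add (hb (by fun_prop)) (hb (by fun_prop)) hg,
      ← LS_add ((hb (by fun_prop)).add (hb (by fun_prop))) (hb (by fun_prop)) hg,
      ← LS_add bM (((hb (by fun_prop)).add (hb (by fun_prop))).add (hb (by fun_prop))) hg]
    congr 1
    ext p
    unfold mm
    ring
  rw [e, add_sub_cancel_right]
  have := norm_sub_le_norm_sub_add_norm_sub (LS k F (fun p => mm ρ p * N p) n)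
    (I * W3 (fun p => mm ρ p * N p)) (I * W3 N)
  linarith

def Dn (k : ℕ → ℝ) (F : ℕ → E → ℂ) (s ρ : ℝ) (w : E) (n : ℕ) : ℝ :=
  DD (fun η => an s ρ ((k n)⁻¹ • η)) (F n) ((k n)⁻¹ • w)

lemma Dn_nonneg (k : ℕ → ℝ) (F : ℕ → E → ℂ) (s ρ : ℝ) (w : E) (n : ℕ) : 0 ≤ Dn k F s ρ w n :=
  DD_nonneg ((U01_an s ρ).scale _) _ _

lemma LS_Dn {k : ℕ → ℝ} {F : ℕ → E → ℂ} {n : ℕ} (hg : Good (F n)) (ht : tilde (F n) = F n)
    (s ρ : ℝ) (w : E) :
    LS k F (fun p => (an s ρ p.1 : ℂ) * ex ⟪p.2.1, w⟫) n = Dn k F s ρ w n := by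
  unfold Dn
  rw [← Lam_DD ((U01_an s ρ).scale _) hg ht]
  simp only [LS, Prod.smul_fst, Prod.smul_snd, real_inner_smul_left, real_inner_smul_right]

lemma LG_one {k : ℕ → ℝ} {F : ℕ → E → ℂ} {n : ℕ} (hg : Good (F n)) (ht : tilde (F n) = F n)
    (ρ : ℝ) : LG k F ρ (fun _ => 1) n = Dn k F 4 ρ 0 n := by
  rw [← LS_Dn hg ht]
  simp [LG]

lemma LS_one {k : ℕ → ℝ} {F : ℕ → E → ℂ} {n : ℕ} (hg : Good (F n)) (ht : tilde (F n) = F n) :
    LS k F (fun _ => 1) n = TT (F n) := by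
  have := Lam_DD0 U01_one hg ht
  rw [DD_one] at this
  simpa [LS] using this

lemma W_one : W (fun _ => 1) 0 0 = 1 := by simp [W]

lemma Fam.split {k : ℕ → ℝ} {F : ℕ → E → ℂ} {I : ℝ} (h : Fam k F I) {ε : ℝ} (hε : 0 < ε) :
    ∀ᶠ ρ in 𝓝[>] (0 : ℝ), ∀ᶠ n in atTop, |TT (F n) - 3 * Dn k F 4 ρ 0 n - 3 * I| ≤ ε := by
  filter_upwards [h.decomp hε] with ρ hρ
  filter_upwards [hρ (fun _ => 1) continuous_const (by simp), h.conc.good h.hk] with n hn hg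
  rw [LS_one hg (h.real n), LG_one hg (h.real n), W3, W_one] at hn
  refine le_trans (le_of_eq ?_) hn
  rw [← Real.norm_eq_abs, ← Complex.norm_real]
  congr 1
  push_cast
  ring

lemma Fam.lower {k : ℕ → ℝ} {F : ℕ → E → ℂ} {I : ℝ} (h : Fam k F I) {ε : ℝ} (hε : 0 < ε) :
    ∀ᶠ n in atTop, 3 * I - ε ≤ TT (F n) := by
  obtain ⟨ρ, hρ⟩ := (h.split hε).exists
  filter_upwards [hρ] with n hn
  have := Dn_nonneg k F 4 ρ 0 n
  linarith [(abs_le.1 hn).1]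

lemma Fam.third {k : ℕ → ℝ} {F : ℕ → E → ℂ} {I : ℝ} (h : Fam k F I) (w : E) {ε : ℝ} (hε : 0 < ε) :
    ∀ᶠ ρ in 𝓝[>] (0 : ℝ), ∀ᶠ n in atTop, Dn k F 1 ρ w n ≤ ε := by
  have t : Tendsto (fun ρ => |I| * (3 * del 1 ρ)) (𝓝[>] 0) (𝓝 0) := by
    simpa using ((del_tendsto 1).const_mul 3).const_mul |I|
  filter_upwards [t.eventually (gt_mem_nhds (half_pos hε)),
    Ioo_mem_nhdsGT (show (0 : ℝ) < 1 / 4 by norm_num)] with ρ hρ ⟨hρ0, hρ1⟩
  have hle : ∀ p : E3, ‖(an 1 ρ p.1 : ℂ) * ex ⟪p.2.1, w⟫‖ = an 1 ρ p.1 := fun p => by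
    rw [norm_mul, norm_ex, mul_one, Complex.norm_real,
      Real.norm_of_nonneg ((U01_an 1 ρ).nonneg _)]
  have hB : ∀ p : E3, ‖(an 1 ρ p.1 : ℂ) * ex ⟪p.2.1, w⟫‖ ≤ 1 := fun p =>
    (hle p).le.trans ((U01_an 1 ρ).le _)
  have w1 := h.wick (M := fun p => (an 1 ρ p.1 : ℂ) * ex ⟪p.2.1, w⟫) (by fun_prop) hB
    (show (0 : ℝ) < 1 / 4 by norm_num) (fun p a b => by
      unfold SS at a
      have n1 := sq_nonneg ‖p.1‖
      have n2 := sq_nonneg ‖p.2.1‖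
      have n3 := sq_nonneg ‖p.2.2‖
      have : an 1 ρ p.1 = 0 := an_zero hρ0 (le_abs.2 (by
        rcases b with b | b | b
        · left; linarith
        · right; linarith
        · right; linarith))
      simp [this])
  have b0 : Bdd (fun _ => 0) 0 := ⟨measurable_const, by simp⟩
  have z : W (fun _ => 0) 0 0 = 0 := by simp [W]
  have h0 : an 1 ρ 0 = 0 := an_zero hρ0 (by simp; linarith)
  have nn := (U01_an 1 ρ).nonneg
  have a1 := W_diff (M := fun p => (an 1 ρ p.1 : ℂ) * ex ⟪p.2.1, w⟫) (s := 1) (ρ := ρ)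
    ⟨Continuous.measurable (by fun_prop), hB⟩ b0 fun x y => by
      rw [sub_zero, hle, h0]; exact add_nonneg (nn _) (nn _)
  have a2 := W_diff (M := fun p => (an 1 ρ (sw12 p).1 : ℂ) * ex ⟪(sw12 p).2.1, w⟫) (s := 1) (ρ := ρ)
    ⟨Continuous.measurable (by fun_prop), fun p => hB _⟩ b0 fun x y => by
      rw [sub_zero, hle]; exact le_add_of_nonneg_right (nn _)
  have a3 := W_diff (M := fun p => (an 1 ρ (sw13 p).1 : ℂ) * ex ⟪(sw13 p).2.1, w⟫) (s := 1) (ρ := ρ)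
    ⟨Continuous.measurable (by fun_prop), fun p => hB _⟩ b0 fun x y => by
      rw [sub_zero, hle]; exact le_add_of_nonneg_left (nn _)
  rw [z, sub_zero] at a1 a2 a3
  have d : ‖(I : ℂ) * W3 (fun p => (an 1 ρ p.1 : ℂ) * ex ⟪p.2.1, w⟫)‖ ≤ |I| * (3 * del 1 ρ) := by
    rw [norm_mul, Complex.norm_real, Real.norm_eq_abs]
    refine mul_le_mul_of_nonneg_left ?_ (abs_nonneg _)
    exact (norm_add_le _ _).trans
      ((add_le_add ((norm_add_le _ _).trans (add_le_add a1 a2)) a3).trans (le_of_eq (by ring)))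
  filter_upwards [h.conc.good h.hk, (tendsto_iff_norm_sub_tendsto_zero.1 w1).eventually
    (gt_mem_nhds (half_pos hε))] with n hg hn
  rw [LS_Dn hg (h.real n)] at hn
  have := norm_le_norm_add_norm_sub' ((Dn k F 1 ρ w n : ℝ) : ℂ)
    ((I : ℂ) * W3 (fun p => (an 1 ρ p.1 : ℂ) * ex ⟪p.2.1, w⟫))
  rw [Complex.norm_real, Real.norm_of_nonneg (Dn_nonneg _ _ _ _ _ _)] at this
  linarith

end

end Pool.Agent.P.MP_6b977f_mp
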