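import Pool.Agent.P.MP_6b977f_mp.Asym

namespace Pool.Agent.P.MP_6b977f_mp

open Real MeasureTheory Filter Topology Complex
open scoped RealInnerProductSpace ContDiff

noncomputable section

def Ph {α : Type} [MeasurableSpace α] (ν : Measure α) (w : α → E) (x : E) : ℂ :=
  ∫ a, ex ⟪x, w a⟫ ∂ν

lemma norm_Ph_le {α : Type} [MeasurableSpace α] (ν : Measure α) [IsProbabilityMeasure ν]
    (w : α → E) (x : E) : ‖Ph ν w x‖ ≤ 1 := by
  unfold Ph
  simpa using norm_integral_le_of_norm_le_const (μ := ν) (f := fun a => ex ⟪x, w a⟫) (C := 1)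
    (Eventually.of_forall fun a => (norm_ex _).le)

lemma continuous_Ph {α : Type} [MeasurableSpace α] (ν : Measure α) [IsProbabilityMeasure ν]
    {w : α → E} (hw : Measurable w) : Continuous (Ph ν w) :=
  continuous_of_dominated (bound := fun _ => 1)
    (fun x => Measurable.aestronglyMeasurable (by fun_prop))
    (fun x => Eventually.of_forall fun a => (norm_ex _).le) (integrable_const _)
    (Eventually.of_forall fun a => by fun_prop)

lemma Fam.kernel {k : ℕ → ℝ} {F : ℕ → E → ℂ} {I : ℝ} (h : Fam k F I) {α : Type}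
    [MeasurableSpace α] (ν : Measure α) [IsProbabilityMeasure ν] {w : α → E} (hw : Measurable w)
    {R : ℝ} (hR : ∀ᵐ a ∂ν, ‖w a‖ ≤ R) {ε : ℝ} (hε : 0 < ε) :
    ∀ᶠ ρ in 𝓝[>] (0 : ℝ), ∀ᶠ n in atTop,
      ‖LG k F ρ (fun p => Ph ν w p.2.1) n - Dn k F 4 ρ 0 n‖ ≤ ε * TT (F n) + ε := by
  obtain ⟨δ, hδ, hom⟩ := Metric.eventually_nhds_iff.1 (om1_tendsto.eventually (gt_mem_nhds hε))
  have t : Tendsto (fun ρ : ℝ => √(3 * ρ) / (2 * π) * R) (𝓝[>] 0) (𝓝 0) := by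
    have : Continuous (fun ρ : ℝ => √(3 * ρ) / (2 * π) * R) := by fun_prop
    simpa using (this.tendsto 0).mono_left nhdsWithin_le_nhds
  filter_upwards [t.eventually (gt_mem_nhds hδ), self_mem_nhdsWithin] with ρ hρ hρ0
  have hρ0 : 0 < ρ := hρ0
  have hβ : 0 < √(3 * ρ) := Real.sqrt_pos.2 (by positivity)
  have cP := continuous_Ph ν hw
  have cb := bp_sm.continuous
  have bG : Bdd (fun p => (an 4 ρ p.1 : ℂ)) 1 :=
    ⟨Continuous.measurable (by fun_prop), fun p => (U01_an 4 ρ).norm_le _⟩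
  have bP : Bdd (fun p => Ph ν w p.2.1) 1 :=
    ⟨Continuous.measurable (by fun_prop), fun p => norm_Ph_le _ _ _⟩
  have bQ : Bdd (fun p => (Ph ν w p.2.1 - 1) * bp ((√(3 * ρ))⁻¹ • p.2.1)) (2 * 1) :=
    Bdd.mul ⟨Continuous.measurable (by fun_prop), fun p => (norm_sub_le _ _).trans
      (by have := norm_Ph_le ν w p.2.1; rw [norm_one]; linarith)⟩
      ⟨Continuous.measurable (by fun_prop), fun p => norm_bp_le _⟩
  have near := Lam_near h.hk h.conc (bG.mul bP) (bG.add (bG.mul bQ)) hρ0 (fun p hp => by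
    by_cases hG : an 4 ρ p.1 = 0
    · simp [hG]
    have h1 := abs_lt.1 (not_le.1 (mt (an_zero hρ0) hG))
    have h2 := abs_le.1 hp.1
    unfold SS at h2
    have h3 : ‖p.2.1‖ ≤ √(3 * ρ) :=
      Real.le_sqrt_of_sq_le (by linarith [sq_nonneg ‖p.2.2‖, h1.1, h2.2])
    rw [bp_one (by
      rw [norm_smul, Real.norm_of_nonneg (by positivity), inv_mul_le_iff₀ hβ, mul_one]; exact h3)]
    push_cast
    ring)
  filter_upwards [h.conc.good h.hk, (tendsto_zero_iff_norm_tendsto_zero.1 near).eventually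
    (gt_mem_nhds hε), h.hk.eventually_gt_atTop 0] with n hg hn hk0
  change ‖LG k F ρ (fun p => Ph ν w p.2.1) n - LS k F (fun p => (an 4 ρ p.1 : ℂ) +
    (an 4 ρ p.1 : ℂ) * ((Ph ν w p.2.1 - 1) * bp ((√(3 * ρ))⁻¹ • p.2.1))) n‖ < ε at hn
  have e1 : LS k F (fun p => (an 4 ρ p.1 : ℂ)) n = Dn k F 4 ρ 0 n := by
    rw [← LG_one hg (h.real n)]; simp [LG]
  rw [LS_add bG (bG.mul bQ) hg, e1] at hn
  have e2 : ‖LS k F (fun p => (an 4 ρ p.1 : ℂ) *
      ((Ph ν w p.2.1 - 1) * bp ((√(3 * ρ))⁻¹ • p.2.1))) n‖ ≤ ε * TT (F n) := by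
    have e3 : (fun p : E3 => (an 4 ρ ((k n)⁻¹ • p).1 : ℂ) * ((Ph ν w ((k n)⁻¹ • p).2.1 - 1) *
        bp ((√(3 * ρ))⁻¹ • ((k n)⁻¹ • p).2.1))) = fun p => ∫ a, (an 4 ρ ((k n)⁻¹ • p.1) : ℂ) *
        ((ex ⟪p.2.1, (k n)⁻¹ • w a⟫ - 1) * bp (((√(3 * ρ))⁻¹ * (k n)⁻¹) • p.2.1)) ∂ν := by
      ext p
      rw [integral_const_mul, integral_mul_const, integral_sub _ (integrable_const _)]
      · simp [Ph, real_inner_smul_left, real_inner_smul_right, smul_smul]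
      · exact Integrable.of_bound (Measurable.aestronglyMeasurable (by fun_prop)) 1
          (Eventually.of_forall fun a => (norm_ex _).le)
    have ca := continuous_an 4 ρ
    unfold LS
    rw [e3, Lam_fubini (b := fun _ => 1 * (2 * 1)) (by
      have := cb.measurable
      have := ca.measurable
      unfold Function.uncurry; fun_prop) (integrable_const _) _ hg hg hg hg]
    · have := norm_integral_le_of_norm_le_const (μ := ν) (C := ε * TT (F n))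
        (f := fun a => Lam (fun p => (an 4 ρ ((k n)⁻¹ • p.1) : ℂ) *
        ((ex ⟪p.2.1, (k n)⁻¹ • w a⟫ - 1) * bp (((√(3 * ρ))⁻¹ * (k n)⁻¹) • p.2.1)))
        (F n) (F n) (F n) (F n)) ?_
      · simpa using this
      filter_upwards [hR] with a ha
      refine (kernel_le ((U01_an 4 ρ).scale _) hg (h.real n) _ (by positivity)).trans
        (mul_le_mul_of_nonneg_right (hom ?_).le (TT_nonneg _))
      rw [dist_zero_right, smul_smul, norm_smul, Real.norm_of_nonneg (by positivity)]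
      refine lt_of_le_of_lt ?_ hρ
      have : (2 * π * ((√(3 * ρ))⁻¹ * (k n)⁻¹))⁻¹ * (k n)⁻¹ = √(3 * ρ) / (2 * π) := by
        field_simp
      rw [this]
      gcongr
    · intro a p
      rw [norm_mul, norm_mul]
      refine mul_le_mul ((U01_an 4 ρ).norm_le _) (mul_le_mul ((norm_sub_le _ _).trans ?_)
        (norm_bp_le _) (norm_nonneg _) (by norm_num)) (by positivity) zero_le_one
      rw [norm_ex, norm_one]; norm_num
  have := norm_le_norm_add_norm_sub' (LG k F ρ (fun p => Ph ν w p.2.1) n - Dn k F 4 ρ 0 n)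
    (LS k F (fun p => (an 4 ρ p.1 : ℂ) * ((Ph ν w p.2.1 - 1) * bp ((√(3 * ρ))⁻¹ • p.2.1))) n)
  rw [sub_sub] at this
  linarith

lemma Fam.small0 {k : ℕ → ℝ} {F : ℕ → E → ℂ} {I : ℝ} (h : Fam k F I)
    (hT : Tendsto (fun n => TT (F n)) atTop (𝓝 (3 * I))) {ε : ℝ} (hε : 0 < ε) :
    ∀ᶠ ρ in 𝓝[>] (0 : ℝ), ∀ᶠ n in atTop, Dn k F 4 ρ 0 n ≤ ε := by
  filter_upwards [h.split hε] with ρ hρ
  filter_upwards [hρ, hT.eventually (gt_mem_nhds (lt_add_of_pos_right _ hε))] with n h1 h2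
  linarith [(abs_le.1 h1).1]

lemma eps_mul {A ε : ℝ} (hε : 0 < ε) : ∃ e, 0 < e ∧ ∀ T, T ≤ A → e * T ≤ ε := by
  refine ⟨ε / (|A| + 1), by positivity, fun T hT => ?_⟩
  rw [div_mul_eq_mul_div, div_le_iff₀ (by positivity)]
  exact mul_le_mul_of_nonneg_left (by linarith [le_abs_self A]) hε.le

lemma Fam.small {k : ℕ → ℝ} {F : ℕ → E → ℂ} {I : ℝ} (h : Fam k F I)
    (hT : Tendsto (fun n => TT (F n)) atTop (𝓝 (3 * I))) (v : E) {ε : ℝ} (hε : 0 < ε) :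
    ∀ᶠ ρ in 𝓝[>] (0 : ℝ), ∀ᶠ n in atTop, Dn k F 4 ρ v n ≤ ε := by
  obtain ⟨e, he, hA⟩ := eps_mul (A := 3 * I + 1 + 1) (half_pos hε)
  filter_upwards [h.small0 hT (half_pos hε), h.kernel (Measure.dirac ()) (w := fun _ => v)
    measurable_const (R := ‖v‖) (Eventually.of_forall fun _ => le_rfl) he] with ρ h1 h2
  filter_upwards [h1, h2, hT.eventually (gt_mem_nhds (lt_add_one _)), h.conc.good h.hk]
    with n a1 a2 a3 hg
  have e1 : LG k F ρ (fun p => Ph (Measure.dirac ()) (fun _ => v) p.2.1) n = Dn k F 4 ρ v n := by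
    rw [← LS_Dn hg (h.real n)]
    simp [LG, Ph]
  rw [e1, ← Complex.ofReal_sub, Complex.norm_real, Real.norm_eq_abs] at a2
  have := hA (TT (F n) + 1) (by linarith)
  linarith [(abs_le.1 a2).2]

lemma norm_LG_ex {k : ℕ → ℝ} {F : ℕ → E → ℂ} {n : ℕ} (hg : Good (F n)) (ρ : ℝ) (w : E3) :
    ‖LG k F ρ (fun p => ex (ip3 p w)) n‖ ≤
      (Dn k F 4 ρ (w.2.1 + w.2.2) n + Dn k F 4 ρ (w.2.1 - w.2.2) n) / 2 := by
  have := norm_Lam_ex_le ((U01_an 4 ρ).scale (k n)⁻¹) hg ((k n)⁻¹ • w)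
  simp only [Prod.smul_fst, Prod.smul_snd, ← smul_add, ← smul_sub] at this
  refine le_trans (le_of_eq ?_) this
  simp only [LG, LS, ip3, Prod.smul_fst, Prod.smul_snd, real_inner_smul_left,
    real_inner_smul_right]

lemma ip3_sw12 (p w : E3) : ip3 (sw12 p) w = ip3 p (sw12 w) := by simp only [ip3, sw12]; ring

lemma ip3_sw13 (p w : E3) : ip3 (sw13 p) w = ip3 p (sw13 w) := by simp only [ip3, sw13]; ring

lemma W_ex (w : E3) : W (fun p => ex (ip3 p w)) 0 0 =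
    (J0 (w.2.1 + w.2.2) : ℂ) * J0 (w.2.1 - w.2.2) := by
  rw [W_zero, ← integral_om_ex2]
  congr 1
  ext p
  rw [← ex_add]
  congr 1
  simp only [ip3, inner_zero_left, inner_add_left, inner_sub_left, inner_add_right,
    inner_sub_right]
  ring

@[fun_prop] lemma continuous_ip3 (w : E3) : Continuous (fun p => ip3 p w) := by
  unfold ip3; fun_prop

lemma Fam.four {k : ℕ → ℝ} {F : ℕ → E → ℂ} {I : ℝ} (h : Fam k F I)
    (hT : Tendsto (fun n => TT (F n)) atTop (𝓝 (3 * I))) (w : E3) :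
    Tendsto (LS k F (fun p => ex (ip3 p w))) atTop
      (𝓝 (I * ((J0 (w.2.1 + w.2.2) : ℂ) * J0 (w.2.1 - w.2.2) +
        J0 (w.1 + w.2.2) * J0 (w.1 - w.2.2) + J0 (w.2.1 + w.1) * J0 (w.2.1 - w.1)))) := by
  rw [Metric.tendsto_nhds]
  intro ε hε
  have hε' : 0 < ε / 5 := by positivity
  have s := fun v => h.small hT v hε'
  obtain ⟨ρ, h0, h1, h2, h3, h4, h5, h6⟩ := ((h.decomp hε').and ((s (w.2.1 + w.2.2)).and
    ((s (w.2.1 - w.2.2)).and ((s (w.1 + w.2.2)).and ((s (w.1 - w.2.2)).and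
    ((s (w.2.1 + w.1)).and (s (w.2.1 - w.1)))))))).exists
  filter_upwards [h0 (fun p => ex (ip3 p w)) (by fun_prop) (fun p => (norm_ex _).le), h1, h2, h3,
    h4, h5, h6, h.conc.good h.hk] with n a0 a1 a2 a3 a4 a5 a6 hg
  simp only [W3, ip3_sw12, ip3_sw13, W_ex] at a0
  have b1 := norm_LG_ex (k := k) hg ρ w
  have b2 := norm_LG_ex (k := k) hg ρ (sw12 w)
  have b3 := norm_LG_ex (k := k) hg ρ (sw13 w)
  have b4 := (norm_add_le _ _).trans (add_le_add ((norm_add_le _ _).trans (add_le_add b1 b2)) b3)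
  simp only [sw12, sw13] at a0 b4
  rw [dist_eq_norm]
  have := norm_add_le (LS k F (fun p => ex (ip3 p w)) n - (LG k F ρ (fun p => ex (ip3 p w)) n +
    LG k F ρ (fun p => ex (ip3 p (w.2.1, w.1, w.2.2))) n +
    LG k F ρ (fun p => ex (ip3 p (w.2.2, w.2.1, w.1))) n) -
    I * ((J0 (w.2.1 + w.2.2) : ℂ) * J0 (w.2.1 - w.2.2) +
        J0 (w.1 + w.2.2) * J0 (w.1 - w.2.2) + J0 (w.2.1 + w.1) * J0 (w.2.1 - w.1)))
    (LG k F ρ (fun p => ex (ip3 p w)) n +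
    LG k F ρ (fun p => ex (ip3 p (w.2.1, w.1, w.2.2))) n +
    LG k F ρ (fun p => ex (ip3 p (w.2.2, w.2.1, w.1))) n)
  rw [sub_right_comm, sub_add_cancel] at this
  rw [sub_right_comm] at a0
  linarith

def Pr (μ : Measure E) (x : E) : ℝ := ‖Ph μ id x‖ ^ 2

lemma Ph_neg (μ : Measure E) (x : E) : Ph μ id (-x) = (starRingEnd ℂ) (Ph μ id x) := by
  unfold Ph
  rw [← integral_conj]
  simp [conj_ex]

lemma U01_Pr (μ : Measure E) [IsProbabilityMeasure μ] : U01 (Pr μ) :=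
  ⟨((continuous_Ph μ measurable_id).norm).pow 2, fun _ => sq_nonneg _,
    fun x => pow_le_one₀ (norm_nonneg _) (norm_Ph_le _ _ _), fun x => by simp [Pr, Ph_neg]⟩

lemma Pr_zero (μ : Measure E) [IsProbabilityMeasure μ] : Pr μ 0 = 1 := by simp [Pr, Ph]

lemma Pr_eq (μ : Measure E) [IsProbabilityMeasure μ] (x : E) :
    (Pr μ x : ℂ) = Ph (μ.prod μ) (fun p => p.1 - p.2) x := by
  have := integral_prod_mul (μ := μ) (ν := μ) (fun a : E => ex ⟪x, a⟫) (fun a : E => ex ⟪-x, a⟫)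
  have e : Ph (μ.prod μ) (fun p => p.1 - p.2) x = Ph μ id x * Ph μ id (-x) := by
    unfold Ph
    simp only [id]
    rw [← this]
    congr 1
    ext p
    rw [← ex_add, inner_sub_right, inner_neg_left, sub_eq_add_neg]
  rw [e, Ph_neg, Complex.mul_conj, Complex.normSq_eq_norm_sq, Pr]

def PP (μ : Measure E) : ℝ := (∫ p : E × E, Pr μ (p.1 + p.2) ∂(om.prod om)) +
  ∫ p : E × E, Pr μ (p.1 - p.2) ∂(om.prod om)

lemma PP_nonneg (μ : Measure E) : 0 ≤ PP μ :=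
  add_nonneg (integral_nonneg fun _ => sq_nonneg _) (integral_nonneg fun _ => sq_nonneg _)

def Vn (k : ℕ → ℝ) (F : ℕ → E → ℂ) (μ : Measure E) (n : ℕ) : ℝ :=
  DD (fun η => Pr μ ((k n)⁻¹ • η)) (F n) 0

lemma Fam.var {k : ℕ → ℝ} {F : ℕ → E → ℂ} {I : ℝ} (h : Fam k F I) (μ : Measure E)
    [IsProbabilityMeasure μ] {R : ℝ} (hR : ∀ᵐ a ∂μ, ‖a‖ ≤ R) {ε : ℝ} (hε : 0 < ε) :
    ∀ᶠ ρ in 𝓝[>] (0 : ℝ), ∀ᶠ n in atTop, ∃ X, 0 ≤ X ∧ X ≤ Dn k F 4 ρ 0 n ∧
      |Vn k F μ n - X - 2 * Dn k F 4 ρ 0 n - I * (1 + PP μ)| ≤ 3 * ε + 2 * (ε * TT (F n)) := by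
  have hR2 : ∀ᵐ p ∂(μ.prod μ), ‖p.1 - p.2‖ ≤ R + R := by
    filter_upwards [Measure.quasiMeasurePreserving_fst.ae hR,
      Measure.quasiMeasurePreserving_snd.ae hR] with p h1 h2
    exact (norm_sub_le _ _).trans (add_le_add h1 h2)
  have hP := U01_Pr μ
  have cP := hP.cont
  filter_upwards [h.decomp hε, h.kernel (μ.prod μ) (w := fun p => p.1 - p.2) (by fun_prop) hR2 hε]
    with ρ h1 h2
  filter_upwards [h1 (fun p => (Pr μ p.1 : ℂ)) (by fun_prop) (fun p => hP.norm_le _), h2,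
    h.conc.good h.hk] with n a1 a2 hg
  have hU := ((U01_an 4 ρ).mul hP).scale (k n)⁻¹
  refine ⟨DD (fun x => an 4 ρ ((k n)⁻¹ • x) * Pr μ ((k n)⁻¹ • x)) (F n) 0, DD_nonneg hU _ _, ?_, ?_⟩
  · unfold Dn
    rw [smul_zero]
    exact DD_mono hU ((U01_an 4 ρ).scale _)
      (fun x => mul_le_of_le_one_right ((U01_an 4 ρ).nonneg _) (hP.le _)) hg 0
  have e1 : LS k F (fun p => (Pr μ p.1 : ℂ)) n = Vn k F μ n :=
    Lam_DD0 (hP.scale (k n)⁻¹) hg (h.real n)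
  have e2 : LG k F ρ (fun p => (Pr μ p.1 : ℂ)) n =
      DD (fun x => an 4 ρ ((k n)⁻¹ • x) * Pr μ ((k n)⁻¹ • x)) (F n) 0 := by
    rw [← Lam_DD0 hU hg (h.real n)]
    simp [LG, LS]
  have e3 : LG k F ρ (fun p => (Pr μ (sw13 p).1 : ℂ)) n =
      LG k F ρ (fun p => (Pr μ (sw12 p).1 : ℂ)) n := by
    unfold LG
    rw [LS_sw12, LS_sw13, LS_sw12]
    rfl
  have e4 : W3 (fun p => (Pr μ p.1 : ℂ)) = ((1 + PP μ : ℝ) : ℂ) := by
    simp only [W3, W_zero, sw12, sw13, Pr_zero, PP, integral_complex_ofReal]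
    simp [add_assoc]
  simp only [← Pr_eq] at a2
  change ‖LG k F ρ (fun p => (Pr μ (sw12 p).1 : ℂ)) n - _‖ ≤ _ at a2
  rw [e1, e2, e3, e4] at a1
  generalize LG k F ρ (fun p => (Pr μ (sw12 p).1 : ℂ)) n = Y at a1 a2
  have := (norm_add_le _ _).trans (add_le_add ((norm_add_le _ _).trans (add_le_add a1 a2)) a2)
  rw [← Real.norm_eq_abs, ← Complex.norm_real]
  refine le_trans (le_of_eq ?_) (this.trans (le_of_eq (by ring)))
  congr 1
  push_cast
  ring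

lemma Fam.var_upper {k : ℕ → ℝ} {F : ℕ → E → ℂ} {I : ℝ} (h : Fam k F I)
    (hT : Tendsto (fun n => TT (F n)) atTop (𝓝 (3 * I))) (μ : Measure E)
    [IsProbabilityMeasure μ] {R : ℝ} (hR : ∀ᵐ a ∂μ, ‖a‖ ≤ R) {ε : ℝ} (hε : 0 < ε) :
    ∀ᶠ n in atTop, Vn k F μ n ≤ I * (1 + PP μ) + ε := by
  obtain ⟨e, he, hA⟩ := eps_mul (A := 2 * (3 * I + 1) + 6) hε
  obtain ⟨ρ, h1, h2⟩ := ((h.var μ hR he).and (h.small0 hT he)).exists
  filter_upwards [h1, h2, hT.eventually (gt_mem_nhds (lt_add_one _))] with n ⟨X, a1, a2, a3⟩ b c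
  have := hA (2 * TT (F n) + 6) (by linarith)
  linarith [(abs_le.1 a3).2]

lemma Fam.of_var {k : ℕ → ℝ} {F : ℕ → E → ℂ} {I : ℝ} (h : Fam k F I) (hI : 0 ≤ I)
    (hV : ∀ ε > 0, ∃ (μ : Measure E) (R : ℝ), IsProbabilityMeasure μ ∧ (∀ᵐ a ∂μ, ‖a‖ ≤ R) ∧
      ∀ᶠ n in atTop, Vn k F μ n ≤ I + ε) :
    Tendsto (fun n => TT (F n)) atTop (𝓝 (3 * I)) := by
  rw [Metric.tendsto_nhds]
  intro ε hε
  obtain ⟨e', he', hA⟩ := eps_mul (A := 18 * I + 14) (half_pos hε)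
  set e := min e' (1 / 9) with he
  have he0 : 0 < e := lt_min he' (by norm_num)
  have he1 : e ≤ 1 / 9 := min_le_right _ _
  obtain ⟨μ, R, hμ, hR, hV⟩ := hV e he0
  obtain ⟨ρ, h1, h2⟩ := ((h.var μ hR he0).and (h.split he0)).exists
  filter_upwards [h1, h2, hV, h.lower (half_pos hε)] with n ⟨X, a1, a2, a3⟩ b c d
  have p := mul_nonneg hI (PP_nonneg μ)
  have t0 := TT_nonneg (F n)
  have k1 : TT (F n) ≤ 3 * I + 7 * e + 3 * (e * TT (F n)) := by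
    linarith [(abs_le.1 a3).1, (abs_le.1 b).2]
  have k2 : e * TT (F n) ≤ 1 / 9 * TT (F n) := mul_le_mul_of_nonneg_right he1 t0
  have k3 : TT (F n) ≤ 6 * I + 2 := by linarith
  have k4 : e * (3 * TT (F n) + 7) ≤ e' * (3 * TT (F n) + 7) :=
    mul_le_mul_of_nonneg_right (min_le_left _ _) (by positivity)
  have k5 := hA (3 * TT (F n) + 7) (by linarith)
  rw [Real.dist_eq, abs_lt]
  constructor <;> linarith

end

end Pool.Agent.P.MP_6b977f_mp
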