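import Mathlib

namespace Pool.Agent.P.MP_6b977f_mp

open Real MeasureTheory Filter Topology Laplacian
open scoped ContDiff

noncomputable section

/-- The Euclidean plane. -/
abbrev E : Type := EuclideanSpace ℝ (Fin 2)

/-- The covariance of the monochromatic random wave, `J₀(|v|)`: the mean of `cos (v · θ)` over
the unit vectors `θ`. -/
def J0 (v : E) : ℝ :=
  (2 * π)⁻¹ * ∫ t in (0 : ℝ)..(2 * π), cos (v 0 * cos t + v 1 * sin t)

/-- Smooth test functions with compact support inside `Ω`. -/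
def IsTest (Ω : Set E) (a : E → ℝ) : Prop :=
  ContDiff ℝ ∞ a ∧ HasCompactSupport a ∧ tsupport a ⊆ Ω

/-- The `m`-point function of `u n` at wavelength scale, weighted by `a`. -/
def corr (u : ℕ → E → ℝ) (lam : ℕ → ℝ) (a : E → ℝ) {m : ℕ} (v : Fin m → E) (n : ℕ) : ℝ :=
  ∫ z, a z * ∏ i, u n (z + (√(lam n))⁻¹ • v i)

/-- Equidistribution in phase space: the weighted two-point functions tend to `J₀`. -/
def Equidistributed (Ω : Set E) (u : ℕ → E → ℝ) (lam : ℕ → ℝ) : Prop :=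
  ∀ a, IsTest Ω a → ∀ v : E,
    Tendsto (corr u lam a ![0, v]) atTop (𝓝 (J0 v * ∫ z, a z))

/-- The four-point function of the Gaussian random wave (Wick's formula). -/
def wick (v : Fin 4 → E) : ℝ :=
  J0 (v 0 - v 1) * J0 (v 2 - v 3) + J0 (v 0 - v 2) * J0 (v 1 - v 3) +
    J0 (v 0 - v 3) * J0 (v 1 - v 2)

/-- The weighted variance of the mass of `u n` on discs of radius `R` wavelengths. -/
def massVar (u : ℕ → E → ℝ) (lam : ℕ → ℝ) (a : E → ℝ) (R : ℝ) (n : ℕ) : ℝ :=
  ∫ z, a z * ((⨍ y in Metric.ball z (R * (√(lam n))⁻¹), u n y ^ 2) - 1) ^ 2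

end

end Pool.Agent.P.MP_6b977f_mp
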