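import Pool.Agent.P.MP_6b977f_mp.Defs

namespace Pool.Agent.P.MP_6b977f_mp

open Real MeasureTheory Filter Topology Laplacian
open scoped ContDiff RealInnerProductSpace

noncomputable section

/-- Rotation by a right angle. -/
def rot (v : E) : E := !₂[-v 1, v 0]

/-- In the disc of centre `y` and radius `r`, the set `Ω` is the region above the graph of the
smooth function `φ` over the line through `y` orthogonal to the unit vector `ν`, and the graph is
tangent to that line at `y`. -/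
def IsChart (Ω : Set E) (y ν : E) (φ : ℝ → ℝ) (r : ℝ) : Prop :=
  ‖ν‖ = 1 ∧ 0 < r ∧ ContDiff ℝ ∞ φ ∧ φ 0 = 0 ∧ deriv φ 0 = 0 ∧
    ∀ x ∈ Metric.ball y r, (x ∈ Ω ↔ φ ⟪x - y, rot ν⟫ < ⟪x - y, ν⟫)

/-- `y` is a smooth boundary point of `Ω` with inward unit normal `ν`. -/
def Regular (Ω : Set E) (y ν : E) : Prop := ∃ φ r, IsChart Ω y ν φ r

/-- Straight motion inside `Ω`; a phase point is a pair (position, direction). -/
def Straight (Ω : Set E) (p q : E × E) : Prop :=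
  q.2 = p.2 ∧ (∃ t : ℝ, q.1 = p.1 + t • p.2) ∧ segment ℝ p.1 q.1 ⊆ Ω

/-- Motion from `p` to `q` with exactly one specular reflection, at a smooth boundary point hit
transversally. -/
def Bounce (Ω : Set E) (p q : E × E) : Prop :=
  ∃ y ν, Regular Ω y ν ∧ ⟪p.2, ν⟫ < 0 ∧ q.2 = p.2 - (2 * ⟪p.2, ν⟫) • ν ∧
    ∃ s t : ℝ, 0 < s ∧ 0 < t ∧ y = p.1 + s • p.2 ∧ q.1 = y + t • q.2 ∧
      (∀ r ∈ Set.Ico 0 s, p.1 + r • p.2 ∈ Ω) ∧ ∀ r ∈ Set.Ioc 0 t, y + r • q.2 ∈ Ω

/-- The uniform probability measure on the unit circle. -/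
def circle : Measure E :=
  (ENNReal.ofReal (2 * π))⁻¹ •
    (volume.restrict (Set.Ioc 0 (2 * π))).map fun t : ℝ => (!₂[cos t, sin t] : E)

/-- Liouville measure on `Ω × S¹`. -/
def liouville (Ω : Set E) : Measure (E × E) := (volume.restrict Ω).prod circle

/-- The billiard in `Ω` is ergodic: a measurable set of phase points that is invariant under the
billiard motion is null or conull. -/
def ErgodicBilliard (Ω : Set E) : Prop :=
  ∀ S : Set (E × E), NullMeasurableSet S (liouville Ω) →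
    (∀ p q, Straight Ω p q ∨ Bounce Ω p q → (p ∈ S ↔ q ∈ S)) →
    liouville Ω S = 0 ∨ liouville Ω Sᶜ = 0

/-- `u` is the limit in `H¹(Ω)` of test functions. -/
def InH10 (Ω : Set E) (u : E → ℝ) : Prop :=
  ∃ φ : ℕ → E → ℝ, (∀ j, IsTest Ω (φ j)) ∧ Tendsto (fun j => ∫⁻ x in Ω,
    (‖φ j x - u x‖ₑ ^ 2 + ‖fderiv ℝ (φ j) x - fderiv ℝ u x‖ₑ ^ 2)) atTop (𝓝 0)

/-- A complete orthogonal system of real Dirichlet eigenfunctions of `Ω` with squared norm `|Ω|`,
listed by non-decreasing eigenvalue. -/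
structure DirichletBasis (Ω : Set E) (u : ℕ → E → ℝ) (lam : ℕ → ℝ) : Prop where
  smooth : ∀ n, ContDiffOn ℝ ∞ (u n) Ω
  helm : ∀ n, ∀ x ∈ Ω, Δ (u n) x + lam n * u n x = 0
  h10 : ∀ n, InH10 Ω (u n)
  orth : ∀ m n, ∫ x in Ω, u m x * u n x = if m = n then volume.real Ω else 0
  complete : ∀ f : E → ℝ, MemLp f 2 (volume.restrict Ω) →
    (∀ n, ∫ x in Ω, f x * u n x = 0) → f =ᵐ[volume.restrict Ω] 0
  mono : Monotone lam
  tend : Tendsto lam atTop atTop

/-- A strictly increasing sequence of indices of full density. -/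
def FullDensity (s : ℕ → ℕ) : Prop :=
  StrictMono s ∧ Tendsto (fun N : ℕ => (({j | s j ≤ N} : Set ℕ).ncard : ℝ) / N) atTop (𝓝 1)

end

end Pool.Agent.P.MP_6b977f_mp
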