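import Pool.Agent.P.MP_6b977f_mp.Trunc

namespace Pool.Agent.P.MP_6b977f_mp

open Real MeasureTheory Filter Topology Complex
open scoped RealInnerProductSpace ContDiff FourierTransform

noncomputable section

def mo (w : E) (F : E → ℂ) (ξ : E) : ℂ := ex ⟪ξ, w⟫ * F ξ

lemma Good.mo {F : E → ℂ} (hF : Good F) (w : E) : Good (mo w F) := by
  obtain ⟨B, hB⟩ := hF.bdd
  have hm := hF.meas
  refine ⟨by unfold MP_6b977f_mp.mo; fun_prop, ?_, B, fun ξ => ?_⟩
  · exact hF.int.bdd_mul (c := 1) (Continuous.aestronglyMeasurable (by fun_prop))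
      (Eventually.of_forall fun ξ => (norm_ex _).le)
  · unfold MP_6b977f_mp.mo
    rw [norm_mul, norm_ex, one_mul]
    exact hB ξ

lemma mo_zero (F : E → ℂ) : mo 0 F = F := by ext ξ; simp [mo]

lemma tilde_mo {F : E → ℂ} (hF : tilde F = F) (w : E) : tilde (mo w F) = mo w F := by
  ext ξ
  have := congrFun hF ξ
  simp only [tilde, mo, map_mul, conj_ex, inner_neg_left, neg_neg] at this ⊢
  rw [this]

lemma norm_conv_mo (F G : E → ℂ) (w w' η : E) :
    ‖conv (mo w F) (mo w' G) η‖ = ‖conv (mo (w - w') F) G η‖ := by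
  have : conv (mo w F) (mo w' G) η = ex ⟪η, w'⟫ * conv (mo (w - w') F) G η := by
    unfold conv mo
    rw [← integral_const_mul]
    congr 1
    ext ξ
    have : ex ⟪ξ, w⟫ * ex ⟪η - ξ, w'⟫ = ex ⟪η, w'⟫ * ex ⟪ξ, w - w'⟫ := by
      rw [← ex_add, ← ex_add, inner_sub_left, inner_sub_right]
      congr 1
      ring
    linear_combination F ξ * G (η - ξ) * this
  rw [this, norm_mul, norm_ex, one_mul]

def DD (g : E → ℝ) (F : E → ℂ) (w : E) : ℝ := ∫ η, g η * ‖conv (mo w F) F η‖ ^ 2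

def TT (F : E → ℂ) : ℝ := ∫ η, ‖conv F F η‖ ^ 2

lemma TT_nonneg (F : E → ℂ) : 0 ≤ TT F := integral_nonneg fun _ => sq_nonneg _

structure U01 (g : E → ℝ) : Prop where
  cont : Continuous g
  nonneg : ∀ x, 0 ≤ g x
  le : ∀ x, g x ≤ 1
  even : ∀ x, g (-x) = g x

lemma U01.abs_le {g : E → ℝ} (h : U01 g) (x : E) : |g x| ≤ 1 := by
  rw [abs_of_nonneg (h.nonneg x)]; exact h.le x

lemma U01.norm_le {g : E → ℝ} (h : U01 g) (x : E) : ‖(g x : ℂ)‖ ≤ 1 := by
  simpa using h.abs_le x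

lemma U01.scale {g : E → ℝ} (h : U01 g) (t : ℝ) : U01 (fun x => g (t • x)) :=
  ⟨h.cont.comp (by fun_prop), fun _ => h.nonneg _, fun _ => h.le _,
    fun x => by simp only [smul_neg, h.even]⟩

lemma U01.mul {g g' : E → ℝ} (h : U01 g) (h' : U01 g') : U01 (fun x => g x * g' x) :=
  ⟨h.cont.mul h'.cont, fun x => mul_nonneg (h.nonneg x) (h'.nonneg x),
    fun x => mul_le_one₀ (h.le x) (h'.nonneg x) (h'.le x), fun x => by simp only [h.even, h'.even]⟩

lemma DD_nonneg {g : E → ℝ} (hg : U01 g) (F : E → ℂ) (w : E) : 0 ≤ DD g F w :=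
  integral_nonneg fun η => mul_nonneg (hg.nonneg η) (sq_nonneg _)

lemma DD_mono {g g' : E → ℝ} (hg : U01 g) (hg' : U01 g') (h : ∀ x, g x ≤ g' x) {F : E → ℂ}
    (hF : Good F) (w : E) : DD g F w ≤ DD g' F w := by
  have i := integrable_conv_sq (hF.mo w) hF
  have hi : ∀ {g : E → ℝ}, U01 g → Integrable (fun η => g η * ‖conv (mo w F) F η‖ ^ 2) :=
    fun hg => i.bdd_mul (c := 1) hg.cont.aestronglyMeasurable (Eventually.of_forall hg.abs_le)
  exact integral_mono (hi hg) (hi hg') fun η => mul_le_mul_of_nonneg_right (h η) (sq_nonneg _)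

lemma U01_one : U01 (fun _ => 1) := ⟨continuous_const, fun _ => zero_le_one, fun _ => le_rfl,
  fun _ => rfl⟩

lemma DD_le_TT {g : E → ℝ} (hg : U01 g) {F : E → ℂ} (hF : Good F) (w : E) : DD g F w ≤ TT F := by
  refine (DD_mono hg U01_one hg.le hF w).trans ?_
  unfold DD TT
  simp only [one_mul]
  refine (U2 (hF.mo w) hF).trans (le_of_eq ?_)
  simp only [norm_conv_mo, sub_self, mo_zero]
  ring

lemma Lam_mo (M : E3 → ℂ) (F : E → ℂ) (w : E3) :
    Lam (fun p => M p * ex (ip3 p w)) F F F F =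
      Lam M (mo (w.1 + w.2.1 + w.2.2) F) (mo w.1 F) (mo w.2.1 F) (mo w.2.2 F) := by
  unfold Lam
  congr 1
  ext q
  have : ex (ip3 (abc q) w) = ex ⟪q.2.1, w.1 + w.2.1 + w.2.2⟫ * ex ⟪q.1 - q.2.1, w.1⟫ *
      ex ⟪q.2.2, w.2.1⟫ * ex ⟪-q.1 - q.2.2, w.2.2⟫ := by
    rw [← ex_add, ← ex_add, ← ex_add]
    congr 1
    simp only [ip3, abc, inner_add_left, inner_sub_left, inner_add_right, inner_neg_left]
    ring
  simp only [P4, mo, this]
  ring

lemma Lam_DD {g : E → ℝ} (hg : U01 g) {F : E → ℂ} (hF : Good F) (ht : tilde F = F) (w : E) :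
    Lam (fun p => (g p.1 : ℂ) * ex ⟪p.2.1, w⟫) F F F F = DD g F w := by
  have h1 := Lam_mo (fun p => (g p.1 : ℂ)) F (0, w, 0)
  simp only [ip3, inner_zero_right, zero_add, add_zero, mo_zero] at h1
  have h2 := Lam_sq hg.cont.measurable hg.abs_le (hF.mo w) hF
  rw [tilde_mo ht, ht] at h2
  rw [h1, h2]
  rfl

lemma Lam_DD0 {g : E → ℝ} (hg : U01 g) {F : E → ℂ} (hF : Good F) (ht : tilde F = F) :
    Lam (fun p => (g p.1 : ℂ)) F F F F = DD g F 0 := by
  simpa using Lam_DD hg hF ht 0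

lemma DD_one (F : E → ℂ) : DD (fun _ => 1) F 0 = TT F := by simp [DD, TT, mo_zero]

lemma norm_Lam_ex_le {g : E → ℝ} (hg : U01 g) {F : E → ℂ} (hF : Good F) (w : E3) :
    ‖Lam (fun p => (g p.1 : ℂ) * ex (ip3 p w)) F F F F‖ ≤
      (DD g F (w.2.1 + w.2.2) + DD g F (w.2.1 - w.2.2)) / 2 := by
  rw [Lam_mo]
  refine (norm_Lam_fst_le hg.cont.measurable hg.nonneg hg.le hg.even (hF.mo _) (hF.mo _) (hF.mo _)
    (hF.mo _)).trans (le_of_eq ?_)
  have : w.1 + w.2.1 + w.2.2 - w.1 = w.2.1 + w.2.2 := by abel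
  simp only [norm_conv_mo, DD, this]

lemma Lam_fubini {α : Type} [MeasurableSpace α] {ν : Measure α} [SFinite ν] {m : α → E3 → ℂ}
    (hm : Measurable (Function.uncurry m)) {b : α → ℝ} (hb : Integrable b ν)
    (hle : ∀ y p, ‖m y p‖ ≤ b y) {F1 F2 F3 F4 : E → ℂ} (h1 : Good F1) (h2 : Good F2)
    (h3 : Good F3) (h4 : Good F4) :
    Lam (fun p => ∫ y, m y p ∂ν) F1 F2 F3 F4 = ∫ y, Lam (m y) F1 F2 F3 F4 ∂ν := by
  unfold Lam
  simp_rw [← integral_mul_const]
  refine integral_integral_swap ?_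
  have hP := integrable_P4 h1 h2 h3 h4
  have hPm := measurable_P4 h1.meas h2.meas h3.meas h4.meas
  have hm2 : Measurable fun z : E3 × α => m z.2 (abc z.1) :=
    hm.comp (f := fun z : E3 × α => (z.2, abc z.1)) (by fun_prop)
  refine (hP.norm.mul_prod hb).mono' (Measurable.aestronglyMeasurable ?_)
    (Eventually.of_forall fun z => ?_)
  · exact hm2.mul (hPm.comp measurable_fst)
  · simp only [Function.uncurry, norm_mul]
    rw [mul_comm]
    exact mul_le_mul_of_nonneg_left (hle _ _) (norm_nonneg _)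

def bp : ContDiffBump (0 : E) := ⟨1, 2, one_pos, one_lt_two⟩

lemma bp_sm : Sm bp := ⟨bp.contDiff, bp.hasCompactSupport⟩

lemma bp_one {x : E} (h : ‖x‖ ≤ 1) : bp x = 1 :=
  bp.one_of_mem_closedBall (by simpa [bp] using h)

lemma norm_bp_le (x : E) : ‖(bp x : ℂ)‖ ≤ 1 := by
  rw [Complex.norm_real, Real.norm_of_nonneg bp.nonneg]; exact bp.le_one

lemma Sm.inversion {f : E → ℝ} (hf : Sm f) (x : E) :
    (f x : ℂ) = ∫ y, FT f y * ex (2 * π * ⟪y, x⟫) := by
  have h : (𝓕⁻ (𝓕 hf.toS)) x = hf.toS x := by rw [FourierTransform.fourierInv_fourier_eq]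
  rw [SchwartzMap.fourierInv_coe, Real.fourierInv_eq'] at h
  rw [← hf.toS_apply, ← h]
  congr 1
  ext y
  rw [smul_eq_mul, mul_comm, hf.FT_eq_toS]
  simp [ex]

def om1 (t : E) : ℝ := ∫ y, ‖FT bp (y - t) - FT bp y‖

lemma om1_tendsto : Tendsto om1 (𝓝 0) (𝓝 0) := by
  have hi := bp_sm.integrable_FT
  have hc := bp_sm.continuous_FT
  have key := tendsto_integral_filter_of_dominated_convergence (l := 𝓝 (0 : E))
    (μ := (volume : Measure E))
    (F := fun t y => ‖FT bp (y - t)‖ + ‖FT bp y‖ - ‖FT bp (y - t) - FT bp y‖)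
    (f := fun y => ‖FT bp (y - 0)‖ + ‖FT bp y‖ - ‖FT bp (y - 0) - FT bp y‖)
    (fun y => 2 * ‖FT bp y‖)
    (Eventually.of_forall fun t => Continuous.aestronglyMeasurable (by fun_prop))
    (Eventually.of_forall fun t => Eventually.of_forall fun y => by
      have h1 := norm_sub_le (FT bp (y - t)) (FT bp y)
      have h2 := norm_sub_norm_le (FT bp (y - t)) (FT bp y)
      rw [Real.norm_eq_abs, abs_le]
      constructor <;> linarith [norm_nonneg (FT bp y)])
    (hi.norm.const_mul 2)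
    (Eventually.of_forall fun y => Continuous.tendsto (by fun_prop) 0)
  have e : ∀ t, ∫ y, (‖FT bp (y - t)‖ + ‖FT bp y‖ - ‖FT bp (y - t) - FT bp y‖) =
      (∫ y, ‖FT bp y‖) + (∫ y, ‖FT bp y‖) - om1 t := by
    intro t
    have h1 := hi.comp_sub_right t
    have h2 : Integrable (fun y => ‖FT bp (y - t)‖ + ‖FT bp y‖) := h1.norm.add hi.norm
    have h3 : Integrable (fun y => ‖FT bp (y - t) - FT bp y‖) := (h1.sub hi).norm
    rw [integral_sub h2 h3, integral_add h1.norm hi.norm,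
      integral_sub_right_eq_self (fun y => ‖FT bp y‖) t]
    rfl
  simp only [e] at key
  have := (tendsto_const_nhds (x := (∫ y, ‖FT bp y‖) + (∫ y, ‖FT bp y‖))).sub key
  have e0 : om1 0 = 0 := by simp [om1]
  simpa [e0] using this

lemma kernel_le {g : E → ℝ} (hg : U01 g) {F : E → ℂ} (hF : Good F) (ht : tilde F = F) (w : E)
    {t : ℝ} (ht0 : 0 < t) :
    ‖Lam (fun p => (g p.1 : ℂ) * ((ex ⟪p.2.1, w⟫ - 1) * bp (t • p.2.1))) F F F F‖ ≤
      om1 ((2 * π * t)⁻¹ • w) * TT F := by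
  have hi := bp_sm.integrable_FT
  have hc := bp_sm.continuous_FT
  set s := (2 * π * t)⁻¹ • w with hs
  have h1 := hi.comp_sub_right s
  have hb : ∀ (x : E) {κ : E → ℂ}, Integrable κ →
      Integrable (fun y => κ y * ex ⟪x, (2 * π * t) • y⟫) := fun x κ hκ =>
    hκ.mul_bdd (c := 1) (Continuous.aestronglyMeasurable (by fun_prop))
      (Eventually.of_forall fun _ => (norm_ex _).le)
  have e : ∀ x : E, (ex ⟪x, w⟫ - 1) * bp (t • x) =
      ∫ y, (FT bp (y - s) - FT bp y) * ex ⟪x, (2 * π * t) • y⟫ := by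
    intro x
    have e1 : (bp (t • x) : ℂ) = ∫ y, FT bp y * ex ⟪x, (2 * π * t) • y⟫ := by
      rw [bp_sm.inversion]
      congr 1
      ext y
      rw [real_inner_smul_right, real_inner_smul_right, real_inner_comm]
      congr 2
      ring
    simp_rw [sub_mul]
    rw [integral_sub (hb x h1) (hb x hi), ← e1, one_mul, e1, ← integral_const_mul,
      ← integral_add_right_eq_self (fun y => FT bp (y - s) * ex ⟪x, (2 * π * t) • y⟫) s]
    congr 2
    ext y
    rw [add_sub_cancel_right, smul_add, hs, smul_smul, mul_inv_cancel₀ (by positivity), one_smul,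
      inner_add_right, ex_add]
    ring
  have hgc := hg.cont
  have e2 : (fun p : E3 => (g p.1 : ℂ) * ((ex ⟪p.2.1, w⟫ - 1) * bp (t • p.2.1))) = fun p =>
      ∫ y, (FT bp (y - s) - FT bp y) * ((g p.1 : ℂ) * ex ⟪p.2.1, (2 * π * t) • y⟫) := by
    ext p
    rw [e, ← integral_const_mul]
    congr 1
    ext y
    ring
  rw [e2, Lam_fubini (b := fun y => ‖FT bp (y - s) - FT bp y‖)
    (Continuous.measurable (by unfold Function.uncurry; fun_prop)) (h1.sub hi).norm _ hF hF hF hF]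
  · unfold om1
    rw [← integral_mul_const]
    refine norm_integral_le_of_norm_le ((h1.sub hi).norm.mul_const _)
      (Eventually.of_forall fun y => ?_)
    have : Lam (fun p => (FT bp (y - s) - FT bp y) *
        ((g p.1 : ℂ) * ex ⟪p.2.1, (2 * π * t) • y⟫)) F F F F =
        (FT bp (y - s) - FT bp y) * DD g F ((2 * π * t) • y) := by
      rw [← Lam_DD hg hF ht]
      unfold Lam
      rw [← integral_const_mul]
      simp only [mul_assoc]
    rw [this, norm_mul, Complex.norm_real, Real.norm_of_nonneg (DD_nonneg hg _ _)]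
    exact mul_le_mul_of_nonneg_left (DD_le_TT hg hF _) (norm_nonneg _)
  · intro y p
    rw [norm_mul, norm_mul, norm_ex, mul_one]
    exact mul_le_of_le_one_right (norm_nonneg _) (hg.norm_le _)

end

end Pool.Agent.P.MP_6b977f_mp
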