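import Pool.Agent.P.MP_6b977f_mp.Defs

namespace Pool.Agent.P.MP_6b977f_mp

open Real MeasureTheory Filter Topology Complex
open scoped ContDiff FourierTransform RealInnerProductSpace SchwartzMap

noncomputable section

/-- `ex t = exp (i t)`. -/
def ex (t : ℝ) : ℂ := cexp ((t : ℂ) * I)

lemma norm_ex (t : ℝ) : ‖ex t‖ = 1 := Complex.norm_exp_ofReal_mul_I t

lemma ex_add (s t : ℝ) : ex (s + t) = ex s * ex t := by
  simp [ex, add_mul, Complex.exp_add]

@[simp] lemma ex_zero : ex 0 = 1 := by simp [ex]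

lemma conj_ex (t : ℝ) : (starRingEnd ℂ) (ex t) = ex (-t) := by
  simp [ex, ← Complex.exp_conj]

@[fun_prop] lemma continuous_ex : Continuous ex := by unfold ex; fun_prop

@[fun_prop] lemma measurable_ex : Measurable ex := continuous_ex.measurable

lemma ex_eq (t : ℝ) : ex t = (Real.cos t : ℂ) + (Real.sin t : ℂ) * I := by
  simp [ex, Complex.exp_mul_I]

structure Sm (f : E → ℝ) : Prop where
  smooth : ContDiff ℝ ∞ f
  supp : HasCompactSupport f

def FT (f : E → ℝ) (ξ : E) : ℂ := 𝓕 (fun x => (f x : ℂ)) ξ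

def Sm.toS {f : E → ℝ} (hf : Sm f) : 𝓢(E, ℂ) :=
  (hf.supp.comp_left (g := fun t : ℝ => (t : ℂ)) (by simp)).toSchwartzMap
    (ofRealCLM.contDiff.comp hf.smooth)

lemma Sm.toS_apply {f : E → ℝ} (hf : Sm f) (x : E) : hf.toS x = (f x : ℂ) := rfl

lemma Sm.FT_eq_toS {f : E → ℝ} (hf : Sm f) : FT f = fun ξ => (𝓕 hf.toS) ξ := rfl

lemma Sm.continuous {f : E → ℝ} (hf : Sm f) : Continuous f := hf.smooth.continuous

lemma Sm.integrable {f : E → ℝ} (hf : Sm f) : Integrable f :=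
  hf.continuous.integrable_of_hasCompactSupport hf.supp

lemma Sm.mul {f g : E → ℝ} (hf : Sm f) (hg : Sm g) : Sm (fun x => f x * g x) :=
  ⟨hf.smooth.mul hg.smooth, hf.supp.mul_right⟩

lemma Sm.add {f g : E → ℝ} (hf : Sm f) (hg : Sm g) : Sm (fun x => f x + g x) :=
  ⟨hf.smooth.add hg.smooth, hf.supp.add hg.supp⟩

lemma Sm.const_mul {f : E → ℝ} (hf : Sm f) (c : ℝ) : Sm (fun x => c * f x) :=
  ⟨contDiff_const.mul hf.smooth, hf.supp.mul_left⟩

lemma Sm.shift {f : E → ℝ} (hf : Sm f) (y : E) : Sm (fun x => f (x + y)) :=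
  ⟨hf.smooth.comp (contDiff_id.add contDiff_const),
    hf.supp.comp_homeomorph (Homeomorph.addRight y)⟩

lemma FT_eq (f : E → ℝ) (ξ : E) : FT f ξ = ∫ x, ex (-2 * π * ⟪x, ξ⟫) * (f x : ℂ) := by
  unfold FT
  rw [Real.fourier_eq']
  simp [ex]

lemma Sm.continuous_FT {f : E → ℝ} (hf : Sm f) : Continuous (FT f) := (𝓕 hf.toS).continuous

lemma Sm.integrable_FT {f : E → ℝ} (hf : Sm f) : Integrable (FT f) := (𝓕 hf.toS).integrable

lemma norm_FT_le (f : E → ℝ) (ξ : E) : ‖FT f ξ‖ ≤ ∫ x, |f x| := by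
  rw [FT_eq]
  refine (norm_integral_le_integral_norm _).trans (le_of_eq ?_)
  congr 1
  ext x
  rw [norm_mul, norm_ex]
  simp

lemma FT_neg (f : E → ℝ) (ξ : E) : FT f (-ξ) = (starRingEnd ℂ) (FT f ξ) := by
  rw [FT_eq, FT_eq, ← integral_conj]
  congr 1
  ext x
  rw [map_mul, conj_ex, Complex.conj_ofReal, inner_neg_right]
  congr 2
  ring

lemma FT_zero (f : E → ℝ) : FT f 0 = ((∫ x, f x : ℝ) : ℂ) := by
  rw [FT_eq]
  simp [integral_complex_ofReal]

lemma FT_shift (f : E → ℝ) (y ξ : E) :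
    FT (fun x => f (x + y)) ξ = ex (2 * π * ⟪y, ξ⟫) * FT f ξ := by
  rw [FT_eq, FT_eq, ← integral_const_mul,
    ← integral_add_right_eq_self (fun x => ex (2 * π * ⟪y, ξ⟫) * (ex (-2 * π * ⟪x, ξ⟫) * (f x : ℂ))) y]
  congr 1
  ext x
  rw [← mul_assoc, ← ex_add, inner_add_left]
  congr 2
  ring

lemma FT_add {f g : E → ℝ} (hf : Integrable f) (hg : Integrable g) (ξ : E) :
    FT (fun x => f x + g x) ξ = FT f ξ + FT g ξ := by
  have h : ∀ {f : E → ℝ}, Integrable f →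
      Integrable (fun x => ex (-2 * π * ⟪x, ξ⟫) * (f x : ℂ)) := by
    intro f hf
    refine (hf.ofReal (𝕜 := ℂ)).bdd_mul (c := 1) (by fun_prop) ?_
    exact Eventually.of_forall fun x => (norm_ex _).le
  rw [FT_eq, FT_eq, FT_eq, ← integral_add (h hf) (h hg)]
  congr 1
  ext x
  push_cast
  ring

lemma FT_const_mul (f : E → ℝ) (c : ℝ) (ξ : E) :
    FT (fun x => c * f x) ξ = c * FT f ξ := by
  rw [FT_eq, FT_eq, ← integral_const_mul]
  congr 1
  ext x
  push_cast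
  ring

lemma Sm.FT_conv {f g : E → ℝ} (hf : Sm f) (hg : Sm g) (η : E) :
    ∫ ξ, FT f ξ * FT g (η - ξ) = FT (fun x => f x * g x) η := by
  have hGs : HasCompactSupport (fun x => ex (-2 * π * ⟪x, η⟫) * (g x : ℂ)) :=
    (hg.supp.comp_left (g := fun t : ℝ => (t : ℂ)) (by simp)).mul_left
  have hGc : ContDiff ℝ ∞ (fun x => ex (-2 * π * ⟪x, η⟫) * (g x : ℂ)) := by
    refine ContDiff.mul ?_ (ofRealCLM.contDiff.comp hg.smooth)
    unfold ex
    refine ContDiff.cexp (ContDiff.mul ?_ contDiff_const)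
    exact ofRealCLM.contDiff.comp (contDiff_const.mul (contDiff_id.inner ℝ contDiff_const))
  set G : 𝓢(E, ℂ) := hGs.toSchwartzMap hGc with hG
  have h1 : ∀ ξ, FT g (η - ξ) = (𝓕⁻ G) ξ := by
    intro ξ
    rw [SchwartzMap.fourierInv_coe, Real.fourierInv_eq', FT_eq]
    congr 1
    ext x
    have : G x = ex (-2 * π * ⟪x, η⟫) * (g x : ℂ) := rfl
    rw [this, smul_eq_mul, ← mul_assoc]
    congr 1
    change _ = ex _ * _
    rw [← ex_add, inner_sub_right]
    congr 1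
    ring
  simp_rw [h1]
  have h2 := SchwartzMap.integral_fourier_mul_eq hf.toS (𝓕⁻ G)
  rw [FourierTransform.fourier_fourierInv_eq] at h2
  refine h2.trans ?_
  rw [FT_eq]
  congr 1
  ext x
  have : G x = ex (-2 * π * ⟪x, η⟫) * (g x : ℂ) := rfl
  rw [this, hf.toS_apply]
  push_cast
  ring

lemma Sm.FT_pair {f g : E → ℝ} (hf : Sm f) (hg : Sm g) :
    ∫ ξ, FT f ξ * FT g (-ξ) = ((∫ x, f x * g x : ℝ) : ℂ) := by
  have := hf.FT_conv hg 0
  simp only [zero_sub] at this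
  rw [this, FT_zero]

lemma Sm.plancherel {f : E → ℝ} (hf : Sm f) : ∫ ξ, ‖FT f ξ‖ ^ 2 = ∫ x, f x ^ 2 := by
  have := SchwartzMap.integral_norm_sq_fourier hf.toS
  rw [hf.FT_eq_toS, this]
  congr 1
  ext x
  rw [hf.toS_apply]
  simp

lemma Sm.integrable_sq_FT {f : E → ℝ} (hf : Sm f) : Integrable (fun ξ => ‖FT f ξ‖ ^ 2) := by
  have h := hf.integrable_FT.norm
  have : Integrable (fun ξ => ‖FT f ξ‖ * ‖FT f ξ‖) := by
    refine h.bdd_mul (c := ∫ x, |f x|) h.aestronglyMeasurable ?_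
    exact Eventually.of_forall fun ξ => by simpa using norm_FT_le f ξ
  simpa [sq] using this

/-- The coordinate derivative. -/
def D (j : Fin 2) (f : E → ℝ) (x : E) : ℝ := fderiv ℝ f x (EuclideanSpace.single j 1)

lemma Sm.D {f : E → ℝ} (hf : Sm f) (j : Fin 2) : Sm (D j f) := by
  constructor
  · exact (hf.smooth.fderiv_right (m := ∞) (by simp)).clm_apply contDiff_const
  · exact hf.supp.fderiv_apply (𝕜 := ℝ) _

lemma Sm.FT_D {f : E → ℝ} (hf : Sm f) (j : Fin 2) (ξ : E) :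
    FT (MP_6b977f_mp.D j f) ξ = 2 * π * I * (ξ j) * FT f ξ := by
  have h := SchwartzMap.fourier_lineDerivOp_eq hf.toS (EuclideanSpace.single j (1 : ℝ))
  have h2 : (LineDeriv.lineDerivOp (EuclideanSpace.single j (1 : ℝ)) hf.toS : 𝓢(E, ℂ)) =
      (hf.D j).toS := by
    ext x
    rw [SchwartzMap.lineDerivOp_apply_eq_fderiv, (hf.D j).toS_apply]
    have hd : HasFDerivAt (fun x => (f x : ℂ)) (ofRealCLM.comp (fderiv ℝ f x)) x :=
      ofRealCLM.hasFDerivAt.comp x (hf.smooth.differentiable (by simp) x).hasFDerivAt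
    have : (hf.toS : E → ℂ) = fun x => (f x : ℂ) := rfl
    rw [this, hd.fderiv]
    rfl
  rw [h2] at h
  have h3 := congrArg (fun F : 𝓢(E, ℂ) => F ξ) h
  have ht : (fun x : E => inner ℝ x (EuclideanSpace.single j (1 : ℝ))).HasTemperateGrowth := by
    fun_prop
  simp only [smul_apply, SchwartzMap.smulLeftCLM_apply_apply ht] at h3
  rw [(hf.D j).FT_eq_toS, hf.FT_eq_toS]
  simp only []
  rw [h3]
  simp [EuclideanSpace.inner_single_right, mul_assoc]

end

end Pool.Agent.P.MP_6b977f_mp
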