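import Pool.Agent.P.MP_6b977f_mp.Defs

namespace Pool.Agent.P.MP_6b977f_mp

open Real

noncomputable section

lemma nsq (x : E) : ‖x‖ ^ 2 = x 0 ^ 2 + x 1 ^ 2 := by
  rw [EuclideanSpace.real_norm_sq_eq, Fin.sum_univ_two]

/-- distance to the circle of radius `k` -/
def dd (k : ℝ) (x : E) : ℝ := |‖x‖ - k|

lemma dd_nonneg (k : ℝ) (x : E) : 0 ≤ dd k x := abs_nonneg _

lemma dd_neg (k : ℝ) (x : E) : dd k (-x) = dd k x := by simp [dd]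

@[fun_prop] lemma continuous_dd (k : ℝ) : Continuous (dd k) := by unfold dd; fun_prop

@[fun_prop] lemma measurable_dd (k : ℝ) : Measurable (dd k) := (continuous_dd k).measurable

lemma sqrt_le_self' {k : ℝ} (hk : 1 ≤ k) : √k ≤ k := by
  rw [Real.sqrt_le_left (by linarith)]
  nlinarith

lemma norm_le_of_dd {k : ℝ} (hk : 1 ≤ k) {x : E} (hx : dd k x ≤ √k) : ‖x‖ ≤ 2 * k := by
  have := sqrt_le_self' hk
  have := (abs_le.1 hx).2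
  linarith

lemma sq_sub_le {k : ℝ} (hk : 1 ≤ k) {x : E} (hx : dd k x ≤ √k) :
    |‖x‖ ^ 2 - k ^ 2| ≤ 3 * k * dd k x := by
  have h1 := norm_le_of_dd hk hx
  have : ‖x‖ ^ 2 - k ^ 2 = (‖x‖ + k) * (‖x‖ - k) := by ring
  rw [this, abs_mul, abs_of_nonneg (by positivity : 0 ≤ ‖x‖ + k)]
  exact mul_le_mul_of_nonneg_right (by linarith) (abs_nonneg _)

lemma sum_sq_id (η ξ ζ : E) :
    ‖η‖ ^ 2 + ‖ξ + ζ‖ ^ 2 + ‖ξ - η - ζ‖ ^ 2 =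
      ‖ξ‖ ^ 2 + ‖η - ξ‖ ^ 2 + ‖ζ‖ ^ 2 + ‖-η - ζ‖ ^ 2 := by
  simp only [nsq, PiLp.add_apply, PiLp.sub_apply, PiLp.neg_apply]
  ring

lemma gram_le (a0 a1 b0 b1 c0 c1 : ℝ) :
    (a0 ^ 2 + a1 ^ 2) * ((b0 ^ 2 + b1 ^ 2) * (c0 ^ 2 + c1 ^ 2) - (b0 * c0 + b1 * c1) ^ 2) ≤
      2 * (a0 * b0 + a1 * b1) ^ 2 * (c0 ^ 2 + c1 ^ 2) +
        2 * (a0 * c0 + a1 * c1) ^ 2 * (b0 ^ 2 + b1 ^ 2) := by
  have h : (a0 ^ 2 + a1 ^ 2) * ((b0 ^ 2 + b1 ^ 2) * (c0 ^ 2 + c1 ^ 2) - (b0 * c0 + b1 * c1) ^ 2) =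
      ((a0 * b0 + a1 * b1) * c0 - (a0 * c0 + a1 * c1) * b0) ^ 2 +
        ((a0 * b0 + a1 * b1) * c1 - (a0 * c0 + a1 * c1) * b1) ^ 2 := by ring
  rw [h]
  nlinarith [sq_nonneg ((a0 * b0 + a1 * b1) * c0 + (a0 * c0 + a1 * c1) * b0),
    sq_nonneg ((a0 * b0 + a1 * b1) * c1 + (a0 * c0 + a1 * c1) * b1)]

lemma geom_aux {k r S A B C p q t : ℝ} (hr : 0 < r) (hk : 1 ≤ k) (hk2 : 72 ≤ r ^ 2 * k)
    (hS0 : 0 ≤ S) (hS : S ^ 2 ≤ 16 * k) (hA : 0 ≤ A)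
    (hp : |p| ≤ 3 * k / 2 * S) (hq : |q| ≤ 3 * k / 2 * S) (ht : |t| ≤ 3 * k / 2 * S)
    (hB : r * k ^ 2 ≤ B) (hC : r * k ^ 2 ≤ C) (hB' : B ≤ 16 * k ^ 2) (hC' : C ≤ 16 * k ^ 2)
    (hg : A ^ 2 * (B * C - t ^ 2) ≤ 2 * p ^ 2 * C + 2 * q ^ 2 * B) : A ≤ 17 / r * S := by
  have hk0 : 0 < k := by linarith
  have hp2 : p ^ 2 ≤ (3 * k / 2 * S) ^ 2 := sq_le_sq' (abs_le.1 hp).1 (abs_le.1 hp).2
  have hq2 : q ^ 2 ≤ (3 * k / 2 * S) ^ 2 := sq_le_sq' (abs_le.1 hq).1 (abs_le.1 hq).2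
  have ht2 : t ^ 2 ≤ (3 * k / 2 * S) ^ 2 := sq_le_sq' (abs_le.1 ht).1 (abs_le.1 ht).2
  have ht3 : t ^ 2 ≤ 36 * k ^ 3 := by
    refine ht2.trans ?_
    have : (3 * k / 2 * S) ^ 2 = 9 / 4 * k ^ 2 * S ^ 2 := by ring
    rw [this]
    nlinarith [sq_nonneg k]
  have hrk : 0 ≤ r * k ^ 2 := by positivity
  have hBC : r ^ 2 * k ^ 4 ≤ B * C := by
    have : r ^ 2 * k ^ 4 = (r * k ^ 2) * (r * k ^ 2) := by ring
    rw [this]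
    exact mul_le_mul hB hC hrk (hrk.trans hB)
  have hlow : r ^ 2 * k ^ 4 / 2 ≤ B * C - t ^ 2 := by
    have : 72 * k ^ 3 ≤ r ^ 2 * k * k ^ 3 := mul_le_mul_of_nonneg_right hk2 (by positivity)
    nlinarith
  have hup : 2 * p ^ 2 * C + 2 * q ^ 2 * B ≤ 144 * k ^ 4 * S ^ 2 := by
    have h1 : 2 * p ^ 2 * C ≤ 2 * (3 * k / 2 * S) ^ 2 * (16 * k ^ 2) :=
      mul_le_mul (by linarith) hC' (hrk.trans hC) (by positivity)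
    have h2 : 2 * q ^ 2 * B ≤ 2 * (3 * k / 2 * S) ^ 2 * (16 * k ^ 2) :=
      mul_le_mul (by linarith) hB' (hrk.trans hB) (by positivity)
    nlinarith
  have h3 : A ^ 2 * (r ^ 2 * k ^ 4 / 2) ≤ 144 * k ^ 4 * S ^ 2 :=
    (mul_le_mul_of_nonneg_left hlow (sq_nonneg A)).trans (hg.trans hup)
  have h4 : (r * A) ^ 2 ≤ (17 * S) ^ 2 := by
    have hk4 : 0 < k ^ 4 := by positivity
    have : (r * A) ^ 2 * k ^ 4 ≤ (288 * S ^ 2) * k ^ 4 := by nlinarith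
    have := le_of_mul_le_mul_right this hk4
    nlinarith [sq_nonneg S]
  have h5 : r * A ≤ 17 * S := (pow_le_pow_iff_left₀ (by positivity) (by positivity) two_ne_zero).1 h4
  rw [div_mul_eq_mul_div, le_div_iff₀ hr]
  linarith

lemma geom1 {k r : ℝ} (hr : 0 < r) (hk : 1 ≤ k) (hk2 : 72 ≤ r ^ 2 * k) (η ξ ζ : E)
    (h1 : dd k ξ ≤ √k) (h2 : dd k (η - ξ) ≤ √k) (h3 : dd k ζ ≤ √k) (h4 : dd k (-η - ζ) ≤ √k)
    (hb : r * k ^ 2 ≤ ‖ξ + ζ‖ ^ 2) (hc : r * k ^ 2 ≤ ‖ξ - η - ζ‖ ^ 2) :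
    ‖η‖ ≤ 17 / r * (dd k ξ + dd k (η - ξ) + dd k ζ + dd k (-η - ζ)) := by
  have n1 := norm_le_of_dd hk h1
  have n3 := norm_le_of_dd hk h3
  have n4 := norm_le_of_dd hk h4
  have s1 := abs_le.1 (sq_sub_le hk h1)
  have s2 := abs_le.1 (sq_sub_le hk h2)
  have s3 := abs_le.1 (sq_sub_le hk h3)
  have s4 := abs_le.1 (sq_sub_le hk h4)
  have d1 := dd_nonneg k ξ
  have d2 := dd_nonneg k (η - ξ)
  have d3 := dd_nonneg k ζ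
  have d4 := dd_nonneg k (-η - ζ)
  have hb' : ‖ξ + ζ‖ ^ 2 ≤ 16 * k ^ 2 := by
    have : ‖ξ + ζ‖ ≤ 4 * k := (norm_add_le _ _).trans (by linarith)
    nlinarith [norm_nonneg (ξ + ζ)]
  have hc' : ‖ξ - η - ζ‖ ^ 2 ≤ 16 * k ^ 2 := by
    have e : ξ - η - ζ = ξ + (-η - ζ) := by abel
    have : ‖ξ - η - ζ‖ ≤ 4 * k := by rw [e]; exact (norm_add_le _ _).trans (by linarith)
    nlinarith [norm_nonneg (ξ - η - ζ)]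
  have hS : (dd k ξ + dd k (η - ξ) + dd k ζ + dd k (-η - ζ)) ^ 2 ≤ 16 * k := by
    have : dd k ξ + dd k (η - ξ) + dd k ζ + dd k (-η - ζ) ≤ 4 * √k := by linarith
    have h := pow_le_pow_left₀ (by positivity) this 2
    rw [mul_pow, Real.sq_sqrt (by linarith)] at h
    linarith
  have g := gram_le (η 0) (η 1) (ξ 0 + ζ 0) (ξ 1 + ζ 1) (ξ 0 - η 0 - ζ 0) (ξ 1 - η 1 - ζ 1)
  simp only [nsq, PiLp.sub_apply, PiLp.neg_apply] at s1 s2 s3 s4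
  refine geom_aux (p := η 0 * (ξ 0 + ζ 0) + η 1 * (ξ 1 + ζ 1))
    (q := η 0 * (ξ 0 - η 0 - ζ 0) + η 1 * (ξ 1 - η 1 - ζ 1))
    (t := (ξ 0 + ζ 0) * (ξ 0 - η 0 - ζ 0) + (ξ 1 + ζ 1) * (ξ 1 - η 1 - ζ 1))
    hr hk hk2 (by positivity) hS (norm_nonneg _) ?_ ?_ ?_ hb hc hb' hc' ?_
  · rw [abs_le]; constructor <;> linarith [s1.1, s1.2, s2.1, s2.2, s3.1, s3.2, s4.1, s4.2]
  · rw [abs_le]; constructor <;> linarith [s1.1, s1.2, s2.1, s2.2, s3.1, s3.2, s4.1, s4.2]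
  · rw [abs_le]; constructor <;> linarith [s1.1, s1.2, s2.1, s2.2, s3.1, s3.2, s4.1, s4.2]
  · simp only [nsq, PiLp.add_apply, PiLp.sub_apply]
    exact g

lemma sum_sq_bounds {k : ℝ} (hk : 1 ≤ k) (η ξ ζ : E)
    (h1 : dd k ξ ≤ √k) (h2 : dd k (η - ξ) ≤ √k) (h3 : dd k ζ ≤ √k) (h4 : dd k (-η - ζ) ≤ √k) :
    |‖η‖ ^ 2 + ‖ξ + ζ‖ ^ 2 + ‖ξ - η - ζ‖ ^ 2 - 4 * k ^ 2| ≤ 12 * k * √k := by
  have s1 := abs_le.1 (sq_sub_le hk h1)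
  have s2 := abs_le.1 (sq_sub_le hk h2)
  have s3 := abs_le.1 (sq_sub_le hk h3)
  have s4 := abs_le.1 (sq_sub_le hk h4)
  have hk0 : 0 ≤ 3 * k := by linarith
  have t1 := mul_le_mul_of_nonneg_left h1 hk0
  have t2 := mul_le_mul_of_nonneg_left h2 hk0
  have t3 := mul_le_mul_of_nonneg_left h3 hk0
  have t4 := mul_le_mul_of_nonneg_left h4 hk0
  rw [sum_sq_id, abs_le]
  constructor <;> linarith

end

end Pool.Agent.P.MP_6b977f_mp
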