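import Pool.Agent.P.MP_6b977f_mp.Phys3

namespace Pool.Agent.P.MP_6b977f_mp

open Real MeasureTheory Filter Topology Laplacian
open scoped RealInnerProductSpace ContDiff

noncomputable section

lemma lap_eq {f : E → ℝ} (hf : Sm f) (x : E) : Δ f x = D 0 (D 0 f) x + D 1 (D 1 f) x := by
  have key : ∀ j : Fin 2, iteratedFDeriv ℝ 2 f x ![EuclideanSpace.single j 1,
      EuclideanSpace.single j 1] = D j (D j f) x := by
    intro j
    have hd : DifferentiableAt ℝ (fderiv ℝ f) x :=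
      (hf.smooth.fderiv_right (m := ∞) (by simp)).differentiable (by simp) x
    rw [iteratedFDeriv_two_apply]
    unfold D
    rw [fderiv_clm_apply hd (differentiableAt_const _)]
    simp
  rw [InnerProductSpace.laplacian_eq_iteratedFDeriv_orthonormalBasis f
    (EuclideanSpace.basisFun (Fin 2) ℝ)]
  simp only [Fin.sum_univ_two, EuclideanSpace.basisFun_apply, key]

lemma IsTest.mono {O O' : Set E} {a : E → ℝ} (h : IsTest O a) (hO : O ⊆ O') : IsTest O' a :=
  ⟨h.1, h.2.1, h.2.2.trans hO⟩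

lemma corr_congr {O : Set E} (hO : IsOpen O) {lam : ℕ → ℝ} (hl : Tendsto lam atTop atTop)
    {u U : ℕ → E → ℝ} (h : ∀ n, ∀ x ∈ O, U n x = u n x) {a : E → ℝ} (ha : IsTest O a) {m : ℕ}
    (v : Fin m → E) : corr U lam a v =ᶠ[atTop] corr u lam a v := by
  obtain ⟨K, -, hKO, hev⟩ := ev_shift hO ha.2.1 ha.2.2
  filter_upwards [eventually_all.2 fun i => (tendsto_hv hl (v i)).eventually hev] with n hn
  unfold corr
  congr 1
  ext z
  by_cases hz : z ∈ tsupport a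
  · rw [Finset.prod_congr rfl fun i _ => h n _ (hKO (hn i z hz))]
  · rw [image_eq_zero_of_notMem_tsupport hz, zero_mul, zero_mul]

lemma massVar_congr {O : Set E} (hO : IsOpen O) {lam : ℕ → ℝ} (hl : Tendsto lam atTop atTop)
    {u U : ℕ → E → ℝ} (h : ∀ n, ∀ x ∈ O, U n x = u n x) {a : E → ℝ} (ha : IsTest O a) (R : ℝ) :
    massVar U lam a R =ᶠ[atTop] massVar u lam a R := by
  obtain ⟨K, -, hKO, hev⟩ := ev_shift hO ha.2.1 ha.2.2
  filter_upwards [ev_ball hl hev R] with n ⟨hc, hn⟩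
  rw [massVar_eq _ _ _ hc, massVar_eq _ _ _ hc]
  congr 1
  ext z
  by_cases hz : z ∈ tsupport a
  · congr 3
    exact integral_congr_ae ((mu_ae R).mono fun w hw => by
      simp only [h n _ (hKO (hn w hw z hz))])
  · rw [image_eq_zero_of_notMem_tsupport hz, zero_mul, zero_mul]

lemma four_congr {O : Set E} {u U : E → ℝ} (h : ∀ x ∈ O, U x = u x) {a : E → ℝ}
    (ha : IsTest O a) : ∫ z, a z * U z ^ 4 = ∫ z, a z * u z ^ 4 := by
  congr 1
  ext z
  by_cases hz : z ∈ tsupport a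
  · rw [h _ (ha.2.2 hz)]
  · rw [image_eq_zero_of_notMem_tsupport hz, zero_mul, zero_mul]

structure Data (Ω : Set E) (u : ℕ → E → ℝ) (lam : ℕ → ℝ) : Prop where
  op : IsOpen Ω
  sm : ∀ n, ContDiffOn ℝ ∞ (u n) Ω
  helm : ∀ n, ∀ x ∈ Ω, Δ (u n) x + lam n * u n x = 0
  hl : Tendsto lam atTop atTop
  qe : Equidistributed Ω u lam

lemma Data.sm_mul {Ω : Set E} {u : ℕ → E → ℝ} {lam : ℕ → ℝ} (h : Data Ω u lam) {χ : E → ℝ}
    (hχ : IsTest Ω χ) (n : ℕ) : Sm (fun x => χ x * u n x) := by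
  refine ⟨contDiff_iff_contDiffAt.2 fun x => ?_, hχ.2.1.mul_right⟩
  by_cases hx : x ∈ tsupport χ
  · exact hχ.1.contDiffAt.mul ((h.sm n).contDiffAt (h.op.mem_nhds (hχ.2.2 hx)))
  · refine (contDiffAt_const (c := (0 : ℝ))).congr_of_eventuallyEq ?_
    filter_upwards [notMem_tsupport_iff_eventuallyEq.1 hx] with y hy
    simp [hy]

lemma Data.model {Ω : Set E} {u : ℕ → E → ℝ} {lam : ℕ → ℝ} (h : Data Ω u lam) {K : Set E}
    (hK : IsCompact K) (hKO : K ⊆ Ω) : ∃ O χ, IsTest Ω χ ∧ K ⊆ O ∧ O ⊆ Ω ∧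
      (∀ n, ∀ x ∈ O, χ x * u n x = u n x) ∧ Model O lam (fun n x => χ x * u n x) := by
  obtain ⟨L, hL, h1, h2⟩ := exists_compact_between hK h.op hKO
  obtain ⟨χ, hχ, h3, -⟩ := exists_test h.op hL h2
  have e : ∀ n, ∀ x ∈ interior L, χ x * u n x = u n x := fun n x hx => by
    rw [h3 x (interior_subset hx), one_mul]
  refine ⟨interior L, χ, hχ, h1, interior_subset.trans h2, e, isOpen_interior, h.hl,
    ⟨h.sm_mul hχ, ⟨(∫ x, χ x ^ (1 + 1)) + 1, ?_⟩, fun K' _ hK' => ?_⟩, fun a ha v => ?_⟩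
  · have := h.qe _ (hχ.pow 1) 0
    rw [J0_zero, one_mul] at this
    filter_upwards [this.eventually (gt_mem_nhds (lt_add_one _))] with n hn
    refine le_trans (le_of_eq ?_) hn.le
    unfold corr
    congr 1
    ext z
    simp [Fin.prod_univ_two]
    ring
  · filter_upwards [h.hl.eventually_ge_atTop 0] with n hn x hx
    have e1 : (fun x => χ x * u n x) =ᶠ[𝓝 x] u n :=
      (isOpen_interior.eventually_mem (hK' hx)).mono (e n)
    have e2 : (2 * π * kk lam n) ^ 2 = lam n := by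
      rw [kk, mul_div_cancel₀ _ (by positivity), Real.sq_sqrt hn]
    rw [← lap_eq (h.sm_mul hχ n), (InnerProductSpace.laplacian_congr_nhds e1).eq_of_nhds, e2,
      e n x (hK' hx)]
    linarith [h.helm n x (h2 (interior_subset (hK' hx)))]
  · exact (h.qe a (ha.mono (interior_subset.trans h2)) v).congr'
      (corr_congr isOpen_interior h.hl e ha _).symm

lemma Data.three {Ω : Set E} {u : ℕ → E → ℝ} {lam : ℕ → ℝ} (h : Data Ω u lam) {a : E → ℝ}
    (ha : IsTest Ω a) (v : Fin 3 → E) : Tendsto (corr u lam a v) atTop (𝓝 0) := by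
  obtain ⟨O, χ, -, h1, -, e, hM⟩ := h.model ha.2.1 ha.2.2
  have ha' : IsTest O a := ⟨ha.1, ha.2.1, h1⟩
  exact (hM.three ha' v).congr' (corr_congr hM.op h.hl e ha' v)

lemma Data.fourth_eq {O : Set E} {u : E → ℝ} {χ ψ : E → ℝ} (e : ∀ x ∈ O, χ x * u x = u x)
    (hψ : IsTest O ψ) : ∫ x, (ψ x * (χ x * u x)) ^ 4 = ∫ x, ψ x ^ 4 * u x ^ 4 := by
  simp only [mul_pow (ψ _)]
  exact four_congr e (hψ.pow 3)

lemma Data.lower {Ω : Set E} {u : ℕ → E → ℝ} {lam : ℕ → ℝ} (h : Data Ω u lam) {U : Set E}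
    (hU : IsOpen U) (hUΩ : U ⊆ Ω) :
    3 * volume U ≤ liminf (fun n => ∫⁻ z in U, ENNReal.ofReal (u n z ^ 4)) atTop := by
  rw [hU.measure_eq_iSup_isCompact]
  simp only [ENNReal.mul_iSup, iSup_le_iff]
  intro K hKU hK
  obtain ⟨ψ, hψ, h1, h2⟩ := exists_test hU hK hKU
  obtain ⟨O, χ, -, h3, -, e, hM⟩ := h.model hψ.2.1 (hψ.2.2.trans hUΩ)
  have hψ' : IsTest O ψ := ⟨hψ.1, hψ.2.1, h3⟩
  have k1 : volume.real K ≤ ∫ x, ψ x ^ 4 := by
    calc volume.real K = ∫ x in K, ψ x ^ 4 := by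
          rw [setIntegral_congr_fun hK.measurableSet (g := fun _ => 1)
            (fun x hx => by simp [h1 x hx])]
          simp
      _ ≤ _ := setIntegral_le_integral (hψ.sm.pow 3).integrable
          (Eventually.of_forall fun x => by positivity)
  refine ENNReal.le_of_forall_pos_le_add fun ε hε _ => ?_
  have k2 : ENNReal.ofReal (3 * (∫ x, ψ x ^ 4) - ε) ≤
      liminf (fun n => ∫⁻ z in U, ENNReal.ofReal (u n z ^ 4)) atTop := by
    refine le_liminf_of_le (by isBoundedDefault) ?_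
    filter_upwards [(hM.fam hψ').lower (ε := ε) hε] with n hn
    have s : Sm fun x => (ψ x * u n x) ^ 4 := (h.sm_mul (hψ.mono hUΩ) n).pow 3
    rw [TT_FT (hψ.sm.mul (hM.sol.sm n)), Data.fourth_eq (e n) hψ'] at hn
    simp only [← mul_pow] at hn
    refine (ENNReal.ofReal_le_ofReal hn).trans ?_
    rw [ofReal_integral_eq_lintegral_ofReal s.integrable
      (Eventually.of_forall fun x => by positivity), ← lintegral_indicator hU.measurableSet]
    refine lintegral_mono fun x => ?_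
    by_cases hx : x ∈ U
    · rw [Set.indicator_of_mem hx, mul_pow]
      exact ENNReal.ofReal_le_ofReal
        (mul_le_of_le_one_left (by positivity) (pow_le_one₀ (h2 x).1 (h2 x).2))
    · rw [image_eq_zero_of_notMem_tsupport (mt (fun h => hψ.2.2 h) hx)]
      simp
  calc 3 * volume K = ENNReal.ofReal (3 * volume.real K) := by
        rw [ENNReal.ofReal_mul (by norm_num), ofReal_measureReal hK.measure_lt_top.ne]
        simp
    _ ≤ ENNReal.ofReal (3 * (∫ x, ψ x ^ 4) - ε + ε) := ENNReal.ofReal_le_ofReal (by linarith)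
    _ ≤ ENNReal.ofReal (3 * (∫ x, ψ x ^ 4) - ε) + ENNReal.ofReal ε := ENNReal.ofReal_add_le
    _ ≤ _ := add_le_add k2 (by simp)

lemma IsTest.split {O : Set E} (hO : IsOpen O) {a : E → ℝ} (ha : IsTest O a) :
    ∃ ψ φ, IsTest O ψ ∧ IsTest O φ ∧ ∀ x, a x = ψ x ^ 4 - φ x ^ 4 := by
  obtain ⟨χ, hχ, h1, -⟩ := exists_test hO ha.2.1 ha.2.2
  obtain ⟨B, hB0, hB⟩ := ha.sm.bound
  have hp : ∀ x, 0 < a x + (B + 1) := fun x => by linarith [(abs_le.1 (hB x)).1]
  have q : ∀ t : ℝ, 0 ≤ t → √(√t) ^ 4 = t := fun t ht => by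
    rw [show 4 = 2 * 2 from rfl, pow_mul, Real.sq_sqrt (Real.sqrt_nonneg _), Real.sq_sqrt ht]
  refine ⟨fun x => √(√(a x + (B + 1))) * χ x, fun x => √(√(B + 1)) * χ x,
    hχ.mul_left (((ha.1.add contDiff_const).sqrt fun x => (hp x).ne').sqrt
      fun x => (Real.sqrt_pos.2 (hp x)).ne'), hχ.mul_left contDiff_const, fun x => ?_⟩
  simp only [mul_pow, q _ (hp x).le, q (B + 1) (by positivity)]
  by_cases hx : x ∈ tsupport a
  · rw [h1 x hx]; ring
  · rw [image_eq_zero_of_notMem_tsupport hx]; ring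

lemma corr_sub {U : ℕ → E → ℝ} (hU : ∀ n, Sm (U n)) (lam : ℕ → ℝ) {a b c : E → ℝ} (hb : Sm b)
    (hc : Sm c) (h : ∀ x, a x = b x - c x) {m : ℕ} (v : Fin m → E) (n : ℕ) :
    corr U lam a v n = corr U lam b v n - corr U lam c v n := by
  have hP : Continuous fun z => ∏ i, U n (z + (√(lam n))⁻¹ • v i) :=
    continuous_finsetProd _ fun i _ => ((hU n).shift _).continuous
  have i : ∀ {b : E → ℝ}, Sm b →
      Integrable (fun z => b z * ∏ i, U n (z + (√(lam n))⁻¹ • v i)) := fun hb =>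
    (hb.continuous.mul hP).integrable_of_hasCompactSupport hb.supp.mul_right
  unfold corr
  rw [← integral_sub (i hb) (i hc)]
  simp only [h, sub_mul]

lemma corr_zero (u : ℕ → E → ℝ) (lam : ℕ → ℝ) (a : E → ℝ) (n : ℕ) :
    corr u lam a (0 : Fin 4 → E) n = ∫ z, a z * u n z ^ 4 := by simp [corr]

lemma Data.tfae {Ω : Set E} {u : ℕ → E → ℝ} {lam : ℕ → ℝ} (h : Data Ω u lam) : List.TFAE
    [∀ a, IsTest Ω a → Tendsto (fun n => ∫ z, a z * u n z ^ 4) atTop (𝓝 (3 * ∫ z, a z)),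
     ∀ a, IsTest Ω a → ∀ v : Fin 4 → E,
       Tendsto (corr u lam a v) atTop (𝓝 (wick v * ∫ z, a z)),
     ∀ a, IsTest Ω a → (∀ z, 0 ≤ a z) → ∀ ε > 0,
       ∀ᶠ R in atTop, ∀ᶠ n in atTop, massVar u lam a R n ≤ ε] := by
  have pre : (∀ a, IsTest Ω a →
      Tendsto (fun n => ∫ z, a z * u n z ^ 4) atTop (𝓝 (3 * ∫ z, a z))) →
      ∀ {O : Set E} {χ : E → ℝ}, IsTest Ω χ → O ⊆ Ω → (∀ n, ∀ x ∈ O, χ x * u n x = u n x) →
      (∀ᶠ n in atTop, ∫ x, (χ x * u n x) ^ 4 ≤ 3 * (∫ x, χ x ^ 4) + 1) ∧ ∀ ψ, IsTest O ψ →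
      Tendsto (fun n => ∫ x, (ψ x * (χ x * u n x)) ^ 4) atTop (𝓝 (3 * ∫ x, ψ x ^ 4)) := by
    intro H O χ hχ hO e
    refine ⟨((H _ (hχ.pow 3)).eventually (gt_mem_nhds (lt_add_one _))).mono fun n hn => ?_,
      fun ψ hψ => ?_⟩
    · simp only [mul_pow]; exact hn.le
    · simp only [Data.fourth_eq (e _) hψ]
      exact H _ ((hψ.pow 3).mono hO)
  tfae_have 1 → 2 := by
    intro H a ha v
    obtain ⟨O, χ, hχ, h1, h2, e, hM⟩ := h.model ha.2.1 ha.2.2
    have ha' : IsTest O a := ⟨ha.1, ha.2.1, h1⟩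
    obtain ⟨p1, p2⟩ := pre H hχ h2 e
    obtain ⟨ψ, φ, hψ, hφ, hs⟩ := ha'.split hM.op
    have := (hM.four hψ (p2 ψ hψ) p1 v).sub (hM.four hφ (p2 φ hφ) p1 v)
    rw [← mul_sub, ← integral_sub (hψ.sm.pow 3).integrable (hφ.sm.pow 3).integrable] at this
    simp only [← corr_sub hM.sol.sm lam (hψ.sm.pow 3) (hφ.sm.pow 3) hs] at this
    simp only [hs]
    simp only [← hs]
    refine Tendsto.congr' (corr_congr hM.op h.hl e ha' v) ?_
    simpa only [hs] using this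
  tfae_have 2 → 1 := by
    intro H a ha
    have := H a ha 0
    simp only [wick, Pi.zero_apply, sub_zero, J0_zero] at this
    norm_num at this
    exact this.congr (corr_zero u lam a)
  tfae_have 1 → 3 := by
    intro H a ha _ ε hε
    obtain ⟨O, χ, hχ, h1, h2, e, hM⟩ := h.model ha.2.1 ha.2.2
    have ha' : IsTest O a := ⟨ha.1, ha.2.1, h1⟩
    obtain ⟨p1, p2⟩ := pre H hχ h2 e
    obtain ⟨ψ, φ, hψ, hφ, hs⟩ := ha'.split hM.op
    filter_upwards [hM.var_upper hψ (p2 ψ hψ) p1 hε, eventually_gt_atTop 0] with R hR hR0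
    have := mu_prob hR0
    filter_upwards [hR, massVar_congr hM.op h.hl e ha' R, ev_ball h.hl (p := fun _ => True)
      (Eventually.of_forall fun _ => trivial) R] with n a1 a2 ⟨hc, _⟩
    rw [← a2]
    refine le_trans ?_ a1
    rw [massVar_eq _ _ _ hc, massVar_eq _ _ _ hc]
    refine integral_mono (integrable_var _ ha.sm (hM.sol.sm n).sq)
      (integrable_var _ (hψ.sm.pow 3) (hM.sol.sm n).sq) fun z => ?_
    refine mul_le_mul_of_nonneg_right ?_ (sq_nonneg _)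
    have : 0 ≤ φ z ^ 4 := by positivity
    linarith [hs z]
  tfae_have 3 → 1 := by
    intro H a ha
    obtain ⟨O, χ, hχ, h1, h2, e, hM⟩ := h.model ha.2.1 ha.2.2
    have ha' : IsTest O a := ⟨ha.1, ha.2.1, h1⟩
    obtain ⟨ψ, φ, hψ, hφ, hs⟩ := ha'.split hM.op
    have key := fun ψ hψ => hM.of_var (ψ := ψ) (fun b hb hb0 ε hε =>
      (H b (hb.mono h2) hb0 ε hε).mono fun R hR => by
        filter_upwards [hR, massVar_congr hM.op h.hl e hb R] with n a1 a2
        rwa [a2]) hψ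
    have := (key ψ hψ).sub (key φ hφ)
    rw [← mul_sub, ← integral_sub (hψ.sm.pow 3).integrable (hφ.sm.pow 3).integrable] at this
    simp only [Nat.reduceAdd, ← hs] at this
    refine this.congr fun n => ?_
    have s := hM.sol.sm n
    rw [← four_congr (e n) ha', ← integral_sub ((hψ.sm.mul s).pow 3).integrable
      ((hφ.sm.mul s).pow 3).integrable]
    congr 1
    ext z
    rw [hs]
    ring
  tfae_finish

end

end Pool.Agent.P.MP_6b977f_mp
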