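import Pool.Agent.P.MP_6b977f_mp.Wick

namespace Pool.Agent.P.MP_6b977f_mp

open Real MeasureTheory Filter Topology Complex
open scoped RealInnerProductSpace ContDiff

noncomputable section

lemma D_mul {f g : E → ℝ} (hf : Sm f) (hg : Sm g) (j : Fin 2) :
    D j (fun x => f x * g x) = fun x => D j f x * g x + f x * D j g x := by
  ext x
  unfold D
  rw [fderiv_fun_mul (hf.smooth.differentiable (by simp) x) (hg.smooth.differentiable (by simp) x)]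
  simp
  ring

lemma D_add {f g : E → ℝ} (hf : Sm f) (hg : Sm g) (j : Fin 2) :
    D j (fun x => f x + g x) = fun x => D j f x + D j g x := by
  ext x
  unfold D
  rw [fderiv_fun_add (hf.smooth.differentiable (by simp) x) (hg.smooth.differentiable (by simp) x)]
  simp

lemma D_shift (f : E → ℝ) (y : E) (j : Fin 2) :
    D j (fun x => f (x + y)) = fun x => D j f (x + y) := by
  ext x
  unfold D
  rw [fderiv_comp_add_right]

lemma IsTest.sm {O : Set E} {a : E → ℝ} (h : IsTest O a) : Sm a := ⟨h.1, h.2.1⟩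

lemma IsTest.D {O : Set E} {a : E → ℝ} (h : IsTest O a) (j : Fin 2) : IsTest O (D j a) :=
  ⟨(h.sm.D j).smooth, (h.sm.D j).supp, (tsupport_fderiv_apply_subset ℝ _).trans h.2.2⟩

lemma helm_key {ψ V : E → ℝ} (hψ : Sm ψ) (hV : Sm V) {k : ℝ} (hk : 1 ≤ k)
    (h : ∀ x ∈ tsupport ψ, D 0 (D 0 V) x + D 1 (D 1 V) x = -(2 * π * k) ^ 2 * V x) (ξ : E) :
    dd k ξ * ‖FT (fun x => ψ x * V x) ξ‖ ≤
      ‖FT (fun x => D 0 ψ x * V x) ξ‖ + ‖FT (fun x => D 1 ψ x * V x) ξ‖ +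
      ‖FT (fun x => D 0 (D 0 ψ) x * V x) ξ‖ + ‖FT (fun x => D 1 (D 1 ψ) x * V x) ξ‖ := by
  have hw := hψ.mul hV
  have w0 := (hψ.D 0).mul hV
  have w1 := (hψ.D 1).mul hV
  have w00 := ((hψ.D 0).D 0).mul hV
  have w11 := ((hψ.D 1).D 1).mul hV
  have e : (fun x => ((D 0 (D 0 (fun x => ψ x * V x)) x + D 1 (D 1 (fun x => ψ x * V x)) x) +
      (2 * π * k) ^ 2 * (ψ x * V x)) + (D 0 (D 0 ψ) x * V x + D 1 (D 1 ψ) x * V x)) =
      fun x => 2 * D 0 (fun x => D 0 ψ x * V x) x + 2 * D 1 (fun x => D 1 ψ x * V x) x := by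
    ext x
    rw [D_mul hψ hV 0, D_mul hψ hV 1, D_add w0 (hψ.mul (hV.D 0)), D_add w1 (hψ.mul (hV.D 1)),
      D_mul hψ (hV.D 0), D_mul hψ (hV.D 1), D_mul (hψ.D 0) hV, D_mul (hψ.D 1) hV]
    simp only []
    by_cases hx : x ∈ tsupport ψ
    · have := h x hx
      linear_combination ψ x * this
    · have : ψ x = 0 := image_eq_zero_of_notMem_tsupport hx
      rw [this]; ring
  have e2 := congrArg (fun f => FT f ξ) e
  rw [FT_add ((((hw.D 0).D 0).add ((hw.D 1).D 1)).add (hw.const_mul _)).integrable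
      (w00.add w11).integrable,
    FT_add (((hw.D 0).D 0).add ((hw.D 1).D 1)).integrable (hw.const_mul _).integrable,
    FT_add ((hw.D 0).D 0).integrable ((hw.D 1).D 1).integrable,
    FT_add w00.integrable w11.integrable,
    FT_add ((w0.D 0).const_mul 2).integrable ((w1.D 1).const_mul 2).integrable,
    FT_const_mul, FT_const_mul, FT_const_mul, (hw.D 0).FT_D, (hw.D 1).FT_D, hw.FT_D, hw.FT_D,
    w0.FT_D, w1.FT_D] at e2
  generalize FT (fun x => ψ x * V x) ξ = A at e2 ⊢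
  generalize FT (fun x => D 0 ψ x * V x) ξ = A0 at e2 ⊢
  generalize FT (fun x => D 1 ψ x * V x) ξ = A1 at e2 ⊢
  generalize FT (fun x => D 0 (D 0 ψ) x * V x) ξ = A00 at e2 ⊢
  generalize FT (fun x => D 1 (D 1 ψ) x * V x) ξ = A11 at e2 ⊢
  have e3 : ((4 * π ^ 2 * (k ^ 2 - ‖ξ‖ ^ 2) : ℝ) : ℂ) * A =
      ((4 * π * ξ 0 : ℝ) : ℂ) * I * A0 + ((4 * π * ξ 1 : ℝ) : ℂ) * I * A1 - A00 - A11 := by
    rw [nsq]
    push_cast at e2 ⊢
    linear_combination e2 - (2 * π) ^ 2 * ((ξ 0 : ℂ) ^ 2 + (ξ 1 : ℂ) ^ 2) * A * I_mul_I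
  have n0 : |ξ 0| ≤ ‖ξ‖ := by simpa using PiLp.norm_apply_le ξ 0
  have n1 : |ξ 1| ≤ ‖ξ‖ := by simpa using PiLp.norm_apply_le ξ 1
  have hp : 0 < π := Real.pi_pos
  have hp3 : 3 < π := Real.pi_gt_three
  have e4 : 4 * π ^ 2 * (k + ‖ξ‖) * (dd k ξ * ‖A‖) ≤
      4 * π * ‖ξ‖ * ‖A0‖ + 4 * π * ‖ξ‖ * ‖A1‖ + ‖A00‖ + ‖A11‖ := by
    have l : ‖((4 * π ^ 2 * (k ^ 2 - ‖ξ‖ ^ 2) : ℝ) : ℂ) * A‖ =
        4 * π ^ 2 * (k + ‖ξ‖) * (dd k ξ * ‖A‖) := by
      rw [norm_mul, Complex.norm_real, Real.norm_eq_abs,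
        show 4 * π ^ 2 * (k ^ 2 - ‖ξ‖ ^ 2) = -(4 * π ^ 2 * (k + ‖ξ‖)) * (‖ξ‖ - k) by ring,
        abs_mul, abs_neg, abs_of_nonneg (by positivity), dd]
      ring
    rw [← l, e3]
    refine (norm_sub_le _ _).trans (add_le_add_left ((norm_sub_le _ _).trans
      (add_le_add_left ((norm_add_le _ _).trans (add_le_add ?_ ?_)) _)) _)
    · rw [norm_mul, norm_mul, Complex.norm_I, Complex.norm_real, Real.norm_eq_abs, abs_mul,
        abs_of_nonneg (by positivity), mul_one]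
      gcongr
    · rw [norm_mul, norm_mul, Complex.norm_I, Complex.norm_real, Real.norm_eq_abs, abs_mul,
        abs_of_nonneg (by positivity), mul_one]
      gcongr
  have hc : 0 < 4 * π ^ 2 * (k + ‖ξ‖) := by positivity
  refine le_of_mul_le_mul_left (e4.trans ?_) hc
  have c1 : 4 * π * ‖ξ‖ ≤ 4 * π ^ 2 * (k + ‖ξ‖) := by
    have : π ≤ π ^ 2 := by nlinarith
    gcongr
    linarith
  have c2 : 1 ≤ 4 * π ^ 2 * (k + ‖ξ‖) := by
    have : 1 ≤ 4 * π ^ 2 := by nlinarith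
    exact one_le_mul_of_one_le_of_one_le this (by linarith [norm_nonneg ξ])
  generalize 4 * π ^ 2 * (k + ‖ξ‖) = c at c1 c2
  have := mul_le_mul_of_nonneg_right c1 (norm_nonneg A0)
  have := mul_le_mul_of_nonneg_right c1 (norm_nonneg A1)
  have := mul_le_mul_of_nonneg_right c2 (norm_nonneg A00)
  have := mul_le_mul_of_nonneg_right c2 (norm_nonneg A11)
  linarith

structure Sol (O : Set E) (k : ℕ → ℝ) (V : ℕ → E → ℝ) : Prop where
  sm : ∀ n, Sm (V n)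
  l2 : ∃ C, ∀ᶠ n in atTop, ∫ x, V n x ^ 2 ≤ C
  helm : ∀ K, IsCompact K → K ⊆ O → ∀ᶠ n in atTop, ∀ x ∈ K,
    D 0 (D 0 (V n)) x + D 1 (D 1 (V n)) x = -(2 * π * k n) ^ 2 * V n x

lemma ev_shift {O K : Set E} (hO : IsOpen O) (hK : IsCompact K) (hKO : K ⊆ O) :
    ∃ K', IsCompact K' ∧ K' ⊆ O ∧ ∀ᶠ y in 𝓝 (0 : E), ∀ x ∈ K, x + y ∈ K' := by
  obtain ⟨δ, hδ, h⟩ := hK.exists_cthickening_subset_open hO hKO
  refine ⟨_, hK.cthickening, h, ?_⟩
  filter_upwards [Metric.closedBall_mem_nhds (0 : E) hδ] with y hy x hx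
  refine Metric.mem_cthickening_of_dist_le _ x _ _ hx ?_
  simpa using hy

lemma Sol.shift {O : Set E} (hO : IsOpen O) {k : ℕ → ℝ} {V : ℕ → E → ℝ} (h : Sol O k V)
    {y : ℕ → E} (hy : Tendsto y atTop (𝓝 0)) : Sol O k (fun n x => V n (x + y n)) := by
  refine ⟨fun n => (h.sm n).shift _, ?_, fun K hK hKO => ?_⟩
  · obtain ⟨C, hC⟩ := h.l2
    refine ⟨C, hC.mono fun n hn => ?_⟩
    rwa [integral_add_right_eq_self (fun x => V n x ^ 2)]
  · obtain ⟨K', h1, h2, h3⟩ := ev_shift hO hK hKO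
    filter_upwards [h.helm K' h1 h2, hy.eventually h3] with n hn hn' x hx
    simp only [D_shift]
    exact hn _ (hn' x hx)

structure WB (s : ℕ) (k C : ℝ) (F : E → ℂ) : Prop where
  le : ∀ ξ, (1 + dd k ξ) ^ s * ‖F ξ‖ ≤ C
  int : Integrable (fun ξ => ((1 + dd k ξ) ^ s * ‖F ξ‖) ^ 2)
  l2 : ∫ ξ, ((1 + dd k ξ) ^ s * ‖F ξ‖) ^ 2 ≤ C

lemma Sm.bound {f : E → ℝ} (hf : Sm f) : ∃ B, 0 ≤ B ∧ ∀ x, |f x| ≤ B := by
  obtain ⟨B, hB⟩ := hf.continuous.bounded_above_of_compact_support hf.supp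
  exact ⟨B, (norm_nonneg _).trans (hB 0), hB⟩

lemma Sm.sq {f : E → ℝ} (hf : Sm f) : Sm (fun x => f x ^ 2) := by
  simpa [_root_.sq] using hf.mul hf

lemma integral_abs_mul_le {f g : E → ℝ} (hf : Sm f) (hg : Sm g) :
    ∫ x, |f x * g x| ≤ ((∫ x, f x ^ 2) + ∫ x, g x ^ 2) / 2 := by
  rw [← integral_add hf.sq.integrable hg.sq.integrable, ← integral_div]
  refine integral_mono (hf.mul hg).integrable.abs
    ((hf.sq.integrable.add hg.sq.integrable).div_const 2) fun x => ?_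
  simp only []
  rw [abs_le]
  constructor <;> nlinarith [sq_nonneg (f x - g x), sq_nonneg (f x + g x)]

lemma Sol.wb {O : Set E} {k : ℕ → ℝ} (hk : Tendsto k atTop atTop) {V : ℕ → E → ℝ}
    (h : Sol O k V) (s : ℕ) : ∀ ψ, IsTest O ψ →
      ∃ C, ∀ᶠ n in atTop, WB s (k n) C (FT (fun x => ψ x * V n x)) := by
  induction s with
  | zero =>
    intro ψ hψ
    obtain ⟨C, hC⟩ := h.l2
    obtain ⟨B, hB0, hB⟩ := hψ.sm.bound
    refine ⟨max (((∫ x, ψ x ^ 2) + C) / 2) (B ^ 2 * C), hC.mono fun n hn => ?_⟩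
    have hw := hψ.sm.mul (h.sm n)
    refine ⟨fun ξ => ?_, by simpa using hw.integrable_sq_FT, ?_⟩
    · rw [pow_zero, one_mul]
      refine (norm_FT_le _ _).trans ((integral_abs_mul_le hψ.sm (h.sm n)).trans
        (le_trans ?_ (le_max_left _ _)))
      linarith
    · simp only [pow_zero, one_mul]
      rw [hw.plancherel]
      refine le_trans ?_ ((mul_le_mul_of_nonneg_left hn (sq_nonneg B)).trans (le_max_right _ _))
      rw [← integral_const_mul]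
      refine integral_mono hw.sq.integrable ((h.sm n).sq.integrable.const_mul _) fun x => ?_
      simp only [mul_pow]
      refine mul_le_mul_of_nonneg_right ?_ (sq_nonneg _)
      exact sq_le_sq' (abs_le.1 (hB x)).1 (abs_le.1 (hB x)).2
  | succ s ih =>
    intro ψ hψ
    obtain ⟨C, hC⟩ := ih ψ hψ
    obtain ⟨C0, h0⟩ := ih _ (hψ.D 0)
    obtain ⟨C1, h1⟩ := ih _ (hψ.D 1)
    obtain ⟨C00, h00⟩ := ih _ ((hψ.D 0).D 0)
    obtain ⟨C11, h11⟩ := ih _ ((hψ.D 1).D 1)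
    refine ⟨5 * (C + C0 + C1 + C00 + C11), ?_⟩
    filter_upwards [hC, h0, h1, h00, h11, hk.eventually_ge_atTop 1,
      h.helm _ hψ.2.1 hψ.2.2] with n a a0 a1 a00 a11 hk1 hh
    have key : ∀ ξ, (1 + dd (k n) ξ) ^ (s + 1) * ‖FT (fun x => ψ x * V n x) ξ‖ ≤
        (1 + dd (k n) ξ) ^ s * ‖FT (fun x => ψ x * V n x) ξ‖ +
        (1 + dd (k n) ξ) ^ s * ‖FT (fun x => D 0 ψ x * V n x) ξ‖ +
        (1 + dd (k n) ξ) ^ s * ‖FT (fun x => D 1 ψ x * V n x) ξ‖ +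
        (1 + dd (k n) ξ) ^ s * ‖FT (fun x => D 0 (D 0 ψ) x * V n x) ξ‖ +
        (1 + dd (k n) ξ) ^ s * ‖FT (fun x => D 1 (D 1 ψ) x * V n x) ξ‖ := by
      intro ξ
      have hp : 0 ≤ (1 + dd (k n) ξ) ^ s := by have := dd_nonneg (k n) ξ; positivity
      have := mul_le_mul_of_nonneg_left (helm_key hψ.sm (h.sm n) hk1 hh ξ) hp
      rw [pow_succ]
      linarith
    have nn : ∀ (F : E → ℂ) (t : ℕ) ξ, 0 ≤ (1 + dd (k n) ξ) ^ t * ‖F ξ‖ := fun F t ξ => by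
      have := dd_nonneg (k n) ξ; positivity
    have i5 := ((((a.int.add a0.int).add a1.int).add a00.int).add a11.int).const_mul 5
    have key2 : ∀ ξ, ((1 + dd (k n) ξ) ^ (s + 1) * ‖FT (fun x => ψ x * V n x) ξ‖) ^ 2 ≤
        5 * (((1 + dd (k n) ξ) ^ s * ‖FT (fun x => ψ x * V n x) ξ‖) ^ 2 +
        ((1 + dd (k n) ξ) ^ s * ‖FT (fun x => D 0 ψ x * V n x) ξ‖) ^ 2 +
        ((1 + dd (k n) ξ) ^ s * ‖FT (fun x => D 1 ψ x * V n x) ξ‖) ^ 2 +
        ((1 + dd (k n) ξ) ^ s * ‖FT (fun x => D 0 (D 0 ψ) x * V n x) ξ‖) ^ 2 +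
        ((1 + dd (k n) ξ) ^ s * ‖FT (fun x => D 1 (D 1 ψ) x * V n x) ξ‖) ^ 2) := by
      intro ξ
      refine (pow_le_pow_left₀ (nn _ _ _) (key ξ) 2).trans ?_
      generalize (1 + dd (k n) ξ) ^ s * ‖FT (fun x => ψ x * V n x) ξ‖ = x1
      generalize (1 + dd (k n) ξ) ^ s * ‖FT (fun x => D 0 ψ x * V n x) ξ‖ = x2
      generalize (1 + dd (k n) ξ) ^ s * ‖FT (fun x => D 1 ψ x * V n x) ξ‖ = x3
      generalize (1 + dd (k n) ξ) ^ s * ‖FT (fun x => D 0 (D 0 ψ) x * V n x) ξ‖ = x4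
      generalize (1 + dd (k n) ξ) ^ s * ‖FT (fun x => D 1 (D 1 ψ) x * V n x) ξ‖ = x5
      nlinarith [sq_nonneg (x1 - x2), sq_nonneg (x1 - x3), sq_nonneg (x1 - x4), sq_nonneg (x1 - x5),
        sq_nonneg (x2 - x3), sq_nonneg (x2 - x4), sq_nonneg (x2 - x5), sq_nonneg (x3 - x4),
        sq_nonneg (x3 - x5), sq_nonneg (x4 - x5)]
    have hc := (hψ.sm.mul (h.sm n)).continuous_FT
    have i6 : Integrable
        (fun ξ => ((1 + dd (k n) ξ) ^ (s + 1) * ‖FT (fun x => ψ x * V n x) ξ‖) ^ 2) := by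
      refine i5.mono' (Continuous.aestronglyMeasurable (by fun_prop))
        (Eventually.of_forall fun ξ => ?_)
      rw [Real.norm_of_nonneg (sq_nonneg _)]
      exact key2 ξ
    refine ⟨fun ξ => ?_, i6, (integral_mono i6 i5 key2).trans ?_⟩
    · have := key ξ
      have := a.le ξ
      have := a0.le ξ
      have := a1.le ξ
      have := a00.le ξ
      have := a11.le ξ
      have := nn (FT (fun x => ψ x * V n x)) (s + 1) ξ
      linarith
    · rw [integral_const_mul, integral_add' (((a.int.add a0.int).add a1.int).add a00.int) a11.int,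
        integral_add' ((a.int.add a0.int).add a1.int) a00.int,
        integral_add' (a.int.add a0.int) a1.int, integral_add' a.int a0.int]
      linarith [a.l2, a0.l2, a1.l2, a00.l2, a11.l2]

end

end Pool.Agent.P.MP_6b977f_mp
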