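import Pool.Agent.P.MP_6b977f_mp.FT

namespace Pool.Agent.P.MP_6b977f_mp

open Real MeasureTheory Filter Topology Complex

noncomputable section

set_option linter.unnecessarySeqFocus false

abbrev E3 : Type := E × E × E

def P4 (F1 F2 F3 F4 : E → ℂ) (q : E3) : ℂ :=
  F1 q.2.1 * F2 (q.1 - q.2.1) * (F3 q.2.2 * F4 (-q.1 - q.2.2))

def abc (q : E3) : E3 := (q.1, q.2.1 + q.2.2, q.2.1 - q.1 - q.2.2)

@[fun_prop] lemma continuous_abc : Continuous abc := by unfold abc; fun_prop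

@[fun_prop] lemma measurable_abc : Measurable abc := continuous_abc.measurable

def Lam (M : E3 → ℂ) (F1 F2 F3 F4 : E → ℂ) : ℂ := ∫ q, M (abc q) * P4 F1 F2 F3 F4 q

structure Good (F : E → ℂ) : Prop where
  meas : Measurable F
  int : Integrable F
  bdd : ∃ B, ∀ ξ, ‖F ξ‖ ≤ B

structure Bdd (M : E3 → ℂ) (B : ℝ) : Prop where
  meas : Measurable M
  le : ∀ p, ‖M p‖ ≤ B

instance : Measure.IsAddHaarMeasure (volume : Measure (E × E)) :=
  Measure.prod.instIsAddHaarMeasure _ _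

instance : Measure.IsAddHaarMeasure (volume : Measure E3) :=
  Measure.prod.instIsAddHaarMeasure _ _

lemma mp_of_invol (L : E3 →ₗ[ℝ] E3) (hL : Function.Involutive L) :
    MeasurePreserving L volume volume := by
  have hc : L ∘ₗ L = LinearMap.id := LinearMap.ext hL
  have hd : LinearMap.det L * LinearMap.det L = 1 := by
    rw [← LinearMap.det_comp, hc, LinearMap.det_id]
  have hd0 : LinearMap.det L ≠ 0 := by
    intro h
    rw [h] at hd
    simp at hd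
  have habs : |(LinearMap.det L)⁻¹| = 1 := by
    rw [abs_inv, inv_eq_one]
    rcases mul_self_eq_one_iff.1 hd with h | h <;> simp [h]
  refine ⟨L.continuous_of_finiteDimensional.measurable, ?_⟩
  rw [Measure.map_linearMap_addHaar_eq_smul_addHaar _ hd0, habs]
  simp

lemma integral_invol (L : E3 →ₗ[ℝ] E3) (hL : Function.Involutive L) (f : E3 → ℂ) :
    ∫ q, f (L q) = ∫ q, f q :=
  MeasurePreserving.integral_comp'
    (f := MeasurableEquiv.ofInvolutive L hL L.continuous_of_finiteDimensional.measurable)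
    (mp_of_invol L hL) f

def L0 : E3 →ₗ[ℝ] E3 where
  toFun q := (q.2.1 - q.1, q.2.1, q.2.2)
  map_add' p q := by ext <;> simp <;> ring
  map_smul' c p := by ext <;> simp <;> ring

def L1 : E3 →ₗ[ℝ] E3 where
  toFun q := (q.2.1 + q.2.2, q.2.1, q.1 - q.2.1)
  map_add' p q := by ext <;> simp <;> ring
  map_smul' c p := by ext <;> simp <;> ring

def L2 : E3 →ₗ[ℝ] E3 where
  toFun q := (q.2.1 - q.1 - q.2.2, q.2.1, q.2.2)
  map_add' p q := by ext <;> simp <;> ring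
  map_smul' c p := by ext <;> simp <;> ring

lemma L0_invol : Function.Involutive L0 := by
  intro q; ext <;> simp [L0]

lemma L1_invol : Function.Involutive L1 := by
  intro q; ext <;> simp [L1]

lemma L2_invol : Function.Involutive L2 := by
  intro q; ext <;> simp [L2]
  ring

def sw12 (p : E3) : E3 := (p.2.1, p.1, p.2.2)
def sw13 (p : E3) : E3 := (p.2.2, p.2.1, p.1)

@[fun_prop] lemma continuous_sw12 : Continuous sw12 := by unfold sw12; fun_prop
@[fun_prop] lemma continuous_sw13 : Continuous sw13 := by unfold sw13; fun_prop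

lemma Lam_sw12 (M : E3 → ℂ) (F1 F2 F3 F4 : E → ℂ) :
    Lam M F1 F2 F3 F4 = Lam (fun p => M (sw12 p)) F1 F3 F2 F4 := by
  unfold Lam
  rw [← integral_invol L1 L1_invol (fun q => M (sw12 (abc q)) * P4 F1 F3 F2 F4 q)]
  congr 1
  ext q
  have h1 : sw12 (abc (L1 q)) = abc q := by
    ext <;> simp [sw12, abc, L1]
    ring
  have h2 : P4 F1 F3 F2 F4 (L1 q) = P4 F1 F2 F3 F4 q := by
    have e1 : q.2.1 + q.2.2 - q.2.1 = q.2.2 := by abel
    have e2 : -(q.2.1 + q.2.2) - (q.1 - q.2.1) = -q.1 - q.2.2 := by abel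
    simp only [P4, L1, LinearMap.coe_mk, AddHom.coe_mk, e1, e2]
    ring
  rw [h1, h2]

lemma Lam_sw13 (M : E3 → ℂ) (F1 F2 F3 F4 : E → ℂ) :
    Lam M F1 F2 F3 F4 = Lam (fun p => M (sw13 p)) F1 F4 F3 F2 := by
  unfold Lam
  rw [← integral_invol L2 L2_invol (fun q => M (sw13 (abc q)) * P4 F1 F4 F3 F2 q)]
  congr 1
  ext q
  have h1 : sw13 (abc (L2 q)) = abc q := by
    ext <;> simp [sw13, abc, L2]
    ring
  have h2 : P4 F1 F4 F3 F2 (L2 q) = P4 F1 F2 F3 F4 q := by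
    have e1 : q.2.1 - q.1 - q.2.2 - q.2.1 = -q.1 - q.2.2 := by abel
    have e2 : -(q.2.1 - q.1 - q.2.2) - q.2.2 = q.1 - q.2.1 := by abel
    simp only [P4, L2, LinearMap.coe_mk, AddHom.coe_mk, e1, e2]
    ring
  rw [h1, h2]

lemma measurable_P4 {F1 F2 F3 F4 : E → ℂ} (h1 : Measurable F1) (h2 : Measurable F2)
    (h3 : Measurable F3) (h4 : Measurable F4) : Measurable (P4 F1 F2 F3 F4) := by
  unfold P4
  fun_prop

lemma integrable_three {F1 F2 F3 : E → ℂ} (h1 : Integrable F1) (h2 : Integrable F2)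
    (h3 : Integrable F3) :
    Integrable (fun q : E3 => F1 q.2.1 * F2 (q.1 - q.2.1) * F3 q.2.2) ∧
      ∫ q : E3, ‖F1 q.2.1 * F2 (q.1 - q.2.1) * F3 q.2.2‖ =
        (∫ ξ, ‖F1 ξ‖) * (∫ ξ, ‖F2 ξ‖) * ∫ ξ, ‖F3 ξ‖ := by
  have h2' : Integrable (fun x : E => F2 (-x)) := h2.comp_neg
  have hA : Integrable (fun q : E3 => F2 (-q.1) * (F1 q.2.1 * F3 q.2.2)) :=
    h2'.mul_prod (h1.mul_prod h3)
  have hB := (mp_of_invol L0 L0_invol).integrable_comp_of_integrable hA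
  have e : ∀ q : E3, F2 (-(L0 q).1) * (F1 (L0 q).2.1 * F3 (L0 q).2.2) =
      F1 q.2.1 * F2 (q.1 - q.2.1) * F3 q.2.2 := by
    intro q
    simp only [L0, LinearMap.coe_mk, AddHom.coe_mk, neg_sub]
    ring
  refine ⟨hB.congr (Eventually.of_forall e), ?_⟩
  have h := integral_invol L0 L0_invol
    (fun q : E3 => ((‖F2 (-q.1) * (F1 q.2.1 * F3 q.2.2)‖ : ℝ) : ℂ))
  simp only [e, integral_complex_ofReal] at h
  rw [Complex.ofReal_inj] at h
  rw [h]
  simp only [norm_mul]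
  have h5 := integral_prod_mul (μ := (volume : Measure E)) (ν := (volume : Measure (E × E)))
    (fun x : E => ‖F2 (-x)‖) (fun p : E × E => ‖F1 p.1‖ * ‖F3 p.2‖)
  have h6 := integral_prod_mul (μ := (volume : Measure E)) (ν := (volume : Measure E))
    (fun x : E => ‖F1 x‖) (fun x : E => ‖F3 x‖)
  have h7 : ∫ x : E, ‖F2 (-x)‖ = ∫ x : E, ‖F2 x‖ := integral_neg_eq_self (fun x => ‖F2 x‖) _
  rw [Measure.volume_eq_prod, h5, Measure.volume_eq_prod, h6, h7]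
  ring

lemma P4_eq (F1 F2 F3 F4 : E → ℂ) (q : E3) :
    P4 F1 F2 F3 F4 q = F4 (-q.1 - q.2.2) * (F1 q.2.1 * F2 (q.1 - q.2.1) * F3 q.2.2) := by
  unfold P4; ring

lemma integrable_P4 {F1 F2 F3 F4 : E → ℂ} (h1 : Good F1) (h2 : Good F2) (h3 : Good F3)
    (h4 : Good F4) : Integrable (P4 F1 F2 F3 F4) := by
  obtain ⟨B, hB⟩ := h4.bdd
  have h := (integrable_three h1.int h2.int h3.int).1
  have hm : Measurable fun q : E3 => F4 (-q.1 - q.2.2) := by have := h4.meas; fun_prop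
  exact (h.bdd_mul hm.aestronglyMeasurable (Eventually.of_forall fun q => hB _)).congr
    (Eventually.of_forall fun q => (P4_eq _ _ _ _ q).symm)

lemma integrable_Lam {M : E3 → ℂ} {B : ℝ} (hM : Bdd M B) {F1 F2 F3 F4 : E → ℂ} (h1 : Good F1)
    (h2 : Good F2) (h3 : Good F3) (h4 : Good F4) :
    Integrable (fun q => M (abc q) * P4 F1 F2 F3 F4 q) :=
  (integrable_P4 h1 h2 h3 h4).bdd_mul (hM.meas.comp measurable_abc).aestronglyMeasurable
    (Eventually.of_forall fun _ => hM.le _)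

lemma norm_Lam_le {M : E3 → ℂ} {B : ℝ} (hM : Bdd M B) {F1 F2 F3 F4 : E → ℂ} (h1 : Good F1)
    (h2 : Good F2) (h3 : Good F3) {B4 : ℝ} (h4 : ∀ ξ, ‖F4 ξ‖ ≤ B4) :
    ‖Lam M F1 F2 F3 F4‖ ≤ B * B4 * ((∫ ξ, ‖F1 ξ‖) * (∫ ξ, ‖F2 ξ‖) * ∫ ξ, ‖F3 ξ‖) := by
  obtain ⟨hi, he⟩ := integrable_three h1.int h2.int h3.int
  have hB0 : 0 ≤ B := (norm_nonneg _).trans (hM.le 0)
  rw [← he, ← integral_const_mul]
  refine norm_integral_le_of_norm_le (hi.norm.const_mul _) (Eventually.of_forall fun q => ?_)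
  rw [P4_eq, norm_mul, norm_mul, ← mul_assoc]
  refine mul_le_mul_of_nonneg_right ?_ (norm_nonneg _)
  exact mul_le_mul (hM.le _) (h4 _) (norm_nonneg _) hB0

lemma Good.sub {F G : E → ℂ} (hF : Good F) (hG : Good G) : Good (fun ξ => F ξ - G ξ) := by
  obtain ⟨B, hB⟩ := hF.bdd
  obtain ⟨C, hC⟩ := hG.bdd
  exact ⟨hF.meas.sub hG.meas, hF.int.sub hG.int,
    ⟨B + C, fun ξ => (norm_sub_le _ _).trans (add_le_add (hB ξ) (hC ξ))⟩⟩

lemma Lam_telescope {M : E3 → ℂ} {B : ℝ} (hM : Bdd M B) {F1 F2 F3 F4 G1 G2 G3 G4 : E → ℂ}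
    (h1 : Good F1) (h2 : Good F2) (h3 : Good F3) (h4 : Good F4)
    (g1 : Good G1) (g2 : Good G2) (g3 : Good G3) (g4 : Good G4) :
    Lam M F1 F2 F3 F4 - Lam M G1 G2 G3 G4 =
      Lam M (fun ξ => F1 ξ - G1 ξ) F2 F3 F4 + Lam M G1 (fun ξ => F2 ξ - G2 ξ) F3 F4 +
        Lam M G1 G2 (fun ξ => F3 ξ - G3 ξ) F4 + Lam M G1 G2 G3 (fun ξ => F4 ξ - G4 ξ) := by
  unfold Lam
  have i1 := integrable_Lam hM (h1.sub g1) h2 h3 h4
  have i2 := integrable_Lam hM g1 (h2.sub g2) h3 h4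
  have i3 := integrable_Lam hM g1 g2 (h3.sub g3) h4
  have i4 := integrable_Lam hM g1 g2 g3 (h4.sub g4)
  have a1 := integral_add i1 i2
  have a2 := integral_add (i1.add i2) i3
  have a3 := integral_add ((i1.add i2).add i3) i4
  simp only [Pi.add_apply] at a2 a3
  rw [← integral_sub (integrable_Lam hM h1 h2 h3 h4) (integrable_Lam hM g1 g2 g3 g4),
    ← a1, ← a2, ← a3]
  congr 1
  ext q
  simp only [P4]
  ring

lemma Lam_add {M N : E3 → ℂ} {B C : ℝ} (hM : Bdd M B) (hN : Bdd N C) {F1 F2 F3 F4 : E → ℂ}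
    (h1 : Good F1) (h2 : Good F2) (h3 : Good F3) (h4 : Good F4) :
    Lam (fun p => M p + N p) F1 F2 F3 F4 = Lam M F1 F2 F3 F4 + Lam N F1 F2 F3 F4 := by
  unfold Lam
  rw [← integral_add (integrable_Lam hM h1 h2 h3 h4) (integrable_Lam hN h1 h2 h3 h4)]
  congr 1
  ext q
  ring

lemma Bdd.add {M N : E3 → ℂ} {B C : ℝ} (hM : Bdd M B) (hN : Bdd N C) :
    Bdd (fun p => M p + N p) (B + C) :=
  ⟨hM.meas.add hN.meas, fun p => (norm_add_le _ _).trans (add_le_add (hM.le p) (hN.le p))⟩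

lemma Bdd.mul {M N : E3 → ℂ} {B C : ℝ} (hM : Bdd M B) (hN : Bdd N C) :
    Bdd (fun p => M p * N p) (B * C) :=
  ⟨hM.meas.mul hN.meas, fun p => by
    rw [norm_mul]
    exact mul_le_mul (hM.le p) (hN.le p) (norm_nonneg _) ((norm_nonneg _).trans (hM.le p))⟩

lemma Bdd.comp {M : E3 → ℂ} {B : ℝ} (hM : Bdd M B) {φ : E3 → E3} (hφ : Measurable φ) :
    Bdd (fun p => M (φ p)) B := ⟨hM.meas.comp hφ, fun _ => hM.le _⟩

lemma Lam_congr {M N : E3 → ℂ} {F1 F2 F3 F4 : E → ℂ}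
    (h : ∀ q, P4 F1 F2 F3 F4 q ≠ 0 → M (abc q) = N (abc q)) :
    Lam M F1 F2 F3 F4 = Lam N F1 F2 F3 F4 := by
  unfold Lam
  congr 1
  ext q
  by_cases hq : P4 F1 F2 F3 F4 q = 0
  · simp [hq]
  · rw [h q hq]

/-- convolution -/
def conv (F G : E → ℂ) (η : E) : ℂ := ∫ ξ, F ξ * G (η - ξ)

lemma integrable_conv {F G : E → ℂ} (hF : Good F) (hG : Good G) : Integrable (conv F G) :=
  hF.int.integrable_convolution (ContinuousLinearMap.mul ℝ ℂ) hG.int

lemma norm_conv_le {F G : E → ℂ} (hF : Good F) {B : ℝ} (hG : ∀ ξ, ‖G ξ‖ ≤ B) (η : E) :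
    ‖conv F G η‖ ≤ B * ∫ ξ, ‖F ξ‖ := by
  rw [← integral_const_mul]
  refine norm_integral_le_of_norm_le (hF.int.norm.const_mul _) (Eventually.of_forall fun ξ => ?_)
  rw [norm_mul, mul_comm]
  exact mul_le_mul_of_nonneg_right (hG _) (norm_nonneg _)

lemma integrable_conv_sq {F G : E → ℂ} (hF : Good F) (hG : Good G) :
    Integrable (fun η => ‖conv F G η‖ ^ 2) := by
  obtain ⟨B, hB⟩ := hG.bdd
  have h := (integrable_conv hF hG).norm
  have : Integrable (fun η => ‖conv F G η‖ * ‖conv F G η‖) := by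
    refine h.bdd_mul (c := B * ∫ ξ, ‖F ξ‖) h.aestronglyMeasurable ?_
    exact Eventually.of_forall fun η => by simpa using norm_conv_le hF hB η
  simpa [sq] using this

lemma Lam_inner {M : E3 → ℂ} {B : ℝ} (hM : Bdd M B) {F1 F2 F3 F4 : E → ℂ} (h1 : Good F1)
    (h2 : Good F2) (h3 : Good F3) (h4 : Good F4) :
    Lam M F1 F2 F3 F4 = ∫ η, ∫ p : E × E, M (abc (η, p)) * P4 F1 F2 F3 F4 (η, p) := by
  unfold Lam
  rw [Measure.volume_eq_prod, integral_prod _ (integrable_Lam hM h1 h2 h3 h4)]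

lemma Lam_fst {g : E → ℂ} {B : ℝ} (hg : Measurable g) (hB : ∀ x, ‖g x‖ ≤ B)
    {F1 F2 F3 F4 : E → ℂ} (h1 : Good F1) (h2 : Good F2) (h3 : Good F3) (h4 : Good F4) :
    Lam (fun p => g p.1) F1 F2 F3 F4 = ∫ η, g η * (conv F1 F2 η * conv F3 F4 (-η)) := by
  rw [Lam_inner (M := fun p => g p.1) (B := B) ⟨hg.comp measurable_fst, fun p => hB _⟩ h1 h2 h3 h4]
  congr 1
  ext η
  simp only [abc, P4]
  rw [integral_const_mul]
  congr 1
  have := integral_prod_mul (μ := (volume : Measure E)) (ν := (volume : Measure E))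
    (fun ξ : E => F1 ξ * F2 (η - ξ)) (fun ζ : E => F3 ζ * F4 (-η - ζ))
  rw [Measure.volume_eq_prod, this]
  rfl

def tilde (F : E → ℂ) (ξ : E) : ℂ := (starRingEnd ℂ) (F (-ξ))

lemma Good.tilde {F : E → ℂ} (hF : Good F) : Good (tilde F) := by
  obtain ⟨B, hB⟩ := hF.bdd
  refine ⟨?_, ?_, ⟨B, fun ξ => by simpa [MP_6b977f_mp.tilde] using hB (-ξ)⟩⟩
  · exact Complex.continuous_conj.measurable.comp (hF.meas.comp measurable_neg)
  · exact (Complex.conjCLE.toContinuousLinearMap.integrable_comp hF.int.comp_neg)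

lemma tilde_tilde (F : E → ℂ) : tilde (tilde F) = F := by
  ext ξ; simp [tilde]

lemma conv_tilde (F G : E → ℂ) (η : E) :
    conv (tilde F) (tilde G) (-η) = (starRingEnd ℂ) (conv F G η) := by
  unfold conv tilde
  rw [← integral_conj, ← integral_neg_eq_self]
  congr 1
  ext ξ
  have : -(-η - -ξ) = η - ξ := by abel
  rw [this, neg_neg, map_mul]

lemma Lam_sq {g : E → ℝ} {B : ℝ} (hg : Measurable g) (hB : ∀ x, |g x| ≤ B)
    {F1 F2 : E → ℂ} (h1 : Good F1) (h2 : Good F2) :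
    Lam (fun p => (g p.1 : ℂ)) F1 F2 (tilde F1) (tilde F2) =
      ((∫ η, g η * ‖conv F1 F2 η‖ ^ 2 : ℝ) : ℂ) := by
  rw [Lam_fst (g := fun x => (g x : ℂ)) (B := B) (by fun_prop) (fun x => by simpa using hB x)
    h1 h2 h1.tilde h2.tilde, ← integral_complex_ofReal]
  congr 1
  ext η
  rw [conv_tilde, Complex.mul_conj, Complex.normSq_eq_norm_sq]
  push_cast
  ring

lemma norm_Lam_fst_le {g : E → ℝ} {B : ℝ} (hg : Measurable g) (h0 : ∀ x, 0 ≤ g x)
    (hB : ∀ x, g x ≤ B) (he : ∀ x, g (-x) = g x)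
    {F1 F2 F3 F4 : E → ℂ} (h1 : Good F1) (h2 : Good F2) (h3 : Good F3) (h4 : Good F4) :
    ‖Lam (fun p => (g p.1 : ℂ)) F1 F2 F3 F4‖ ≤
      ((∫ η, g η * ‖conv F1 F2 η‖ ^ 2) + ∫ η, g η * ‖conv F3 F4 η‖ ^ 2) / 2 := by
  have hB' : ∀ x, ‖g x‖ ≤ B := fun x => by rw [Real.norm_of_nonneg (h0 x)]; exact hB x
  rw [Lam_fst (g := fun x => (g x : ℂ)) (B := B) (by fun_prop) (fun x => by simpa using hB' x)
    h1 h2 h3 h4]
  have i1 : Integrable (fun η => g η * ‖conv F1 F2 η‖ ^ 2) :=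
    (integrable_conv_sq h1 h2).bdd_mul hg.aestronglyMeasurable (Eventually.of_forall hB')
  have i2 : Integrable (fun η => g η * ‖conv F3 F4 η‖ ^ 2) :=
    (integrable_conv_sq h3 h4).bdd_mul hg.aestronglyMeasurable (Eventually.of_forall hB')
  have i3 : Integrable (fun η => g (-η) * ‖conv F3 F4 (-η)‖ ^ 2) := i2.comp_neg
  rw [← integral_neg_eq_self (fun η => g η * ‖conv F3 F4 η‖ ^ 2), ← integral_add i1 i3,
    ← integral_div]
  refine norm_integral_le_of_norm_le ((i1.add i3).div_const 2) (Eventually.of_forall fun η => ?_)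
  rw [norm_mul, norm_mul, he, Complex.norm_real, Real.norm_of_nonneg (h0 η)]
  nlinarith [mul_nonneg (h0 η) (sq_nonneg (‖conv F1 F2 η‖ - ‖conv F3 F4 (-η)‖))]

lemma U2 {f g : E → ℂ} (hf : Good f) (hg : Good g) :
    ∫ η, ‖conv f g η‖ ^ 2 ≤ ((∫ η, ‖conv f f η‖ ^ 2) + ∫ η, ‖conv g g η‖ ^ 2) / 2 := by
  have key : ∀ {f g : E → ℂ}, Good f → Good g →
      Lam (fun _ => 1) f g (tilde f) (tilde g) = ((∫ η, ‖conv f g η‖ ^ 2 : ℝ) : ℂ) := by
    intro f g hf hg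
    have := Lam_sq (g := fun _ => 1) (B := 1) measurable_const (by simp) hf hg
    simpa using this
  have key2 : ∀ {f : E → ℂ}, Good f →
      ∫ η, ‖conv f (tilde f) η‖ ^ 2 = ∫ η, ‖conv f f η‖ ^ 2 := by
    intro f hf
    have h1 := key hf hf.tilde
    rw [tilde_tilde, Lam_sw13, key hf hf] at h1
    exact (Complex.ofReal_inj.1 h1).symm
  have h1 := key hf hg
  rw [Lam_sw12] at h1
  have h2 := norm_Lam_fst_le (g := fun _ => 1) (B := 1) measurable_const (by simp) (by simp)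
    (by simp) hf hf.tilde hg hg.tilde
  simp only [Complex.ofReal_one, one_mul] at h2
  rw [h1, key2 hf, key2 hg, Complex.norm_real] at h2
  exact (le_abs_self _).trans h2

end

end Pool.Agent.P.MP_6b977f_mp
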