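import Pool.Agent.P.MP_6b977f_mp.SW
import Pool.Agent.P.MP_6b977f_mp.Geom

namespace Pool.Agent.P.MP_6b977f_mp

open Real MeasureTheory Filter Topology Complex
open scoped RealInnerProductSpace

noncomputable section

def wt (k : ℝ) (F : E → ℂ) (ξ : E) : ℝ := (1 + dd k ξ) ^ 3 * ‖F ξ‖

lemma wt_nonneg (k : ℝ) (F : E → ℂ) (ξ : E) : 0 ≤ wt k F ξ := by
  have := dd_nonneg k ξ
  unfold wt
  positivity

lemma norm_le_wt (k : ℝ) (F : E → ℂ) (ξ : E) : ‖F ξ‖ ≤ wt k F ξ := by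
  have := dd_nonneg k ξ
  unfold wt
  refine le_mul_of_one_le_left (norm_nonneg _) (one_le_pow₀ (by linarith))

structure TrAt (k C : ℝ) (F : E → ℂ) : Prop where
  good : Good F
  supp : ∀ ξ, F ξ ≠ 0 → dd k ξ ≤ √k
  wint : Integrable (fun ξ => wt k F ξ ^ 2)
  wle : ∫ ξ, wt k F ξ ^ 2 ≤ C

lemma TrAt.mono {k C C' : ℝ} {F : E → ℂ} (h : TrAt k C F) (hC : C ≤ C') : TrAt k C' F :=
  ⟨h.good, h.supp, h.wint, h.wle.trans hC⟩

lemma TrAt.nonneg {k C : ℝ} {F : E → ℂ} (h : TrAt k C F) : 0 ≤ C :=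
  (integral_nonneg fun _ => sq_nonneg _).trans h.wle

def Tr (k : ℕ → ℝ) (F : ℕ → E → ℂ) : Prop := ∃ C, ∀ᶠ n in atTop, TrAt (k n) C (F n)

def Corr (k : ℕ → ℝ) (F G : ℕ → E → ℂ) (c : E → ℂ) (v0 : E) : Prop :=
  ∀ η v, Tendsto (fun n => ∫ ξ, ex ⟪(k n)⁻¹ • ξ, v⟫ * (F n ξ * G n (η - ξ))) atTop
    (𝓝 (c η * J0 (v + v0)))

def W (M : E3 → ℂ) (v v' : E) : ℂ :=
  ∫ p : E × E, M (0, p.1 + p.2, p.1 - p.2) * (ex ⟪p.1, v⟫ * ex ⟪p.2, v'⟫) ∂(om.prod om)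

lemma measurable_wt {k : ℝ} {F : E → ℂ} (h : Measurable F) : Measurable (wt k F) := by
  unfold wt; fun_prop

lemma amgm {k C : ℝ} {F G : E → ℂ} (hF : TrAt k C F) (hG : TrAt k C G) (η : E) :
    Integrable (fun ξ => wt k F ξ * wt k G (η - ξ)) ∧ ∫ ξ, wt k F ξ * wt k G (η - ξ) ≤ C := by
  have i2 : Integrable (fun ξ => wt k G (η - ξ) ^ 2) := hG.wint.comp_sub_left η
  have i3 : Integrable (fun ξ => (wt k F ξ ^ 2 + wt k G (η - ξ) ^ 2) / 2) :=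
    (hF.wint.add i2).div_const 2
  have hle : ∀ ξ, wt k F ξ * wt k G (η - ξ) ≤ (wt k F ξ ^ 2 + wt k G (η - ξ) ^ 2) / 2 :=
    fun ξ => by nlinarith [sq_nonneg (wt k F ξ - wt k G (η - ξ))]
  have hm : Measurable (fun ξ => wt k F ξ * wt k G (η - ξ)) :=
    (measurable_wt hF.good.meas).mul ((measurable_wt hG.good.meas).comp (by fun_prop))
  have i4 : Integrable (fun ξ => wt k F ξ * wt k G (η - ξ)) := by
    refine i3.mono' hm.aestronglyMeasurable (Eventually.of_forall fun ξ => ?_)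
    rw [Real.norm_of_nonneg (mul_nonneg (wt_nonneg _ _ _) (wt_nonneg _ _ _))]
    exact hle ξ
  refine ⟨i4, (integral_mono i4 i3 hle).trans ?_⟩
  rw [integral_div, integral_add hF.wint i2,
    integral_sub_left_eq_self (fun ξ => wt k G ξ ^ 2) _ η]
  linarith [hF.wle, hG.wle]

lemma amgm4 {k C : ℝ} {F1 F2 F3 F4 : E → ℂ} (h1 : TrAt k C F1) (h2 : TrAt k C F2)
    (h3 : TrAt k C F3) (h4 : TrAt k C F4) (η : E) :
    Integrable (fun p : E × E => wt k F1 p.1 * wt k F2 (η - p.1) *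
      (wt k F3 p.2 * wt k F4 (-η - p.2))) ∧
    ∫ p : E × E, wt k F1 p.1 * wt k F2 (η - p.1) * (wt k F3 p.2 * wt k F4 (-η - p.2)) ≤ C * C := by
  obtain ⟨a1, a2⟩ := amgm h1 h2 η
  obtain ⟨b1, b2⟩ := amgm h3 h4 (-η)
  refine ⟨a1.mul_prod b1, ?_⟩
  have := integral_prod_mul (μ := (volume : Measure E)) (ν := (volume : Measure E))
    (fun ξ : E => wt k F1 ξ * wt k F2 (η - ξ)) (fun ζ : E => wt k F3 ζ * wt k F4 (-η - ζ))
  rw [Measure.volume_eq_prod, this]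
  exact mul_le_mul a2 b2 (integral_nonneg fun ξ => mul_nonneg (wt_nonneg _ _ _) (wt_nonneg _ _ _))
    h1.nonneg

lemma norm_P4_le (k : ℝ) (F1 F2 F3 F4 : E → ℂ) (η : E) (p : E × E) :
    ‖P4 F1 F2 F3 F4 (η, p)‖ ≤
      wt k F1 p.1 * wt k F2 (η - p.1) * (wt k F3 p.2 * wt k F4 (-η - p.2)) := by
  simp only [P4, norm_mul]
  have := wt_nonneg k F1 p.1
  have := wt_nonneg k F2 (η - p.1)
  have := wt_nonneg k F3 p.2
  gcongr <;> exact norm_le_wt _ _ _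

lemma P4_ne {F1 F2 F3 F4 : E → ℂ} {q : E3} (h : P4 F1 F2 F3 F4 q ≠ 0) :
    F1 q.2.1 ≠ 0 ∧ F2 (q.1 - q.2.1) ≠ 0 ∧ F3 q.2.2 ≠ 0 ∧ F4 (-q.1 - q.2.2) ≠ 0 := by
  simp only [P4, ne_eq, mul_eq_zero, not_or] at h
  exact ⟨h.1.1, h.1.2, h.2.1, h.2.2⟩

lemma abc_smul (t : ℝ) (q : E3) : abc (t • q) = t • abc q := by
  ext <;> simp [abc, mul_sub]

lemma norm_sq_smul_inv {k : ℝ} (hk : 0 < k) (x : E) : ‖k⁻¹ • x‖ ^ 2 = ‖x‖ ^ 2 / k ^ 2 := by
  rw [norm_smul, Real.norm_of_nonneg (by positivity), mul_pow]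
  field_simp

lemma real_aux {r e1 e2 e3 e4 x N B m : ℝ} (hr : 0 < r) (d1 : 0 ≤ e1) (d2 : 0 ≤ e2) (d3 : 0 ≤ e3)
    (d4 : 0 ≤ e4) (hx : 0 ≤ x) (g : x ≤ 17 / r * (e1 + e2 + e3 + e4)) (hN : 0 ≤ N) (hB0 : 0 ≤ B)
    (hm : m ≤ B) :
    m * N ≤ B * (1 + 17 / r) ^ 3 * (1 + x) ^ (-3 : ℝ) *
      (N * ((1 + e1) * (1 + e2) * ((1 + e3) * (1 + e4))) ^ 3) := by
  have hp : 1 + (e1 + e2 + e3 + e4) ≤ (1 + e1) * (1 + e2) * ((1 + e3) * (1 + e4)) := by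
    have t1 : 1 + (e1 + e2) ≤ (1 + e1) * (1 + e2) := by nlinarith [mul_nonneg d1 d2]
    have t2 : 1 + (e3 + e4) ≤ (1 + e3) * (1 + e4) := by nlinarith [mul_nonneg d3 d4]
    have := mul_le_mul t1 t2 (by positivity) (by positivity)
    nlinarith [mul_nonneg (add_nonneg d1 d2) (add_nonneg d3 d4)]
  generalize (1 + e1) * (1 + e2) * ((1 + e3) * (1 + e4)) = P at hp ⊢
  have hs : 0 ≤ e1 + e2 + e3 + e4 := by positivity
  generalize e1 + e2 + e3 + e4 = s at hp g hs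
  have hr' : 0 ≤ 17 / r := by positivity
  generalize 17 / r = t at g hr' ⊢
  have hq : 1 + x ≤ (1 + t) * P := by
    refine le_trans ?_ (mul_le_mul_of_nonneg_left hp (by positivity))
    nlinarith
  have hq3 := pow_le_pow_left₀ (by positivity) hq 3
  have hη : 0 < 1 + x := by positivity
  rw [Real.rpow_neg hη.le, show (3 : ℝ) = ((3 : ℕ) : ℝ) by norm_num, Real.rpow_natCast]
  have h5 : 1 ≤ (1 + t) ^ 3 * ((1 + x) ^ 3)⁻¹ * P ^ 3 := by
    rw [mul_right_comm, ← mul_pow, ← div_eq_mul_inv, le_div_iff₀ (by positivity), one_mul]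
    exact hq3
  calc m * N ≤ B * N := mul_le_mul_of_nonneg_right hm hN
    _ = B * N * 1 := by ring
    _ ≤ B * N * ((1 + t) ^ 3 * ((1 + x) ^ 3)⁻¹ * P ^ 3) :=
      mul_le_mul_of_nonneg_left h5 (mul_nonneg hB0 hN)
    _ = _ := by ring

lemma inner_bound {k C r B : ℝ} (hr : 0 < r) (hk : 1 ≤ k) (hk2 : 72 ≤ r ^ 2 * k)
    {F1 F2 F3 F4 : E → ℂ} (h1 : TrAt k C F1) (h2 : TrAt k C F2)
    (h3 : TrAt k C F3) (h4 : TrAt k C F4) {M : E3 → ℂ} (hB : ∀ p, ‖M p‖ ≤ B)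
    (hM : ∀ p : E3, ‖p.2.1‖ ^ 2 < r ∨ ‖p.2.2‖ ^ 2 < r → M p = 0) (η : E) :
    ‖∫ p : E × E, M (k⁻¹ • abc (η, p)) * P4 F1 F2 F3 F4 (η, p)‖ ≤
      B * (1 + 17 / r) ^ 3 * (C * C) * (1 + ‖η‖) ^ (-3 : ℝ) := by
  obtain ⟨a1, a2⟩ := amgm4 h1 h2 h3 h4 η
  have hB0 : 0 ≤ B := (norm_nonneg _).trans (hB 0)
  have hk0 : 0 < k := by linarith
  have hc : 0 ≤ B * (1 + 17 / r) ^ 3 * (1 + ‖η‖) ^ (-3 : ℝ) := by positivity
  have : B * (1 + 17 / r) ^ 3 * (C * C) * (1 + ‖η‖) ^ (-3 : ℝ) =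
      B * (1 + 17 / r) ^ 3 * (1 + ‖η‖) ^ (-3 : ℝ) * (C * C) := by ring
  rw [this]
  refine le_trans ?_ (mul_le_mul_of_nonneg_left a2 hc)
  rw [← integral_const_mul]
  refine norm_integral_le_of_norm_le (a1.const_mul _) (Eventually.of_forall fun p => ?_)
  have w1 := wt_nonneg k F1 p.1
  have w2 := wt_nonneg k F2 (η - p.1)
  have w3 := wt_nonneg k F3 p.2
  have w4 := wt_nonneg k F4 (-η - p.2)
  by_cases hz : P4 F1 F2 F3 F4 (η, p) = 0
  · rw [hz, mul_zero, norm_zero]; positivity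
  by_cases hm : M (k⁻¹ • abc (η, p)) = 0
  · rw [hm, zero_mul, norm_zero]; positivity
  obtain ⟨n1, n2, n3, n4⟩ := P4_ne hz
  have hm' := mt (hM _) hm
  rw [not_or, not_lt, not_lt] at hm'
  obtain ⟨hb, hc'⟩ := hm'
  simp only [abc, Prod.smul_mk, norm_sq_smul_inv hk0] at hb hc'
  rw [le_div_iff₀ (by positivity)] at hb hc'
  have g := geom1 hr hk hk2 η p.1 p.2 (h1.supp _ n1) (h2.supp _ n2) (h3.supp _ n3) (h4.supp _ n4)
    hb hc'
  have hP : wt k F1 p.1 * wt k F2 (η - p.1) * (wt k F3 p.2 * wt k F4 (-η - p.2)) =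
      ‖P4 F1 F2 F3 F4 (η, p)‖ * ((1 + dd k p.1) * (1 + dd k (η - p.1)) *
        ((1 + dd k p.2) * (1 + dd k (-η - p.2)))) ^ 3 := by
    simp only [P4, norm_mul, wt]
    ring
  rw [hP, norm_mul]
  exact real_aux hr (dd_nonneg _ _) (dd_nonneg _ _) (dd_nonneg _ _) (dd_nonneg _ _)
    (norm_nonneg _) g (norm_nonneg _) hB0 (hB _)

lemma integrable_P4_inner {k C : ℝ} {F1 F2 F3 F4 : E → ℂ} (h1 : TrAt k C F1) (h2 : TrAt k C F2)
    (h3 : TrAt k C F3) (h4 : TrAt k C F4) (η : E) :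
    Integrable (fun p : E × E => P4 F1 F2 F3 F4 (η, p)) ∧
      ∫ p : E × E, ‖P4 F1 F2 F3 F4 (η, p)‖ ≤ C * C := by
  obtain ⟨a1, a2⟩ := amgm4 h1 h2 h3 h4 η
  have hm : Measurable (fun p : E × E => P4 F1 F2 F3 F4 (η, p)) :=
    (measurable_P4 h1.good.meas h2.good.meas h3.good.meas h4.good.meas).comp (by fun_prop)
  have i : Integrable (fun p : E × E => P4 F1 F2 F3 F4 (η, p)) :=
    a1.mono' hm.aestronglyMeasurable (Eventually.of_forall fun p => norm_P4_le k _ _ _ _ η p)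
  exact ⟨i, (integral_mono i.norm a1 fun p => norm_P4_le k _ _ _ _ η p).trans a2⟩

lemma Tr4 {k : ℕ → ℝ} {F1 F2 F3 F4 : ℕ → E → ℂ} (h1 : Tr k F1) (h2 : Tr k F2) (h3 : Tr k F3)
    (h4 : Tr k F4) : ∃ C, ∀ᶠ n in atTop, TrAt (k n) C (F1 n) ∧ TrAt (k n) C (F2 n) ∧
      TrAt (k n) C (F3 n) ∧ TrAt (k n) C (F4 n) := by
  obtain ⟨C1, h1⟩ := h1
  obtain ⟨C2, h2⟩ := h2
  obtain ⟨C3, h3⟩ := h3
  obtain ⟨C4, h4⟩ := h4
  refine ⟨max (max C1 C2) (max C3 C4), ?_⟩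
  filter_upwards [h1, h2, h3, h4] with n a1 a2 a3 a4
  exact ⟨a1.mono (by simp), a2.mono (by simp), a3.mono (by simp), a4.mono (by simp)⟩

lemma integral_om_ex2 (v v' : E) :
    ∫ p : E × E, ex ⟪p.1, v⟫ * ex ⟪p.2, v'⟫ ∂(om.prod om) = (J0 v : ℂ) * J0 v' := by
  rw [integral_prod_mul (μ := om) (ν := om) (fun x : E => ex ⟪x, v⟫) (fun x : E => ex ⟪x, v'⟫),
    integral_om_ex, integral_om_ex]

lemma inner_tendsto {k : ℕ → ℝ} (hk : Tendsto k atTop atTop) {F1 F2 F3 F4 : ℕ → E → ℂ} {C : ℝ}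
    (h : ∀ᶠ n in atTop, TrAt (k n) C (F1 n) ∧ TrAt (k n) C (F2 n) ∧
      TrAt (k n) C (F3 n) ∧ TrAt (k n) C (F4 n)) {c c' : E → ℂ} {v v' : E}
    (hc : Corr k F1 F2 c v) (hc' : Corr k F3 F4 c' v') {M : E3 → ℂ} (hM : Continuous M) (η : E) :
    Tendsto (fun n => ∫ p : E × E, M ((k n)⁻¹ • abc (η, p)) * P4 (F1 n) (F2 n) (F3 n) (F4 n) (η, p))
      atTop (𝓝 (c η * c' (-η) * W M v v')) := by
  have hK : IsCompact (Metric.closedBall (0 : E3) 2) := isCompact_closedBall _ _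
  set C' := max (C * C) ‖c η * c' (-η)‖ with hC'
  have key := SW_tendsto (μ := (volume : Measure (E × E))) (ν := om.prod om) hK (C := C')
    (T := fun n p => (k n)⁻¹ • ((η, p) : E3))
    (Z := fun n p => P4 (F1 n) (F2 n) (F3 n) (F4 n) (η, p))
    (T0 := fun p => ((0, p) : E3))
    (Z0 := fun p => c η * c' (-η) * (ex ⟪p.1, v⟫ * ex ⟪p.2, v'⟫)) ?_ ?_ ?_
    (f := fun q => M (abc q)) (by fun_prop)
  · simp only [abc_smul] at key
    convert key using 2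
    unfold W
    rw [← integral_const_mul]
    congr 1
    ext p
    simp only [abc, sub_zero]
    ring
  · filter_upwards [h, hk.eventually_ge_atTop 1, hk.eventually_ge_atTop ‖η‖] with n hn hk1 hk2
    obtain ⟨h1, h2, h3, h4⟩ := hn
    obtain ⟨i1, i2⟩ := integrable_P4_inner h1 h2 h3 h4 η
    refine ⟨by fun_prop, i1, i2.trans (le_max_left _ _), Eventually.of_forall fun p hp => ?_⟩
    obtain ⟨n1, -, n3, -⟩ := P4_ne hp
    have b1 := norm_le_of_dd hk1 (h1.supp _ n1)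
    have b3 := norm_le_of_dd hk1 (h3.supp _ n3)
    have hk0 : 0 < k n := by linarith
    rw [mem_closedBall_zero_iff, norm_smul, Real.norm_of_nonneg (by positivity),
      inv_mul_le_iff₀ hk0]
    simp only [Prod.norm_def] at b1 b3 ⊢
    refine max_le (by linarith) (max_le (by linarith) (by linarith))
  · have hn : ∀ p : E × E, ‖c η * c' (-η) * (ex ⟪p.1, v⟫ * ex ⟪p.2, v'⟫)‖ = ‖c η * c' (-η)‖ := by
      intro p
      simp [norm_ex]
    refine ⟨by fun_prop, ?_, ?_, ?_⟩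
    · refine Integrable.of_bound (Continuous.aestronglyMeasurable (by fun_prop)) ‖c η * c' (-η)‖
        (Eventually.of_forall fun p => (hn p).le)
    · simp only [hn]
      simp [hC']
    · filter_upwards [ae_norm_prod] with p hp _
      rw [mem_closedBall_zero_iff]
      simp only [Prod.norm_def, hp.1, hp.2]
      norm_num
  · intro w
    have e0 : ∫ p : E × E, ex (ip3 ((0, p) : E3) w) *
        (c η * c' (-η) * (ex ⟪p.1, v⟫ * ex ⟪p.2, v'⟫)) ∂(om.prod om) =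
        1 * (c η * J0 (w.2.1 + v) * (c' (-η) * J0 (w.2.2 + v'))) := by
      have : ∀ p : E × E, ex (ip3 ((0, p) : E3) w) *
          (c η * c' (-η) * (ex ⟪p.1, v⟫ * ex ⟪p.2, v'⟫)) =
          c η * c' (-η) * (ex ⟪p.1, w.2.1 + v⟫ * ex ⟪p.2, w.2.2 + v'⟫) := by
        intro p
        simp only [ip3, inner_zero_left, zero_add, inner_add_right, ex_add]
        ring
      simp_rw [this]
      rw [integral_const_mul, integral_om_ex2]
      ring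
    rw [e0]
    have t0 : Tendsto (fun n => ex ⟪(k n)⁻¹ • η, w.1⟫) atTop (𝓝 1) := by
      have h1 : Tendsto (fun n => (k n)⁻¹) atTop (𝓝 0) := hk.inv_tendsto_atTop
      have h2 : Continuous fun t : ℝ => ex ⟪t • η, w.1⟫ := by fun_prop
      have := (h2.tendsto 0).comp h1
      simpa [Function.comp_def] using this
    refine (t0.mul ((hc η w.2.1).mul (hc' (-η) w.2.2))).congr fun n => ?_
    have := integral_prod_mul (μ := (volume : Measure E)) (ν := (volume : Measure E))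
      (fun ξ : E => ex ⟪(k n)⁻¹ • ξ, w.2.1⟫ * (F1 n ξ * F2 n (η - ξ)))
      (fun ζ : E => ex ⟪(k n)⁻¹ • ζ, w.2.2⟫ * (F3 n ζ * F4 n (-η - ζ)))
    rw [← this, ← integral_const_mul, Measure.volume_eq_prod]
    congr 1
    ext p
    simp only [ip3, P4, Prod.smul_mk, Prod.smul_fst, Prod.smul_snd, ex_add]
    ring

lemma Bdd.scale {M : E3 → ℂ} {B : ℝ} (hM : Continuous M) (hB : ∀ p, ‖M p‖ ≤ B) (t : ℝ) :
    Bdd (fun p => M (t • p)) B := ⟨by fun_prop, fun _ => hB _⟩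

lemma main_pair {k : ℕ → ℝ} (hk : Tendsto k atTop atTop) {F1 F2 F3 F4 : ℕ → E → ℂ}
    (h1 : Tr k F1) (h2 : Tr k F2) (h3 : Tr k F3) (h4 : Tr k F4) {c c' : E → ℂ} {v v' : E}
    (hc : Corr k F1 F2 c v) (hc' : Corr k F3 F4 c' v') {M : E3 → ℂ} (hM : Continuous M) {B r : ℝ}
    (hB : ∀ p, ‖M p‖ ≤ B) (hr : 0 < r)
    (hM0 : ∀ p : E3, ‖p.2.1‖ ^ 2 < r ∨ ‖p.2.2‖ ^ 2 < r → M p = 0) :
    Tendsto (fun n => Lam (fun p => M ((k n)⁻¹ • p)) (F1 n) (F2 n) (F3 n) (F4 n)) atTop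
      (𝓝 ((∫ η, c η * c' (-η)) * W M v v')) := by
  obtain ⟨C, h⟩ := Tr4 h1 h2 h3 h4
  rw [← integral_mul_const]
  have hint : Integrable (fun η : E => B * (1 + 17 / r) ^ 3 * (C * C) * (1 + ‖η‖) ^ (-3 : ℝ)) :=
    (integrable_one_add_norm (by simp; norm_num)).const_mul _
  have key := tendsto_integral_filter_of_dominated_convergence (l := atTop)
    (F := fun n η => ∫ p : E × E, M ((k n)⁻¹ • abc (η, p)) * P4 (F1 n) (F2 n) (F3 n) (F4 n) (η, p))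
    (f := fun η => c η * c' (-η) * W M v v') _ ?_ ?_ hint
    (Eventually.of_forall fun η => inner_tendsto hk h hc hc' hM η)
  · refine key.congr' ?_
    filter_upwards [h] with n hn
    rw [Lam_inner (Bdd.scale hM hB _) hn.1.good hn.2.1.good hn.2.2.1.good hn.2.2.2.good]
  · filter_upwards [h] with n hn
    have := integrable_Lam (Bdd.scale hM hB (k n)⁻¹) hn.1.good hn.2.1.good hn.2.2.1.good
      hn.2.2.2.good
    rw [Measure.volume_eq_prod] at this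
    exact this.integral_prod_left.aestronglyMeasurable
  · filter_upwards [h, hk.eventually_ge_atTop 1, hk.eventually_ge_atTop (72 / r ^ 2)]
      with n hn hk1 hk2
    refine Eventually.of_forall fun η => ?_
    refine inner_bound hr hk1 ?_ hn.1 hn.2.1 hn.2.2.1 hn.2.2.2 hB hM0 η
    rw [div_le_iff₀ (by positivity)] at hk2
    linarith

end

end Pool.Agent.P.MP_6b977f_mp
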