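import Pool.Agent.P.MP_6b977f_mp.Asym2

namespace Pool.Agent.P.MP_6b977f_mp

open Real MeasureTheory Filter Topology Complex
open scoped RealInnerProductSpace ContDiff

noncomputable section

lemma an_one_of_dd {ρ : ℝ} (hρ : 0 < ρ) :
    ∀ᶠ k : ℝ in atTop, ∀ ξ : E, dd k ξ ≤ √k → an 1 ρ (k⁻¹ • ξ) = 1 := by
  filter_upwards [eventually_ge_atTop 1, eventually_ge_atTop ((3 / ρ) ^ 2)] with k hk h3 ξ hξ
  have hk0 : 0 < k := by linarith
  have hss : √k * √k = k := Real.mul_self_sqrt hk0.le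
  refine an_one hρ ?_
  rw [norm_sq_smul_inv hk0, div_sub_one (by positivity), abs_div,
    abs_of_pos (by positivity : 0 < k ^ 2), div_le_iff₀ (by positivity)]
  refine (sq_sub_le hk hξ).trans ?_
  have h5 : 3 / ρ ≤ √k := Real.le_sqrt_of_sq_le h3
  rw [div_le_iff₀ hρ] at h5
  have := dd_nonneg k ξ
  calc 3 * k * dd k ξ ≤ (√k * ρ) * k * √k := by gcongr
    _ = ρ * k * (√k * √k) := by ring
    _ = ρ * k ^ 2 := by rw [hss]; ring

lemma NB.mo {A : ℝ} {F : E → ℂ} (h : NB A F) (w : E) : NB A (mo w F) := by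
  have : ∀ ξ, ‖MP_6b977f_mp.mo w F ξ‖ = ‖F ξ‖ := fun ξ => by
    rw [MP_6b977f_mp.mo, norm_mul, norm_ex, one_mul]
  exact ⟨h.good.mo w, fun ξ => (this ξ).le.trans (h.le ξ), by simpa only [this] using h.l1⟩

lemma Fam.three {k : ℕ → ℝ} {F : ℕ → E → ℂ} {I : ℝ} (h : Fam k F I) {F1 : ℕ → E → ℂ}
    (h1 : Conc k F1) (v v' : E) :
    Tendsto (fun n => ∫ η, conv (mo ((k n)⁻¹ • v) (F n)) (mo ((k n)⁻¹ • v') (F n)) η * F1 n (-η))
      atTop (𝓝 0) := by
  rw [Metric.tendsto_nhds]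
  intro ε hε
  obtain ⟨C0, hC0⟩ := h1.wb 0
  obtain ⟨C1, hC1⟩ := h1.close h.hk
  obtain ⟨C, hC⟩ := h.conc.close h.hk
  obtain ⟨t, ht, hA⟩ := eps_mul (A := C0) (show 0 < ε / 4 by positivity)
  obtain ⟨ρ, h3, hρ⟩ := ((h.third (v - v') (show 0 < t * (ε / 4) by positivity)).and
    self_mem_nhdsWithin).exists
  filter_upwards [hC0, hC1, hC, h3, h.hk.eventually (an_one_of_dd hρ), h.hk.eventually_ge_atTop 0,
    (tendsto_div_one_add h.hk (C * C * |C1|)).eventually (gt_mem_nhds (half_pos hε))]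
    with n a0 a1 a2 a3 a4 hk0 a5
  set G := conv (mo ((k n)⁻¹ • v) (F n)) (mo ((k n)⁻¹ • v') (F n)) with hG
  have g1 := a2.1.mo ((k n)⁻¹ • v)
  have g2 := a2.1.mo ((k n)⁻¹ • v')
  have iG : Integrable G := integrable_conv g1.good g2.good
  have iG2 : Integrable fun η => ‖G η‖ ^ 2 := integrable_conv_sq g1.good g2.good
  have bG : ∀ η, ‖G η‖ ≤ C * (1 + k n) ^ 3 * (C * (1 + k n) ^ 3) := fun η =>
    (norm_conv_le g1.good g2.le η).trans (mul_le_mul_of_nonneg_left g1.l1 g2.nonneg)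
  have hi : ∀ {H : E → ℂ}, Good H → Integrable (fun η => G η * H (-η)) := fun hH => by
    obtain ⟨B, hB⟩ := hH.bdd
    exact iG.mul_bdd (c := B) (hH.meas.comp measurable_neg).aestronglyMeasurable
      (Eventually.of_forall fun η => hB _)
  have e : ∫ η, G η * F1 n (-η) =
      (∫ η, G η * tr k F1 n (-η)) + ∫ η, G η * (F1 n (-η) - tr k F1 n (-η)) := by
    rw [← integral_add (hi a1.2.1.good) (hi a1.2.2.good)]
    congr 1
    ext η
    ring
  have b1 : ‖∫ η, G η * (F1 n (-η) - tr k F1 n (-η))‖ ≤ C * C * |C1| / (1 + k n) := by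
    have i := a1.2.2.good.int.comp_neg.norm.const_mul (C * (1 + k n) ^ 3 * (C * (1 + k n) ^ 3))
    refine (norm_integral_le_of_norm_le i (Eventually.of_forall fun η => ?_)).trans ?_
    · rw [norm_mul]
      exact mul_le_mul_of_nonneg_right (bG η) (norm_nonneg _)
    · rw [integral_const_mul, integral_neg_eq_self (fun η => ‖F1 n η - tr k F1 n η‖)]
      refine (mul_le_mul_of_nonneg_left a1.2.2.l1 (mul_self_nonneg _)).trans ?_
      have h0 : 1 ≤ 1 + k n := by linarith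
      have := mul_self_nonneg C
      calc _ = C * C * C1 / (1 + k n) ^ 4 := by field_simp
        _ ≤ C * C * |C1| / (1 + k n) ^ 4 := by gcongr; exact le_abs_self _
        _ ≤ C * C * |C1| / (1 + k n) ^ 1 := by gcongr; norm_num
        _ = _ := by rw [pow_one]
  have b2 : ‖∫ η, G η * tr k F1 n (-η)‖ ≤ ε / 4 + ε / 4 := by
    have i1 : Integrable (fun η => ‖F1 n η‖ ^ 2) := by simpa using a0.int
    have l1 : ∫ η, ‖F1 n η‖ ^ 2 ≤ C0 := by simpa using a0.l2
    have i2 : Integrable (fun η => an 1 ρ ((k n)⁻¹ • η) * ‖G η‖ ^ 2) :=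
      iG2.bdd_mul (c := 1) (Continuous.aestronglyMeasurable (by fun_prop))
        (Eventually.of_forall fun η => (U01_an 1 ρ).abs_le _)
    have i3 : Integrable (fun η => t * ‖F1 n (-η)‖ ^ 2) := i1.comp_neg.const_mul t
    have i4 : Integrable (fun η => t⁻¹ * (an 1 ρ ((k n)⁻¹ • η) * ‖G η‖ ^ 2)) := i2.const_mul _
    have i5 : Integrable
      (fun η => t * ‖F1 n (-η)‖ ^ 2 + t⁻¹ * (an 1 ρ ((k n)⁻¹ • η) * ‖G η‖ ^ 2)) := i3.add i4
    refine (norm_integral_le_of_norm_le i5 (Eventually.of_forall fun η => ?_)).trans ?_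
    · have := (U01_an 1 ρ).nonneg ((k n)⁻¹ • η)
      unfold tr
      split_ifs with hx
      · rw [a4 η (by rwa [dd_neg] at hx), norm_mul, one_mul]
        have := sq_nonneg (t * ‖F1 n (-η)‖ - ‖G η‖)
        have p := mul_nonneg (norm_nonneg (G η)) (norm_nonneg (F1 n (-η)))
        refine le_of_mul_le_mul_left ?_ ht
        rw [mul_add, ← mul_assoc t t⁻¹, mul_inv_cancel₀ ht.ne']
        nlinarith [mul_nonneg ht.le p]
      · rw [mul_zero, norm_zero]; positivity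
    · rw [integral_add i3 i4, integral_const_mul, integral_const_mul,
        integral_neg_eq_self (fun η => ‖F1 n η‖ ^ 2)]
      refine add_le_add (hA _ l1) ?_
      rw [inv_mul_le_iff₀ ht]
      refine le_trans (le_of_eq ?_) a3
      simp only [Dn, DD, hG, norm_conv_mo, smul_sub]
  rw [dist_zero_right, e]
  exact (norm_add_le _ _).trans_lt (by linarith)

lemma Sm.good {f : E → ℝ} (hf : Sm f) : Good (FT f) :=
  ⟨hf.continuous_FT.measurable, hf.integrable_FT, _, norm_FT_le f⟩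

lemma tilde_FT (f : E → ℝ) : tilde (FT f) = FT f := by
  ext ξ; simp [tilde, FT_neg]

lemma conv_FT {f g : E → ℝ} (hf : Sm f) (hg : Sm g) :
    conv (FT f) (FT g) = FT (fun x => f x * g x) := funext fun η => hf.FT_conv hg η

def kk (lam : ℕ → ℝ) (n : ℕ) : ℝ := √(lam n) / (2 * π)

lemma mo_FT (f : E → ℝ) (lam : ℕ → ℝ) (n : ℕ) (v : E) :
    mo ((kk lam n)⁻¹ • v) (FT f) = FT (fun x => f (x + (√(lam n))⁻¹ • v)) := by
  ext ξ
  rw [FT_shift, mo, real_inner_smul_right, real_inner_smul_left, real_inner_comm, kk, inv_div]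
  congr 2
  ring

lemma Lam_one_FT {f1 f2 f3 f4 : E → ℝ} (h1 : Sm f1) (h2 : Sm f2) (h3 : Sm f3) (h4 : Sm f4) :
    Lam (fun _ => 1) (FT f1) (FT f2) (FT f3) (FT f4) =
      ((∫ x, f1 x * f2 x * (f3 x * f4 x) : ℝ) : ℂ) := by
  rw [Lam_fst (g := fun _ => 1) (B := 1) measurable_const (by simp) h1.good h2.good h3.good h4.good,
    conv_FT h1 h2, conv_FT h3 h4, ← (h1.mul h2).FT_pair (h3.mul h4)]
  simp

lemma Sm.unif {f : E → ℝ} (hf : Sm f) {ε : ℝ} (hε : 0 < ε) :
    ∀ᶠ y in 𝓝 (0 : E), ∀ z, |f (z + y) - f z| ≤ ε := by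
  obtain ⟨δ, hδ, h⟩ := Metric.uniformContinuous_iff.1
    (hf.supp.uniformContinuous_of_continuous hf.continuous) ε hε
  filter_upwards [Metric.ball_mem_nhds (0 : E) hδ] with y hy z
  exact (h (a := z + y) (b := z) (by simpa using hy)).le

lemma FT_cos_sin {g : E → ℝ} (hg : Integrable g) (η : E) :
    FT g η = ((∫ x, Real.cos (-2 * π * ⟪x, η⟫) * g x : ℝ) : ℂ) +
      ((∫ x, Real.sin (-2 * π * ⟪x, η⟫) * g x : ℝ) : ℂ) * I := by
  have i1 : Integrable (fun x => Real.cos (-2 * π * ⟪x, η⟫) * g x) :=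
    hg.bdd_mul (c := 1) (Continuous.aestronglyMeasurable (by fun_prop))
      (Eventually.of_forall fun _ => Real.abs_cos_le_one _)
  have i2 : Integrable (fun x => Real.sin (-2 * π * ⟪x, η⟫) * g x) :=
    hg.bdd_mul (c := 1) (Continuous.aestronglyMeasurable (by fun_prop))
      (Eventually.of_forall fun _ => Real.abs_sin_le_one _)
  have j1 : Integrable (fun x => ((Real.cos (-2 * π * ⟪x, η⟫) * g x : ℝ) : ℂ)) := i1.ofReal
  have j2 : Integrable (fun x => ((Real.sin (-2 * π * ⟪x, η⟫) * g x : ℝ) : ℂ)) := i2.ofReal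
  rw [FT_eq, ← integral_complex_ofReal, ← integral_complex_ofReal, ← integral_mul_const,
    ← integral_add j1 (j2.mul_const I)]
  congr 1
  ext x
  rw [ex_eq]
  push_cast
  ring

lemma IsTest.mul_left {O : Set E} {a g : E → ℝ} (h : IsTest O a) (hg : ContDiff ℝ ∞ g) :
    IsTest O (fun x => g x * a x) :=
  ⟨hg.mul h.1, h.2.1.mul_left, (tsupport_mul_subset_right).trans h.2.2⟩

lemma IsTest.pow {O : Set E} {a : E → ℝ} (h : IsTest O a) (m : ℕ) :
    IsTest O (fun x => a x ^ (m + 1)) := by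
  simpa only [pow_succ] using h.mul_left (h.1.pow m)

structure Model (O : Set E) (lam : ℕ → ℝ) (U : ℕ → E → ℝ) : Prop where
  op : IsOpen O
  hl : Tendsto lam atTop atTop
  sol : Sol O (kk lam) U
  qe : Equidistributed O U lam

lemma tendsto_kk {lam : ℕ → ℝ} (h : Tendsto lam atTop atTop) : Tendsto (kk lam) atTop atTop :=
  (Real.tendsto_sqrt_atTop.comp h).atTop_div_const (by positivity)

lemma tendsto_hv {lam : ℕ → ℝ} (h : Tendsto lam atTop atTop) (v : E) :
    Tendsto (fun n => (√(lam n))⁻¹ • v) atTop (𝓝 0) := by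
  simpa using (Real.tendsto_sqrt_atTop.comp h).inv_tendsto_atTop.smul_const v

lemma Model.corr2 {O : Set E} {lam : ℕ → ℝ} {U : ℕ → E → ℝ} (h : Model O lam U) {a : E → ℝ}
    (ha : IsTest O a) (η v : E) :
    Tendsto (fun n => FT (fun x => a x * (U n x * U n (x + (√(lam n))⁻¹ • v))) η) atTop
      (𝓝 (FT a η * J0 v)) := by
  have q : ∀ {g : E → ℝ}, ContDiff ℝ ∞ g → Tendsto
      (fun n => ((∫ x, g x * (a x * (U n x * U n (x + (√(lam n))⁻¹ • v))) : ℝ) : ℂ)) atTop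
      (𝓝 ((J0 v * ∫ x, g x * a x : ℝ) : ℂ)) := by
    intro g hg
    refine (Complex.continuous_ofReal.tendsto _).comp ?_
    have := h.qe _ (ha.mul_left hg) v
    unfold corr at this
    simpa [Fin.prod_univ_two, mul_assoc] using this
  have c0 : ContDiff ℝ ∞ (fun x : E => -2 * π * ⟪x, η⟫) :=
    contDiff_const.mul (contDiff_id.inner ℝ contDiff_const)
  have := (q c0.cos).add ((q c0.sin).mul_const I)
  rw [FT_cos_sin ha.sm.integrable]
  convert this using 2 with n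
  · exact FT_cos_sin (ha.sm.mul ((h.sol.sm n).mul ((h.sol.sm n).shift _))).integrable η
  · push_cast; ring

lemma Model.fam {O : Set E} {lam : ℕ → ℝ} {U : ℕ → E → ℝ} (h : Model O lam U) {ψ : E → ℝ}
    (hψ : IsTest O ψ) : Fam (kk lam) (fun n => FT (fun x => ψ x * U n x)) (∫ x, ψ x ^ 4) := by
  refine ⟨tendsto_kk h.hl, h.sol.conc (tendsto_kk h.hl) hψ, fun n => tilde_FT _,
    FT (fun x => ψ x ^ 2), fun η v => ?_, ?_⟩
  swap
  · rw [hψ.sm.sq.FT_pair hψ.sm.sq]
    congr 2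
    ext x
    ring
  rw [add_zero]
  have key : Tendsto (fun n => FT (fun x => (ψ (x + (√(lam n))⁻¹ • v) - ψ x) * ψ x *
      (U n x * U n (x + (√(lam n))⁻¹ • v))) η) atTop (𝓝 0) := by
    rw [Metric.tendsto_nhds]
    intro ε hε
    obtain ⟨C, hC⟩ := h.sol.l2
    obtain ⟨B, hB0, hB⟩ := hψ.sm.bound
    obtain ⟨e, he, hA⟩ := eps_mul (A := B * C) (half_pos hε)
    filter_upwards [hC, (tendsto_hv h.hl v).eventually (hψ.sm.unif he)] with n h1 h2
    have s1 := h.sol.sm n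
    have s2 := s1.shift ((√(lam n))⁻¹ • v)
    rw [dist_zero_right]
    refine (norm_FT_le _ _).trans_lt (lt_of_le_of_lt ?_ (half_lt_self hε))
    have b1 := integral_abs_mul_le s1 s2
    rw [integral_add_right_eq_self (fun x => U n x ^ 2)] at b1
    refine le_trans ?_ (hA (B * ∫ x, |U n x * U n (x + (√(lam n))⁻¹ • v)|)
      (mul_le_mul_of_nonneg_left (by linarith) hB0))
    rw [← integral_const_mul, ← integral_const_mul]
    refine integral_mono_of_nonneg (Eventually.of_forall fun x => abs_nonneg _)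
      (((s1.mul s2).integrable.abs.const_mul _).const_mul _) (Eventually.of_forall fun x => ?_)
    simp only []
    rw [abs_mul, abs_mul, mul_assoc]
    gcongr
    · exact h2 x
    · exact hB x
  have := key.add (h.corr2 (hψ.pow 1) η v)
  rw [zero_add] at this
  refine this.congr fun n => ?_
  have s1 := h.sol.sm n
  have s2 := s1.shift ((√(lam n))⁻¹ • v)
  have s3 := hψ.sm.mul s1
  have s4 : Sm (fun x => (ψ (x + (√(lam n))⁻¹ • v) - ψ x) * ψ x) :=
    (hψ.mul_left ((hψ.sm.shift _).smooth.sub hψ.1)).sm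
  rw [← FT_add (s4.mul (s1.mul s2)).integrable ((hψ.pow 1).sm.mul (s1.mul s2)).integrable]
  have e := (s3.shift ((√(lam n))⁻¹ • v)).FT_conv s3 η
  rw [← mo_FT (fun x => ψ x * U n x)] at e
  simp only [mo, real_inner_smul_right, real_inner_smul_left, mul_assoc] at e ⊢
  rw [e]
  congr 1
  ext x
  ring

lemma TT_FT {f : E → ℝ} (hf : Sm f) : TT (FT f) = ∫ x, f x ^ 4 := by
  rw [TT, conv_FT hf hf, (hf.mul hf).plancherel]
  congr 1
  ext x
  ring

lemma exists_test {O K : Set E} (hO : IsOpen O) (hK : IsCompact K) (hKO : K ⊆ O) :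
    ∃ χ, IsTest O χ ∧ (∀ x ∈ K, χ x = 1) ∧ ∀ x, 0 ≤ χ x ∧ χ x ≤ 1 := by
  obtain ⟨L, hL, h1, h2⟩ := exists_compact_between hK hO hKO
  obtain ⟨f, f1, f2, f3⟩ := exists_contMDiffMap_one_nhds_of_subset_interior (n := ⊤)
    (modelWithCornersSelf ℝ E) hK.isClosed h1
  have hs : tsupport f ⊆ L :=
    closure_minimal (fun x hx => by_contra fun h => hx (f2 x h)) hL.isClosed
  exact ⟨f, ⟨f.contMDiff.contDiff, hL.of_isClosed_subset (isClosed_tsupport _) hs, hs.trans h2⟩,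
    fun x hx => f1.self_of_nhdsSet x hx, f3⟩

lemma Model.three {O : Set E} {lam : ℕ → ℝ} {U : ℕ → E → ℝ} (h : Model O lam U) {a : E → ℝ}
    (ha : IsTest O a) (v : Fin 3 → E) : Tendsto (corr U lam a v) atTop (𝓝 0) := by
  obtain ⟨K, hK, hKO, hev⟩ := ev_shift h.op ha.2.1 ha.2.2
  obtain ⟨ψ, hψ, h1, -⟩ := exists_test h.op hK hKO
  have c1 := (h.sol.shift h.op (tendsto_hv h.hl (v 0))).conc (tendsto_kk h.hl) ha
  have := (Complex.continuous_re.tendsto _).comp ((h.fam hψ).three c1 (v 1) (v 2))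
  refine Tendsto.congr' ?_ this
  filter_upwards [(tendsto_hv h.hl (v 1)).eventually hev, (tendsto_hv h.hl (v 2)).eventually hev]
    with n e1 e2
  have s3 := hψ.sm.mul (h.sol.sm n)
  simp only [Function.comp, mo_FT]
  rw [conv_FT (s3.shift _) (s3.shift _), ((s3.shift _).mul (s3.shift _)).FT_pair
    (ha.sm.mul ((h.sol.sm n).shift _)), Complex.ofReal_re, corr]
  congr 1
  ext z
  rw [Fin.prod_univ_three]
  by_cases hz : z ∈ tsupport a
  · rw [h1 _ (e1 z hz), h1 _ (e2 z hz)]; ring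
  · rw [image_eq_zero_of_notMem_tsupport hz]; ring

end

end Pool.Agent.P.MP_6b977f_mp
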