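import Pool.Agent.P.MP_6b977f_mp.Phys

namespace Pool.Agent.P.MP_6b977f_mp

open Real MeasureTheory Filter Topology Complex
open scoped RealInnerProductSpace ContDiff

noncomputable section

lemma J0_neg (v : E) : J0 (-v) = J0 v := by
  unfold J0
  congr 2
  ext t
  rw [← Real.cos_neg]
  congr 1
  simp only [PiLp.neg_apply]
  ring

lemma prod4_sub {a b c d x B e : ℝ} (hb : |b| ≤ B) (hc : |c| ≤ B) (hd : |d| ≤ B)
    (hx : |x| ≤ B) (ea : |a - x| ≤ e) (eb : |b - x| ≤ e) (ec : |c - x| ≤ e) (ed : |d - x| ≤ e) :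
    |a * b * (c * d) - x ^ 4| ≤ e * (4 * B ^ 3) := by
  have hB : 0 ≤ B := (abs_nonneg _).trans hx
  have he : 0 ≤ e := (abs_nonneg _).trans ea
  have t : ∀ {p q r s : ℝ}, |p| ≤ e → |q| ≤ B → |r| ≤ B → |s| ≤ B →
      |p * q * r * s| ≤ e * B * B * B := by
    intro p q r s hp hq hr hs
    simp only [abs_mul]
    gcongr
  have : a * b * (c * d) - x ^ 4 = (a - x) * b * c * d + (b - x) * x * c * d +
    (c - x) * x * x * d + (d - x) * x * x * x := by ring
  rw [this]
  refine (abs_add_le _ _).trans ((add_le_add ((abs_add_le _ _).trans (add_le_add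
    ((abs_add_le _ _).trans (add_le_add (t ea hb hc hd) (t eb hx hc hd))) (t ec hx hx hd)))
    (t ed hx hx hx)).trans (le_of_eq (by ring)))

lemma abs_prod4_le (a b c d : ℝ) : |a * b * (c * d)| ≤ (a ^ 4 + b ^ 4 + (c ^ 4 + d ^ 4)) / 4 := by
  rw [abs_le]
  constructor <;> nlinarith [sq_nonneg (a * b - c * d), sq_nonneg (a * b + c * d),
    sq_nonneg (a ^ 2 - b ^ 2), sq_nonneg (c ^ 2 - d ^ 2)]

lemma Sm.pow {f : E → ℝ} (hf : Sm f) (m : ℕ) : Sm (fun x => f x ^ (m + 1)) :=
  (IsTest.pow (O := Set.univ) ⟨hf.1, hf.2, Set.subset_univ _⟩ m).sm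

lemma integral_prod4_le {f : E → ℝ} (hf : Sm f) (y : Fin 4 → E) :
    ∫ z, |f (z + y 0) * f (z + y 1) * (f (z + y 2) * f (z + y 3))| ≤ ∫ z, f z ^ 4 := by
  have i : ∀ j, Integrable (fun z => f (z + y j) ^ 4) := fun j => ((hf.shift _).pow 3).integrable
  have e : ∀ j, ∫ z, f (z + y j) ^ 4 = ∫ z, f z ^ 4 := fun j =>
    integral_add_right_eq_self (fun z => f z ^ 4) _
  have i1 : Integrable (fun z => f (z + y 0) ^ 4 + f (z + y 1) ^ 4) := (i 0).add (i 1)
  have i2 : Integrable (fun z => f (z + y 2) ^ 4 + f (z + y 3) ^ 4) := (i 2).add (i 3)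
  have i3 : Integrable (fun z => (f (z + y 0) ^ 4 + f (z + y 1) ^ 4 +
    (f (z + y 2) ^ 4 + f (z + y 3) ^ 4)) / 4) := (i1.add i2).div_const 4
  refine (integral_mono_of_nonneg (Eventually.of_forall fun z => abs_nonneg _) i3
    (Eventually.of_forall fun z => abs_prod4_le _ _ _ _)).trans (le_of_eq ?_)
  rw [integral_div, integral_add i1 i2, integral_add (i 0) (i 1), integral_add (i 2) (i 3)]
  simp only [e]
  ring

lemma Model.four {O : Set E} {lam : ℕ → ℝ} {U : ℕ → E → ℝ} (h : Model O lam U) {ψ : E → ℝ}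
    (hψ : IsTest O ψ)
    (hT : Tendsto (fun n => ∫ x, (ψ x * U n x) ^ 4) atTop (𝓝 (3 * ∫ x, ψ x ^ 4)))
    {C : ℝ} (hC : ∀ᶠ n in atTop, ∫ x, U n x ^ 4 ≤ C) (v : Fin 4 → E) :
    Tendsto (corr U lam (fun x => ψ x ^ 4) v) atTop (𝓝 (wick v * ∫ x, ψ x ^ 4)) := by
  set t : E := (1 / 2 : ℝ) • (v 1 + v 2 + v 3 - v 0) with ht
  have h4 := (h.fam hψ).four (by simpa only [TT_FT (hψ.sm.mul (h.sol.sm _))] using hT)
    (v 1 - t, v 2 - t, v 3 - t)
  have e0 : v 1 - t + (v 2 - t) + (v 3 - t) = v 0 - t := by rw [ht]; module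
  have e1 : v 2 - t + (v 3 - t) = v 0 - v 1 := by rw [ht]; module
  have e2 : v 1 - t + (v 3 - t) = v 0 - v 2 := by rw [ht]; module
  have e3 : v 2 - t + (v 1 - t) = v 0 - v 3 := by rw [ht]; module
  have e4 : v 2 - v 1 = -(v 1 - v 2) := by abel
  simp only [e1, e2, e3, sub_sub_sub_cancel_right, e4, J0_neg] at h4
  have h5 : Tendsto (fun n => ∫ z,
      ψ (z + (√(lam n))⁻¹ • v 0) * ψ (z + (√(lam n))⁻¹ • v 1) *
        (ψ (z + (√(lam n))⁻¹ • v 2) * ψ (z + (√(lam n))⁻¹ • v 3)) *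
      (U n (z + (√(lam n))⁻¹ • v 0) * U n (z + (√(lam n))⁻¹ • v 1) *
        (U n (z + (√(lam n))⁻¹ • v 2) * U n (z + (√(lam n))⁻¹ • v 3)))) atTop
      (𝓝 (wick v * ∫ x, ψ x ^ 4)) := by
    have := (Complex.continuous_re.tendsto _).comp h4
    convert this using 2 with n
    · have s3 := hψ.sm.mul (h.sol.sm n)
      have l := Lam_mo (fun _ => 1) (FT fun x => ψ x * U n x)
        ((kk lam n)⁻¹ • ((v 1 - t, v 2 - t, v 3 - t) : E3))
      simp only [Prod.smul_mk, ← smul_add, e0, mo_FT, one_mul] at l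
      rw [Lam_one_FT (s3.shift _) (s3.shift _) (s3.shift _) (s3.shift _)] at l
      have l2 : LS (kk lam) (fun n => FT fun x => ψ x * U n x)
          (fun p => ex (ip3 p (v 1 - t, v 2 - t, v 3 - t))) n = _ := Eq.trans (by
        simp only [LS, ip3, Prod.smul_fst, Prod.smul_snd, real_inner_smul_left,
          real_inner_smul_right]) l
      simp only [Function.comp]
      rw [l2, Complex.ofReal_re, ← integral_sub_right_eq_self _ ((√(lam n))⁻¹ • t)]
      congr 1
      ext z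
      simp only [smul_sub, add_sub_assoc', sub_add_eq_add_sub]
      ring
    · unfold wick
      simp only [← Complex.ofReal_mul, ← Complex.ofReal_add, Complex.ofReal_re]
      ring
  refine h5.congr_dist ?_
  rw [Metric.tendsto_nhds]
  intro ε hε
  obtain ⟨B, hB0, hB⟩ := hψ.sm.bound
  obtain ⟨e, he, hA⟩ := eps_mul (A := 4 * B ^ 3 * C) (half_pos hε)
  have u := fun j => (tendsto_hv h.hl (v j)).eventually (hψ.sm.unif he)
  filter_upwards [hC, u 0, u 1, u 2, u 3] with n h1 u0 u1 u2 u3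
  have s1 := h.sol.sm n
  have s4 := ((s1.shift ((√(lam n))⁻¹ • v 0)).mul (s1.shift ((√(lam n))⁻¹ • v 1))).mul
    ((s1.shift ((√(lam n))⁻¹ • v 2)).mul (s1.shift ((√(lam n))⁻¹ • v 3)))
  have s5 := ((hψ.sm.shift ((√(lam n))⁻¹ • v 0)).mul (hψ.sm.shift ((√(lam n))⁻¹ • v 1))).mul
    ((hψ.sm.shift ((√(lam n))⁻¹ • v 2)).mul (hψ.sm.shift ((√(lam n))⁻¹ • v 3)))
  rw [dist_zero_right, Real.norm_of_nonneg dist_nonneg, dist_eq_norm, corr]
  simp only [Fin.prod_univ_four, mul_assoc (U n _ * U n _)]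
  rw [← integral_sub (s5.mul s4).integrable ((hψ.sm.pow 3).mul s4).integrable]
  have b := (integral_prod4_le s1 (fun j => (√(lam n))⁻¹ • v j)).trans h1
  refine lt_of_le_of_lt ((norm_integral_le_of_norm_le
    (s4.integrable.abs.const_mul (e * (4 * B ^ 3))) (Eventually.of_forall fun z => ?_)).trans ?_)
    (half_lt_self hε)
  · rw [← sub_mul, Real.norm_eq_abs, abs_mul]
    exact mul_le_mul_of_nonneg_right (prod4_sub (hB _) (hB _) (hB _) (hB _) (u0 z) (u1 z) (u2 z)
      (u3 z)) (abs_nonneg _)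
  · rw [integral_const_mul, mul_assoc]
    exact hA _ (mul_le_mul_of_nonneg_left b (by positivity))

lemma integrable_shift_prod {α : Type} [MeasurableSpace α] (ν : Measure α)
    [IsProbabilityMeasure ν] {y : α → E} (hy : Measurable y) {g : E → ℝ} (hg : Sm g) :
    Integrable (fun q : E × α => g (q.1 + y q.2)) ((volume : Measure E).prod ν) := by
  have hm := hg.continuous.measurable
  rw [integrable_prod_iff' (Measurable.aestronglyMeasurable (by fun_prop))]
  refine ⟨Eventually.of_forall fun a => (hg.shift (y a)).integrable, ?_⟩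
  simp only [integral_add_right_eq_self (fun x => ‖g x‖)]
  exact integrable_const _

def av (μ : Measure E) (c : ℝ) (g : E → ℝ) (z : E) : ℝ := ∫ w, g (z + c • w) ∂μ

lemma integrable_av (μ : Measure E) [IsProbabilityMeasure μ] (c : ℝ) {g : E → ℝ} (hg : Sm g) :
    Integrable (av μ c g) :=
  (integrable_shift_prod μ (y := fun w => c • w) (by fun_prop) hg).integral_prod_left

lemma integral_av (μ : Measure E) [IsProbabilityMeasure μ] (c : ℝ) {g : E → ℝ} (hg : Sm g) :
    ∫ z, av μ c g z = ∫ z, g z := by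
  unfold av
  rw [integral_integral_swap (integrable_shift_prod μ (y := fun w => c • w) (by fun_prop) hg)]
  simp only [integral_add_right_eq_self g]
  simp

lemma Sm.int_shift {g : E → ℝ} (hg : Sm g) (μ : Measure E) [IsProbabilityMeasure μ] (c : ℝ)
    (z : E) : Integrable (fun w => g (z + c • w)) μ := by
  obtain ⟨B, -, hB⟩ := hg.bound
  have := hg.continuous
  exact Integrable.of_bound (Continuous.aestronglyMeasurable (by fun_prop)) B
    (Eventually.of_forall fun w => hB _)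

lemma continuous_av (μ : Measure E) [IsProbabilityMeasure μ] (c : ℝ) {g : E → ℝ} (hg : Sm g) :
    Continuous (av μ c g) := by
  obtain ⟨B, -, hB⟩ := hg.bound
  have := hg.continuous
  exact continuous_of_dominated (bound := fun _ => B)
    (fun x => Continuous.aestronglyMeasurable (by fun_prop))
    (fun x => Eventually.of_forall fun a => hB _) (integrable_const _)
    (Eventually.of_forall fun a => by fun_prop)

lemma av_sq_le (μ : Measure E) [IsProbabilityMeasure μ] (c : ℝ) {g : E → ℝ} (hg : Sm g) (z : E) :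
    av μ c g z ^ 2 ≤ av μ c (fun x => g x ^ 2) z := by
  have i1 := hg.int_shift μ c z
  have i2 := hg.sq.int_shift μ c z
  have h : 0 ≤ ∫ w, (g (z + c • w) ^ 2 - 2 * av μ c g z * g (z + c • w) + av μ c g z ^ 2) ∂μ :=
    integral_nonneg fun w => by
      simp only [Pi.zero_apply]; nlinarith [sq_nonneg (g (z + c • w) - av μ c g z)]
  have i3 : Integrable (fun w => g (z + c • w) ^ 2 - 2 * av μ c g z * g (z + c • w)) μ :=
    i2.sub (i1.const_mul _)
  rw [integral_add i3 (integrable_const _), integral_sub i2 (i1.const_mul _),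
    integral_const_mul] at h
  simp only [integral_const, probReal_univ, one_smul] at h
  change 0 ≤ av μ c (fun x => g x ^ 2) z - 2 * av μ c g z * av μ c g z + _ at h
  linarith

lemma integrable_av_sq (μ : Measure E) [IsProbabilityMeasure μ] (c : ℝ) {g : E → ℝ} (hg : Sm g) :
    Integrable (fun z => av μ c g z ^ 2) :=
  (integrable_av μ c hg.sq).mono' ((continuous_av μ c hg).pow 2).aestronglyMeasurable
    (Eventually.of_forall fun z => by
      rw [Real.norm_of_nonneg (sq_nonneg _)]; exact av_sq_le μ c hg z)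

lemma Vn_eq (lam : ℕ → ℝ) {f : ℕ → E → ℝ} {n : ℕ} (hf : Sm (f n)) (μ : Measure E)
    [IsProbabilityMeasure μ] : Vn (kk lam) (fun n => FT (f n)) μ n =
      ∫ z, av μ (√(lam n))⁻¹ (fun x => f n x ^ 2) z ^ 2 := by
  set c := (√(lam n))⁻¹ with hc
  have hg := hf.good
  have e1 := Lam_DD0 ((U01_Pr μ).scale (kk lam n)⁻¹) hg (tilde_FT _)
  have e2 : (fun p : E3 => (Pr μ ((kk lam n)⁻¹ • p.1) : ℂ)) = fun p =>
      ∫ a : E × E, 1 * ex (ip3 p ((kk lam n)⁻¹ • (a.1 - a.2), 0, 0)) ∂(μ.prod μ) := by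
    ext p
    simp [Pr_eq, Ph, ip3, real_inner_smul_left, real_inner_smul_right]
  rw [e2, Lam_fubini (b := fun _ => 1) (Continuous.measurable (by
    unfold Function.uncurry ip3; fun_prop)) (integrable_const _)
    (fun y p => by rw [one_mul, norm_ex]) hg hg hg hg] at e1
  have e3 : ∀ a : E × E, Lam (fun p => 1 * ex (ip3 p ((kk lam n)⁻¹ • (a.1 - a.2), 0, 0)))
      (FT (f n)) (FT (f n)) (FT (f n)) (FT (f n)) =
      ((∫ z, f n (z + c • a.1) ^ 2 * f n (z + c • a.2) ^ 2 : ℝ) : ℂ) := by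
    intro a
    rw [Lam_mo]
    simp only [add_zero, mo_zero, mo_FT]
    rw [Lam_one_FT (hf.shift _) (hf.shift _) hf hf,
      ← integral_add_right_eq_self _ (c • a.2)]
    congr 2
    ext z
    rw [show z + c • a.2 + (√(lam n))⁻¹ • (a.1 - a.2) = z + c • a.1 by rw [hc]; module]
    ring
  simp only [e3, integral_complex_ofReal, Complex.ofReal_inj] at e1
  unfold Vn
  rw [← e1, ← integral_integral_swap]
  · congr 1
    ext z
    rw [integral_prod_mul (μ := μ) (ν := μ) (fun w => f n (z + c • w) ^ 2)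
      (fun w => f n (z + c • w) ^ 2), sq]
    rfl
  · obtain ⟨B, -, hB⟩ := hf.sq.bound
    have := hf.continuous
    exact (integrable_shift_prod (μ.prod μ) (y := fun a => c • a.1) (by fun_prop) hf.sq).mul_bdd
      (c := B) (Continuous.aestronglyMeasurable (by fun_prop))
      (Eventually.of_forall fun q => hB _)

end

end Pool.Agent.P.MP_6b977f_mp
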