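import Pool.Agent.P.MP_6b977f_mp.Phys2

namespace Pool.Agent.P.MP_6b977f_mp

open Real MeasureTheory Filter Topology Complex
open scoped RealInnerProductSpace ContDiff FourierTransform

noncomputable section

def mu (R : ℝ) : Measure E :=
  (volume (Metric.ball (0 : E) R))⁻¹ • volume.restrict (Metric.ball (0 : E) R)

lemma mu_prob {R : ℝ} (hR : 0 < R) : IsProbabilityMeasure (mu R) :=
  ProbabilityTheory.cond_isProbabilityMeasure_of_finite (Metric.measure_ball_pos _ _ hR).ne'
    measure_ball_lt_top.ne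

lemma mu_ae (R : ℝ) : ∀ᵐ w ∂(mu R), ‖w‖ ≤ R := by
  have : ∀ᵐ w ∂(mu R), w ∈ Metric.ball (0 : E) R :=
    ProbabilityTheory.ae_cond_mem (μ := volume) measurableSet_ball
  filter_upwards [this] with w hw
  exact (mem_ball_zero_iff.1 hw).le

lemma ball_int {G : Type} [NormedAddCommGroup G] [NormedSpace ℝ G] (g : E → G) (z : E) {c : ℝ}
    (hc : 0 < c) (R : ℝ) : ∫ w in Metric.ball (0 : E) R, g (z + c • w) =
      (c ^ 2)⁻¹ • ∫ y in Metric.ball z (R * c), g y := by
  rw [← integral_indicator measurableSet_ball, ← integral_indicator measurableSet_ball,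
    ← integral_add_left_eq_self (fun y => (Metric.ball z (R * c)).indicator g y) z]
  have := Measure.integral_comp_smul (volume : Measure E)
    (fun y => (Metric.ball z (R * c)).indicator g (z + y)) c
  rw [finrank_euclideanSpace_fin, abs_of_pos (by positivity)] at this
  rw [← this]
  congr 1
  ext w
  have : w ∈ Metric.ball (0 : E) R ↔ z + c • w ∈ Metric.ball z (R * c) := by
    rw [mem_ball_zero_iff, mem_ball_iff_norm, add_sub_cancel_left, norm_smul,
      Real.norm_of_nonneg hc.le, mul_comm, mul_lt_mul_iff_left₀ hc]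
  by_cases hw : w ∈ Metric.ball (0 : E) R
  · rw [Set.indicator_of_mem hw, Set.indicator_of_mem (this.1 hw)]
  · rw [Set.indicator_of_notMem hw, Set.indicator_of_notMem (mt this.2 hw)]

lemma avg_ball {G : Type} [NormedAddCommGroup G] [NormedSpace ℝ G] (g : E → G) (z : E) {c : ℝ}
    (hc : 0 < c) (R : ℝ) : ⨍ y in Metric.ball z (R * c), g y = ∫ w, g (z + c • w) ∂(mu R) := by
  have h1 := ball_int (fun _ => (1 : ℝ)) z hc R
  simp only [integral_const, measureReal_restrict_apply_univ, smul_eq_mul, mul_one] at h1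
  unfold mu
  rw [← setAverage_eq', setAverage_eq, setAverage_eq, ball_int g z hc, h1, smul_smul]
  congr 1
  field_simp

lemma Pr_mu_tendsto {x : E} (hx : x ≠ 0) : Tendsto (fun R => Pr (mu R) x) atTop (𝓝 0) := by
  have h1 := tendsto_integral_exp_inner_smul_cocompact
    ((Metric.ball (0 : E) 1).indicator (fun _ => (1 : ℂ)))
  have h2 : Tendsto (fun R : ℝ => (-(R / (2 * π))) • x) atTop (cocompact E) := by
    rw [← Metric.cobounded_eq_cocompact, ← tendsto_norm_atTop_iff_cobounded]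
    simp only [norm_smul, norm_neg, Real.norm_eq_abs]
    exact (tendsto_abs_atTop_atTop.comp (tendsto_id.atTop_div_const (by positivity))).atTop_mul_const
      (norm_pos_iff.2 hx)
  have h3 := (((h1.comp h2).const_smul ((volume : Measure E).real (Metric.ball 0 1))⁻¹).norm).pow 2
  simp only [smul_zero, norm_zero, ne_eq, OfNat.ofNat_ne_zero, not_false_eq_true, zero_pow] at h3
  refine h3.congr' ?_
  filter_upwards [eventually_gt_atTop 0] with R hR
  have e1 := avg_ball (fun w => ex ⟪x, w⟫) 0 hR 1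
  rw [one_mul, setAverage_eq'] at e1
  unfold Pr Ph
  simp only [id, Function.comp]
  unfold mu at e1 ⊢
  rw [e1, ← setAverage_eq', setAverage_eq, ← integral_indicator measurableSet_ball]
  congr 4
  ext w
  by_cases hw : w ∈ Metric.ball (0 : E) 1
  · rw [Set.indicator_of_mem hw, Set.indicator_of_mem hw, Circle.smul_def, Real.fourierChar_apply,
      smul_eq_mul, mul_one, zero_add, real_inner_smul_right, real_inner_smul_right,
      real_inner_comm]
    unfold ex
    congr 3
    field_simp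
  · rw [Set.indicator_of_notMem hw, Set.indicator_of_notMem hw, smul_zero]

lemma PP_mu_tendsto : Tendsto (fun R => PP (mu R)) atTop (𝓝 0) := by
  have key : ∀ f : E × E → E, Continuous f → (∀ᵐ p ∂(om.prod om), f p ≠ 0) →
      Tendsto (fun R => ∫ p, Pr (mu R) (f p) ∂(om.prod om)) atTop (𝓝 0) := by
    intro f hf h0
    have := tendsto_integral_filter_of_dominated_convergence (l := atTop)
      (μ := om.prod om) (F := fun R p => Pr (mu R) (f p)) (f := fun _ => (0 : ℝ)) (fun _ => 1)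
      ((eventually_gt_atTop 0).mono fun R hR => by
        have := mu_prob hR
        exact ((U01_Pr _).cont.comp hf).aestronglyMeasurable)
      ((eventually_gt_atTop 0).mono fun R hR => by
        have := mu_prob hR
        exact Eventually.of_forall fun p => (U01_Pr _).abs_le _)
      (integrable_const _) (h0.mono fun p hp => Pr_mu_tendsto hp)
    simpa using this
  have h1 := key (fun p => p.1 + p.2) (by fun_prop) (by
    filter_upwards [ae_norm_prod, ae_inner_ne (-1)] with p hp h1 h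
    have := (norm_add_sub_sq hp.1 hp.2).1
    rw [h, norm_zero] at this
    exact h1 (by linarith))
  have h2 := key (fun p => p.1 - p.2) (by fun_prop) (by
    filter_upwards [ae_norm_prod, ae_inner_ne 1] with p hp h1 h
    have := (norm_add_sub_sq hp.1 hp.2).2
    rw [h, norm_zero] at this
    exact h1 (by linarith))
  simpa [PP] using h1.add h2

lemma ev_ball {lam : ℕ → ℝ} (h : Tendsto lam atTop atTop) {p : E → Prop}
    (hp : ∀ᶠ y in 𝓝 (0 : E), p y) (R : ℝ) :
    ∀ᶠ n in atTop, 0 < (√(lam n))⁻¹ ∧ ∀ w : E, ‖w‖ ≤ R → p ((√(lam n))⁻¹ • w) := by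
  obtain ⟨δ, hδ, hp⟩ := Metric.eventually_nhds_iff.1 hp
  have t : Tendsto (fun n => (√(lam n))⁻¹ * R) atTop (𝓝 0) := by
    simpa using (Real.tendsto_sqrt_atTop.comp h).inv_tendsto_atTop.mul_const R
  filter_upwards [t.eventually (gt_mem_nhds hδ), h.eventually_gt_atTop 0] with n h1 h2
  have : 0 < (√(lam n))⁻¹ := by positivity
  refine ⟨this, fun w hw => hp ?_⟩
  rw [dist_zero_right, norm_smul, Real.norm_of_nonneg this.le]
  exact lt_of_le_of_lt (by gcongr) h1

lemma av_cmp {μ : Measure E} [IsProbabilityMeasure μ] {c e : ℝ} {g f : E → ℝ} (hg : Sm g)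
    (hf : Sm f) {z : E} (h : ∀ᵐ w ∂μ, |g (z + c • w) - g z| ≤ e) :
    |g z * av μ c (fun x => f x ^ 2) z - av μ c (fun x => g x * f x ^ 2) z| ≤
      e * av μ c (fun x => f x ^ 2) z := by
  have i1 := hf.sq.int_shift μ c z
  unfold av
  rw [← integral_const_mul, ← integral_const_mul,
    ← integral_sub (i1.const_mul _) ((hg.mul hf.sq).int_shift μ c z), ← Real.norm_eq_abs]
  refine norm_integral_le_of_norm_le (i1.const_mul _) (h.mono fun w hw => ?_)
  rw [← sub_mul, Real.norm_eq_abs, abs_mul, abs_sub_comm, abs_of_nonneg (sq_nonneg (f _))]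
  exact mul_le_mul_of_nonneg_right hw (sq_nonneg _)

lemma J0_zero : J0 0 = 1 := by
  unfold J0
  simp
  field_simp

lemma Model.mass {O : Set E} {lam : ℕ → ℝ} {U : ℕ → E → ℝ} (h : Model O lam U) {a : E → ℝ}
    (ha : IsTest O a) : Tendsto (fun n => ∫ z, a z * U n z ^ 2) atTop (𝓝 (∫ z, a z)) := by
  have := h.qe a ha 0
  unfold corr at this
  simpa [Fin.prod_univ_two, J0_zero, sq] using this

lemma massVar_eq {lam : ℕ → ℝ} (U : ℕ → E → ℝ) (a : E → ℝ) (R : ℝ) {n : ℕ}
    (hc : 0 < (√(lam n))⁻¹) : massVar U lam a R n =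
      ∫ z, a z * (av (mu R) (√(lam n))⁻¹ (fun x => U n x ^ 2) z - 1) ^ 2 := by
  unfold massVar av
  simp only [avg_ball _ _ hc]

lemma integrable_var {μ : Measure E} [IsProbabilityMeasure μ] (c : ℝ) {a g : E → ℝ} (ha : Sm a)
    (hg : Sm g) : Integrable (fun z => a z * (av μ c g z - 1) ^ 2) :=
  (ha.continuous.mul (((continuous_av μ c hg).sub continuous_const).pow 2)).integrable_of_hasCompactSupport
    ha.supp.mul_right

lemma Model.var_upper {O : Set E} {lam : ℕ → ℝ} {U : ℕ → E → ℝ} (h : Model O lam U) {ψ : E → ℝ}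
    (hψ : IsTest O ψ)
    (hT : Tendsto (fun n => ∫ x, (ψ x * U n x) ^ 4) atTop (𝓝 (3 * ∫ x, ψ x ^ 4)))
    {C : ℝ} (hC : ∀ᶠ n in atTop, ∫ x, U n x ^ 4 ≤ C) {ε : ℝ} (hε : 0 < ε) :
    ∀ᶠ R in atTop, ∀ᶠ n in atTop, massVar U lam (fun x => ψ x ^ 4) R n ≤ ε := by
  have t : Tendsto (fun R => (∫ x, ψ x ^ 4) * PP (mu R)) atTop (𝓝 0) := by
    simpa using PP_mu_tendsto.const_mul (∫ x, ψ x ^ 4)
  obtain ⟨e', he', hA⟩ := eps_mul (A := 2 * C + 4 * ((∫ x, ψ x ^ 2) + 1) + 6) (half_pos hε)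
  set e := min e' 1 with he
  have he0 : 0 < e := lt_min he' one_pos
  have he1 : e ≤ 1 := min_le_right _ _
  filter_upwards [t.eventually (gt_mem_nhds (show 0 < ε / 4 by positivity)), eventually_gt_atTop 0]
    with R hR hR0
  have := mu_prob hR0
  have h4 := (h.fam hψ).var_upper (by simpa only [TT_FT (hψ.sm.mul (h.sol.sm _))] using hT)
    (mu R) (mu_ae R) he0
  filter_upwards [h4, hC, ev_ball h.hl (hψ.sm.sq.unif he0) R,
    (h.mass (hψ.pow 3)).eventually (lt_mem_nhds (sub_lt_self _ he0)),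
    (h.mass (hψ.pow 1)).eventually (gt_mem_nhds (lt_add_one _))] with n a1 a2 ⟨hc, a3⟩ a4 a5
  have s1 := h.sol.sm n
  have s2 := hψ.sm.mul s1
  rw [Vn_eq lam (f := fun n x => ψ x * U n x) s2] at a1
  rw [massVar_eq _ _ _ hc]
  set c := (√(lam n))⁻¹
  have u : ∀ z, ∀ᵐ w ∂(mu R), |ψ (z + c • w) ^ 2 - ψ z ^ 2| ≤ e := fun z =>
    (mu_ae R).mono fun w hw => a3 w hw z
  have i1 := (integrable_av (mu R) c s1.sq.sq).const_mul (2 * e ^ 2)
  have i2 := (integrable_av_sq (mu R) c s2.sq).const_mul 2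
  have i3 := (integrable_av (mu R) c (hψ.sm.sq.mul s2.sq)).const_mul 4
  have i4 := (integrable_av (mu R) c s2.sq).const_mul (4 * e)
  have i5 := (hψ.sm.pow 3).integrable.const_mul 2
  refine (integral_mono (integrable_var c (hψ.sm.pow 3) s1.sq)
    ((((i1.add i2).sub i3).add i4).add i5) fun z => ?_).trans ?_
  · have b1 := av_cmp hψ.sm.sq s1 (u z)
    have b2 := (abs_le.1 (av_cmp hψ.sm.sq s2 (u z))).1
    have b3 := av_sq_le (mu R) c s1.sq z
    simp only [← mul_pow] at b1
    simp only [Pi.add_apply, Pi.sub_apply, Nat.reduceAdd]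
    have b4 := pow_le_pow_left₀ (abs_nonneg _) b1 2
    rw [sq_abs] at b4
    have b5 := mul_le_mul_of_nonneg_left b3 (sq_nonneg e)
    generalize av (mu R) c (fun x => U n x ^ 2) z = A at *
    generalize av (mu R) c (fun x => (ψ x * U n x) ^ 2) z = B at *
    nlinarith [sq_nonneg (ψ z ^ 2 * A - B - (B - ψ z ^ 2))]
  · rw [integral_add' (((i1.add i2).sub i3).add i4) i5, integral_add' ((i1.add i2).sub i3) i4,
      integral_sub' (i1.add i2) i3, integral_add' i1 i2]
    simp only [integral_const_mul, integral_av _ _ s1.sq.sq, integral_av _ _ s2.sq,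
      integral_av _ _ (hψ.sm.sq.mul s2.sq)]
    have e1 : ∫ z, (U n z ^ 2) ^ 2 = ∫ z, U n z ^ 4 := by congr 1; ext z; ring
    have e2 : ∫ z, ψ z ^ 2 * (ψ z * U n z) ^ 2 = ∫ z, ψ z ^ (3 + 1) * U n z ^ 2 := by
      congr 1; ext z; ring
    have e3 : ∫ z, (ψ z * U n z) ^ 2 = ∫ z, ψ z ^ (1 + 1) * U n z ^ 2 := by congr 1; ext z; ring
    rw [e1, e2, e3]
    have p1 : 0 ≤ ∫ z, U n z ^ 4 := integral_nonneg fun z => by positivity
    have p2 : 0 ≤ ∫ z, ψ z ^ (1 + 1) * U n z ^ 2 :=
      integral_nonneg fun z => mul_nonneg (sq_nonneg _) (sq_nonneg _)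
    generalize ∫ z, U n z ^ 4 = X at *
    generalize ∫ z, ψ z ^ (1 + 1) * U n z ^ 2 = Y at *
    have k1 := hA (2 * X + 4 * Y + 6) (by linarith)
    have k2 : e * (2 * X + 4 * Y + 6) ≤ e' * (2 * X + 4 * Y + 6) :=
      mul_le_mul_of_nonneg_right (min_le_left _ _) (by positivity)
    have k3 : e ^ 2 * X ≤ e * X := mul_le_mul_of_nonneg_right (by nlinarith) p1
    norm_num at a4 ⊢
    linarith

lemma Model.of_var {O : Set E} {lam : ℕ → ℝ} {U : ℕ → E → ℝ} (h : Model O lam U)
    (hc : ∀ a, IsTest O a → (∀ x, 0 ≤ a x) → ∀ ε > 0,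
      ∀ᶠ R in atTop, ∀ᶠ n in atTop, massVar U lam a R n ≤ ε) {ψ : E → ℝ} (hψ : IsTest O ψ) :
    Tendsto (fun n => ∫ x, (ψ x * U n x) ^ 4) atTop (𝓝 (3 * ∫ x, ψ x ^ 4)) := by
  have := (h.fam hψ).of_var (integral_nonneg fun z => by positivity) fun ε hε => ?_
  · simpa only [TT_FT (hψ.sm.mul (h.sol.sm _))] using this
  obtain ⟨K, hK, hKO, hev⟩ := ev_shift h.op hψ.2.1 hψ.2.2
  obtain ⟨χ, hχ, h1, h2⟩ := exists_test h.op hK hKO
  have cont : Continuous fun t : ℝ => (1 + t) * ((∫ x, ψ x ^ 4) +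
    2 * t * (∫ x, ψ x ^ 2 * χ x) + t ^ 2 * ∫ x, χ x ^ 2) := by fun_prop
  have t1 := ((cont.tendsto 0).mono_left (nhdsWithin_le_nhds (s := Set.Ioi 0))).eventually
    (gt_mem_nhds (lt_add_of_pos_right _ (half_pos hε)))
  obtain ⟨t, ht, ht0⟩ := (t1.and self_mem_nhdsWithin).exists
  have ht0 : 0 < t := ht0
  have hb0 : IsTest O (fun x => ψ x ^ 2 + t * χ x) :=
    ⟨(hψ.sm.sq.add (hχ.sm.const_mul t)).1, (hψ.sm.sq.add (hχ.sm.const_mul t)).2,
      (tsupport_add _ _).trans (Set.union_subset (hψ.pow 1).2.2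
        (hχ.mul_left (g := fun _ => t) contDiff_const).2.2)⟩
  have hb := hb0.pow 1
  obtain ⟨R, hR, hR0⟩ := ((hc _ hb (fun x => sq_nonneg _) (ε / 2 / (1 + t⁻¹))
    (by positivity)).and (eventually_gt_atTop 0)).exists
  have := mu_prob hR0
  refine ⟨mu R, R, this, mu_ae R, ?_⟩
  have hev' : ∀ᶠ y in 𝓝 (0 : E), ∀ x ∈ tsupport ψ, x + -y ∈ K :=
    (show Tendsto (fun y : E => -y) (𝓝 0) (𝓝 0) by simpa using continuous_neg.tendsto (0 : E)).eventually hev
  filter_upwards [hR, ev_ball h.hl ((hψ.sm.sq.unif ht0).and hev') R] with n a1 ⟨hc, a2⟩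
  have s1 := h.sol.sm n
  have s2 := hψ.sm.mul s1
  rw [Vn_eq lam (f := fun n x => ψ x * U n x) s2]
  rw [massVar_eq _ _ _ hc, le_div_iff₀' (by positivity)] at a1
  set c := (√(lam n))⁻¹
  have i1 := hb.sm.integrable.const_mul (1 + t)
  have i2 := (integrable_var (μ := mu R) c hb.sm s1.sq).const_mul (1 + t⁻¹)
  refine (integral_mono (integrable_av_sq (mu R) c s2.sq) (i1.add i2) fun z => ?_).trans ?_
  · have b1 : av (mu R) c (fun x => (ψ x * U n x) ^ 2) z ≤
        (ψ z ^ 2 + t * χ z) * av (mu R) c (fun x => U n x ^ 2) z := by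
      unfold av
      rw [← integral_const_mul]
      refine integral_mono_ae (s2.sq.int_shift _ _ _) ((s1.sq.int_shift _ _ _).const_mul _)
        ((mu_ae R).mono fun w hw => ?_)
      simp only [mul_pow]
      refine mul_le_mul_of_nonneg_right ?_ (sq_nonneg _)
      by_cases hz : z + c • w ∈ tsupport ψ
      · have := h1 _ ((a2 w hw).2 _ hz)
        rw [add_neg_cancel_right] at this
        rw [this]
        linarith [(abs_le.1 ((a2 w hw).1 z)).2]
      · rw [image_eq_zero_of_notMem_tsupport hz, sq, zero_mul]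
        have := (h2 z).1
        positivity
    have b2 : 0 ≤ av (mu R) c (fun x => (ψ x * U n x) ^ 2) z := integral_nonneg fun w => sq_nonneg _
    refine (pow_le_pow_left₀ b2 b1 2).trans ?_
    simp only [Pi.add_apply]
    generalize av (mu R) c (fun x => U n x ^ 2) z = A
    generalize ψ z ^ 2 + t * χ z = b
    have : A ^ 2 ≤ (1 + t) + (1 + t⁻¹) * (A - 1) ^ 2 := by
      have e : (1 + t) + (1 + t⁻¹) * (A - 1) ^ 2 - A ^ 2 = t⁻¹ * (A - 1 - t) ^ 2 := by
        field_simp; ring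
      have : 0 ≤ t⁻¹ * (A - 1 - t) ^ 2 := by positivity
      linarith
    have := mul_le_mul_of_nonneg_left this (sq_nonneg b)
    norm_num
    linarith
  · rw [integral_add' i1 i2, integral_const_mul, integral_const_mul]
    have j1 := (hψ.sm.pow 3).integrable
    have j2 := (hψ.sm.sq.mul hχ.sm).integrable.const_mul (2 * t)
    have j3 := hχ.sm.sq.integrable.const_mul (t ^ 2)
    have e : ∫ x, (ψ x ^ 2 + t * χ x) ^ (1 + 1) = (∫ x, ψ x ^ 4) +
        2 * t * (∫ x, ψ x ^ 2 * χ x) + t ^ 2 * ∫ x, χ x ^ 2 := by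
      rw [← integral_const_mul, ← integral_const_mul, ← integral_add' j1 j2,
        ← integral_add' (j1.add j2) j3]
      congr 1
      ext x
      simp only [Pi.add_apply]
      ring
    rw [e]
    norm_num at ht a1 ⊢
    linarith

end

end Pool.Agent.P.MP_6b977f_mp
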