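import Pool.Agent.P.MP_6b977f_mp.QI

/-!
Two-point correlations of the eigenfunctions extended by zero: definitions and basic bounds.
-/

namespace Pool.Agent.P.MP_6b977f_mp

open Real MeasureTheory Filter Topology Laplacian
open scoped RealInnerProductSpace ContDiff

noncomputable section

/-- the standing hypotheses, with the three conclusions of `S_W` -/
structure Ctx (Ω : Set E) (u : ℕ → E → ℝ) (lam : ℕ → ℝ) : Prop where
  op : IsOpen Ω
  bd : Bornology.IsBounded Ω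
  ne : Ω.Nonempty
  db : DirichletBasis Ω u lam
  weyl : ∃ C : ℝ, ∀ᶠ N : ℕ in atTop, lam N ≤ C * N
  esc : ∀ ε > 0, ∃ K, IsCompact K ∧ K ⊆ Ω ∧ ∀ᶠ N : ℕ in atTop,
    ∑ n ∈ Finset.range N, ∫ x in Ω \ K, u n x ^ 2 ≤ ε * N
  shift : ∀ n (y : E), ∫ z, (Ω.indicator (u n) (z + y) - Ω.indicator (u n) z) ^ 2 ≤
    ‖y‖ ^ 2 * (lam n * volume.real Ω)

/-- two-point correlation of `u n` extended by zero -/
def cr (Ω : Set E) (u : ℕ → E → ℝ) (lam : ℕ → ℝ) (a : E → ℝ) (v : E) (n : ℕ) : ℝ :=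
  ∫ z, a z * (Ω.indicator (u n) z * Ω.indicator (u n) (z + (√(lam n))⁻¹ • v))

/-- the averages of `|q n|` tend to zero -/
def Small (q : ℕ → ℝ) : Prop :=
  ∀ ε > 0, ∀ᶠ N : ℕ in atTop, ∑ n ∈ Finset.range N, |q n| ≤ ε * N

/-- the local Weyl bound for finite sums of correlations -/
def S_W2 : Prop :=
  ∀ (Ω : Set E) (u : ℕ → E → ℝ) (lam : ℕ → ℝ), Ctx Ω u lam → ∃ C : ℝ,
    ∀ (ι : Type) (s : Finset ι) (c : ι → ℂ) (a : ι → E → ℝ) (v : ι → E),
      (∀ i, ContDiff ℝ ∞ (a i)) → ∀ ε > 0, ∀ᶠ N : ℕ in atTop,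
        ∑ n ∈ Finset.range N, ‖∑ i ∈ s, c i * (cr Ω u lam (a i) (v i) n : ℂ)‖ ^ 2 ≤
          (C * (∫ p, ‖∑ i ∈ s, c i * ((a i p.1 : ℂ) * ex ⟪p.2, v i⟫)‖ ^ 2 ∂(liouville Ω)) + ε) * N

/-- Cauchy-Schwarz -/
lemma cs_sq {μ : Measure E} {f g : E → ℝ} (hf : MemLp f 2 μ) (hg : MemLp g 2 μ) :
    (∫ x, |f x * g x| ∂μ) ^ 2 ≤ (∫ x, f x ^ 2 ∂μ) * ∫ x, g x ^ 2 ∂μ := by
  have := real_inner_mul_inner_self_le (hf.abs.toLp _) (hg.abs.toLp _)
  simp only [inner_toLp, Pi.abs_apply, abs_mul_abs_self] at this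
  simpa only [sq, abs_mul] using this

lemma cs {μ : Measure E} {f g : E → ℝ} (hf : MemLp f 2 μ) (hg : MemLp g 2 μ) {X Y B : ℝ}
    (hX : ∫ x, f x ^ 2 ∂μ ≤ X) (hY : ∫ x, g x ^ 2 ∂μ ≤ Y) (hB : 0 ≤ B) (h : X * Y ≤ B ^ 2) :
    ∫ x, |f x * g x| ∂μ ≤ B := by
  have h0 : 0 ≤ ∫ x, f x ^ 2 ∂μ := integral_nonneg fun _ => sq_nonneg _
  refine (abs_le_of_sq_le_sq' ((cs_sq hf hg).trans (le_trans ?_ h)) hB).2
  exact mul_le_mul hX hY (integral_nonneg fun _ => sq_nonneg _) (h0.trans hX)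

lemma avg_of_ev {x y : ℕ → ℝ} {ε : ℝ} (hε : 0 < ε) (h : ∀ᶠ n in atTop, x n ≤ y n) :
    ∀ᶠ N : ℕ in atTop, ∑ n ∈ Finset.range N, x n ≤ ∑ n ∈ Finset.range N, y n + ε * N := by
  obtain ⟨n0, h⟩ := eventually_atTop.1 h
  have t : Tendsto (fun N : ℕ => ε * N) atTop atTop :=
    tendsto_natCast_atTop_atTop.const_mul_atTop hε
  filter_upwards [t.eventually_ge_atTop (∑ n ∈ Finset.range n0, (x n - y n)),
    eventually_ge_atTop n0] with N h1 h2
  have : ∑ n ∈ Finset.Ico n0 N, (x n - y n) ≤ 0 :=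
    Finset.sum_nonpos fun n hn => sub_nonpos.2 (h n (Finset.mem_Ico.1 hn).1)
  have e := Finset.sum_range_add_sum_Ico (fun n => x n - y n) h2
  rw [Finset.sum_sub_distrib (s := Finset.range N)] at e
  linarith

namespace Ctx

variable {Ω : Set E} {u : ℕ → E → ℝ} {lam : ℕ → ℝ} (h : Ctx Ω u lam)
include h

lemma vol : 0 < volume.real Ω := vol_pos h.op h.bd h.ne

lemma memLp (n : ℕ) : MemLp (Ω.indicator (u n)) 2 volume :=
  (memLp_indicator_iff_restrict h.op.measurableSet).2 (h.db.memLp h.op n)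

lemma memLp' (n : ℕ) (y : E) : MemLp (fun z => Ω.indicator (u n) (z + y)) 2 volume :=
  (h.memLp n).comp_measurePreserving (measurePreserving_add_right volume y)

lemma mass (n : ℕ) : ∫ z, Ω.indicator (u n) z ^ 2 = volume.real Ω := by
  have := h.db.orth n n
  rw [if_pos rfl, ← integral_indicator h.op.measurableSet] at this
  rw [← this]
  congr 1
  ext z
  by_cases hz : z ∈ Ω <;> simp [hz, sq]

lemma mass' (n : ℕ) (y : E) : ∫ z, Ω.indicator (u n) (z + y) ^ 2 = volume.real Ω := by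
  rw [integral_add_right_eq_self (fun z => Ω.indicator (u n) z ^ 2), h.mass]

lemma bound {a : E → ℝ} (ha : Continuous a) : ∃ B, 0 ≤ B ∧ ∀ x ∈ Ω, |a x| ≤ B := by
  obtain ⟨B, hB⟩ := h.bd.isCompact_closure.exists_bound_of_continuousOn ha.continuousOn
  exact ⟨max B 0, le_max_right _ _, fun x hx => (hB x (subset_closure hx)).trans (le_max_left _ _)⟩

lemma int_mul {a g : E → ℝ} (ha : AEStronglyMeasurable a volume) {B : ℝ}
    (hB : ∀ x ∈ Ω, |a x| ≤ B) (hg : MemLp g 2 volume) (n : ℕ) :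
    Integrable (fun z => a z * (Ω.indicator (u n) z * g z)) ∧
      |∫ z, a z * (Ω.indicator (u n) z * g z)| ≤ B * ∫ z, |Ω.indicator (u n) z * g z| := by
  have i := ((h.memLp n).integrable_mul hg)
  have hle : ∀ z, ‖a z * (Ω.indicator (u n) z * g z)‖ ≤ B * |Ω.indicator (u n) z * g z| := by
    intro z
    by_cases hz : z ∈ Ω
    · rw [norm_mul]
      exact mul_le_mul_of_nonneg_right (hB z hz) (abs_nonneg _)
    · simp [hz]
  refine ⟨(i.abs.const_mul B).mono' (ha.mul i.1) (Eventually.of_forall hle), ?_⟩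
  rw [← integral_const_mul]
  exact norm_integral_le_of_norm_le (i.abs.const_mul B) (Eventually.of_forall hle)

lemma int_cr {a : E → ℝ} (ha : Continuous a) (n : ℕ) (y : E) :
    Integrable (fun z => a z * (Ω.indicator (u n) z * Ω.indicator (u n) (z + y))) := by
  obtain ⟨B, -, hB⟩ := h.bound ha
  exact (h.int_mul ha.aestronglyMeasurable hB (h.memLp' n y) n).1

lemma abs_le (n : ℕ) (y : E) :
    ∫ z, |Ω.indicator (u n) z * Ω.indicator (u n) (z + y)| ≤ volume.real Ω :=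
  cs (h.memLp n) (h.memLp' n y) (h.mass n).le (h.mass' n y).le h.vol.le (sq _).ge

lemma cr_le {a : E → ℝ} (ha : Continuous a) {B : ℝ} (hB : ∀ x ∈ Ω, |a x| ≤ B) (v : E) (n : ℕ) :
    |cr Ω u lam a v n| ≤ B * volume.real Ω := by
  obtain ⟨x, hx⟩ := h.ne
  exact (h.int_mul ha.aestronglyMeasurable hB (h.memLp' n _) n).2.trans
    (mul_le_mul_of_nonneg_left (h.abs_le n _) ((abs_nonneg _).trans (hB x hx)))

lemma cr_sub {a b : E → ℝ} (ha : Continuous a) (hb : Continuous b) (v : E) (n : ℕ) :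
    cr Ω u lam a v n - cr Ω u lam b v n = cr Ω u lam (fun x => a x - b x) v n := by
  unfold cr
  rw [← integral_sub (h.int_cr ha n _) (h.int_cr hb n _)]
  simp only [sub_mul]

/-- only the mass outside `K` counts when `a` vanishes on `K` -/
lemma cr_sq_le {a : E → ℝ} {B : ℝ} (hB : ∀ x ∈ Ω, |a x| ≤ B) {K : Set E}
    (hK : MeasurableSet K) (h0 : ∀ x ∈ K, a x = 0) (v : E) (n : ℕ) :
    cr Ω u lam a v n ^ 2 ≤ B ^ 2 * ((∫ x in Ω \ K, u n x ^ 2) * volume.real Ω) := by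
  have hm := h.op.measurableSet.diff hK
  have m : MemLp ((Ω \ K).indicator (u n)) 2 volume :=
    (memLp_indicator_iff_restrict hm).2
      ((h.db.memLp h.op n).mono_measure (Measure.restrict_mono Set.sdiff_subset le_rfl))
  have m' := h.memLp' n ((√(lam n))⁻¹ • v)
  have e : ∫ x, (Ω \ K).indicator (u n) x ^ 2 = ∫ x in Ω \ K, u n x ^ 2 := by
    rw [← integral_indicator hm]
    congr 1
    ext z
    by_cases hz : z ∈ Ω \ K <;> simp only [hz, Set.indicator_of_mem, Set.indicator_of_notMem,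
      not_false_eq_true, zero_pow two_ne_zero]
  have c := cs_sq m m'
  rw [e, h.mass'] at c
  refine le_trans ?_ (mul_le_mul_of_nonneg_left c (sq_nonneg B))
  rw [← mul_pow, ← integral_const_mul, ← sq_abs, ← Real.norm_eq_abs]
  refine pow_le_pow_left₀ (norm_nonneg _) (norm_integral_le_of_norm_le
    ((m.integrable_mul m').abs.const_mul B) (Eventually.of_forall fun z => ?_)) 2
  obtain ⟨x, hx⟩ := h.ne
  have hB0 := (abs_nonneg _).trans (hB x hx)
  by_cases hz : z ∈ Ω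
  · by_cases hk : z ∈ K
    · rw [h0 z hk, zero_mul, norm_zero]
      positivity
    · rw [norm_mul, Pi.mul_apply, Set.indicator_of_mem hz,
        Set.indicator_of_mem (Set.mem_sdiff_of_mem hz hk)]
      exact mul_le_mul_of_nonneg_right (hB z hz) (abs_nonneg _)
  · rw [Set.indicator_of_notMem hz, zero_mul, mul_zero, norm_zero]
    positivity

lemma cr_lip {a b : E → ℝ} (ha : Continuous a) (hb : Continuous b) {e B : ℝ}
    (he : ∀ x ∈ Ω, |a x - b x| ≤ e) (hB : ∀ x ∈ Ω, |b x| ≤ B) (v w : E) (n : ℕ) :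
    |cr Ω u lam a v n - cr Ω u lam b w n| ≤ (e + B * ‖v - w‖) * volume.real Ω := by
  obtain ⟨x, hx⟩ := h.ne
  have hB0 := (abs_nonneg _).trans (hB x hx)
  have h1 := h.cr_le (a := fun x => a x - b x) (ha.sub hb) he v n
  rw [← h.cr_sub ha hb] at h1
  have m := (h.memLp' n ((√(lam n))⁻¹ • v)).sub (h.memLp' n ((√(lam n))⁻¹ • w))
  have h2 := (h.int_mul hb.aestronglyMeasurable hB m n).2
  have h3 : ∫ z, (Ω.indicator (u n) (z + (√(lam n))⁻¹ • v) -
      Ω.indicator (u n) (z + (√(lam n))⁻¹ • w)) ^ 2 ≤ ‖v - w‖ ^ 2 * volume.real Ω := by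
    have := h.shift n ((√(lam n))⁻¹ • (v - w))
    rw [← integral_add_right_eq_self _ ((√(lam n))⁻¹ • w)] at this
    simp only [add_assoc, ← smul_add, add_sub_cancel] at this
    refine this.trans ?_
    rw [norm_smul, mul_pow, norm_inv, Real.norm_of_nonneg (Real.sqrt_nonneg _), inv_pow]
    have hv := h.vol.le
    rcases le_or_gt (lam n) 0 with hl | hl
    · rw [Real.sqrt_eq_zero'.2 hl]
      simp only [ne_eq, OfNat.ofNat_ne_zero, not_false_eq_true, zero_pow, inv_zero, zero_mul]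
      positivity
    · rw [Real.sq_sqrt hl.le]
      exact le_of_eq (by field_simp)
  have h4 := cs (h.memLp n) m (B := ‖v - w‖ * volume.real Ω) (h.mass n).le h3
    (mul_nonneg (norm_nonneg _) h.vol.le) (le_of_eq (by ring))
  have h5 : cr Ω u lam b v n - cr Ω u lam b w n = ∫ z, b z * (Ω.indicator (u n) z *
      (Ω.indicator (u n) (z + (√(lam n))⁻¹ • v) - Ω.indicator (u n) (z + (√(lam n))⁻¹ • w))) := by
    unfold cr
    rw [← integral_sub (h.int_cr hb n _) (h.int_cr hb n _)]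
    simp only [mul_sub]
  have h6 := h2.trans (mul_le_mul_of_nonneg_left h4 hB0)
  simp only [Pi.sub_apply] at h6
  rw [← h5] at h6
  have := abs_sub_le (cr Ω u lam a v n) (cr Ω u lam b v n) (cr Ω u lam b w n)
  linarith

end Ctx

end

end Pool.Agent.P.MP_6b977f_mp
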