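import Pool.Agent.P.MP_6b977f_mp.QI

/-!
A weak solution of the transport equation has a version that is constant on chords.
-/

namespace Pool.Agent.P.MP_6b977f_mp

open Real MeasureTheory Filter Topology
open scoped ContDiff Convolution

noncomputable section

lemma d1_fix {f : E × E → ℝ} (hi : Integrable f (volume.prod om)) {a : E → ℝ} (ha : Sm a)
    (H : ∀ m, Sm m → ∫ p, f p * (fderiv ℝ a p.1 p.2 * m p.2) ∂(volume.prod om) = 0) :
    ∀ᵐ ξ ∂om, ∫ x, f (x, ξ) * fderiv ℝ a x ξ = 0 := by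
  have hc : Continuous (fderiv ℝ a) := ha.smooth.continuous_fderiv (by simp)
  obtain ⟨C, hC⟩ := hc.bounded_above_of_compact_support (ha.supp.fderiv ℝ)
  have hc2 : Continuous fun p : E × E => fderiv ℝ a p.1 p.2 :=
    (hc.comp continuous_fst).clm_apply continuous_snd
  have hG : Integrable (fun p : E × E => f p * fderiv ℝ a p.1 p.2) (volume.prod om) := by
    refine hi.mul_bdd (c := C) hc2.aestronglyMeasurable ?_
    filter_upwards [(Measure.quasiMeasurePreserving_snd (μ := (volume : Measure E))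
      (ν := om)).ae ae_om_norm] with p hp
    refine ((fderiv ℝ a p.1).le_opNorm p.2).trans ?_
    rw [hp, mul_one]
    exact hC _
  refine ae_eq_zero_of_integral_contDiff_smul_eq_zero
    hG.integral_prod_right.locallyIntegrable fun m h1 h2 => ?_
  obtain ⟨B, hB⟩ := h1.continuous.bounded_above_of_compact_support h2
  have hG2 : Integrable (fun p : E × E => f p * fderiv ℝ a p.1 p.2 * m p.2) (volume.prod om) :=
    hG.mul_bdd (c := B) (h1.continuous.comp continuous_snd).aestronglyMeasurable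
      (Eventually.of_forall fun p => hB _)
  have := H m ⟨h1, h2⟩
  simp only [← mul_assoc] at this
  rw [integral_prod_symm _ hG2] at this
  rw [← this]
  refine integral_congr_ae (Eventually.of_forall fun ξ => ?_)
  simp only [smul_eq_mul]
  rw [integral_mul_const, mul_comm]

/-- the bumps -/
def d1_b (j : ℕ) : ContDiffBump (0 : E) :=
  ⟨1 / ((j : ℝ) + 1) / 2, 1 / ((j : ℝ) + 1), by positivity, half_lt_self (by positivity)⟩

def d1_phi (j : ℕ) : E → ℝ := (d1_b j).normed volume

lemma d1_phi_sm (j : ℕ) : Sm (d1_phi j) :=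
  ⟨(d1_b j).contDiff_normed, (d1_b j).hasCompactSupport_normed⟩

/-- the mollified function -/
def d1_F (j : ℕ) (g : E → ℝ) (x : E) : ℝ := ∫ t, g t * d1_phi j (x - t)

def d1_K (j : ℕ) (g : E → ℝ) (ξ x : E) : ℝ := ∫ t, g t * fderiv ℝ (d1_phi j) (x - t) ξ

lemma d1_F_eq (j : ℕ) (g : E → ℝ) :
    d1_F j g = g ⋆[ContinuousLinearMap.mul ℝ ℝ, volume] d1_phi j := rfl

lemma d1_K_eq (j : ℕ) (g : E → ℝ) (ξ : E) :
    d1_K j g ξ =
      g ⋆[ContinuousLinearMap.mul ℝ ℝ, volume] fun y => fderiv ℝ (d1_phi j) y ξ := rfl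

lemma d1_K_cont (j : ℕ) {g : E → ℝ} (hg : Integrable g) (ξ : E) : Continuous (d1_K j g ξ) := by
  rw [d1_K_eq]
  have hc : Continuous (fderiv ℝ (d1_phi j)) := (d1_phi_sm j).smooth.continuous_fderiv (by simp)
  exact HasCompactSupport.continuous_convolution_right _
    ((d1_phi_sm j).supp.fderiv_apply ℝ ξ) hg.locallyIntegrable
    (hc.clm_apply continuous_const)

lemma d1_deriv (j : ℕ) {g : E → ℝ} (hg : Integrable g) (x : E) :
    ∃ L : E →L[ℝ] ℝ, HasFDerivAt (d1_F j g) L x ∧ ∀ ξ, L ξ = d1_K j g ξ x := by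
  have hc : Continuous (fderiv ℝ (d1_phi j)) := (d1_phi_sm j).smooth.continuous_fderiv (by simp)
  refine ⟨_, (d1_phi_sm j).supp.hasFDerivAt_convolution_right (ContinuousLinearMap.mul ℝ ℝ)
    hg.locallyIntegrable ((d1_phi_sm j).smooth.of_le (by simp)) x, fun ξ => ?_⟩
  rw [convolution_precompR_apply _ hg.locallyIntegrable ((d1_phi_sm j).supp.fderiv ℝ) hc, d1_K_eq]

lemma d1_tendsto {g : E → ℝ} (hg : Integrable g) :
    ∀ᵐ x, Tendsto (fun j => d1_F j g x) atTop (𝓝 (g x)) := by
  have := ContDiffBump.ae_convolution_tendsto_right_of_locallyIntegrable (μ := volume)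
    (φ := d1_b) (l := atTop) (K := 2) tendsto_one_div_add_atTop_nhds_zero_nat
    (Eventually.of_forall fun j => by simp only [d1_b]; linarith) hg.locallyIntegrable
  filter_upwards [this] with x hx
  refine hx.congr fun j => ?_
  rw [convolution_eq_swap]
  simp only [ContinuousLinearMap.lsmul_apply, smul_eq_mul, d1_F, d1_phi, mul_comm]

lemma d1_test {Ω : Set E} (j : ℕ) {x : E} (h : Metric.closedBall x (1 / ((j : ℝ) + 1)) ⊆ Ω) :
    IsTest Ω fun t => d1_phi j (x - t) := by
  have hs : tsupport (fun t => d1_phi j (x - t)) ⊆ Metric.closedBall x (1 / ((j : ℝ) + 1)) := by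
    refine closure_minimal (fun t ht => ?_) Metric.isClosed_closedBall
    have : x - t ∈ Function.support (d1_phi j) := ht
    rw [d1_phi, (d1_b j).support_normed_eq, mem_ball_zero_iff] at this
    rw [Metric.mem_closedBall, dist_comm, dist_eq_norm]
    exact this.le
  exact ⟨(d1_phi_sm j).smooth.comp (contDiff_const.sub contDiff_id),
    (isCompact_closedBall _ _).of_isClosed_subset (isClosed_tsupport _) hs, hs.trans h⟩

lemma d1_fderiv (j : ℕ) (x t ξ : E) :
    fderiv ℝ (fun t => d1_phi j (x - t)) t ξ = -fderiv ℝ (d1_phi j) (x - t) ξ := by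
  have h1 : HasFDerivAt (d1_phi j) (fderiv ℝ (d1_phi j) (x - t)) (x - t) :=
    ((d1_phi_sm j).smooth.differentiable (by simp) _).hasFDerivAt
  have h2 : HasFDerivAt (fun t : E => x - t) (-ContinuousLinearMap.id ℝ E) t :=
    (hasFDerivAt_id t).const_sub x
  have := (h1.comp t h2).fderiv
  rw [show (fun t => d1_phi j (x - t)) = d1_phi j ∘ fun t : E => x - t from rfl, this]
  simp

lemma d1_chord {Ω : Set E} (hΩ : IsOpen Ω) {g : E → ℝ} (hg : Integrable g) {ξ : E} {S : Set E}
    (hS : Dense S)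
    (h : ∀ j : ℕ, ∀ y ∈ S, Metric.closedBall y (1 / ((j : ℝ) + 1)) ⊆ Ω → d1_K j g ξ y = 0)
    (x : E) (t : ℝ) (hx : segment ℝ x (x + t • ξ) ⊆ Ω) :
    ∀ᶠ j in atTop, d1_F j g (x + t • ξ) = d1_F j g x := by
  have hK : IsCompact (segment ℝ x (x + t • ξ)) := by
    rw [segment_eq_image']
    exact isCompact_Icc.image (by fun_prop)
  obtain ⟨δ, hδ, hth⟩ := hK.exists_cthickening_subset_open hΩ hx
  filter_upwards [(tendsto_one_div_add_atTop_nhds_zero_nat (𝕜 := ℝ)).eventually
    (gt_mem_nhds (half_pos hδ))] with j hj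
  have h0 : ∀ y ∈ Metric.thickening (δ / 2) (segment ℝ x (x + t • ξ)), d1_K j g ξ y = 0 := by
    intro y hy
    have h1 := hS.open_subset_closure_inter Metric.isOpen_thickening hy
    refine closure_minimal (t := {y | d1_K j g ξ y = 0}) ?_
      (isClosed_eq (d1_K_cont j hg ξ) continuous_const) h1
    rintro z ⟨hz, hz'⟩
    obtain ⟨w, hw, hd⟩ := Metric.mem_thickening_iff.1 hz
    refine h j z hz' fun v hv => hth (Metric.mem_cthickening_of_dist_le v w δ _ hw ?_)
    have := dist_triangle v z w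
    rw [Metric.mem_closedBall] at hv
    linarith
  have hd : ∀ s ∈ Set.Icc (0 : ℝ) 1,
      HasDerivAt (fun s : ℝ => d1_F j g (x + s • (t • ξ))) 0 s := by
    intro s hs
    obtain ⟨L, hL, hL'⟩ := d1_deriv j hg (x + s • (t • ξ))
    have h2 : HasDerivAt (fun s : ℝ => x + s • (t • ξ)) (t • ξ) s := by
      simpa using ((hasDerivAt_id s).smul_const (t • ξ)).const_add x
    have h3 := hL.comp_hasDerivAt s h2
    rw [map_smul, hL', h0, smul_zero] at h3
    · exact h3
    · refine Metric.self_subset_thickening (half_pos hδ) _ ?_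
      rw [segment_eq_image']
      exact ⟨s, hs, by simp⟩
  have := constant_of_has_deriv_right_zero (f := fun s : ℝ => d1_F j g (x + s • (t • ξ)))
    (a := 0) (b := 1) (fun s hs => (hd s hs).continuousAt.continuousWithinAt)
    (fun s hs => (hd s (Set.Ico_subset_Icc_self hs)).hasDerivWithinAt) 1 (by simp)
  simpa using this

theorem d1 : S_D1 := by
  intro Ω hΩ _ f hf H
  have hL : liouville Ω = (volume.prod om).restrict (Ω ×ˢ Set.univ) := by
    rw [liouville, circle_eq, Measure.restrict_prod_eq_prod_univ]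
  have hm : MeasurableSet (Ω ×ˢ (Set.univ : Set E)) := hΩ.measurableSet.prod MeasurableSet.univ
  obtain ⟨f1, s1, e1⟩ := hf.1
  set f0 : E × E → ℝ := (Ω ×ˢ Set.univ).indicator f1 with hf0
  have s0 : StronglyMeasurable f0 := s1.indicator hm
  have e0 : f0 =ᵐ[liouville Ω] f := by
    refine EventuallyEq.trans ?_ e1.symm
    rw [hL]
    exact indicator_ae_eq_restrict hm
  have i0 : Integrable f0 (volume.prod om) := by
    rw [hf0, integrable_indicator_iff hm, IntegrableOn, ← hL]
    exact hf.congr e1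
  have H0 : ∀ a m, IsTest Ω a → Sm m →
      ∫ p, f0 p * (fderiv ℝ a p.1 p.2 * m p.2) ∂(volume.prod om) = 0 := by
    intro a m ha hm'
    rw [← H a m ha hm', ← setIntegral_eq_integral_of_forall_compl_eq_zero (s := Ω ×ˢ Set.univ)
      (fun p hp => by rw [hf0, Set.indicator_of_notMem hp, zero_mul]), ← hL]
    refine integral_congr_ae ?_
    filter_upwards [e0] with p hp
    rw [hp]
  obtain ⟨S, hSc, hS⟩ := TopologicalSpace.exists_countable_dense E
  have A : ∀ᵐ ξ ∂om, ∀ j : ℕ, ∀ y ∈ S, Metric.closedBall y (1 / ((j : ℝ) + 1)) ⊆ Ω →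
      d1_K j (fun x => f0 (x, ξ)) ξ y = 0 := by
    rw [ae_all_iff]
    intro j
    rw [ae_ball_iff hSc]
    intro y _
    by_cases hy : Metric.closedBall y (1 / ((j : ℝ) + 1)) ⊆ Ω
    · have ht := d1_test j hy
      filter_upwards [d1_fix i0 ⟨ht.1, ht.2.1⟩ fun m hm' => H0 _ m ht hm'] with ξ hξ _
      simp only [d1_fderiv, mul_neg, integral_neg, neg_eq_zero] at hξ
      exact hξ
    · exact Eventually.of_forall fun ξ h => absurd h hy
  have B : ∀ᵐ ξ ∂om, Integrable (fun x => f0 (x, ξ)) := i0.prod_left_ae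
  set g : E × E → ℝ := fun p => limsup (fun j => d1_F j (fun x => f0 (x, p.2)) p.1) atTop with hg
  have mg : Measurable g := by
    refine Measurable.limsup fun j => ?_
    have : StronglyMeasurable fun q : (E × E) × E => f0 (q.2, q.1.2) * d1_phi j (q.1.1 - q.2) :=
      (s0.comp_measurable (by fun_prop)).mul
        ((d1_phi_sm j).continuous.comp (by fun_prop)).stronglyMeasurable
    exact this.integral_prod_right'.measurable
  refine ⟨g, mg, EventuallyEq.trans ?_ e0, ?_⟩
  · rw [hL]
    refine ae_restrict_of_ae ?_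
    have hs : MeasurableSet {p : E × E | g p = f0 p} := measurableSet_eq_fun mg s0.measurable
    rw [Measure.ae_prod_iff_ae_ae hs, Measure.ae_ae_comm (p := fun x ξ => g (x, ξ) = f0 (x, ξ)) hs]
    filter_upwards [B] with ξ hξ
    filter_upwards [d1_tendsto hξ] with x hx
    exact hx.limsup_eq
  · filter_upwards [A, B] with ξ h1 h2 x t hx
    exact limsup_congr (d1_chord hΩ h2 hS h1 x t hx)

end

end Pool.Agent.P.MP_6b977f_mp
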