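import Pool.Agent.P.MP_6b977f_mp.QD2c

/-! The reflection law and ergodicity force an invariant density to be constant. -/

namespace Pool.Agent.P.MP_6b977f_mp

open Real MeasureTheory Filter Topology Set
open scoped RealInnerProductSpace ContDiff

noncomputable section

namespace D2

variable {Ω : Set E}

lemma seg_iff (x ξ : E) (a b : ℝ) :
    segment ℝ (x + a • ξ) (x + b • ξ) ⊆ Ω ↔ ∀ r ∈ uIcc a b, x + r • ξ ∈ Ω := by
  have e : ∀ u v : ℝ, u + v = 1 → u • (x + a • ξ) + v • (x + b • ξ) = x + (u * a + v * b) • ξ := by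
    intro u v h
    rw [smul_add, smul_add, add_add_add_comm, ← add_smul, h, one_smul, smul_smul, smul_smul,
      ← add_smul]
  rw [← segment_eq_uIcc]
  constructor
  · rintro h r ⟨u, v, hu, hv, huv, rfl⟩
    exact h ⟨u, v, hu, hv, huv, e u v huv⟩
  · rintro h _ ⟨u, v, hu, hv, huv, rfl⟩
    rw [e u v huv]
    exact h _ ⟨u, v, hu, hv, huv, rfl⟩

lemma straight_symm {p q : E × E} (h : Straight Ω p q) : Straight Ω q p := by
  obtain ⟨h1, ⟨t, h2⟩, h3⟩ := h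
  refine ⟨h1.symm, ⟨-t, ?_⟩, by rwa [segment_symm]⟩
  rw [h2, h1, neg_smul, add_neg_cancel_right]

lemma regular_not {y ν : E} (h : Regular Ω y ν) : y ∉ Ω := by
  obtain ⟨φ, r, -, h2, -, h4, -, h6⟩ := h
  rw [h6 y (Metric.mem_ball_self h2), sub_self, inner_zero_left, inner_zero_left, h4]
  exact lt_irrefl _

lemma bounce_left {p p' q : E × E} (hs : Straight Ω p' p) (h : Bounce Ω p q) : Bounce Ω p' q := by
  obtain ⟨x', ξ'⟩ := p'
  obtain ⟨x, ξ⟩ := p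
  obtain ⟨rfl, ⟨τ, rfl⟩, h3⟩ : ξ = ξ' ∧ (∃ t : ℝ, x = x' + t • ξ') ∧ segment ℝ x' x ⊆ Ω := hs
  obtain ⟨y, ν, hR, h1, h2, s, t, hs, ht, hy, hq, hl, hr⟩ := h
  dsimp only at *
  have h4 := (seg_iff (Ω := Ω) x' ξ 0 τ).1 (by rwa [zero_smul, add_zero])
  rw [add_assoc, ← add_smul] at hy
  refine ⟨y, ν, hR, h1, h2, τ + s, t, ?_, ht, hy, hq, fun r hr' => ?_, hr⟩
  · by_contra hc
    exact regular_not hR (hy ▸ h4 _ (mem_uIcc.2 (Or.inr ⟨by linarith, not_lt.1 hc⟩)))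
  · by_cases h5 : τ ≤ r
    · have := hl (r - τ) ⟨by linarith, by linarith [hr'.2]⟩
      rwa [add_assoc, ← add_smul, add_sub_cancel] at this
    · exact h4 r (mem_uIcc.2 (Or.inl ⟨hr'.1, (not_le.1 h5).le⟩))

lemma bounce_right {p q q' : E × E} (hs : Straight Ω q' q) (h : Bounce Ω p q) :
    Bounce Ω p q' := by
  obtain ⟨x', ξ'⟩ := q'
  obtain ⟨x, ξ⟩ := q
  obtain ⟨rfl, ⟨τ, rfl⟩, h3⟩ : ξ' = ξ ∧ (∃ t : ℝ, x' = x + t • ξ) ∧ segment ℝ x x' ⊆ Ω :=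
    straight_symm hs
  obtain ⟨y, ν, hR, h1, h2, s, t, hs, ht, hy, hq, hl, hr⟩ := h
  dsimp only at *
  have e : x + τ • ξ' = y + (t + τ) • ξ' := by rw [hq, add_smul, add_assoc]
  rw [e, hq] at h3
  have h4 := (seg_iff y ξ' t (t + τ)).1 h3
  refine ⟨y, ν, hR, h1, h2, s, t + τ, hs, ?_, hy, e, hl, fun r hr' => ?_⟩
  · by_contra hc
    have := h4 0 (mem_uIcc.2 (Or.inr ⟨not_lt.1 hc, ht.le⟩))
    rw [zero_smul, add_zero] at this
    exact regular_not hR this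
  · by_cases h5 : r ≤ t
    · exact hr r ⟨hr'.1, h5⟩
    · exact h4 r (mem_uIcc.2 (Or.inl ⟨(not_le.1 h5).le, hr'.2⟩))

lemma bounce_norm {p q : E × E} (h : Bounce Ω p q) : ‖q.2‖ = ‖p.2‖ := by
  obtain ⟨y, ν, ⟨φ, r, hν, -⟩, -, h2, -⟩ := h
  rw [h2, ← refl_smul one_ne_zero hν, norm_refl]
  rw [one_smul, ← norm_ne_zero_iff, hν]
  exact one_ne_zero

lemma regular_in {y ν : E} (h : Regular Ω y ν) {v : E} (hv : 0 < ⟪v, ν⟫) :
    ∀ᶠ t : ℝ in 𝓝[>] 0, y + t • v ∈ Ω := by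
  obtain ⟨φ, r, -, h2, h3, h4, h5, h6⟩ := h
  have h7 := (hasDerivAt_rho y ν (h3.differentiable (by simp)) y v).tendsto_slope_zero_right
  rw [nrm, sub_self, inner_zero_left, h5, zero_smul ℝ (rot ν), sub_zero] at h7
  have h8 : Tendsto (fun t : ℝ => y + t • v) (𝓝[>] 0) (𝓝 y) := by
    have : Continuous fun t : ℝ => y + t • v := by fun_prop
    simpa using (this.tendsto 0).mono_left nhdsWithin_le_nhds
  filter_upwards [h7.eventually (lt_mem_nhds hv), h8.eventually (Metric.ball_mem_nhds y h2),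
    self_mem_nhdsWithin] with t h9 hb ht
  rw [h6 _ hb, ← sub_pos]
  simp only [zero_add, zero_smul, add_zero, rho, sub_self, inner_zero_left, h4, sub_zero,
    smul_eq_mul] at h9
  exact (mul_pos_iff_of_pos_left (inv_pos.2 ht)).1 h9

namespace Ch

lemma normal (c : Ch Ω) {y ν : E} (h : Regular Ω y ν) (hy : y ∈ Metric.ball c.y c.r) :
    ∃ (s a : ℝ), y = c.gam s ∧ c.n s = a • ν ∧ 1 ≤ |a| := by
  have hν : ‖ν‖ = 1 := by obtain ⟨φ, r, hν, -⟩ := h; exact hν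
  have hu : ν 0 ^ 2 + ν 1 ^ 2 = 1 := by rw [← nsq, hν, one_pow]
  have h1 : ∀ v : E, Tendsto (fun t : ℝ => y + t • v) (𝓝[>] 0) (𝓝 y) := by
    intro v
    have : Continuous fun t : ℝ => y + t • v := by fun_prop
    simpa using (this.tendsto 0).mono_left nhdsWithin_le_nhds
  have h2 : ∀ v : E, 0 < ⟪v, ν⟫ → ∀ᶠ t : ℝ in 𝓝[>] 0, 0 < rho c.y c.ν c.φ (y + t • v) := by
    intro v hv
    filter_upwards [regular_in h hv, (h1 v).eventually (Metric.isOpen_ball.mem_nhds hy)] with t a b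
    exact (c.mem b).1 a
  have h3 : rho c.y c.ν c.φ y = 0 := by
    refine le_antisymm (not_lt.1 fun h' => regular_not h ((c.mem hy).2 h')) ?_
    refine ge_of_tendsto ((c.continuous_rho.tendsto y).comp (h1 ν)) ?_
    exact (h2 ν (by rw [real_inner_self_eq_norm_sq, hν]; norm_num)).mono fun t ht => ht.le
  have h4 := c.eq_gam h3
  set s := ⟪y - c.y, rot c.ν⟫ with hs
  have h5 : ∀ v : E, 0 < ⟪v, ν⟫ → 0 ≤ ⟪v, c.n s⟫ := by
    intro v hv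
    refine ge_of_tendsto (hasDerivAt_rho c.y c.ν c.diff y v).tendsto_slope_zero_right ?_
    filter_upwards [h2 v hv, self_mem_nhdsWithin] with t a ht
    rw [zero_add, zero_smul, add_zero, h3, sub_zero, smul_eq_mul]
    exact (mul_pos (inv_pos.2 ht) a).le
  have h6 : ∀ σ : ℝ, 0 ≤ σ * ⟪rot ν, c.n s⟫ := by
    intro σ
    have h7 : Tendsto (fun ε : ℝ => ε * ⟪ν, c.n s⟫ + σ * ⟪rot ν, c.n s⟫) (𝓝[>] 0)
        (𝓝 (σ * ⟪rot ν, c.n s⟫)) := by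
      have : Continuous fun ε : ℝ => ε * ⟪ν, c.n s⟫ + σ * ⟪rot ν, c.n s⟫ := by fun_prop
      simpa using (this.tendsto 0).mono_left nhdsWithin_le_nhds
    refine ge_of_tendsto h7 ?_
    filter_upwards [self_mem_nhdsWithin] with ε hε
    have := h5 (ε • ν + σ • rot ν) (by
      have e : ⟪ε • ν + σ • rot ν, ν⟫ = ε := by
        simp only [inner_eq, PiLp.add_apply, PiLp.smul_apply, smul_eq_mul, rot0, rot1]
        linear_combination ε * hu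
      rw [e]; exact hε)
    rwa [inner_add_left, real_inner_smul_left, real_inner_smul_left] at this
  have h8 : ⟪rot ν, c.n s⟫ = 0 := by linarith [h6 1, h6 (-1)]
  have h9 : c.n s = ⟪ν, c.n s⟫ • ν := by
    rw [inner_eq, rot0, rot1] at h8
    refine ext2 ?_ ?_ <;> rw [PiLp.smul_apply, smul_eq_mul, inner_eq]
    · linear_combination -(ν 1) * h8 - c.n s 0 * hu
    · linear_combination ν 0 * h8 - c.n s 1 * hu
  refine ⟨s, _, h4, h9, ?_⟩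
  have := c.one_le_n s
  rwa [h9, norm_smul, hν, mul_one] at this

lemma hit {c : Ch Ω} {ξ : E} (h : ξ ∈ c.W (2 * c.L)) {s T : ℝ}
    (hs : c.gam s ∈ Metric.ball c.y (c.r / 2)) (hT : T ≠ 0)
    (hin : ∀ u ∈ Ioc (0 : ℝ) 1, c.gam s + (u * T) • ξ ∈ Ω) :
    Straight Ω (c.gam s + T • ξ, ξ) (c.Q (ξ, s)) := by
  have ha := W2_ne h
  have hr := half_pos c.r_pos
  obtain ⟨T', rfl⟩ : ∃ T', T = T' * ⟪ξ, c.ν⟫ := ⟨T / ⟪ξ, c.ν⟫, (div_mul_cancel₀ _ ha).symm⟩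
  have hin' : ∀ u ∈ Ioc (0 : ℝ) 1, c.gam s + (u * T') • c.dir ξ ∈ Ω := fun u hu => by
    rw [dir, smul_smul, mul_assoc]; exact hin u hu
  have hT' : 0 < T' := by
    by_contra hc
    have h1 : T' < 0 := lt_of_le_of_ne (not_lt.1 hc) (left_ne_zero_of_mul hT)
    have h2 : 0 < min 1 (c.r / 2 / -T') := lt_min one_pos (div_pos hr (neg_pos.2 h1))
    have h3 := mem_ball (d := -c.dir ξ) (by rw [norm_neg]; exact dir_le h.1) hs
      (mul_pos h2 (neg_pos.2 h1)).le ((le_div_iff₀ (neg_pos.2 h1)).1 (min_le_right _ _))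
    rw [mul_neg, neg_smul_neg] at h3
    have h4 := ((W_pos h).rho_pos _ _).1 ((c.mem h3).1 (hin' _ ⟨h2, min_le_left _ _⟩))
    nlinarith
  refine ⟨rfl, ⟨(c.r / 2 - T') * ⟪ξ, c.ν⟫, ?_⟩, ?_⟩
  · simp only [Q, dir, smul_smul]
    rw [add_assoc, ← add_smul]
    congr 2
    ring
  · rw [← smul_smul]
    refine (seg_iff (c.gam s) (c.dir ξ) T' (c.r / 2)).2 fun r hr' => ?_
    have h0 : 0 < r := (lt_min hT' hr).trans_le hr'.1
    by_cases h5 : r ≤ T'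
    · have := hin' (r / T') ⟨div_pos h0 hT', (div_le_one hT').2 h5⟩
      rwa [div_mul_cancel₀ _ hT'.ne'] at this
    · have h6 : r ≤ c.r / 2 := (le_max_iff.1 hr'.2).resolve_left h5
      exact (c.mem (mem_ball (dir_le h.1) hs h0.le h6)).2 (((W_pos h).rho_pos _ _).2 h0)

end Ch

/-- reflection at the point `y` with normal `ν` -/
def At (Ω : Set E) (y ν : E) (p q : E × E) : Prop :=
  Regular Ω y ν ∧ ⟪p.2, ν⟫ < 0 ∧ q.2 = p.2 - (2 * ⟪p.2, ν⟫) • ν ∧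
    ∃ s t : ℝ, 0 < s ∧ 0 < t ∧ y = p.1 + s • p.2 ∧ q.1 = y + t • q.2 ∧
      (∀ r ∈ Set.Ico 0 s, p.1 + r • p.2 ∈ Ω) ∧ ∀ r ∈ Set.Ioc 0 t, y + r • q.2 ∈ Ω

lemma Ch.cover (c : Ch Ω) {y ν : E} {p q : E × E} (h : At Ω y ν p q) (hq : ‖q.2‖ = 1)
    (hL : 5 * c.L < -⟪p.2, ν⟫) (hy : y ∈ Metric.ball c.y (c.r / 2)) :
    ∃ z : E × ℝ, z.1 ∈ c.W (4 * c.L) ∧ c.gam z.2 = y ∧ Straight Ω p (c.Q (c.Psi z)) ∧
      Straight Ω q (c.Q z) := by
  obtain ⟨hR, h1, h2, s, t, hs, ht, e1, e2, hl, hr⟩ := h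
  have hν : ‖ν‖ = 1 := by obtain ⟨φ, r, hν, -⟩ := hR; exact hν
  obtain ⟨u, a, rfl, hn, ha⟩ := c.normal hR (Metric.ball_subset_ball (half_le_self c.r_pos.le) hy)
  have ha0 : a ≠ 0 := abs_pos.1 (one_pos.trans_le ha)
  have e3 : q.2 = refl (c.n u) p.2 := by rw [hn, refl_smul ha0 hν, h2]
  have e4 : refl (c.n u) q.2 = p.2 := by rw [e3, refl_refl (c.n_ne u)]
  have hW : q.2 ∈ c.W (4 * c.L) := by
    refine ⟨hq, ?_⟩
    have h3 := c.near hq u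
    have h4 : |⟪q.2, c.n u⟫| = |a| * -⟪p.2, ν⟫ := by
      rw [e3, refl_inner_self (c.n_ne u), abs_neg, hn, real_inner_smul_right, abs_mul, abs_of_neg h1]
    have h5 := abs_sub_abs_le_abs_sub ⟪q.2, c.n u⟫ ⟪q.2, c.ν⟫
    nlinarith
  refine ⟨(q.2, u), hW, rfl, ?_, ?_⟩
  · have h3 := Ch.hit (Ch.W_refl hW u) hy (neg_ne_zero.2 hs.ne') fun v hv => by
      have := hl ((1 - v) * s) ⟨mul_nonneg (sub_nonneg.2 hv.2) hs.le, by nlinarith [hv.1]⟩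
      rwa [e4, e1, add_assoc, ← add_smul, show s + v * -s = (1 - v) * s by ring]
    have e5 : c.gam u + -s • refl (c.n u) q.2 = p.1 := by
      rw [e4, e1, neg_smul, add_neg_cancel_right]
    rw [e5] at h3
    rwa [show p = (p.1, refl (c.n u) q.2) from Prod.ext rfl e4.symm]
  · have h3 := Ch.hit (Ch.W_mono hW) hy ht.ne' fun v hv =>
      hr _ ⟨mul_pos hv.1 ht, by nlinarith [hv.2]⟩
    rwa [← e2] at h3

/-- the two ends of the reflections that satisfy `R` -/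
def XX (Ω : Set E) (R : E × E → E × E → Prop) : Set (E × E) :=
  {w | ∃ p q, (w = p ∨ w = q) ∧ Bounce Ω p q ∧ ‖q.2‖ = 1 ∧ R p q}

lemma XX_null {R : E × E → E × E → Prop}
    (h : ∀ c : Ch Ω, ∃ ρ, 0 < ρ ∧ ρ ≤ c.r / 2 ∧ ∀ᵐ z ∂(om.prod volume), z.1 ∈ c.W (4 * c.L) →
      c.gam z.2 ∈ Metric.ball c.y ρ → ∀ p q, Straight Ω p (c.Q (c.Psi z)) → Straight Ω q (c.Q z) →
        ¬ R p q) : liouville Ω (XX Ω R) = 0 := by
  let X : ℕ → Set E → Set (E × E) := fun j B => {w | ∃ p q y ν, (w = p ∨ w = q) ∧ At Ω y ν p q ∧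
    ‖q.2‖ = 1 ∧ R p q ∧ 5 * (1 / ((j : ℝ) + 1)) < -⟪p.2, ν⟫ ∧ y ∈ B}
  have loc : ∀ j : ℕ, ∀ y₀ ∈ {y | ∃ ν, Regular Ω y ν}, ∃ ρ, 0 < ρ ∧
      liouville Ω (X j (Metric.ball y₀ ρ)) = 0 := by
    rintro j y₀ ⟨ν₀, h₀⟩
    obtain ⟨c, rfl, hL⟩ := exists_ch h₀ (Nat.one_div_pos_of_nat (n := j))
    obtain ⟨ρ, h1, h2, h3⟩ := h c
    refine ⟨ρ, h1, measure_mono_null ?_ (measure_union_null
      (c.nullB (c.Psi_mp.quasiMeasurePreserving.preimage_null (ae_iff.1 h3)))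
      (c.nullB (ae_iff.1 h3)))⟩
    rintro w ⟨p, q, y, ν, hw, hA, hq, hR, hj, hy⟩
    obtain ⟨z, z1, rfl, z3, z4⟩ := c.cover hA hq (hL ▸ hj) (Metric.ball_subset_ball h2 hy)
    have hz : ¬ (z.1 ∈ c.W (4 * c.L) → c.gam z.2 ∈ Metric.ball c.y ρ → ∀ p q,
        Straight Ω p (c.Q (c.Psi z)) → Straight Ω q (c.Q z) → ¬ R p q) :=
      fun h' => h' z1 hy p q z3 z4 hR
    rcases hw with rfl | rfl
    · exact Or.inl ⟨c.Psi z, by rw [mem_preimage, c.Psi_Psi]; exact hz, Ch.W_refl z1 _, z3⟩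
    · exact Or.inr ⟨z, hz, Ch.W_mono z1, z4⟩
  choose! ρ hρ hX using loc
  have cov : ∀ j : ℕ, liouville Ω (X j univ) = 0 := by
    intro j
    obtain ⟨t, ht, hc, hcov⟩ := TopologicalSpace.countable_cover_nhdsWithin
      (f := fun y₀ => Metric.ball y₀ (ρ j y₀)) (s := {y | ∃ ν, Regular Ω y ν})
      fun y₀ hy₀ => mem_nhdsWithin_of_mem_nhds (Metric.ball_mem_nhds _ (hρ j y₀ hy₀))
    refine measure_mono_null ?_ ((measure_biUnion_null_iff hc).2 fun y₀ hy₀ => hX j y₀ (ht hy₀))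
    rintro w ⟨p, q, y, ν, hw, hA, hq, hR, hj, -⟩
    obtain ⟨y₀, h1, h2⟩ := mem_iUnion₂.1 (hcov ⟨ν, hA.1⟩)
    exact mem_iUnion₂.2 ⟨y₀, h1, p, q, y, ν, hw, hA, hq, hR, hj, h2⟩
  refine measure_mono_null ?_ (measure_iUnion_null cov)
  rintro w ⟨p, q, hw, ⟨y, ν, hA⟩, hq, hR⟩
  obtain ⟨j, hj⟩ := exists_nat_one_div_lt (show 0 < -⟪p.2, ν⟫ / 5 by linarith [hA.2.1])
  exact mem_iUnion.2 ⟨j, p, q, y, ν, hw, hA, hq, hR, by linarith, trivial⟩

lemma XX_sat {R : E × E → E × E → Prop} (h1 : ∀ p p' q, Straight Ω p' p → R p q → R p' q)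
    (h2 : ∀ p q q', Straight Ω q' q → R p q → R p q') (w w' : E × E) (hs : Straight Ω w' w)
    (hw : w ∈ XX Ω R) : w' ∈ XX Ω R := by
  obtain ⟨p, q, rfl | rfl, hb, hq, hR⟩ := hw
  · exact ⟨w', q, Or.inl rfl, bounce_left hs hb, hq, h1 _ _ _ hs hR⟩
  · exact ⟨p, w', Or.inr rfl, bounce_right hs hb, hs.1 ▸ hq, h2 _ _ _ hs hR⟩

/-- good directions -/
def Gd (Ω : Set E) (g : E × E → ℝ) : Set E :=
  {ξ | ‖ξ‖ = 1 ∧ ∀ (x : E) (t : ℝ), segment ℝ x (x + t • ξ) ⊆ Ω → g (x + t • ξ, ξ) = g (x, ξ)}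

lemma gd_eq {g : E × E → ℝ} {p q : E × E} (hs : Straight Ω p q) (h : p.2 ∈ Gd Ω g) : g p = g q := by
  obtain ⟨h1, ⟨t, h2⟩, h3⟩ := hs
  rw [h2] at h3
  rw [show q = (p.1 + t • p.2, p.2) from Prod.ext h2 h1, h.2 _ _ h3]

/-- the exceptional sets -/
def Bad (Ω : Set E) (g : E × E → ℝ) : ℕ → Set (E × E)
  | 0 => {w | w.2 ∉ Gd Ω g} ∪ XX Ω fun p q => p.2 ∈ Gd Ω g ∧ q.2 ∈ Gd Ω g ∧ g p ≠ g q
  | j + 1 => XX Ω fun p q => p ∈ Bad Ω g j ∨ q ∈ Bad Ω g j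

lemma bad_sat (g : E × E → ℝ) (j : ℕ) :
    ∀ w' w, Straight Ω w' w → w ∈ Bad Ω g j → w' ∈ Bad Ω g j := by
  induction j with
  | zero =>
    rintro w' w hs (h | h)
    · exact Or.inl (show w'.2 ∉ Gd Ω g from hs.1 ▸ h)
    · refine Or.inr (XX_sat (fun p p' q hs h => ?_) (fun p q q' hs h => ?_) w w' hs h)
      · have h1 : p'.2 ∈ Gd Ω g := hs.1 ▸ h.1
        exact ⟨h1, h.2.1, gd_eq hs h1 ▸ h.2.2⟩
      · have h1 : q'.2 ∈ Gd Ω g := hs.1 ▸ h.2.1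
        exact ⟨h.1, h1, gd_eq hs h1 ▸ h.2.2⟩
  | succ j ih =>
    exact fun w' w hs h => XX_sat (fun p p' q hs h => h.imp_left (ih _ _ hs))
      (fun p q q' hs h => h.imp_right (ih _ _ hs)) w w' hs h

lemma bad_null (hΩ : IsOpen Ω) {g : E × E → ℝ} (hg : Measurable g) (hi : Integrable g (liouville Ω))
    (hc : Chord Ω g) (h2 : H2 Ω g) (j : ℕ) : liouville Ω (Bad Ω g j) = 0 := by
  induction j with
  | zero =>
    refine measure_union_null ?_ (XX_null fun c => ?_)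
    · rw [liou]
      exact ae_iff.1 (Measure.quasiMeasurePreserving_snd.ae (ae_om_norm.and hc))
    · obtain ⟨ρ, h3, h4, h5⟩ := Ch.law hΩ hg hi hc h2 c
      refine ⟨ρ, h3, h4, h5.mono fun z hz hW hs p q s1 s2 h => h.2.2 ?_⟩
      rw [gd_eq s1 h.1, gd_eq s2 h.2.1, hz hW hs]
  | succ j ih =>
    refine XX_null fun c => ⟨c.r / 2, half_pos c.r_pos, le_rfl, ?_⟩
    have h3 := c.nullA hΩ (bad_sat g j) ih
    filter_upwards [h3, c.Psi_mp.quasiMeasurePreserving.ae h3] with z a1 a2 hW hs p q s1 s2 h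
    rcases h with h | h
    · exact a2 (Ch.W_refl hW _) hs (bad_sat g j _ _ (straight_symm s1) h)
    · exact a1 (Ch.W_mono hW) hs (bad_sat g j _ _ (straight_symm s2) h)

end D2

open D2 in
theorem d2 : S_D2 := by
  intro Ω hΩ _ herg g hg hi hc h2
  have hnull : liouville Ω (⋃ j, Bad Ω g j) = 0 := measure_iUnion_null (bad_null hΩ hg hi hc h2)
  have hinv : ∀ p q, Straight Ω p q ∨ Bounce Ω p q →
      (p ∈ ⋃ j, Bad Ω g j ↔ q ∈ ⋃ j, Bad Ω g j) := by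
    rintro p q (h | h) <;> simp only [mem_iUnion]
    · exact exists_congr fun j => ⟨bad_sat g j _ _ (straight_symm h), bad_sat g j _ _ h⟩
    · by_cases hq : ‖q.2‖ = 1
      · exact ⟨fun ⟨j, hj⟩ => ⟨j + 1, p, q, Or.inr rfl, h, hq, Or.inl hj⟩,
          fun ⟨j, hj⟩ => ⟨j + 1, p, q, Or.inl rfl, h, hq, Or.inr hj⟩⟩
      · exact iff_of_true ⟨0, Or.inl fun h' => hq ((bounce_norm h).trans h'.1)⟩
          ⟨0, Or.inl fun h' => hq h'.1⟩
  have heq : ∀ p q, Straight Ω p q ∨ Bounce Ω p q → p ∉ ⋃ j, Bad Ω g j → g p = g q := by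
    intro p q h hp
    have hq := mt (hinv p q h).2 hp
    have p0 : p ∉ Bad Ω g 0 := fun h' => hp (mem_iUnion.2 ⟨0, h'⟩)
    have g1 : p.2 ∈ Gd Ω g := by_contra fun h' => p0 (Or.inl h')
    have g2 : q.2 ∈ Gd Ω g := by_contra fun h' => hq (mem_iUnion.2 ⟨0, Or.inl h'⟩)
    rcases h with h | h
    · exact gd_eq h g1
    · exact by_contra fun h' => p0 (Or.inr ⟨p, q, Or.inl rfl, h, g2.1, g1, g2, h'⟩)
  refine exists_eventuallyEq_const_of_forall_separating MeasurableSet fun V hV => ?_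
  rcases herg (g ⁻¹' V \ ⋃ j, Bad Ω g j)
    ((hg hV).nullMeasurableSet.diff (NullMeasurableSet.of_null hnull)) (fun p q h => by
      by_cases hp : p ∈ ⋃ j, Bad Ω g j
      · exact iff_of_false (fun h' => h'.2 hp) fun h' => h'.2 ((hinv p q h).1 hp)
      · rw [Set.mem_sdiff, Set.mem_sdiff, mem_preimage, mem_preimage, heq p q h hp, hinv p q h]) with h | h
  · right
    filter_upwards [measure_eq_zero_iff_ae_notMem.1 h, measure_eq_zero_iff_ae_notMem.1 hnull]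
      with p a b hp
    exact a ⟨hp, b⟩
  · left
    filter_upwards [measure_eq_zero_iff_ae_notMem.1 h] with p a
    exact (not_not.1 a).1

end

end Pool.Agent.P.MP_6b977f_mp
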