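import Pool.Agent.P.MP_6b977f_mp.QI

/-! Charts with a globally small slope: geometry and change of variables. -/

namespace Pool.Agent.P.MP_6b977f_mp.D2

open Real MeasureTheory Filter Topology Set
open scoped RealInnerProductSpace ContDiff

noncomputable section

lemma inner_eq (u v : E) : ⟪u, v⟫ = u 0 * v 0 + u 1 * v 1 := by
  simp [PiLp.inner_apply, Fin.sum_univ_two, mul_comm]

@[simp] lemma rot0 (v : E) : rot v 0 = -v 1 := rfl

@[simp] lemma rot1 (v : E) : rot v 1 = v 0 := rfl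

lemma ext2 {u v : E} (h0 : u 0 = v 0) (h1 : u 1 = v 1) : u = v := by
  ext i; fin_cases i <;> assumption

lemma norm_rot (v : E) : ‖rot v‖ = ‖v‖ := by
  rw [← sq_eq_sq₀ (norm_nonneg _) (norm_nonneg _), nsq, nsq, rot0, rot1]; ring

lemma J0_eq (v : E) : J0 v = (2 * π)⁻¹ * ∫ t in (0 : ℝ)..(2 * π), cos (‖v‖ * cos t) := by
  let z : ℂ := ⟨v 0, v 1⟩
  have hz : ‖z‖ = ‖v‖ := by
    rw [← sq_eq_sq₀ (norm_nonneg _) (norm_nonneg _), nsq, Complex.sq_norm, Complex.normSq_mk]; ring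
  have h0 : v 0 = ‖v‖ * cos z.arg := by rw [← hz, Complex.norm_mul_cos_arg]
  have h1 : v 1 = ‖v‖ * sin z.arg := by rw [← hz, Complex.norm_mul_sin_arg]
  have hper : Function.Periodic (fun t => cos (‖v‖ * cos t)) (2 * π) := fun t => by simp
  have h2 := hper.intervalIntegral_add_eq (0 - z.arg) 0
  unfold J0
  congr 1
  rw [zero_add] at h2
  rw [← h2, show 0 - z.arg + 2 * π = 2 * π - z.arg by ring,
    ← intervalIntegral.integral_comp_sub_right (fun t => cos (‖v‖ * cos t))]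
  congr 1
  ext t
  rw [cos_sub]
  congr 1
  conv_lhs => rw [h0, h1]
  ring

lemma om_inv {T : E → E} (hT : Continuous T) (h1 : ∀ u v, ⟪T u, v⟫ = ⟪u, T v⟫)
    (h2 : ∀ v, ‖T v‖ = ‖v‖) : MeasurePreserving T om om := by
  refine ⟨hT.measurable, Measure.ext_of_charFun ?_⟩
  ext v
  rw [charFun_apply, charFun_apply, integral_map hT.aemeasurable (by fun_prop)]
  have e1 := integral_om_ex v
  have e2 := integral_om_ex (T v)
  rw [J0_eq, h2, ← J0_eq, ← e1] at e2
  simp only [h1]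
  exact e2

lemma refl_inner (n u v : E) : ⟪refl n u, v⟫ = ⟪u, refl n v⟫ := by
  simp only [refl, inner_sub_left, inner_sub_right, real_inner_smul_left, real_inner_smul_right,
    real_inner_comm n v]
  ring

lemma refl_inner_self {n : E} (hn : n ≠ 0) (u : E) : ⟪refl n u, n⟫ = -⟪u, n⟫ := by
  have := norm_ne_zero_iff.2 hn
  simp only [refl, inner_sub_left, real_inner_smul_left, real_inner_self_eq_norm_sq]
  field_simp
  ring

lemma refl_refl {n : E} (hn : n ≠ 0) (u : E) : refl n (refl n u) = u := by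
  rw [refl, refl_inner_self hn, refl, mul_neg, neg_div, neg_smul]
  abel

lemma norm_refl {n : E} (hn : n ≠ 0) (u : E) : ‖refl n u‖ = ‖u‖ := by
  rw [← sq_eq_sq₀ (norm_nonneg _) (norm_nonneg _), ← real_inner_self_eq_norm_sq, refl_inner,
    refl_refl hn, real_inner_self_eq_norm_sq]

lemma refl_smul {a : ℝ} (ha : a ≠ 0) {ν : E} (hν : ‖ν‖ = 1) (u : E) :
    refl (a • ν) u = u - (2 * ⟪u, ν⟫) • ν := by
  rw [refl, real_inner_smul_right, norm_smul, hν, mul_one, Real.norm_eq_abs, sq_abs, smul_smul]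
  congr 2
  field_simp

lemma hasDerivAt_rho (y ν : E) {φ : ℝ → ℝ} (hφ : Differentiable ℝ φ) (x v : E) :
    HasDerivAt (fun t : ℝ => rho y ν φ (x + t • v)) ⟪v, nrm y ν φ x⟫ 0 := by
  have h : ∀ w : E, HasDerivAt (fun t : ℝ => ⟪x + t • v - y, w⟫) ⟪v, w⟫ 0 := by
    intro w
    have e : (fun t : ℝ => ⟪x + t • v - y, w⟫) = fun t : ℝ => ⟪x - y, w⟫ + t * ⟪v, w⟫ := by
      ext t
      rw [add_sub_right_comm, inner_add_left, real_inner_smul_left]
    rw [e]
    simpa using ((hasDerivAt_id (0 : ℝ)).mul_const ⟪v, w⟫).const_add ⟪x - y, w⟫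
  have h2 := (h ν).sub ((hφ _).hasDerivAt.comp (0 : ℝ) (h (rot ν)))
  rw [zero_smul, add_zero] at h2
  rw [nrm, inner_sub_right, real_inner_smul_right]
  exact h2

/-- a chart whose graph has slope at most `L` everywhere -/
structure Ch (Ω : Set E) where
  y : E
  ν : E
  φ : ℝ → ℝ
  r : ℝ
  L : ℝ
  ch : IsChart Ω y ν φ r
  pos : 0 < L
  lip : ∀ s, |deriv φ s| ≤ L

lemma exists_ch {Ω : Set E} {y ν : E} (h : Regular Ω y ν) {L : ℝ} (hL : 0 < L) :
    ∃ c : Ch Ω, c.y = y ∧ c.L = L := by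
  obtain ⟨φ, r, h1, h2, h3, h4, h5, h6⟩ := h
  have hd : ContDiff ℝ ∞ (deriv φ) := (contDiff_infty_iff_deriv.1 h3).2
  obtain ⟨δ, hδ, hb⟩ := Metric.continuousAt_iff.1 (hd.continuous.continuousAt (x := 0)) L hL
  let χ : ContDiffBump (0 : ℝ) := ⟨δ / 2, δ, by positivity, by linarith⟩
  have hs : ContDiff ℝ ∞ (fun u => χ u * deriv φ u) := χ.contDiff.mul hd
  have hder : deriv (fun s => ∫ u in (0 : ℝ)..s, χ u * deriv φ u) = fun u => χ u * deriv φ u :=
    funext fun s => hs.continuous.deriv_integral _ _ _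
  refine ⟨⟨y, ν, fun s => ∫ u in (0 : ℝ)..s, χ u * deriv φ u, min r (δ / 2), L,
    ⟨h1, by positivity, ?_, by simp, by simp [hder, h5], fun x hx => ?_⟩, hL, fun s => ?_⟩, rfl, rfl⟩
  · rw [contDiff_infty_iff_deriv, hder]
    exact ⟨fun s => (hs.continuous.integral_hasStrictDerivAt 0 s).hasDerivAt.differentiableAt, hs⟩
  · rw [h6 x (Metric.ball_subset_ball (min_le_left _ _) hx)]
    have h7 : |⟪x - y, rot ν⟫| ≤ δ / 2 := by
      refine (abs_real_inner_le_norm _ _).trans ?_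
      rw [norm_rot, h1, mul_one, ← dist_eq_norm]
      exact (Metric.mem_ball.1 hx).le.trans (min_le_right _ _)
    have h8 : ∫ u in (0 : ℝ)..⟪x - y, rot ν⟫, χ u * deriv φ u = φ ⟪x - y, rot ν⟫ := by
      rw [intervalIntegral.integral_congr (g := deriv φ), intervalIntegral.integral_deriv_eq_sub
        (fun u _ => h3.differentiable (by simp) u) (hd.continuous.intervalIntegrable _ _), h4,
        sub_zero]
      intro u hu
      have : χ u = 1 := χ.one_of_mem_closedBall (by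
        rw [mem_closedBall_zero_iff, Real.norm_eq_abs]
        have := abs_sub_left_of_mem_uIcc hu
        simp only [sub_zero] at this
        exact this.trans h7)
      simp only [this, one_mul]
    simp only [h8]
  · rw [hder, abs_mul]
    by_cases h : dist s 0 < δ
    · have h1 := hb h
      rw [h5, Real.dist_eq, sub_zero] at h1
      have h2 : |χ s| ≤ 1 := by rw [abs_of_nonneg χ.nonneg]; exact χ.le_one
      nlinarith [abs_nonneg (χ s), abs_nonneg (deriv φ s)]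
    · rw [χ.zero_of_le_dist (not_lt.1 h), abs_zero, zero_mul]
      exact hL.le

namespace Ch

variable {Ω : Set E} (c : Ch Ω)

/-- the graph -/
def gam (s : ℝ) : E := c.y + s • rot c.ν + c.φ s • c.ν

/-- normal vector of the graph -/
def n (s : ℝ) : E := c.ν - deriv c.φ s • rot c.ν

/-- lines of direction `d` through the graph -/
def Th (d : E) (p : ℝ × ℝ) : E := c.gam p.1 + p.2 • d

/-- directions that cross the graph upwards -/
def Pos (d : E) : Prop := 2 * c.L * |⟪d, rot c.ν⟫| < ⟪d, c.ν⟫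

lemma unit : c.ν 0 ^ 2 + c.ν 1 ^ 2 = 1 := by rw [← nsq, c.ch.1, one_pow]

lemma r_pos : 0 < c.r := c.ch.2.1

lemma smooth : ContDiff ℝ ∞ c.φ := c.ch.2.2.1

lemma diff : Differentiable ℝ c.φ := c.smooth.differentiable (by simp)

lemma smooth' : ContDiff ℝ ∞ (deriv c.φ) := (contDiff_infty_iff_deriv.1 c.smooth).2

lemma mem {x : E} (hx : x ∈ Metric.ball c.y c.r) : x ∈ Ω ↔ 0 < rho c.y c.ν c.φ x := by
  rw [c.ch.2.2.2.2.2 x hx, rho, sub_pos]

@[fun_prop] lemma continuous_gam : Continuous c.gam := by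
  have := c.smooth.continuous
  unfold gam; fun_prop

@[fun_prop] lemma continuous_n : Continuous c.n := by
  have := c.smooth'.continuous
  unfold n; fun_prop

@[fun_prop] lemma continuous_Th (d : E) : Continuous (c.Th d) := by
  unfold Th; fun_prop

lemma continuous_rho : Continuous (rho c.y c.ν c.φ) := by
  have := c.smooth.continuous
  unfold rho; fun_prop

lemma inner_e (d : E) (s t : ℝ) : ⟪c.gam s + t • d - c.y, rot c.ν⟫ = s + t * ⟪d, rot c.ν⟫ := by
  simp only [inner_eq, gam, PiLp.add_apply, PiLp.sub_apply, PiLp.smul_apply, smul_eq_mul, rot0, rot1]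
  linear_combination s * c.unit

lemma inner_ν (d : E) (s t : ℝ) : ⟪c.gam s + t • d - c.y, c.ν⟫ = c.φ s + t * ⟪d, c.ν⟫ := by
  simp only [inner_eq, gam, PiLp.add_apply, PiLp.sub_apply, PiLp.smul_apply, smul_eq_mul, rot0, rot1]
  linear_combination c.φ s * c.unit

lemma inner_gam (s : ℝ) : ⟪c.gam s - c.y, rot c.ν⟫ = s := by
  simpa using c.inner_e 0 s 0

lemma ext_inner {u v : E} (h1 : ⟪u - c.y, rot c.ν⟫ = ⟪v - c.y, rot c.ν⟫)
    (h2 : ⟪u - c.y, c.ν⟫ = ⟪v - c.y, c.ν⟫) : u = v := by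
  simp only [inner_eq, PiLp.sub_apply, rot0, rot1] at h1 h2
  refine ext2 ?_ ?_
  · linear_combination c.ν 0 * h2 - c.ν 1 * h1 - (u 0 - v 0) * c.unit
  · linear_combination c.ν 1 * h2 + c.ν 0 * h1 - (u 1 - v 1) * c.unit

lemma eq_gam {x : E} (h : rho c.y c.ν c.φ x = 0) : x = c.gam ⟪x - c.y, rot c.ν⟫ := by
  refine c.ext_inner (c.inner_gam _).symm ?_
  have := c.inner_ν 0 ⟪x - c.y, rot c.ν⟫ 0
  rw [zero_smul, add_zero, zero_mul, add_zero] at this
  rw [this]
  exact sub_eq_zero.1 h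

lemma nrm_gam (s : ℝ) : nrm c.y c.ν c.φ (c.gam s) = c.n s := by rw [nrm, inner_gam, n]

lemma inner_n (d : E) (s : ℝ) : ⟪d, c.n s⟫ = ⟪d, c.ν⟫ - deriv c.φ s * ⟪d, rot c.ν⟫ := by
  rw [n, inner_sub_right, real_inner_smul_right]

lemma one_le_n (s : ℝ) : 1 ≤ ‖c.n s‖ := by
  have h : ⟪c.ν, c.n s⟫ = 1 := by
    rw [inner_n, inner_eq, inner_eq, rot0, rot1]
    linear_combination c.unit
  have := real_inner_le_norm c.ν (c.n s)
  rwa [h, c.ch.1, one_mul] at this

lemma n_ne (s : ℝ) : c.n s ≠ 0 := fun h => by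
  have := c.one_le_n s
  rw [h, norm_zero] at this
  linarith

lemma near {d : E} (hd : ‖d‖ = 1) (s : ℝ) : |⟪d, c.n s⟫ - ⟪d, c.ν⟫| ≤ c.L := by
  have h1 : |⟪d, rot c.ν⟫| ≤ 1 := by
    have := abs_real_inner_le_norm d (rot c.ν)
    rwa [norm_rot, hd, c.ch.1, mul_one] at this
  rw [inner_n, sub_sub_cancel_left, abs_neg, abs_mul]
  nlinarith [c.lip s, abs_nonneg (deriv c.φ s), abs_nonneg ⟪d, rot c.ν⟫]

lemma lips (a b : ℝ) : |c.φ a - c.φ b| ≤ c.L * |a - b| :=
  Convex.norm_image_sub_le_of_norm_deriv_le (s := univ) (fun x _ => c.diff x) (fun x _ => c.lip x)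
    convex_univ (mem_univ b) (mem_univ a)

variable {c} {d : E}

lemma Pos.pos (h : c.Pos d) : 0 < ⟪d, c.ν⟫ :=
  lt_of_le_of_lt (by have := c.pos; positivity) h

lemma Pos.ne (h : c.Pos d) : d ≠ 0 := fun e => by
  have := h.pos
  rw [e, inner_zero_left] at this
  exact lt_irrefl _ this

lemma Pos.est (h : c.Pos d) (s t : ℝ) :
    |c.φ (s + t * ⟪d, rot c.ν⟫) - c.φ s| ≤ |t| * (⟪d, c.ν⟫ / 2) := by
  refine (c.lips _ _).trans ?_
  rw [add_sub_cancel_left, abs_mul]
  have : c.L * |⟪d, rot c.ν⟫| ≤ ⟪d, c.ν⟫ / 2 := by unfold Pos at h; linarith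
  nlinarith [abs_nonneg t]

lemma Pos.J_pos (h : c.Pos d) (s : ℝ) : 0 < ⟪d, c.n s⟫ := by
  rw [inner_n]
  have h1 := le_abs_self (deriv c.φ s * ⟪d, rot c.ν⟫)
  rw [abs_mul] at h1
  have h2 := h.pos
  unfold Pos at h
  nlinarith [c.lip s, abs_nonneg ⟪d, rot c.ν⟫]

lemma Pos.rho_pos (h : c.Pos d) (s t : ℝ) : 0 < rho c.y c.ν c.φ (c.gam s + t • d) ↔ 0 < t := by
  rw [rho, inner_e, inner_ν]
  have h1 := abs_le.1 (h.est s t)
  have h2 := h.pos
  constructor
  · intro h3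
    by_contra h4
    rw [abs_of_nonpos (not_lt.1 h4)] at h1
    nlinarith [not_lt.1 h4]
  · intro h3
    rw [abs_of_pos h3] at h1
    nlinarith

lemma Pos.inj (h : c.Pos d) : Function.Injective (c.Th d) := by
  rintro ⟨s, t⟩ ⟨s', t'⟩ e
  have e1 := congrArg (fun x => ⟪x - c.y, rot c.ν⟫) e
  have e2 := congrArg (fun x => ⟪x - c.y, c.ν⟫) e
  simp only [Th, inner_e, inner_ν] at e1 e2
  have h1 := h.est s (t - t')
  have h2 := h.pos
  rw [show s + (t - t') * ⟪d, rot c.ν⟫ = s' by linarith,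
    show c.φ s' - c.φ s = (t - t') * ⟪d, c.ν⟫ by linarith, abs_mul, abs_of_pos h2] at h1
  have h3 : |t - t'| = 0 := by nlinarith [abs_nonneg (t - t')]
  obtain rfl : t = t' := sub_eq_zero.1 (abs_eq_zero.1 h3)
  obtain rfl : s = s' := by linarith
  rfl

lemma Pos.surj (h : c.Pos d) : Function.Surjective (c.Th d) := by
  intro x
  set a := ⟪x - c.y, rot c.ν⟫ with ha
  set b := ⟪x - c.y, c.ν⟫ with hb
  have h2 := h.pos
  have hc : Continuous fun t : ℝ => c.φ (a + -t * ⟪d, rot c.ν⟫) + t * ⟪d, c.ν⟫ := by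
    have := c.smooth.continuous
    fun_prop
  set T := 2 * |b - c.φ a| / ⟪d, c.ν⟫ with hT
  have hT0 : 0 ≤ T := by positivity
  have hT1 : T * (⟪d, c.ν⟫ / 2) = |b - c.φ a| := by rw [hT]; field_simp
  have e1 := abs_le.1 (h.est a (-T))
  have e2 := abs_le.1 (h.est a (- -T))
  rw [abs_neg, abs_of_nonneg hT0] at e1
  rw [abs_neg, abs_neg, abs_of_nonneg hT0] at e2
  obtain ⟨t, -, ht⟩ := intermediate_value_Icc (by linarith : -T ≤ T) hc.continuousOn
    (show b ∈ Icc _ _ from ⟨by linarith [neg_abs_le (b - c.φ a)],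
      by linarith [le_abs_self (b - c.φ a)]⟩)
  refine ⟨(a + -t * ⟪d, rot c.ν⟫, t), c.ext_inner ?_ ?_⟩
  · simp only [Th, inner_e]; ring
  · simp only [Th, inner_ν]; exact ht

lemma Pos.emb (h : c.Pos d) : MeasurableEmbedding (c.Th d) :=
  (c.continuous_Th d).measurableEmbedding h.inj

lemma Pos.mp (h : c.Pos d) : MeasurePreserving (c.Th d)
    ((volume : Measure (ℝ × ℝ)).withDensity fun p => ENNReal.ofReal ⟪d, c.n p.1⟫) volume := by
  have hκ : MeasurePreserving (fun p : ℝ × ℝ => (!₂[p.1, p.2] : E)) :=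
    (PiLp.volume_preserving_toLp (Fin 2)).comp (volume_preserving_finTwoArrow ℝ).symm
  let F : ℝ × ℝ → ℝ × ℝ := fun p => (c.Th d p 0, c.Th d p 1)
  let F' : ℝ × ℝ → ℝ × ℝ →L[ℝ] ℝ × ℝ := fun p => (Matrix.toLin (.finTwoProd ℝ) (.finTwoProd ℝ)
    !![-c.ν 1 + deriv c.φ p.1 * c.ν 0, d 0; c.ν 0 + deriv c.φ p.1 * c.ν 1, d 1]).toContinuousLinearMap
  have hF : ∀ p, HasFDerivAt F (F' p) p := by
    intro p
    have h1 : ∀ u v w z : ℝ, HasFDerivAt (fun p : ℝ × ℝ => u + p.1 * v + c.φ p.1 * w + p.2 * z)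
        ((v + deriv c.φ p.1 * w) • ContinuousLinearMap.fst ℝ ℝ ℝ +
          z • ContinuousLinearMap.snd ℝ ℝ ℝ) p := by
      intro u v w z
      have := (((hasFDerivAt_fst (𝕜 := ℝ) (p := p)).mul_const v).const_add u).add
        (((c.diff p.1).hasDerivAt.comp_hasFDerivAt p hasFDerivAt_fst).mul_const w)
      refine (this.add ((hasFDerivAt_snd (𝕜 := ℝ) (p := p)).mul_const z)).congr_fderiv ?_
      ext <;> simp [mul_comm]
    simp only [F']
    rw [Matrix.toLin_finTwoProd_toContinuousLinearMap]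
    exact (h1 (c.y 0) (-c.ν 1) (c.ν 0) (d 0)).prodMk (h1 (c.y 1) (c.ν 0) (c.ν 1) (d 1))
  have hdet : ∀ p, |(F' p).det| = ⟪d, c.n p.1⟫ := by
    intro p
    rw [← abs_of_pos (h.J_pos p.1), ← abs_neg ⟪d, c.n p.1⟫]
    congr 1
    rw [inner_n]
    simp only [F', LinearMap.det_toContinuousLinearMap, LinearMap.det_toLin, Matrix.det_fin_two_of,
      inner_eq, rot0, rot1]
    ring
  have hTh : c.Th d = (fun p : ℝ × ℝ => (!₂[p.1, p.2] : E)) ∘ F := funext fun p => ext2 rfl rfl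
  have hinj : Function.Injective F := Function.Injective.of_comp (hTh ▸ h.inj)
  have hsurj : F '' univ = univ := by
    refine eq_univ_of_forall fun q => ?_
    obtain ⟨p, hp⟩ := h.surj !₂[q.1, q.2]
    exact ⟨p, trivial, by simp only [F, hp]; rfl⟩
  have key := map_withDensity_abs_det_fderiv_eq_addHaar (volume : Measure (ℝ × ℝ))
    MeasurableSet.univ.nullMeasurableSet (fun p _ => (hF p).hasFDerivWithinAt) hinj.injOn
  simp only [hsurj, Measure.restrict_univ, hdet] at key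
  rw [hTh]
  exact hκ.comp ⟨(continuous_iff_continuousAt.2 fun p => (hF p).continuousAt).measurable, key⟩

end Ch

end

end Pool.Agent.P.MP_6b977f_mp.D2
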