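import Pool.Agent.P.MP_6b977f_mp.QD2a

/-! The flux formula and the reflection law. -/

namespace Pool.Agent.P.MP_6b977f_mp.D2

open Real MeasureTheory Filter Topology Set
open scoped RealInnerProductSpace ContDiff ENNReal

noncomputable section

lemma prod_test {f : E × ℝ → ℝ} (hf : Integrable f (om.prod volume)) {V : Set E} (hV : IsOpen V)
    (h : ∀ (m : E → ℝ) (α : ℝ → ℝ), IsTest V m → ContDiff ℝ ∞ α → HasCompactSupport α →
      ∫ z, f z * (α z.2 * m z.1) ∂(om.prod volume) = 0) :
    ∀ᵐ z ∂(om.prod volume), z.1 ∈ V → f z = 0 := by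
  have hα : ∀ {μ : Measure (E × ℝ)} {α : ℝ → ℝ}, Integrable f μ → ContDiff ℝ ∞ α →
      HasCompactSupport α → Integrable (fun z => α z.2 * f z) μ := by
    intro μ α hf h1 h2
    obtain ⟨C, hC⟩ := h1.continuous.bounded_above_of_compact_support h2
    exact hf.bdd_mul (c := C) (h1.continuous.comp continuous_snd).aestronglyMeasurable
      (Eventually.of_forall fun z => hC _)
  have s1 : ∀ α : ℝ → ℝ, ContDiff ℝ ∞ α → HasCompactSupport α →
      ∀ᵐ ξ ∂om, ξ ∈ V → ∫ s, α s * f (ξ, s) = 0 := by
    intro α h1 h2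
    refine hV.ae_eq_zero_of_integral_contDiff_smul_eq_zero
      ((hα hf h1 h2).integral_prod_left.locallyIntegrable.locallyIntegrableOn V) fun m m1 m2 m3 => ?_
    obtain ⟨C, hC⟩ := m1.continuous.bounded_above_of_compact_support m2
    have hi : Integrable (fun z : E × ℝ => m z.1 * (α z.2 * f z)) (om.prod volume) :=
      (hα hf h1 h2).bdd_mul (c := C) (m1.continuous.comp continuous_fst).aestronglyMeasurable
        (Eventually.of_forall fun z => hC _)
    simp only [smul_eq_mul, ← integral_const_mul]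
    rw [← integral_prod _ hi, ← h m α ⟨m1, m2, m3⟩ h1 h2]
    congr 1; ext z; ring
  have hf' : Integrable f ((om.restrict V).prod volume) := by
    rw [Measure.restrict_prod_eq_prod_univ]; exact hf.integrableOn
  have s2 : ∀ A B, MeasurableSet A → MeasurableSet B →
      ∫ z in A ×ˢ B, f z ∂((om.restrict V).prod volume) = 0 := by
    intro A B hA hB
    have hi : Integrable f (((om.restrict V).restrict A).prod volume) := by
      rw [Measure.restrict_prod_eq_prod_univ]; exact hf'.integrableOn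
    have h3 : ∀ᵐ s, ∫ ξ, f (ξ, s) ∂((om.restrict V).restrict A) = 0 := by
      refine ae_eq_zero_of_integral_contDiff_smul_eq_zero hi.integral_prod_right.locallyIntegrable
        fun α h1 h2 => ?_
      simp only [smul_eq_mul, ← integral_const_mul]
      rw [← integral_prod_symm _ (hα hi h1 h2), integral_prod _ (hα hi h1 h2)]
      refine integral_eq_zero_of_ae (ae_restrict_of_ae ?_)
      exact (ae_restrict_iff' hV.measurableSet).2 (s1 α h1 h2)
    have hi' : Integrable f (((om.restrict V).restrict A).prod (volume.restrict B)) := by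
      rw [Measure.prod_restrict]; exact hf'.integrableOn
    rw [← Measure.prod_restrict, integral_prod_symm _ hi']
    exact integral_eq_zero_of_ae (ae_restrict_of_ae h3)
  have s3 : f =ᵐ[(om.restrict V).prod volume] 0 := by
    suffices H : ∀ t, MeasurableSet t → ∫ z in t, f z ∂((om.restrict V).prod volume) = 0 from
      hf'.ae_eq_zero_of_forall_setIntegral_eq_zero fun t ht _ => H t ht
    intro t ht
    induction t, ht using MeasurableSpace.induction_on_inter generateFrom_prod.symm isPiSystem_prod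
      with
    | empty => simp
    | basic t ht =>
      obtain ⟨A, hA, B, hB, rfl⟩ := ht
      exact s2 A B hA hB
    | compl t htm ih =>
      have h0 := s2 univ univ MeasurableSet.univ MeasurableSet.univ
      rw [univ_prod_univ, Measure.restrict_univ] at h0
      rw [setIntegral_compl htm hf', h0, ih, sub_zero]
    | iUnion g hd hm ih => simp [integral_iUnion hm hd hf'.integrableOn, ih]
  rw [Measure.restrict_prod_eq_prod_univ] at s3
  filter_upwards [(ae_restrict_iff' (hV.measurableSet.prod MeasurableSet.univ)).1 s3] with z hz hzV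
  exact hz ⟨hzV, trivial⟩

/-- constant along chords of direction `d` -/
def Const {α : Type} (Ω : Set E) (G : E → α) (d : E) : Prop :=
  ∀ (x : E) (t : ℝ), segment ℝ x (x + t • d) ⊆ Ω → G (x + t • d) = G x

lemma Const.smul {α : Type} {Ω : Set E} {G : E → α} {d : E} (h : Const Ω G d) (a : ℝ) :
    Const Ω G (a • d) := fun x t => by rw [smul_smul]; exact h x _

namespace Ch

variable {Ω : Set E} {c : Ch Ω} {d : E}

lemma Pos.seg (h : c.Pos d) {s t t' : ℝ} (ht : 0 < t) (ht' : 0 < t')
    (h1 : c.gam s + t • d ∈ Metric.ball c.y c.r) (h2 : c.gam s + t' • d ∈ Metric.ball c.y c.r) :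
    segment ℝ (c.gam s + t • d) (c.gam s + t' • d) ⊆ Ω := by
  intro x hx
  rw [c.mem ((convex_ball _ _).segment_subset h1 h2 hx)]
  obtain ⟨a, b, ha, hb, hab, rfl⟩ := hx
  have e : a • (c.gam s + t • d) + b • (c.gam s + t' • d) = c.gam s + (a * t + b * t') • d := by
    rw [smul_add, smul_add, add_add_add_comm, ← add_smul, hab, one_smul, smul_smul, smul_smul,
      ← add_smul]
  rw [e, h.rho_pos]
  rcases ha.eq_or_lt with rfl | ha
  · rw [zero_add] at hab; rw [hab]; linarith
  · positivity

lemma Pos.const {α : Type} (h : c.Pos d) {G : E → α} (hc : Const Ω G d) {s t t' : ℝ} (ht : 0 < t)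
    (ht' : 0 < t') (h1 : c.gam s + t • d ∈ Metric.ball c.y c.r)
    (h2 : c.gam s + t' • d ∈ Metric.ball c.y c.r) : G (c.gam s + t • d) = G (c.gam s + t' • d) := by
  have e : c.gam s + t • d = c.gam s + t' • d + (t - t') • d := by rw [sub_smul]; abel
  have := hc (c.gam s + t' • d) (t - t') (e ▸ h.seg ht' ht h2 h1)
  rwa [← e] at this

lemma mem_ball (hd : ‖d‖ ≤ 1) {s t : ℝ} (hs : c.gam s ∈ Metric.ball c.y (c.r / 2)) (h0 : 0 ≤ t)
    (ht : t ≤ c.r / 2) : c.gam s + t • d ∈ Metric.ball c.y c.r := by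
  rw [Metric.mem_ball, dist_eq_norm] at hs ⊢
  rw [add_sub_right_comm]
  refine (norm_add_le _ _).trans_lt ?_
  rw [norm_smul, Real.norm_eq_abs, abs_of_nonneg h0]
  nlinarith [norm_nonneg d]

lemma meas_J (c : Ch Ω) (d : E) : Measurable fun p : ℝ × ℝ => ENNReal.ofReal ⟪d, c.n p.1⟫ :=
  ENNReal.measurable_ofReal.comp (by fun_prop : Continuous fun p : ℝ × ℝ => ⟪d, c.n p.1⟫).measurable

lemma Pos.flux (hΩ : IsOpen Ω) (h : c.Pos d) (hd : ‖d‖ ≤ 1) {G : E → ℝ} (hG : IntegrableOn G Ω)
    (hc : Const Ω G d) {b : E → ℝ} (hb : IsTest (Metric.ball c.y (c.r / 2)) b) :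
    ∫ x in Ω, G x * fderiv ℝ b x d =
      -∫ s, ⟪d, c.n s⟫ * G (c.gam s + (c.r / 2) • d) * b (c.gam s) := by
  have hr := c.r_pos
  have hF : Integrable (Ω.indicator fun x => G x * fderiv ℝ b x d) := by
    rw [integrable_indicator_iff hΩ.measurableSet]
    have h1 : Continuous fun x => fderiv ℝ b x d :=
      (hb.1.continuous_fderiv (by simp)).clm_apply continuous_const
    obtain ⟨C, hC⟩ := h1.bounded_above_of_compact_support (hb.2.1.fderiv_apply ℝ d)
    exact Integrable.mul_bdd (c := C) hG h1.aestronglyMeasurable (Eventually.of_forall hC)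
  have hlt : ∀ᵐ p : ℝ × ℝ, ENNReal.ofReal ⟪d, c.n p.1⟫ < ⊤ :=
    Eventually.of_forall fun _ => ENNReal.ofReal_lt_top
  have hI := (integrable_withDensity_iff_integrable_smul' (c.meas_J d) hlt).1
    ((h.mp.integrable_comp_emb h.emb).2 hF)
  rw [← integral_indicator hΩ.measurableSet, ← h.mp.integral_comp h.emb,
    integral_withDensity_eq_integral_toReal_smul (c.meas_J d) hlt, ← integral_neg]
  refine (integral_prod _ hI).trans (integral_congr_ae (Eventually.of_forall fun s => ?_))
  obtain ⟨k, k1, k2⟩ : ∃ k, (∀ t : ℝ, 0 < t → c.gam s + t • d ∈ Metric.ball c.y c.r →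
      G (c.gam s + t • d) = k) ∧ k * b (c.gam s) = G (c.gam s + (c.r / 2) • d) * b (c.gam s) := by
    by_cases h0 : ∃ t₀ : ℝ, 0 < t₀ ∧ c.gam s + t₀ • d ∈ Metric.ball c.y c.r
    · obtain ⟨t₀, h1, h2⟩ := h0
      refine ⟨G (c.gam s + t₀ • d), fun t ht hm => h.const (s := s) hc ht h1 hm h2, ?_⟩
      by_cases hs : c.gam s ∈ Metric.ball c.y (c.r / 2)
      · rw [h.const hc h1 (half_pos hr) h2 (mem_ball hd hs (half_pos hr).le le_rfl)]
      · rw [image_eq_zero_of_notMem_tsupport fun h => hs (hb.2.2 h), mul_zero, mul_zero]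
    · exact ⟨G (c.gam s + (c.r / 2) • d), fun t ht hm => (h0 ⟨t, ht, hm⟩).elim, rfl⟩
  have hder : ∀ t : ℝ, deriv (fun t : ℝ => b (c.gam s + t • d)) t =
      fderiv ℝ b (c.gam s + t • d) d := by
    intro t
    have h1 : HasDerivAt (fun t : ℝ => c.gam s + t • d) d t := by
      simpa using ((hasDerivAt_id t).smul_const d).const_add (c.gam s)
    exact ((hb.1.differentiable (by simp) _).hasFDerivAt.comp_hasDerivAt t h1).deriv
  have hpt : ∀ t : ℝ, (ENNReal.ofReal ⟪d, c.n s⟫).toReal •
      (Ω.indicator fun x => G x * fderiv ℝ b x d) (c.Th d (s, t)) =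
      (Ioi 0).indicator (fun t => ⟪d, c.n s⟫ * k * deriv (fun t : ℝ => b (c.gam s + t • d)) t) t := by
    intro t
    rw [ENNReal.toReal_ofReal (h.J_pos s).le, smul_eq_mul, Th]
    by_cases hm : c.gam s + t • d ∈ Metric.ball c.y c.r
    · by_cases ht : 0 < t
      · rw [indicator_of_mem ((c.mem hm).2 ((h.rho_pos s t).2 ht)), indicator_of_mem (mem_Ioi.2 ht),
          hder,
          k1 t ht hm, mul_assoc]
      · rw [indicator_of_notMem (fun h' => ht ((h.rho_pos s t).1 ((c.mem hm).1 h'))),
          indicator_of_notMem (mt mem_Ioi.1 ht), mul_zero]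
    · have h0 : fderiv ℝ b (c.gam s + t • d) = 0 := fderiv_of_notMem_tsupport ℝ fun h' =>
        hm (Metric.ball_subset_ball (half_le_self hr.le) (hb.2.2 h'))
      simp [indicator, hder, h0]
  have hcs : HasCompactSupport fun t : ℝ => b (c.gam s + t • d) :=
    hb.2.1.comp_isClosedEmbedding
      ((Homeomorph.addLeft (c.gam s)).isClosedEmbedding.comp (isClosedEmbedding_smul_left h.ne))
  have hsm : ContDiff ℝ 1 fun t : ℝ => b (c.gam s + t • d) :=
    (hb.1.of_le (by simp)).comp (by fun_prop)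
  simp only [Function.comp_apply, hpt]
  rw [integral_indicator measurableSet_Ioi, integral_const_mul, hcs.integral_Ioi_deriv_eq hsm,
    zero_smul, add_zero, mul_neg, mul_assoc, k2, mul_assoc]

lemma Pos.lint (hΩ : IsOpen Ω) (h : c.Pos d) (hd : ‖d‖ ≤ 1) {G : E → ℝ≥0∞} (hG : Measurable G)
    (hc : Const Ω G d) :
    ∫⁻ s, (c.gam ⁻¹' Metric.ball c.y (c.r / 2)).indicator (fun s => ENNReal.ofReal ⟪d, c.n s⟫ *
      G (c.gam s + (c.r / 2) • d) * ENNReal.ofReal (c.r / 2)) s ≤ ∫⁻ x in Ω, G x := by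
  have hr := c.r_pos
  have hm : Measurable fun p => Ω.indicator G (c.Th d p) :=
    (hG.indicator hΩ.measurableSet).comp (c.continuous_Th d).measurable
  rw [← lintegral_indicator hΩ.measurableSet, ← h.mp.lintegral_comp_emb h.emb,
    lintegral_withDensity_eq_lintegral_mul _ (c.meas_J d) hm, Measure.volume_eq_prod,
    lintegral_prod _ ((c.meas_J d).mul hm).aemeasurable]
  refine lintegral_mono (indicator_le fun s hs => ?_)
  rw [← sub_zero (c.r / 2), ← Real.volume_Ioo, sub_zero, ← setLIntegral_const]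
  refine le_trans (le_of_eq (setLIntegral_congr_fun measurableSet_Ioo fun t ht => ?_))
    (setLIntegral_le_lintegral _ _)
  have h1 := mem_ball hd hs ht.1.le ht.2.le
  simp only [Pi.mul_apply, Th]
  rw [indicator_of_mem ((c.mem h1).2 ((h.rho_pos s t).2 ht.1)),
    h.const hc ht.1 (half_pos hr) h1 (mem_ball hd hs (half_pos hr).le le_rfl)]

end Ch

end

end Pool.Agent.P.MP_6b977f_mp.D2
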