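import Pool.Agent.P.MP_6b977f_mp.QD2b

/-! The reflection law in a chart, and transfer of null sets. -/

namespace Pool.Agent.P.MP_6b977f_mp.D2

open Real MeasureTheory Filter Topology Set
open scoped RealInnerProductSpace ContDiff

noncomputable section

lemma liou (Ω : Set E) : liouville Ω = (volume.restrict Ω).prod om := rfl

namespace Ch

variable {Ω : Set E} (c : Ch Ω)

/-- unit directions transversal to the graph -/
def W (k : ℝ) : Set E := {ξ | ‖ξ‖ = 1 ∧ k < |⟪ξ, c.ν⟫|}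

/-- the direction turned upwards -/
def dir (ξ : E) : E := ⟪ξ, c.ν⟫ • ξ

/-- the phase point attached to a direction and a point of the graph -/
def Q (z : E × ℝ) : E × E := (c.gam z.2 + (c.r / 2) • c.dir z.1, z.1)

/-- reflection of the direction -/
def Psi (z : E × ℝ) : E × ℝ := (refl (c.n z.2) z.1, z.2)

lemma meas_W (k : ℝ) : MeasurableSet (c.W k) :=
  (measurableSet_eq_fun measurable_norm measurable_const).inter
    (measurableSet_lt measurable_const (by fun_prop : Measurable fun ξ : E => |⟪ξ, c.ν⟫|))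

@[fun_prop] lemma continuous_dir : Continuous c.dir := by unfold dir; fun_prop

@[fun_prop] lemma continuous_Q : Continuous c.Q := by unfold Q; fun_prop

lemma continuous_Psi : Continuous c.Psi := by
  unfold Psi refl
  have h : ∀ z : E × ℝ, ‖c.n z.2‖ ^ 2 ≠ 0 := fun z =>
    pow_ne_zero _ (norm_ne_zero_iff.2 (c.n_ne _))
  fun_prop (disch := exact h)

lemma Psi_Psi (z : E × ℝ) : c.Psi (c.Psi z) = z := by
  simp only [Psi, refl_refl (c.n_ne _)]

lemma Psi_mp : MeasurePreserving c.Psi (om.prod volume) (om.prod volume) := by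
  have h := (MeasurePreserving.id (volume : Measure ℝ)).skew_product (μc := om) (μd := om)
    (g := fun s ξ => refl (c.n s) ξ)
    (continuous_fst.comp (c.continuous_Psi.comp continuous_swap)).measurable
    (Eventually.of_forall fun s => (om_inv (by unfold refl; fun_prop) (refl_inner _)
      (norm_refl (c.n_ne s))).map_eq)
  exact (Measure.measurePreserving_swap.comp h).comp Measure.measurePreserving_swap

lemma Psi_emb : MeasurableEmbedding c.Psi :=
  c.continuous_Psi.measurableEmbedding (Function.LeftInverse.injective c.Psi_Psi)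

variable {c} {ξ : E}

lemma W_ne {k : ℝ} (hk : 0 ≤ k) (h : ξ ∈ c.W k) : ⟪ξ, c.ν⟫ ≠ 0 := abs_pos.1 (hk.trans_lt h.2)

lemma W2_ne (h : ξ ∈ c.W (2 * c.L)) : ⟪ξ, c.ν⟫ ≠ 0 := W_ne (by have := c.pos; positivity) h

lemma W_pos (h : ξ ∈ c.W (2 * c.L)) : c.Pos (c.dir ξ) := by
  have h1 : |⟪ξ, rot c.ν⟫| ≤ 1 := by
    have := abs_real_inner_le_norm ξ (rot c.ν)
    rwa [norm_rot, h.1, c.ch.1, mul_one] at this
  have h2 := h.2
  have h3 := c.pos
  unfold Pos dir
  rw [real_inner_smul_left, real_inner_smul_left, abs_mul, ← abs_mul_abs_self ⟪ξ, c.ν⟫]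
  have h4 : 0 < |⟪ξ, c.ν⟫| := by linarith
  calc 2 * c.L * (|⟪ξ, c.ν⟫| * |⟪ξ, rot c.ν⟫|) ≤ 2 * c.L * (|⟪ξ, c.ν⟫| * 1) := by gcongr
    _ < _ := by nlinarith

lemma dir_le (h : ‖ξ‖ = 1) : ‖c.dir ξ‖ ≤ 1 := by
  have := abs_real_inner_le_norm ξ c.ν
  rw [h, c.ch.1, mul_one] at this
  rwa [dir, norm_smul, h, mul_one]

lemma W_refl (h : ξ ∈ c.W (4 * c.L)) (s : ℝ) : refl (c.n s) ξ ∈ c.W (2 * c.L) := by
  have h0 : ‖refl (c.n s) ξ‖ = 1 := by rw [norm_refl (c.n_ne s), h.1]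
  refine ⟨h0, ?_⟩
  have h1 := c.near h0 s
  have h2 := c.near h.1 s
  have h3 := h.2
  rw [refl_inner_self (c.n_ne s)] at h1
  have h4 := abs_sub_abs_le_abs_sub (-⟪ξ, c.n s⟫) ⟪refl (c.n s) ξ, c.ν⟫
  have h5 := abs_sub_abs_le_abs_sub ⟪ξ, c.ν⟫ ⟪ξ, c.n s⟫
  rw [abs_neg] at h4
  rw [abs_sub_comm] at h5
  linarith

lemma W_mono (h : ξ ∈ c.W (4 * c.L)) : ξ ∈ c.W (2 * c.L) :=
  ⟨h.1, lt_trans (by have := c.pos; linarith) h.2⟩

lemma inner_n_ne (h : ξ ∈ c.W (2 * c.L)) (s : ℝ) : ⟪ξ, c.n s⟫ ≠ 0 := fun e => by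
  have := (W_pos h).J_pos s
  rw [dir, real_inner_smul_left, e, mul_zero] at this
  exact lt_irrefl _ this

/-- the flux density -/
def kk (c : Ch Ω) (g : E × E → ℝ) (χ : E → ℝ) : E × ℝ → ℝ :=
  (Prod.fst ⁻¹' c.W (2 * c.L)).indicator fun z => ⟪z.1, c.n z.2⟫ * g (c.Q z) * χ (c.gam z.2)

lemma integrable_kk (hΩ : IsOpen Ω) {g : E × E → ℝ} (hg : Measurable g)
    (hi : Integrable g (liouville Ω)) (hc : Chord Ω g) {χ : E → ℝ}
    (hχ : IsTest (Metric.ball c.y (c.r / 2)) χ) (hχ' : ∀ x, 0 ≤ χ x ∧ χ x ≤ 1) :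
    Integrable (c.kk g χ) (om.prod volume) := by
  have hr := c.r_pos
  have hL := c.pos
  have hm : Measurable (c.kk g χ) := by
    refine Measurable.indicator ?_ (measurable_fst (c.meas_W _))
    exact (((by fun_prop : Continuous fun z : E × ℝ => ⟪z.1, c.n z.2⟫).measurable).mul
      (hg.comp c.continuous_Q.measurable)).mul
      (hχ.1.continuous.comp (c.continuous_gam.comp continuous_snd)).measurable
  refine ⟨hm.aestronglyMeasurable, ?_⟩
  have h1 : ∀ᵐ ξ ∂om, ∫⁻ s, ‖c.kk g χ (ξ, s)‖ₑ ≤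
      ENNReal.ofReal (c.L * c.r)⁻¹ * ∫⁻ x in Ω, ‖g (x, ξ)‖ₑ := by
    filter_upwards [hc] with ξ hξ
    by_cases hW : ξ ∈ c.W (2 * c.L)
    swap
    · simp [kk, hW]
    have hcc : Const Ω (fun x => ‖g (x, ξ)‖ₑ) ξ := fun x t h => by simp only [hξ x t h]
    have h2 := (W_pos hW).lint hΩ (dir_le hW.1) (G := fun x => ‖g (x, ξ)‖ₑ) (by fun_prop)
      (hcc.smul _)
    refine le_trans ?_ (mul_le_mul_right h2 _)
    rw [← lintegral_const_mul' _ _ ENNReal.ofReal_ne_top]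
    refine lintegral_mono fun s => ?_
    dsimp only
    rw [kk, indicator_of_mem (show (ξ, s) ∈ Prod.fst ⁻¹' c.W (2 * c.L) from hW)]
    by_cases hs : c.gam s ∈ Metric.ball c.y (c.r / 2)
    · have hJ := (W_pos hW).J_pos s
      rw [indicator_of_mem (mem_preimage.2 hs), ← ofReal_norm, ← ofReal_norm,
        ← ENNReal.ofReal_mul hJ.le, ← ENNReal.ofReal_mul (by positivity),
        ← ENNReal.ofReal_mul (by positivity)]
      refine ENNReal.ofReal_le_ofReal ?_
      have h3 : 2 * c.L * |⟪ξ, c.n s⟫| ≤ ⟪c.dir ξ, c.n s⟫ := by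
        rw [← abs_of_pos hJ, dir, real_inner_smul_left, abs_mul]
        exact mul_le_mul_of_nonneg_right hW.2.le (abs_nonneg _)
      have h4 : ‖χ (c.gam s)‖ ≤ 1 := by
        rw [Real.norm_eq_abs, abs_of_nonneg (hχ' _).1]; exact (hχ' _).2
      rw [norm_mul, norm_mul, le_inv_mul_iff₀ (by positivity)]
      simp only [Q, Real.norm_eq_abs] at h4 ⊢
      calc c.L * c.r * (|⟪ξ, c.n s⟫| * |g (c.gam s + (c.r / 2) • c.dir ξ, ξ)| * |χ (c.gam s)|)
          ≤ c.L * c.r * (|⟪ξ, c.n s⟫| * |g (c.gam s + (c.r / 2) • c.dir ξ, ξ)| * 1) := by gcongr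
        _ = 2 * c.L * |⟪ξ, c.n s⟫| * |g (c.gam s + (c.r / 2) • c.dir ξ, ξ)| * (c.r / 2) := by ring
        _ ≤ _ := by gcongr
    · rw [image_eq_zero_of_notMem_tsupport fun h => hs (hχ.2.2 h)]
      simp
  have h5 : ∫⁻ p, ‖g p‖ₑ ∂(liouville Ω) = ∫⁻ ξ, ∫⁻ x in Ω, ‖g (x, ξ)‖ₑ ∂volume ∂om := by
    rw [liou]; exact lintegral_prod_symm _ hg.enorm.aemeasurable
  refine lt_of_le_of_lt ((lintegral_prod_le _).trans (lintegral_mono_ae h1)) ?_
  rw [lintegral_const_mul' _ _ ENNReal.ofReal_ne_top, ← h5]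
  exact ENNReal.mul_lt_top ENNReal.ofReal_lt_top hi.2

lemma smooth_B (c : Ch Ω) {a m : E → ℝ} (ha : ContDiff ℝ ∞ a) (hm : ContDiff ℝ ∞ m) :
    ContDiff ℝ ∞ fun p : E × E => a p.1 * (m p.2 + m (refl (nrm c.y c.ν c.φ p.1) p.2)) := by
  have h1 : ContDiff ℝ ∞ fun p : E × E => nrm c.y c.ν c.φ p.1 :=
    contDiff_const.sub ((c.smooth'.comp
      ((contDiff_fst.sub contDiff_const).inner ℝ contDiff_const)).smul contDiff_const)
  refine (ha.comp contDiff_fst).mul ((hm.comp contDiff_snd).add (hm.comp ?_))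
  refine contDiff_snd.sub (ContDiff.smul (ContDiff.div
    (contDiff_const.mul (contDiff_snd.inner ℝ h1)) (h1.norm_sq ℝ) fun p => ?_) h1)
  exact pow_ne_zero _ (norm_ne_zero_iff.2 (c.n_ne _))

lemma law_aux (hΩ : IsOpen Ω) {g : E × E → ℝ} (hi : Integrable g (liouville Ω)) (hc : Chord Ω g)
    {χ : E → ℝ} (hχ : IsTest (Metric.ball c.y (c.r / 2)) χ)
    (hk : Integrable (c.kk g χ) (om.prod volume)) {m : E → ℝ}
    (hm : IsTest {ξ | 4 * c.L < |⟪ξ, c.ν⟫|} m) {α : ℝ → ℝ} (h1 : ContDiff ℝ ∞ α)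
    (h2 : HasCompactSupport α)
    (H : ∫ p, g p * fderiv ℝ (fun x => α ⟪x - c.y, rot c.ν⟫ * χ x *
      (m p.2 + m (refl (nrm c.y c.ν c.φ x) p.2))) p.1 p.2 ∂(liouville Ω) = 0) :
    ∫ z, (c.kk g χ z + c.kk g χ (c.Psi z)) * (α z.2 * m z.1) ∂(om.prod volume) = 0 := by
  rw [liou] at hi H
  have ha : IsTest (Metric.ball c.y (c.r / 2)) fun x => α ⟪x - c.y, rot c.ν⟫ * χ x :=
    hχ.mul_left (h1.comp ((contDiff_id.sub contDiff_const).inner ℝ contDiff_const))
  set a : E → ℝ := fun x => α ⟪x - c.y, rot c.ν⟫ * χ x with hadef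
  let B : E → E → ℝ := fun ξ x => a x * (m ξ + m (refl (nrm c.y c.ν c.φ x) ξ))
  have hB := c.smooth_B ha.1 hm.1
  have hB1 : ∀ ξ, IsTest (Metric.ball c.y (c.r / 2)) (B ξ) := fun ξ =>
    ⟨hB.comp (contDiff_id.prodMk contDiff_const), ha.2.1.mul_right,
      tsupport_mul_subset_left.trans ha.2.2⟩
  have hcont : Continuous fun p : E × E => fderiv ℝ (B p.2) p.1 p.2 :=
    (Continuous.fderiv (𝕜 := ℝ) (f := fun p : E × E => B p.2) (g := Prod.fst)
      (hB.comp (contDiff_snd.prodMk (contDiff_snd.comp contDiff_fst))) continuous_fst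
      (by simp)).clm_apply continuous_snd
  obtain ⟨C, hC⟩ := (ha.2.1.isCompact.prod (isCompact_sphere (0 : E) 1)).exists_bound_of_continuousOn
    hcont.continuousOn
  have hI : Integrable (fun p : E × E => g p * fderiv ℝ (B p.2) p.1 p.2)
      ((volume.restrict Ω).prod om) := by
    refine hi.mul_bdd (c := max C 0) hcont.aestronglyMeasurable ?_
    filter_upwards [Measure.quasiMeasurePreserving_snd.ae ae_om_norm] with p hp
    by_cases h : p.1 ∈ tsupport a
    · exact (hC p ⟨h, by simpa using hp⟩).trans (le_max_left _ _)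
    · rw [fderiv_of_notMem_tsupport ℝ fun h' => h (tsupport_mul_subset_left h')]
      simp
  obtain ⟨C1, hC1⟩ := h1.continuous.bounded_above_of_compact_support h2
  obtain ⟨C2, hC2⟩ := hm.1.continuous.bounded_above_of_compact_support hm.2.1
  have hb : ∀ {f : E × ℝ → ℝ} {T : E × ℝ → E}, Integrable f (om.prod volume) → Continuous T →
      Integrable (fun z => f z * (α z.2 * m (T z))) (om.prod volume) := by
    intro f T hf hT
    refine hf.mul_bdd (c := C1 * C2) ((h1.continuous.comp continuous_snd).mul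
      (hm.1.continuous.comp hT)).aestronglyMeasurable (Eventually.of_forall fun z => ?_)
    rw [norm_mul]
    exact mul_le_mul (hC1 _) (hC2 _) (norm_nonneg _) ((norm_nonneg _).trans (hC1 0))
  have i1 := hb hk continuous_fst
  have i2 := hb (T := fun z => (c.Psi z).1) hk (continuous_fst.comp c.continuous_Psi)
  have i3 := hb (f := fun z => c.kk g χ (c.Psi z)) (c.Psi_mp.integrable_comp_of_integrable hk)
    continuous_fst
  have e1 : ∫ z, c.kk g χ (c.Psi z) * (α z.2 * m z.1) ∂(om.prod volume) =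
      ∫ z, c.kk g χ z * (α z.2 * m (c.Psi z).1) ∂(om.prod volume) := by
    rw [← c.Psi_mp.integral_comp c.Psi_emb fun z => c.kk g χ z * (α z.2 * m (c.Psi z).1)]
    simp only [Psi_Psi]
    rfl
  have key : ∀ᵐ ξ ∂om, ∫ s, (c.kk g χ (ξ, s) * (α s * m ξ) +
      c.kk g χ (ξ, s) * (α s * m (c.Psi (ξ, s)).1)) =
      -∫ x in Ω, g (x, ξ) * fderiv ℝ (B ξ) x ξ := by
    filter_upwards [hc, ae_om_norm, Integrable.prod_left_ae hi] with ξ hξ hn hint
    by_cases hW : ξ ∈ c.W (2 * c.L)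
    · have h3 := (W_pos hW).flux hΩ (dir_le hn) (G := fun x => g (x, ξ)) hint
        (Const.smul (Ω := Ω) (G := fun x => g (x, ξ)) hξ _) (hB1 ξ)
      apply mul_left_cancel₀ (W2_ne hW)
      rw [mul_neg, ← integral_const_mul, ← integral_const_mul, eq_neg_iff_add_eq_zero,
        ← neg_eq_iff_add_eq_zero]
      refine Eq.trans ?_ (h3.symm.trans ?_)
      · congr 2
        ext s
        rw [kk, indicator_of_mem (show (ξ, s) ∈ Prod.fst ⁻¹' c.W (2 * c.L) from hW)]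
        simp only [B, hadef, Q, Psi, nrm_gam, inner_gam]
        rw [show ⟪c.dir ξ, c.n s⟫ = ⟪ξ, c.ν⟫ * ⟪ξ, c.n s⟫ from real_inner_smul_left _ _ _]
        ring
      · congr 1
        ext x
        rw [dir, map_smul, smul_eq_mul]
        ring
    · have h3 : B ξ = fun _ => 0 := by
        ext x
        have e1 : m ξ = 0 := image_eq_zero_of_notMem_tsupport fun h =>
          hW (W_mono ⟨hn, hm.2.2 h⟩)
        have e2 : m (refl (nrm c.y c.ν c.φ x) ξ) = 0 := image_eq_zero_of_notMem_tsupport fun h => by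
          have := W_refl (c := c) ⟨(norm_refl (c.n_ne ⟪x - c.y, rot c.ν⟫) ξ).trans hn, hm.2.2 h⟩
            ⟪x - c.y, rot c.ν⟫
          rw [refl_refl (c.n_ne _)] at this
          exact hW this
        simp only [B, e1, e2, add_zero, mul_zero]
      simp [kk, hW, h3]
  simp only [add_mul]
  rw [integral_add i1 i3, e1, ← integral_add i1 i2]
  refine (integral_prod _ (i1.add i2)).trans ((integral_congr_ae key).trans ?_)
  rw [integral_neg, neg_eq_zero, ← integral_prod_symm _ hI]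
  exact H

lemma law (hΩ : IsOpen Ω) {g : E × E → ℝ} (hg : Measurable g) (hi : Integrable g (liouville Ω))
    (hc : Chord Ω g) (h2 : H2 Ω g) (c : Ch Ω) : ∃ ρ, 0 < ρ ∧ ρ ≤ c.r / 2 ∧
      ∀ᵐ z ∂(om.prod volume), z.1 ∈ c.W (4 * c.L) → c.gam z.2 ∈ Metric.ball c.y ρ →
        g (c.Q (c.Psi z)) = g (c.Q z) := by
  obtain ⟨r', hr', H⟩ := h2 c.y c.ν c.φ c.r c.ch
  have hr := c.r_pos
  have h0 : 0 < min r' (c.r / 2) := by positivity
  obtain ⟨χ, hχ, hχ1, hχ2⟩ := exists_test Metric.isOpen_ball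
    (isCompact_closedBall c.y (min r' (c.r / 2) / 2))
    (Metric.closedBall_subset_ball (half_lt_self h0))
  have hχ' := hχ.mono (Metric.ball_subset_ball (min_le_right _ _))
  have hk := integrable_kk hΩ hg hi hc hχ' hχ2
  refine ⟨min r' (c.r / 2) / 2, half_pos h0, (half_le_self h0.le).trans (min_le_right _ _), ?_⟩
  have := prod_test (hk.add (c.Psi_mp.integrable_comp_of_integrable hk))
    (V := {ξ | 4 * c.L < |⟪ξ, c.ν⟫|}) (isOpen_lt continuous_const (by fun_prop))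
    fun m α hm h3 h4 => law_aux hΩ hi hc hχ' hk hm h3 h4 (H _ m
      ((hχ.mono (Metric.ball_subset_ball (min_le_left _ _))).mul_left
        (h3.comp ((contDiff_id.sub contDiff_const).inner ℝ contDiff_const))) hm.sm)
  filter_upwards [this] with z hz hW hs
  have h5 := hz hW.2
  simp only [Pi.add_apply, Function.comp_apply, kk] at h5
  rw [indicator_of_mem (mem_preimage.2 (W_mono hW)),
    indicator_of_mem (show c.Psi z ∈ Prod.fst ⁻¹' c.W (2 * c.L) from W_refl hW z.2)] at h5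
  have h6 : ⟪(c.Psi z).1, c.n (c.Psi z).2⟫ = -⟪z.1, c.n z.2⟫ := refl_inner_self (c.n_ne _) _
  have h7 : χ (c.gam (c.Psi z).2) = 1 := hχ1 _ (Metric.ball_subset_closedBall hs)
  rw [h6, h7, hχ1 _ (Metric.ball_subset_closedBall hs)] at h5
  apply mul_left_cancel₀ (inner_n_ne (W_mono hW) z.2)
  linarith

lemma straight_Q (h : ξ ∈ c.W (2 * c.L)) {s t : ℝ} (hs : c.gam s ∈ Metric.ball c.y (c.r / 2))
    (ht : 0 < t) (hm : c.gam s + t • c.dir ξ ∈ Metric.ball c.y c.r) :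
    Straight Ω (c.gam s + t • c.dir ξ, ξ) (c.Q (ξ, s)) := by
  refine ⟨rfl, ⟨(c.r / 2 - t) * ⟪ξ, c.ν⟫, ?_⟩, (W_pos h).seg ht (half_pos c.r_pos) hm
    (mem_ball (dir_le h.1) hs (half_pos c.r_pos).le le_rfl)⟩
  simp only [Q, ← smul_smul]
  rw [show ⟪ξ, c.ν⟫ • ξ = c.dir ξ from rfl, sub_smul]
  abel

lemma nullA (hΩ : IsOpen Ω) (c : Ch Ω) {N : Set (E × E)}
    (hN : ∀ p q, Straight Ω p q → q ∈ N → p ∈ N) (h0 : liouville Ω N = 0) :
    ∀ᵐ z ∂(om.prod volume), z.1 ∈ c.W (2 * c.L) → c.gam z.2 ∈ Metric.ball c.y (c.r / 2) →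
      c.Q z ∉ N := by
  obtain ⟨N', h1, h2, h3⟩ := exists_measurable_superset_of_null h0
  have h4 : ∀ᵐ ξ ∂om, ∀ᵐ x ∂volume, x ∈ Ω → (x, ξ) ∉ N' := by
    have h5 : ∀ᵐ p ∂((volume.restrict Ω).prod om), p ∉ N' := measure_eq_zero_iff_ae_notMem.1 h3
    filter_upwards [Measure.ae_ae_of_ae_prod
      (Measure.measurePreserving_swap.quasiMeasurePreserving.ae h5)] with ξ hξ
    exact (ae_restrict_iff' hΩ.measurableSet).1 hξ
  have hΦ : Measurable fun w : E × ℝ × ℝ => c.Th (c.dir w.1) w.2 :=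
    (by unfold Th; fun_prop : Continuous fun w : E × ℝ × ℝ => c.Th (c.dir w.1) w.2).measurable
  have h6 : ∀ᵐ w ∂(om.prod (volume.prod volume)), w.1 ∈ c.W (2 * c.L) →
      c.Th (c.dir w.1) w.2 ∈ Ω → (c.Th (c.dir w.1) w.2, w.1) ∉ N' := by
    rw [Measure.ae_prod_iff_ae_ae]
    · filter_upwards [h4] with ξ hξ
      by_cases hW : ξ ∈ c.W (2 * c.L)
      · have h7 := (W_pos hW).mp.quasiMeasurePreserving.ae hξ
        have h8 := withDensity_absolutelyContinuous' (μ := (volume : Measure (ℝ × ℝ)))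
          (c.meas_J (c.dir ξ)).aemeasurable (Eventually.of_forall fun p =>
            (ENNReal.ofReal_pos.2 ((W_pos hW).J_pos p.1)).ne')
        filter_upwards [h8.ae_le h7] with p hp _ using hp
      · exact Eventually.of_forall fun _ h => (hW h).elim
    · exact (measurable_fst (c.meas_W _)).imp ((hΦ hΩ.measurableSet).imp
        ((hΦ.prodMk measurable_fst) h2).compl)
  have h9 : MeasurePreserving MeasurableEquiv.prodAssoc ((om.prod volume).prod volume)
      (om.prod ((volume : Measure ℝ).prod (volume : Measure ℝ))) :=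
    ⟨MeasurableEquiv.prodAssoc.measurable, Measure.prodAssoc_prod⟩
  filter_upwards [Measure.ae_ae_of_ae_prod (h9.quasiMeasurePreserving.ae h6)] with z hz hW hs hQ
  have hne : NeBot (ae (volume.restrict (Ioo (0 : ℝ) (c.r / 2)))) := by
    rw [ae_restrict_neBot, Real.volume_Ioo, sub_zero]
    exact (ENNReal.ofReal_pos.2 (half_pos c.r_pos)).ne'
  obtain ⟨t, ht, h⟩ := ((ae_restrict_mem (measurableSet_Ioo (a := (0 : ℝ)) (b := c.r / 2))).and
    (ae_restrict_of_ae hz)).exists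
  have hm := mem_ball (dir_le (c := c) hW.1) hs ht.1.le ht.2.le
  exact h hW ((c.mem hm).2 (((W_pos hW).rho_pos _ _).2 ht.1))
    (h1 (hN _ _ (straight_Q hW hs ht.1 hm) hQ))

lemma nullB (c : Ch Ω) {Z : Set (E × ℝ)} (h0 : om.prod volume Z = 0) :
    liouville Ω {q | ∃ z ∈ Z, z.1 ∈ c.W (2 * c.L) ∧ Straight Ω q (c.Q z)} = 0 := by
  obtain ⟨Z', h1, h2, h3⟩ := exists_measurable_superset_of_null h0
  let Φ : (E × ℝ) × ℝ → E × E := fun w => (w.1.1, c.Th (c.dir w.1.1) (w.1.2, w.2))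
  have hΦ : Continuous Φ := by unfold Φ Th; fun_prop
  let A : Set ((E × ℝ) × ℝ) := Prod.fst ⁻¹' (Z' ∩ Prod.fst ⁻¹' c.W (2 * c.L))
  have hA : MeasurableSet (Φ '' A) := by
    refine (measurable_fst (h2.inter (measurable_fst (c.meas_W _)))).image_of_continuousOn_injOn
      hΦ.continuousOn ?_
    rintro ⟨⟨ξ, s⟩, t⟩ hw ⟨⟨ξ', s'⟩, t'⟩ - e
    obtain ⟨rfl, e2⟩ := Prod.mk.inj e
    obtain ⟨rfl, rfl⟩ := Prod.mk.inj ((W_pos hw.2).inj e2)
    rfl
  have h4 : om.prod (volume.restrict Ω) (Φ '' A) = 0 := by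
    refine Measure.measure_prod_null_of_ae_null hA ?_
    filter_upwards [Measure.measure_ae_null_of_prod_null h3] with ξ hξ
    refine Measure.restrict_le_self.absolutelyContinuous ?_
    by_cases hW : ξ ∈ c.W (2 * c.L)
    · rw [← (W_pos hW).mp.measure_preimage_emb (W_pos hW).emb]
      refine withDensity_absolutelyContinuous _ _ (measure_mono_null (t :=
        (Prod.mk ξ ⁻¹' Z') ×ˢ univ) ?_ ?_)
      · rintro p ⟨⟨⟨ξ', s⟩, t⟩, hw, e⟩
        obtain ⟨rfl, e2⟩ := Prod.mk.inj e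
        obtain rfl := (W_pos hW).inj e2
        exact ⟨hw.1, trivial⟩
      · rw [Measure.volume_eq_prod, Measure.prod_prod, hξ, Pi.zero_apply, zero_mul]
    · refine measure_mono_null (t := ∅) ?_ measure_empty
      rintro p ⟨⟨⟨ξ', s⟩, t⟩, hw, e⟩
      obtain ⟨rfl, -⟩ := Prod.mk.inj e
      exact hW hw.2
  rw [liou]
  refine measure_mono_null ?_
    (Measure.measurePreserving_swap.quasiMeasurePreserving.preimage_null h4)
  rintro ⟨x, ξ⟩ ⟨⟨ξ', s⟩, hz, hW, rfl, ⟨t, ht⟩, -⟩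
  refine ⟨((ξ', s), c.r / 2 - t / ⟪ξ', c.ν⟫), ⟨h1 hz, hW⟩, Prod.ext rfl ?_⟩
  simp only [Q] at ht
  simp only [Φ, Th, Prod.snd_swap]
  rw [sub_smul, ← add_sub_assoc, ht, dir, smul_smul, div_mul_cancel₀ _ (W2_ne hW),
    add_sub_cancel_right]

end Ch

end

end Pool.Agent.P.MP_6b977f_mp.D2
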