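import Pool.Agent.P.MP_6b977f_mp.Glue
import Pool.Agent.P.MP_6b977f_mp.Defs2

/-!
Quantum ergodicity for ergodic Dirichlet billiards: statements of the parts and common lemmas.
-/

namespace Pool.Agent.P.MP_6b977f_mp

open Real MeasureTheory Filter Topology Laplacian
open scoped RealInnerProductSpace ContDiff

noncomputable section

lemma circle_eq : circle = om := rfl

/-- defining function of the chart -/
def rho (y ν : E) (φ : ℝ → ℝ) (x : E) : ℝ := ⟪x - y, ν⟫ - φ ⟪x - y, rot ν⟫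

/-- gradient of `rho` -/
def nrm (y ν : E) (φ : ℝ → ℝ) (x : E) : E := ν - deriv φ ⟪x - y, rot ν⟫ • rot ν

/-- reflection in the line orthogonal to `n` -/
def refl (n ξ : E) : E := ξ - (2 * ⟪ξ, n⟫ / ‖n‖ ^ 2) • n

/-- weak transport equation inside `Ω` -/
def H1 (Ω : Set E) (f : E × E → ℝ) : Prop :=
  ∀ a m, IsTest Ω a → Sm m →
    ∫ p, f p * (fderiv ℝ a p.1 p.2 * m p.2) ∂(liouville Ω) = 0

/-- weak transport equation up to the smooth boundary points -/
def H2 (Ω : Set E) (f : E × E → ℝ) : Prop :=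
  ∀ y ν φ r, IsChart Ω y ν φ r → ∃ r' > 0, ∀ a m, IsTest (Metric.ball y r') a → Sm m →
    ∫ p, f p * fderiv ℝ (fun x => a x * (m p.2 + m (refl (nrm y ν φ x) p.2))) p.1 p.2
      ∂(liouville Ω) = 0

/-- constant on chords, for almost every direction -/
def Chord (Ω : Set E) (g : E × E → ℝ) : Prop :=
  ∀ᵐ ξ ∂om, ∀ (x : E) (t : ℝ), segment ℝ x (x + t • ξ) ⊆ Ω → g (x + t • ξ, ξ) = g (x, ξ)

def S_D1 : Prop :=
  ∀ Ω : Set E, IsOpen Ω → Bornology.IsBounded Ω → ∀ f : E × E → ℝ,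
    Integrable f (liouville Ω) → H1 Ω f →
    ∃ g : E × E → ℝ, Measurable g ∧ g =ᵐ[liouville Ω] f ∧ Chord Ω g

def S_D2 : Prop :=
  ∀ Ω : Set E, IsOpen Ω → Bornology.IsBounded Ω → ErgodicBilliard Ω → ∀ g : E × E → ℝ,
    Measurable g → Integrable g (liouville Ω) → Chord Ω g → H2 Ω g →
    ∃ c : ℝ, g =ᵐ[liouville Ω] fun _ => c

/-- Weyl bound, no mass at the boundary on average, and the shift bound -/
def S_W : Prop :=
  ∀ (Ω : Set E) (u : ℕ → E → ℝ) (lam : ℕ → ℝ), IsOpen Ω → Bornology.IsBounded Ω → Ω.Nonempty →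
    DirichletBasis Ω u lam →
    (∃ C : ℝ, ∀ᶠ N : ℕ in atTop, lam N ≤ C * N) ∧
    (∀ ε > 0, ∃ K, IsCompact K ∧ K ⊆ Ω ∧ ∀ᶠ N : ℕ in atTop,
      ∑ n ∈ Finset.range N, ∫ x in Ω \ K, u n x ^ 2 ≤ ε * N) ∧
    ∀ n (y : E), ∫ z, (Ω.indicator (u n) (z + y) - Ω.indicator (u n) z) ^ 2 ≤
      ‖y‖ ^ 2 * (lam n * volume.real Ω)

/-- weak form of the Dirichlet condition near a smooth boundary point -/
def S_WK : Prop :=
  ∀ (Ω : Set E) (u : E → ℝ) (lam : ℝ), IsOpen Ω → ContDiffOn ℝ ∞ u Ω →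
    (∀ x ∈ Ω, Δ u x + lam * u x = 0) → InH10 Ω u → ∀ y ν φ r, IsChart Ω y ν φ r →
    ∀ v : E → ℝ, ContDiff ℝ ∞ v → (∀ z ∈ Metric.ball y r, rho y ν φ z = 0 → v z = 0) →
      (∀ z ∈ Metric.ball y r, r / 2 ≤ dist z y → v z = 0) →
      ∫ z in Ω ∩ Metric.ball y r, u z * (Δ v z + lam * v z) = 0

/-- extraction of a subsequence of full density -/
def S_X : Prop :=
  ∀ q : ℕ → ℕ → ℝ, (∀ i, ∀ ε > 0, ∀ᶠ N : ℕ in atTop,
      ∑ n ∈ Finset.range N, q i n ^ 2 ≤ ε * N) →
    ∃ s, FullDensity s ∧ ∀ i, Tendsto (fun j => q i (s j)) atTop (𝓝 0)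

lemma InH10.memLp {Ω : Set E} (hΩ : IsOpen Ω) {u : E → ℝ} (hu : ContDiffOn ℝ ∞ u Ω)
    (h : InH10 Ω u) : MemLp u 2 (volume.restrict Ω) := by
  obtain ⟨φ, h1, h2⟩ := h
  obtain ⟨j, hj⟩ := (h2.eventually (gt_mem_nhds ENNReal.zero_lt_top)).exists
  have m : AEStronglyMeasurable u (volume.restrict Ω) :=
    hu.continuousOn.aestronglyMeasurable hΩ.measurableSet
  have a : MemLp (φ j) 2 (volume.restrict Ω) :=
    ((h1 j).sm.continuous.memLp_of_hasCompactSupport (h1 j).2.1).restrict _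
  have b : MemLp (fun x => φ j x - u x) 2 (volume.restrict Ω) := by
    refine ⟨a.1.sub m, ?_⟩
    rw [eLpNorm_lt_top_iff_lintegral_rpow_enorm_lt_top (by norm_num) (by norm_num)]
    refine lt_of_le_of_lt (lintegral_mono fun x => ?_) hj
    simp
  convert a.sub b using 1
  ext x
  simp

lemma DirichletBasis.memLp {Ω : Set E} (hΩ : IsOpen Ω) {u : ℕ → E → ℝ} {lam : ℕ → ℝ}
    (h : DirichletBasis Ω u lam) (n : ℕ) : MemLp (u n) 2 (volume.restrict Ω) :=
  (h.h10 n).memLp hΩ (h.smooth n)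

lemma vol_pos {Ω : Set E} (hΩ : IsOpen Ω) (hb : Bornology.IsBounded Ω) (hn : Ω.Nonempty) :
    0 < volume.real Ω :=
  ENNReal.toReal_pos (hΩ.measure_pos _ hn).ne' hb.measure_lt_top.ne

lemma inner_toLp {μ : Measure E} {f g : E → ℝ} (hf : MemLp f 2 μ) (hg : MemLp g 2 μ) :
    ⟪hf.toLp f, hg.toLp g⟫ = ∫ x, f x * g x ∂μ := by
  rw [L2.inner_def]
  refine integral_congr_ae ?_
  filter_upwards [hf.coeFn_toLp, hg.coeFn_toLp] with x h1 h2
  rw [h1, h2]
  simp [mul_comm]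

/-- Parseval's identity -/
lemma DirichletBasis.parseval {Ω : Set E} (hΩ : IsOpen Ω) (hb : Bornology.IsBounded Ω)
    (hn : Ω.Nonempty) {u : ℕ → E → ℝ} {lam : ℕ → ℝ} (h : DirichletBasis Ω u lam) {f g : E → ℝ}
    (hf : MemLp f 2 (volume.restrict Ω)) (hg : MemLp g 2 (volume.restrict Ω)) :
    HasSum (fun n => (∫ x in Ω, f x * u n x) * ∫ x in Ω, g x * u n x)
      (volume.real Ω * ∫ x in Ω, f x * g x) := by
  have hA := vol_pos hΩ hb hn
  have hs : √(volume.real Ω) ≠ 0 := (Real.sqrt_pos.2 hA).ne'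
  set v : ℕ → Lp ℝ 2 (volume.restrict Ω) :=
    fun n => (√(volume.real Ω))⁻¹ • (h.memLp hΩ n).toLp (u n) with hv
  have ho : Orthonormal ℝ v := by
    rw [orthonormal_iff_ite]
    intro m n
    simp only [hv, real_inner_smul_left, real_inner_smul_right, inner_toLp, h.orth]
    split_ifs
    · field_simp
      exact (Real.sq_sqrt hA.le).symm
    · simp
  have hc : (Submodule.span ℝ (Set.range v))ᗮ = ⊥ := by
    rw [Submodule.eq_bot_iff]
    intro F hF
    refine Lp.eq_zero_iff_ae_eq_zero.2 (h.complete F (Lp.memLp F) fun n => ?_)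
    have := Submodule.inner_left_of_mem_orthogonal (Submodule.subset_span (Set.mem_range_self n)) hF
    rw [hv, real_inner_smul_right, mul_eq_zero, ← Lp.toLp_coeFn F (Lp.memLp F), inner_toLp] at this
    exact this.resolve_left (inv_ne_zero hs)
  have := ((HilbertBasis.mkOfOrthogonalEqBot ho hc).hasSum_inner_mul_inner (hf.toLp f)
    (hg.toLp g)).mul_left (volume.real Ω)
  rw [inner_toLp] at this
  have e : ∀ n, volume.real Ω * (⟪hf.toLp f, HilbertBasis.mkOfOrthogonalEqBot ho hc n⟫ *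
      ⟪HilbertBasis.mkOfOrthogonalEqBot ho hc n, hg.toLp g⟫) =
      (∫ x in Ω, f x * u n x) * ∫ x in Ω, g x * u n x := by
    intro n
    simp only [HilbertBasis.coe_mkOfOrthogonalEqBot, hv, real_inner_smul_left,
      real_inner_smul_right, inner_toLp, mul_comm (u n _)]
    field_simp
    rw [Real.sq_sqrt hA.le]
  simpa only [e] using this

/-- Bessel's inequality -/
lemma DirichletBasis.bessel {Ω : Set E} (hΩ : IsOpen Ω) (hb : Bornology.IsBounded Ω)
    (hn : Ω.Nonempty) {u : ℕ → E → ℝ} {lam : ℕ → ℝ} (h : DirichletBasis Ω u lam) {f : E → ℝ}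
    (hf : MemLp f 2 (volume.restrict Ω)) (s : Finset ℕ) :
    ∑ n ∈ s, (∫ x in Ω, f x * u n x) ^ 2 ≤ volume.real Ω * ∫ x in Ω, f x ^ 2 := by
  simp only [sq]
  exact sum_le_hasSum s (fun n _ => mul_self_nonneg _) (h.parseval hΩ hb hn hf hf)

/-- product of a test function with a function that is smooth on `Ω` -/
lemma sm_mul_on {Ω : Set E} (hΩ : IsOpen Ω) {u : E → ℝ} (hu : ContDiffOn ℝ ∞ u Ω) {χ : E → ℝ}
    (hχ : IsTest Ω χ) : Sm (fun x => χ x * u x) := by
  refine ⟨contDiff_iff_contDiffAt.2 fun x => ?_, hχ.2.1.mul_right⟩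
  by_cases hx : x ∈ tsupport χ
  · exact hχ.1.contDiffAt.mul (hu.contDiffAt (hΩ.mem_nhds (hχ.2.2 hx)))
  · refine (contDiffAt_const (c := (0 : ℝ))).congr_of_eventuallyEq ?_
    filter_upwards [notMem_tsupport_iff_eventuallyEq.1 hx] with y hy
    simp [hy]

/-- integration by parts -/
lemma Sm.ibp {f g : E → ℝ} (hf : Sm f) (hg : Sm g) (j : Fin 2) :
    ∫ x, f x * MP_6b977f_mp.D j g x = -∫ x, MP_6b977f_mp.D j f x * g x :=
  integral_mul_fderiv_eq_neg_fderiv_mul_of_integrable ((hf.D j).mul hg).integrable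
    (hf.mul (hg.D j)).integrable (hf.mul hg).integrable
    (fun x _ => hf.smooth.differentiable (by simp) x)
    (fun x _ => hg.smooth.differentiable (by simp) x)

/-- Green's identity against a test function -/
lemma green_test {Ω : Set E} (hΩ : IsOpen Ω) {u : E → ℝ} {lam : ℝ} (hu : ContDiffOn ℝ ∞ u Ω)
    (hH : ∀ x ∈ Ω, Δ u x + lam * u x = 0) {v : E → ℝ} (hv : IsTest Ω v) :
    ∫ z in Ω, u z * (Δ v z + lam * v z) = 0 := by
  obtain ⟨L, hL, h1, h2⟩ := exists_compact_between hv.2.1 hΩ hv.2.2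
  obtain ⟨χ, hχ, h3, -⟩ := exists_test hΩ hL h2
  have s := sm_mul_on hΩ hu hχ
  have t : IsTest (interior L) v := ⟨hv.1, hv.2.1, h1⟩
  have z0 : ∀ z, z ∉ interior L → Δ v z + lam * v z = 0 := fun z hz => by
    rw [lap_eq hv.sm, image_eq_zero_of_notMem_tsupport (mt (fun h => t.2.2 h) hz),
      image_eq_zero_of_notMem_tsupport (mt (fun h => ((t.D 0).D 0).2.2 h) hz),
      image_eq_zero_of_notMem_tsupport (mt (fun h => ((t.D 1).D 1).2.2 h) hz)]
    ring
  have e1 : ∫ z in Ω, u z * (Δ v z + lam * v z) = ∫ z, χ z * u z * (Δ v z + lam * v z) := by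
    rw [← setIntegral_eq_integral_of_forall_compl_eq_zero (s := Ω)
      (f := fun z => χ z * u z * (Δ v z + lam * v z)) (fun z hz => by
      rw [z0 z fun h => hz (h2 (interior_subset h)), mul_zero])]
    refine setIntegral_congr_fun hΩ.measurableSet fun z _ => ?_
    by_cases hz : z ∈ interior L
    · simp only [h3 z (interior_subset hz), one_mul]
    · simp only [z0 z hz, mul_zero]
  have e2 : ∀ j, ∫ z, χ z * u z * D j (D j v) z = ∫ z, D j (D j fun z => χ z * u z) z * v z :=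
    fun j => by rw [s.ibp (hv.sm.D j), (s.D j).ibp hv.sm, neg_neg]
  have i0 := (s.mul ((hv.sm.D 0).D 0)).integrable
  have i1 := (s.mul ((hv.sm.D 1).D 1)).integrable
  have i2 := (s.mul (hv.sm.const_mul lam)).integrable
  have j0 := (((s.D 0).D 0).mul hv.sm).integrable
  have j1 := (((s.D 1).D 1).mul hv.sm).integrable
  rw [e1]
  simp only [lap_eq hv.sm, mul_add]
  have i3 : Integrable (fun x => χ x * u x * D 0 (D 0 v) x + χ x * u x * D 1 (D 1 v) x) := i0.add i1
  rw [integral_add i3 i2, integral_add i0 i1, e2, e2, ← integral_add' j0 j1,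
    ← integral_add' (j0.add j1) i2]
  refine integral_eq_zero_of_ae (Eventually.of_forall fun z => ?_)
  by_cases hz : z ∈ interior L
  · have e : (fun x => χ x * u x) =ᶠ[𝓝 z] u := (isOpen_interior.eventually_mem hz).mono
      fun x hx => by simp only [h3 x (interior_subset hx), one_mul]
    have := hH z (h2 (interior_subset hz))
    rw [← (InnerProductSpace.laplacian_congr_nhds e).eq_of_nhds, lap_eq s] at this
    simp only [h3 z (interior_subset hz), Pi.zero_apply, Pi.add_apply]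
    linear_combination v z * this
  · simp [image_eq_zero_of_notMem_tsupport (mt (fun h => t.2.2 h) hz)]

end

end Pool.Agent.P.MP_6b977f_mp
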