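import Pool.Agent.P.MP_6b977f_mp.QC

/-!
Second-order jets of curves, and the passage from a kernel to an averaged bound.
-/

namespace Pool.Agent.P.MP_6b977f_mp

open Real MeasureTheory Filter Topology Laplacian Asymptotics
open scoped RealInnerProductSpace ContDiff

noncomputable section

section jets

variable {V W : Type} [NormedAddCommGroup V] [NormedSpace ℝ V] [NormedAddCommGroup W]
  [NormedSpace ℝ W]

/-- the curve `x` has value, velocity and acceleration `J` at `0` -/
def HJ (x : ℝ → V) (J : V × V × V) : Prop :=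
  x 0 = J.1 ∧ ∃ x' : ℝ → V, (∀ t, HasDerivAt x (x' t) t) ∧ x' 0 = J.2.1 ∧ HasDerivAt x' J.2.2 0

lemma HJ.unique {x : ℝ → V} {J J' : V × V × V} (h : HJ x J) (h' : HJ x J') : J = J' := by
  obtain ⟨a, p, b, c, d⟩ := h
  obtain ⟨a', p', b', c', d'⟩ := h'
  obtain rfl : p = p' := funext fun t => (b t).unique (b' t)
  exact Prod.ext (a.symm.trans a') (Prod.ext (c.symm.trans c') (d.unique d'))

lemma HJ.aff (a b : V) : HJ (fun t : ℝ => a + t • b) (a, b, 0) :=
  ⟨by simp, fun _ => b, fun t => by simpa using ((hasDerivAt_id t).smul_const b).const_add a, rfl,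
    hasDerivAt_const _ _⟩

lemma HJ.prod {x : ℝ → V} {y : ℝ → W} {J : V × V × V} {K : W × W × W} (h : HJ x J) (h' : HJ y K) :
    HJ (fun t => (x t, y t)) ((J.1, K.1), (J.2.1, K.2.1), (J.2.2, K.2.2)) := by
  obtain ⟨a, p, b, c, d⟩ := h
  obtain ⟨a', p', b', c', d'⟩ := h'
  exact ⟨Prod.ext a a', fun t => (p t, p' t), fun t => (b t).prodMk (b' t), Prod.ext c c',
    d.prodMk d'⟩

lemma HJ.smul {x : ℝ → V} {J : V × V × V} (h : HJ x J) (c : ℝ) :
    HJ (fun t => c • x t) (c • J) := by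
  obtain ⟨a, p, b, e, d⟩ := h
  exact ⟨congrArg (c • ·) a, fun t => c • p t, fun t => (b t).const_smul c, congrArg (c • ·) e,
    d.const_smul c⟩

/-- second derivative in the direction `e` -/
def sd (F : V → W) (p e : V) : W := fderiv ℝ (fderiv ℝ F) p e e

/-- action of a map on jets -/
def jc (F : V → W) (J : V × V × V) : W × W × W :=
  (F J.1, fderiv ℝ F J.1 J.2.1, sd F J.1 J.2.1 + fderiv ℝ F J.1 J.2.2)

lemma sm_fderiv {F : V → W} (hF : ContDiff ℝ ∞ F) : ContDiff ℝ ∞ (fderiv ℝ F) :=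
  hF.fderiv_right (m := ∞) (by simp)

lemma HJ.comp {x : ℝ → V} {J : V × V × V} (h : HJ x J) {F : V → W} (hF : ContDiff ℝ ∞ F) :
    HJ (fun t => F (x t)) (jc F J) := by
  obtain ⟨a, p, b, c, d⟩ := h
  refine ⟨congrArg F a, fun t => fderiv ℝ F (x t) (p t), fun t =>
    (hF.differentiable (by simp) _).hasFDerivAt.comp_hasDerivAt t (b t), by simp [a, c, jc], ?_⟩
  have := (((sm_fderiv hF).differentiable (by simp) _).hasFDerivAt.comp_hasDerivAt 0
    (b 0)).clm_apply d
  simpa [a, c, jc, sd] using this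

lemma sm_d2 {F : V → W} (hF : ContDiff ℝ ∞ F) : ContDiff ℝ ∞ fun q : V × V => sd F q.1 q.2 :=
  (((sm_fderiv (sm_fderiv hF)).comp contDiff_fst).clm_apply contDiff_snd).clm_apply contDiff_snd

lemma sm_jc {F : V → W} (hF : ContDiff ℝ ∞ F) : ContDiff ℝ ∞ fun J => (jc F J).2.2 :=
  ((sm_d2 hF).comp (contDiff_fst.prodMk contDiff_snd.fst)).add
    (((sm_fderiv hF).comp contDiff_fst).clm_apply contDiff_snd.snd)

lemma d2_eq {F : V → W} (hF : ContDiff ℝ ∞ F) {p e : V} {J : W × W × W}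
    (h : HJ (fun t : ℝ => F (p + t • e)) J) : sd F p e = J.2.2 := by
  rw [← ((HJ.aff p e).comp hF).unique h]
  simp [jc]

lemma d2_smul (F : V → W) (p e : V) (c : ℝ) : sd F p (c • e) = c ^ 2 • sd F p e := by
  simp [sd, smul_smul, sq]

lemma d2_zero {F : V → W} {p : V} (h : F =ᶠ[𝓝 p] fun _ => 0) (e : V) : sd F p e = 0 := by
  unfold sd
  rw [h.fderiv.fderiv_eq]
  simp

lemma d2_sub {F G : V → W} (hF : ContDiff ℝ ∞ F) (hG : ContDiff ℝ ∞ G) (p e : V) :
    sd (fun x => F x - G x) p e = sd F p e - sd G p e := by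
  have : fderiv ℝ (fun x => F x - G x) = fun x => fderiv ℝ F x - fderiv ℝ G x := funext fun x =>
    fderiv_fun_sub (hF.differentiable (by simp) x) (hG.differentiable (by simp) x)
  unfold sd
  rw [this, fderiv_fun_sub ((sm_fderiv hF).differentiable (by simp) p)
    ((sm_fderiv hG).differentiable (by simp) p)]
  rfl

variable [FiniteDimensional ℝ V] {ι : Type} {l : Filter ι}

lemma lip_ball {F : V → W} (hF : ContDiff ℝ ∞ F) (R : ℝ) : ∃ L : ℝ, 0 ≤ L ∧ ∀ x y : V,
    ‖x‖ ≤ R → ‖y‖ ≤ R → ‖F x - F y‖ ≤ L * ‖x - y‖ := by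
  have := FiniteDimensional.proper_real V
  obtain ⟨L, hL⟩ := ((hF.of_le (by simp)).locallyLipschitz.locallyLipschitzOn
    (s := Metric.closedBall 0 R)).exists_lipschitzOnWith_of_compact (isCompact_closedBall _ _)
  exact ⟨L, L.2, fun x y hx hy => hL.norm_sub_le (by simpa using hx) (by simpa using hy)⟩

lemma lipO {F : V → W} (hF : ContDiff ℝ ∞ F) {X Y : ι → V} (hX : X =O[l] fun _ => (1 : ℝ))
    (hY : Y =O[l] fun _ => (1 : ℝ)) :
    (fun i => F (X i) - F (Y i)) =O[l] fun i => X i - Y i := by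
  obtain ⟨a, ha⟩ := hX.bound
  obtain ⟨b, hb⟩ := hY.bound
  obtain ⟨L, -, hL⟩ := lip_ball hF (max a b)
  refine IsBigO.of_bound L ?_
  filter_upwards [ha, hb] with i h1 h2
  rw [norm_one, mul_one] at h1 h2
  exact hL _ _ (h1.trans (le_max_left _ _)) (h2.trans (le_max_right _ _))

lemma bddO {F : V → W} (hF : ContDiff ℝ ∞ F) {X : ι → V} (hX : X =O[l] fun _ => (1 : ℝ)) :
    (fun i => F (X i)) =O[l] fun _ => (1 : ℝ) := by
  have := ((lipO hF hX (isBigO_zero _ l)).trans (by simpa using hX)).add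
    (isBigO_const_one ℝ (F 0) l)
  simpa using this

lemma taylorO {F : V → W} (hF : ContDiff ℝ ∞ F) {X Y : ι → V} (hX : X =O[l] fun _ => (1 : ℝ))
    (hY : Y =O[l] fun _ => (1 : ℝ)) :
    (fun i => F (X i + Y i) - F (X i) - fderiv ℝ F (X i) (Y i)) =O[l] fun i => ‖Y i‖ * ‖Y i‖ := by
  obtain ⟨a, ha⟩ := hX.bound
  obtain ⟨b, hb⟩ := hY.bound
  obtain ⟨L, hL0, hL⟩ := lip_ball (sm_fderiv hF) (a + b)
  refine IsBigO.of_bound L ?_
  filter_upwards [ha, hb] with i h1 h2
  rw [norm_one, mul_one] at h1 h2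
  have := (convex_closedBall (X i) ‖Y i‖).norm_image_sub_le_of_norm_fderiv_le'
    (f := F) (φ := fderiv ℝ F (X i)) (C := L * ‖Y i‖) (x := X i) (y := X i + Y i)
    (fun x _ => hF.differentiable (by simp) x) (fun x hx => ?_) (by simp) (by simp)
  · rw [add_sub_cancel_left] at this
    simpa [mul_assoc] using this
  · rw [mem_closedBall_iff_norm] at hx
    have := norm_sub_norm_le x (X i)
    have := norm_nonneg (Y i)
    exact (hL _ _ (by linarith) (by linarith)).trans (mul_le_mul_of_nonneg_left hx hL0)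

end jets

/-- the coordinate vectors -/
abbrev ee (j : Fin 2) : E := EuclideanSpace.single j 1

lemma lap_d2 (f : E → ℝ) (x : E) : Δ f x = ∑ j, sd f x (ee j) := by
  rw [InnerProductSpace.laplacian_eq_iteratedFDeriv_orthonormalBasis f
    (EuclideanSpace.basisFun (Fin 2) ℝ)]
  simp [iteratedFDeriv_two_apply, sd]

lemma lap_fst {F : E × E → ℝ} (hF : ContDiff ℝ ∞ F) (z z' : E) :
    Δ (fun z => F (z, z')) z = ∑ j, sd F (z, z') (ee j, 0) := by
  rw [lap_d2]
  refine Finset.sum_congr rfl fun j _ => ?_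
  rw [d2_eq (F := fun z => F (z, z')) (hF.comp (contDiff_id.prodMk contDiff_const))
    (J := jc F ((z, z'), (ee j, 0), 0))
    (by simpa using (HJ.aff (z, z') (ee j, 0)).comp hF)]
  simp [jc]

lemma lap_snd {F : E × E → ℝ} (hF : ContDiff ℝ ∞ F) (z z' : E) :
    Δ (fun z' => F (z, z')) z' = ∑ j, sd F (z, z') (0, ee j) := by
  rw [lap_d2]
  refine Finset.sum_congr rfl fun j _ => ?_
  rw [d2_eq (F := fun z' => F (z, z')) (hF.comp (contDiff_const.prodMk contDiff_id))
    (J := jc F ((z, z'), (0, ee j), 0))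
    (by simpa using (HJ.aff (z, z') (0, ee j)).comp hF)]
  simp [jc]

/-- the difference of the Laplacians in the two variables -/
def LL (F : E × E → ℝ) (p : E × E) : ℝ := ∑ j, (sd F p (ee j, 0) - sd F p (0, ee j))

lemma kernel_zero {U : Set E} {u : E → ℝ} (hu : Integrable u (volume.restrict U))
    (hU : MeasurableSet U) (hb : Bornology.IsBounded U) {lam : ℝ} {F : E × E → ℝ}
    (hF : ContDiff ℝ ∞ F)
    (g1 : ∀ z' ∈ U, ∫ z in U, u z * (Δ (fun z => F (z, z')) z + lam * F (z, z')) = 0)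
    (g2 : ∀ z ∈ U, ∫ z' in U, u z' * (Δ (fun z' => F (z, z')) z' + lam * F (z, z')) = 0) :
    ∫ z in U, ∫ z' in U, u z * u z' * LL F (z, z') = 0 := by
  have key : ∀ G : E × E → ℝ, Continuous G → Integrable (fun p : E × E => u p.1 * u p.2 * G p)
      ((volume.restrict U).prod (volume.restrict U)) := by
    intro G hG
    obtain ⟨B, hB⟩ := (hb.isCompact_closure.prod
      hb.isCompact_closure).exists_bound_of_continuousOn hG.continuousOn
    refine (hu.mul_prod hu).mul_bdd (c := B) hG.aestronglyMeasurable ?_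
    rw [Measure.prod_restrict]
    filter_upwards [ae_restrict_mem (hU.prod hU)] with p hp
    exact hB p ⟨subset_closure hp.1, subset_closure hp.2⟩
  have c : ∀ e : E × E, Continuous fun p => sd F p e := fun e =>
    (sm_d2 hF).continuous.comp (continuous_id.prodMk continuous_const)
  have c0 := hF.continuous
  have i1 := key (fun p => ∑ j, sd F p (ee j, 0) + lam * F p) (by fun_prop)
  have i2 := key (fun p => ∑ j, sd F p (0, ee j) + lam * F p) (by fun_prop)
  have e1 := integral_prod_symm _ i1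
  have e2 := integral_prod _ i2
  simp only [lap_fst hF, lap_snd hF] at g1 g2
  rw [setIntegral_congr_fun hU (g := fun _ => 0) (fun z' hz' => by
    simp only [mul_comm (u _) (u z'), mul_assoc]
    rw [integral_const_mul, g1 z' hz', mul_zero]), integral_zero] at e1
  rw [setIntegral_congr_fun hU (g := fun _ => 0) (fun z hz => by
    simp only [mul_assoc]
    rw [integral_const_mul, g2 z hz, mul_zero]), integral_zero] at e2
  rw [← integral_prod (fun p : E × E => u p.1 * u p.2 * LL F p) (key _ (by unfold LL; fun_prop)),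
    ← sub_zero (0 : ℝ)]
  nth_rewrite 1 [← e1]
  rw [← e2, ← integral_sub i1 i2]
  congr 1
  ext p
  rw [LL, Finset.sum_sub_distrib]
  ring

end

end Pool.Agent.P.MP_6b977f_mp
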