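import Pool.Agent.P.MP_6b977f_mp.QK1

/-!
From a family of kernels to an averaged bound.
-/

namespace Pool.Agent.P.MP_6b977f_mp

open Real MeasureTheory Filter Topology Laplacian Asymptotics
open scoped RealInnerProductSpace ContDiff

noncomputable section

lemma Ctx.meas {Ω : Set E} {u : ℕ → E → ℝ} {lam : ℕ → ℝ} (h : Ctx Ω u lam) (n : ℕ) :
    Measurable (Ω.indicator (u n)) := by
  classical
  rw [← Set.piecewise_eq_indicator]
  exact (h.db.smooth n).continuousOn.measurable_piecewise continuousOn_const h.op.measurableSet

lemma Ctx.int_prod {Ω : Set E} {u : ℕ → E → ℝ} {lam : ℕ → ℝ} (h : Ctx Ω u lam) (n : ℕ) (c : ℝ)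
    {G : E × E → ℝ} (hG : Measurable G) {B M : ℝ}
    (hB : ∀ z w, z ∈ Ω → z + c • w ∈ Ω → |G (z, w)| ≤ if ‖w‖ ≤ M then B else 0) :
    Integrable (fun p : E × E => G p * (Ω.indicator (u n) p.1 * Ω.indicator (u n) (p.1 + c • p.2)))
      (volume.prod volume) := by
  have m := h.meas n
  have i : Integrable (fun p : E × E => (Metric.closedBall (0 : E) M).indicator (fun _ => |B|) p.2 *
      |Ω.indicator (u n) p.1 * Ω.indicator (u n) (p.1 + c • p.2)|) (volume.prod volume) := by
    have m2 : Measurable ((Metric.closedBall (0 : E) M).indicator fun _ => |B|) :=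
      measurable_const.indicator measurableSet_closedBall
    have m3 : Measurable (fun p : E × E => (Metric.closedBall (0 : E) M).indicator
      (fun _ => |B|) p.2 * |Ω.indicator (u n) p.1 * Ω.indicator (u n) (p.1 + c • p.2)|) := by
      fun_prop
    rw [integrable_prod_iff' m3.aestronglyMeasurable]
    refine ⟨Eventually.of_forall fun w =>
      (((h.memLp n).integrable_mul (h.memLp' n (c • w))).abs.const_mul
        ((Metric.closedBall (0 : E) M).indicator (fun _ => |B|) w) :), ?_⟩
    refine Integrable.mono' (g := fun w => (Metric.closedBall (0 : E) M).indicator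
      (fun _ => |B|) w * volume.real Ω) (((integrable_indicator_iff measurableSet_closedBall).2
        (integrableOn_const measure_closedBall_lt_top.ne)).mul_const _)
      m3.norm.stronglyMeasurable.integral_prod_left'.aestronglyMeasurable
      (Eventually.of_forall fun w => ?_)
    have p0 : 0 ≤ (Metric.closedBall (0 : E) M).indicator (fun _ => |B|) w :=
      Set.indicator_nonneg (fun _ _ => abs_nonneg _) _
    simp only [norm_mul (_ : ℝ) |_|, Real.norm_eq_abs, abs_abs, abs_of_nonneg p0]
    rw [integral_const_mul, abs_mul, abs_of_nonneg p0,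
      abs_of_nonneg (integral_nonneg fun _ => abs_nonneg _)]
    exact mul_le_mul_of_nonneg_left (h.abs_le n _) p0
  refine i.mono' (Measurable.aestronglyMeasurable (by fun_prop)) (Eventually.of_forall fun p => ?_)
  by_cases h1 : p.1 ∈ Ω
  · by_cases h2 : p.1 + c • p.2 ∈ Ω
    · rw [norm_mul]
      refine mul_le_mul_of_nonneg_right ((hB _ _ h1 h2).trans ?_) (abs_nonneg _)
      split_ifs with h3
      · rw [Set.indicator_of_mem (by simpa using h3)]
        exact le_abs_self _
      · rw [Set.indicator_of_notMem (by simpa using h3)]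
    · simp [h2]
  · simp [h1]

open Classical in
/-- from a family of kernels to the averaged bound -/
lemma Ctx.of_kernel {Ω : Set E} {u : ℕ → E → ℝ} {lam : ℕ → ℝ} (h : Ctx Ω u lam) {U : Set E}
    (hU : MeasurableSet U) (hUΩ : U ⊆ Ω) {γ : E × E → ℝ} (hγ : Continuous γ) {C M : ℝ}
    (hM : ∀ p : E × E, M < ‖p.2‖ → γ p = 0) {F : ℝ → E × E → ℝ} (hF : ∀ c, ContDiff ℝ ∞ (F c))
    (g1 : ∀ᶠ c in 𝓝[>] 0, ∀ n, ∀ z' ∈ U,
      ∫ z in U, u n z * (Δ (fun z => F c (z, z')) z + lam n * F c (z, z')) = 0)
    (g2 : ∀ᶠ c in 𝓝[>] 0, ∀ n, ∀ z ∈ U,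
      ∫ z' in U, u n z' * (Δ (fun z' => F c (z, z')) z' + lam n * F c (z, z')) = 0)
    (hb : ∀ K, IsCompact K → K ⊆ Ω → ∀ δ > 0, ∀ᶠ c in 𝓝[>] 0, ∀ z w, z ∈ Ω → z + c • w ∈ Ω →
      |(U ×ˢ U).indicator (fun p => c * LL (F c) p) (z, z + c • w) + 2 * γ (z, w)| ≤
        if ‖w‖ ≤ M then δ + Kᶜ.indicator (fun _ => C) z else 0) :
    Small fun n => ∫ w, cr Ω u lam (fun x => γ (x, w)) w n := by
  intro ε hε
  have hA := h.vol
  set A := volume.real Ω with hAd
  set T := volume.real (Metric.closedBall (0 : E) M) with hT
  have hT0 : 0 ≤ T := measureReal_nonneg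
  obtain ⟨t, ht, ht'⟩ := eps_mul (A := T * (1 + |C|) * A) (show 0 < ε / 3 by positivity)
  obtain ⟨e, he, he'⟩ := eps_mul (A := T * |C| / t) (show 0 < ε / 3 by positivity)
  obtain ⟨K, hK, hKΩ, hesc⟩ := h.esc e he
  have th : Tendsto (fun n => (√(lam n))⁻¹) atTop (𝓝[>] 0) :=
    tendsto_inv_atTop_nhdsGT_zero.comp (Real.tendsto_sqrt_atTop.comp h.db.tend)
  have key : ∀ᶠ n in atTop, |∫ w, cr Ω u lam (fun x => γ (x, w)) w n| ≤
      ε / 3 + T * |C| / t * ∫ x in Ω \ K, u n x ^ 2 := by
    filter_upwards [th.eventually g1, th.eventually g2, th.eventually (hb K hK hKΩ t ht),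
      th.eventually self_mem_nhdsWithin] with n a1 a2 a3 a4
    set c := (√(lam n))⁻¹ with hc
    have hc0 : 0 < c := a4
    set H := (U ×ˢ U).indicator (fun p => c * LL (F c) p) with hH
    have mH : Measurable H := Measurable.indicator (Continuous.measurable (continuous_const.mul
      (continuous_finsetSum _ fun j _ => ((sm_d2 (hF c)).continuous.comp
        (continuous_id.prodMk continuous_const)).sub ((sm_d2 (hF c)).continuous.comp
        (continuous_id.prodMk continuous_const))))) (hU.prod hU)
    have mγ := hγ.measurable
    obtain ⟨B, hB⟩ := (h.bd.isCompact_closure.prod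
      (isCompact_closedBall (0 : E) M)).exists_bound_of_continuousOn hγ.continuousOn
    have i1 := h.int_prod n c (G := fun p => H (p.1, p.1 + c • p.2) + 2 * γ p) (by fun_prop)
      (B := t + |C|) (M := M) fun z w h1 h2 => (a3 z w h1 h2).trans (by
        split_ifs
        · exact add_le_add_right (Set.indicator_le' (fun _ _ => le_abs_self C)
            (fun _ _ => abs_nonneg C) z) _
        · rfl)
    have i2 := h.int_prod n c mγ (B := B) (M := M) fun z w h1 h2 => by
      split_ifs with h3
      · exact hB _ ⟨subset_closure h1, by simpa using h3⟩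
      · rw [hM (z, w) (not_le.1 h3), abs_zero]
    have i3 := i1.sub (i2.const_mul 2)
    have : IsFiniteMeasure (volume.restrict U) :=
      ⟨by simpa using (h.bd.subset hUΩ).measure_lt_top⟩
    have iu : Integrable (u n) (volume.restrict U) := ((h.db.memLp h.op n).mono_measure
      (Measure.restrict_mono hUΩ le_rfl)).integrable one_le_two
    have z0 := kernel_zero iu hU (h.bd.subset hUΩ) (hF c) (a1 n) (a2 n)
    have z1 : ∫ z, ∫ w, H (z, z + c • w) * (Ω.indicator (u n) z * Ω.indicator (u n) (z + c • w)) =
        0 := by
      have : ∀ z, ∫ w, H (z, z + c • w) * (Ω.indicator (u n) z * Ω.indicator (u n) (z + c • w)) =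
          |(c ^ Module.finrank ℝ E)⁻¹| * c *
            U.indicator (fun z => ∫ z' in U, u n z * u n z' * LL (F c) (z, z')) z := by
        intro z
        rw [Measure.integral_comp_smul volume
          (fun y => H (z, z + y) * (Ω.indicator (u n) z * Ω.indicator (u n) (z + y))) c,
          integral_add_left_eq_self
          (fun y => H (z, y) * (Ω.indicator (u n) z * Ω.indicator (u n) y)) z, smul_eq_mul,
          mul_assoc]
        congr 1
        by_cases hz : z ∈ U
        · rw [Set.indicator_of_mem hz, ← integral_indicator hU, ← integral_const_mul]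
          congr 1
          ext y
          by_cases hy : y ∈ U
          · simp only [hH, hz, hy, hUΩ hz, hUΩ hy, Set.indicator_of_mem, Set.mem_prod, and_self]
            ring
          · simp [hH, hy]
        · simp [hH, hz]
      simp only [this]
      rw [integral_const_mul, integral_indicator hU, z0, mul_zero]
    have e1 : 2 * ∫ w, cr Ω u lam (fun x => γ (x, w)) w n = ∫ w, ∫ z, (H (z, z + c • w) +
        2 * γ (z, w)) * (Ω.indicator (u n) z * Ω.indicator (u n) (z + c • w)) := by
      have j := integral_prod _ i3
      rw [integral_sub' i1 (i2.const_mul 2), integral_const_mul, integral_prod_symm _ i1,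
        integral_prod_symm _ i2] at j
      simp only [Pi.sub_apply, add_mul, mul_assoc, add_sub_cancel_right, z1] at j
      simp only [add_mul, mul_assoc]
      exact (sub_eq_zero.1 j).symm
    have hm := h.op.measurableSet.diff hK.measurableSet
    have m1 : MemLp ((Ω \ K).indicator (u n)) 2 volume := (memLp_indicator_iff_restrict hm).2
      ((h.db.memLp h.op n).mono_measure (Measure.restrict_mono Set.sdiff_subset le_rfl))
    have m0 : 0 ≤ ∫ x in Ω \ K, u n x ^ 2 := integral_nonneg fun _ => sq_nonneg _
    have e2 : ∫ x, (Ω \ K).indicator (u n) x ^ 2 = ∫ x in Ω \ K, u n x ^ 2 := by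
      rw [← integral_indicator hm]
      congr 1
      ext z
      by_cases hz : z ∈ Ω \ K <;> simp only [hz, Set.indicator_of_mem, Set.indicator_of_notMem,
        not_false_eq_true, zero_pow two_ne_zero]
    generalize ∫ x in Ω \ K, u n x ^ 2 = m at *
    have b1 : ∀ w, ‖∫ z, (H (z, z + c • w) + 2 * γ (z, w)) *
        (Ω.indicator (u n) z * Ω.indicator (u n) (z + c • w))‖ ≤
        (Metric.closedBall (0 : E) M).indicator (fun _ => t * A + |C| * (t * A + m / t)) w := by
      intro w
      have j1 := ((h.memLp n).integrable_mul (h.memLp' n (c • w))).abs.const_mul t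
      have j2 := (m1.integrable_mul (h.memLp' n (c • w))).abs.const_mul |C|
      by_cases hw : ‖w‖ ≤ M
      · rw [Set.indicator_of_mem (by simpa using hw)]
        refine (norm_integral_le_of_norm_le (j1.add j2) (Eventually.of_forall fun z => ?_)).trans ?_
        · by_cases h1 : z ∈ Ω
          · by_cases h2 : z + c • w ∈ Ω
            · have := a3 z w h1 h2
              rw [if_pos hw] at this
              rw [norm_mul]
              refine (mul_le_mul_of_nonneg_right this (norm_nonneg _)).trans ?_
              by_cases h3 : z ∈ K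
              · simp [h3]
              · simp only [Pi.add_apply, Pi.mul_apply, add_mul, Real.norm_eq_abs]
                rw [Set.indicator_of_mem (Set.mem_compl h3), Set.indicator_of_mem (Set.mem_sdiff_of_mem h1 h3),
                  Set.indicator_of_mem h1]
                gcongr
                exact le_abs_self C
            · simp [h2]
          · simp [h1]
        · rw [integral_add' j1 j2, integral_const_mul, integral_const_mul]
          gcongr
          · exact h.abs_le n _
          · refine cs m1 (h.memLp' n _) e2.le (h.mass' n _).le (by positivity) ?_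
            have : m * A = t * A * (m / t) := by field_simp
            have p1 : 0 ≤ t * A := by positivity
            have p2 : 0 ≤ m / t := by positivity
            rw [this]
            nlinarith [mul_nonneg p1 p2]
      · rw [Set.indicator_of_notMem (by simpa using hw)]
        refine (norm_integral_le_of_norm_le (integrable_zero _ _ _)
          (Eventually.of_forall fun z => ?_)).trans (by simp)
        by_cases h1 : z ∈ Ω
        · by_cases h2 : z + c • w ∈ Ω
          · have := a3 z w h1 h2
            rw [if_neg hw, abs_nonpos_iff] at this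
            simp [this]
          · simp [h2]
        · simp [h1]
    have b2 := norm_integral_le_of_norm_le (μ := volume)
      ((integrable_indicator_iff measurableSet_closedBall).2
      (integrableOn_const measure_closedBall_lt_top.ne)) (Eventually.of_forall b1)
    rw [← e1, integral_indicator measurableSet_closedBall, setIntegral_const, norm_mul,
      Real.norm_eq_abs, Real.norm_eq_abs, abs_two, smul_eq_mul, ← hT] at b2
    have := ht' _ le_rfl
    have e3 : T * (t * A + |C| * (t * A + m / t)) = t * (T * (1 + |C|) * A) + T * |C| / t * m := by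
      ring
    linarith [abs_nonneg (∫ w, cr Ω u lam (fun x => γ (x, w)) w n)]
  filter_upwards [avg_of_ev (show 0 < ε / 3 by positivity) key, hesc] with N a1 a2
  rw [Finset.sum_add_distrib, ← Finset.mul_sum, Finset.sum_const, Finset.card_range,
    nsmul_eq_mul] at a1
  have p : 0 ≤ T * |C| / t := by positivity
  have := mul_le_mul_of_nonneg_left a2 p
  have := mul_le_mul_of_nonneg_right (he' _ le_rfl) (Nat.cast_nonneg (α := ℝ) N)
  linarith

end

end Pool.Agent.P.MP_6b977f_mp
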