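import Pool.Agent.P.MP_6b977f_mp.QK2

/-!
The transport identity for correlations: interior case, and the geometry of a chart.
-/

namespace Pool.Agent.P.MP_6b977f_mp

open Real MeasureTheory Filter Topology Laplacian Asymptotics
open scoped RealInnerProductSpace ContDiff

noncomputable section

/-- smooth functions of `(x, w)` supported in `K × {‖w‖ ≤ M}` -/
structure Symb (K : Set E) (M : ℝ) (β : E × E → ℝ) : Prop where
  sm : ContDiff ℝ ∞ β
  cpt : IsCompact K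
  supp : ∀ p, β p ≠ 0 → p.1 ∈ K ∧ ‖p.2‖ ≤ M

/-- the mixed second derivative -/
def gam (β : E × E → ℝ) (p : E × E) : ℝ := ∑ j, fderiv ℝ (fderiv ℝ β) p (0, ee j) (ee j, 0)

def K0 (β : E × E → ℝ) (c : ℝ) (p : E × E) : ℝ := β (p.1, c⁻¹ • (p.2 - p.1))

lemma closed_box {K : Set E} (hK : IsCompact K) (M : ℝ) :
    IsClosed {p : E × E | p.1 ∈ K ∧ ‖p.2‖ ≤ M} :=
  (hK.isClosed.preimage continuous_fst).inter (isClosed_le continuous_snd.norm continuous_const)

namespace Symb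

variable {K : Set E} {M : ℝ} {β : E × E → ℝ} (h : Symb K M β)
include h

lemma off {p : E × E} (hp : ¬(p.1 ∈ K ∧ ‖p.2‖ ≤ M)) : β =ᶠ[𝓝 p] fun _ => 0 := by
  filter_upwards [(closed_box h.cpt M).isOpen_compl.mem_nhds hp] with q hq
  exact by_contra fun h0 => hq (h.supp q h0)

lemma gam_zero {p : E × E} (hp : ¬(p.1 ∈ K ∧ ‖p.2‖ ≤ M)) : gam β p = 0 := by
  unfold gam
  rw [(h.off hp).fderiv.fderiv_eq]
  simp

lemma cont_gam : Continuous (gam β) :=
  continuous_finsetSum _ fun _ _ => (((sm_fderiv (sm_fderiv h.sm)).clm_apply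
    contDiff_const).clm_apply contDiff_const).continuous

lemma sm_K0 (c : ℝ) : ContDiff ℝ ∞ (K0 β c) :=
  h.sm.comp (contDiff_fst.prodMk ((contDiff_snd.sub contDiff_fst).const_smul _))

lemma LL_K0 {c : ℝ} (hc : c ≠ 0) (z w : E) : c * LL (K0 β c) (z, z + c • w) + 2 * gam β (z, w) =
    c * ∑ j, sd β (z, w) (ee j, 0) := by
  have key : ∀ e : E × E, sd (K0 β c) (z, z + c • w) e =
      sd β (z, w) ((e.1, 0) + c⁻¹ • (0, e.2 - e.1)) := by
    intro e
    rw [d2_eq (h.sm_K0 c) (J := jc β ((z, w), (e.1, 0) + c⁻¹ • (0, e.2 - e.1), 0))]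
    · simp [jc]
    · convert (HJ.aff (z, w) ((e.1, 0) + c⁻¹ • (0, e.2 - e.1))).comp h.sm using 2 with t
      unfold K0
      congr 1
      ext1
      · simp
      · simp only [Prod.snd_add, Prod.fst_add, Prod.smul_snd, Prod.smul_fst]
        match_scalars <;> (field_simp; try simp)
  have s := (h.sm.contDiffAt (x := (z, w))).isSymmSndFDerivAt
    (by simp only [minSmoothness_of_isRCLikeNormedField]; exact WithTop.coe_le_coe.2 le_top)
  simp only [LL, key, gam, Finset.mul_sum, ← Finset.sum_add_distrib]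
  refine Finset.sum_congr rfl fun j _ => ?_
  have e1 : ((0 : E), 0 - ee j) = -((0 : E), ee j) := by simp
  have e2 : ((0 : E), (0 : E)) = 0 := rfl
  simp only [sd, e1, e2, sub_zero, zero_add, map_add, map_smul, map_neg, smul_eq_mul,
    add_apply, smul_apply, neg_apply,
    s.eq (ee j, 0) (0, ee j)]
  field_simp
  ring

lemma small_K0 {δ M' : ℝ} (hδ : 0 < δ) (hM : M ≤ M') : ∀ᶠ c in 𝓝[>] (0 : ℝ), ∀ z w,
    |c * LL (K0 β c) (z, z + c • w) + 2 * gam β (z, w)| ≤ if ‖w‖ ≤ M' then δ else 0 := by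
  have hc : Continuous fun p => ∑ j, sd β p (ee j, 0) := continuous_finsetSum _ fun j _ =>
    (sm_d2 h.sm).continuous.comp (continuous_id.prodMk continuous_const)
  obtain ⟨B, hB⟩ := (h.cpt.prod (isCompact_closedBall (0 : E) M)).exists_bound_of_continuousOn
    hc.continuousOn
  obtain ⟨e, he, he'⟩ := eps_mul (A := |B|) hδ
  filter_upwards [Ioo_mem_nhdsGT he] with c hc z w
  rw [h.LL_K0 hc.1.ne']
  by_cases hp : z ∈ K ∧ ‖w‖ ≤ M
  · rw [if_pos (hp.2.trans hM), abs_mul, abs_of_pos hc.1]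
    exact (mul_le_mul hc.2.le ((hB (z, w) ⟨hp.1, by simpa using hp.2⟩).trans (le_abs_self B))
      (abs_nonneg _) he.le).trans (he' _ le_rfl)
  · simp only [d2_zero (h.off (p := (z, w)) hp), Finset.sum_const_zero, mul_zero, abs_zero]
    split_ifs <;> positivity

end Symb

lemma test_of {O K : Set E} {v : E → ℝ} (hv : ContDiff ℝ ∞ v) (hK : IsCompact K) (hO : K ⊆ O)
    (h : ∀ x, v x ≠ 0 → x ∈ K) : IsTest O v :=
  ⟨hv, HasCompactSupport.intro hK fun x hx => by_contra fun h0 => hx (h x h0),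
    (closure_minimal h hK.isClosed).trans hO⟩

lemma Ctx.interior {Ω : Set E} {u : ℕ → E → ℝ} {lam : ℕ → ℝ} (h : Ctx Ω u lam) {K : Set E} {M : ℝ}
    {β : E × E → ℝ} (hβ : Symb K M β) (hK : K ⊆ Ω) :
    Small fun n => ∫ w, cr Ω u lam (fun x => gam β (x, w)) w n := by
  refine h.of_kernel h.op.measurableSet subset_rfl hβ.cont_gam (C := 0) (M := M)
    (fun p hp => hβ.gam_zero fun h0 => hp.not_ge h0.2) hβ.sm_K0
    (Eventually.of_forall fun c n z' _ => green_test h.op (h.db.smooth n) (h.db.helm n)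
      (test_of ((hβ.sm_K0 c).comp (contDiff_id.prodMk contDiff_const)) hβ.cpt hK
        fun x hx => (hβ.supp _ hx).1)) ?_ fun L _ _ δ hδ => ?_
  · obtain ⟨δ, hδ, hs⟩ := hβ.cpt.exists_cthickening_subset_open h.op hK
    obtain ⟨e, he, he'⟩ := eps_mul (A := |M|) hδ
    filter_upwards [Ioo_mem_nhdsGT he] with c hc n z _
    refine green_test h.op (h.db.smooth n) (h.db.helm n)
      (test_of ((hβ.sm_K0 c).comp (contDiff_const.prodMk contDiff_id)) hβ.cpt.cthickening hs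
        fun x hx => ?_)
    obtain ⟨h1, h2⟩ := hβ.supp _ hx
    refine Metric.mem_cthickening_of_dist_le x z _ _ h1 ?_
    simp only [norm_smul, norm_inv, Real.norm_of_nonneg hc.1.le] at h2
    rw [inv_mul_le_iff₀ hc.1] at h2
    rw [dist_eq_norm]
    exact h2.trans ((mul_le_mul hc.2.le (le_abs_self M) (by
      have := norm_nonneg (x - z); have := hc.1; nlinarith) he.le).trans (he' _ le_rfl))
  · filter_upwards [hβ.small_K0 hδ le_rfl] with c hc z w h1 h2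
    rw [Set.indicator_of_mem (Set.mk_mem_prod h1 h2)]
    simpa using hc z w

/-! geometry of a chart -/

section chart

variable {y ν : E} {φ : ℝ → ℝ}

lemma norm_rot (v : E) : ‖rot v‖ = ‖v‖ := by
  rw [← sq_eq_sq₀ (norm_nonneg _) (norm_nonneg _), nsq, nsq]
  simp [rot, add_comm]

lemma inner_rot (v : E) : ⟪v, rot v⟫ = 0 := by
  simp [rot, PiLp.inner_apply, Fin.sum_univ_two, mul_comm]

lemma sm_rho (hφ : ContDiff ℝ ∞ φ) : ContDiff ℝ ∞ (rho y ν φ) :=
  ((contDiff_id.sub contDiff_const).inner ℝ contDiff_const).sub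
    (hφ.comp ((contDiff_id.sub contDiff_const).inner ℝ contDiff_const))

lemma sm_nrm (hφ : ContDiff ℝ ∞ φ) : ContDiff ℝ ∞ (nrm y ν φ) :=
  contDiff_const.sub (((contDiff_infty_iff_deriv.1 hφ).2.comp
    ((contDiff_id.sub contDiff_const).inner ℝ contDiff_const)).smul contDiff_const)

lemma fderiv_rho (hφ : ContDiff ℝ ∞ φ) (x v : E) :
    fderiv ℝ (rho y ν φ) x v = ⟪v, nrm y ν φ x⟫ := by
  have a : ∀ b : E, HasFDerivAt (fun x : E => ⟪x - y, b⟫) (innerSL ℝ b) x := fun b => by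
    simpa [inner_sub_left, real_inner_comm] using (innerSL ℝ b).hasFDerivAt.sub_const ⟪y, b⟫
  have := (a ν).sub ((hφ.differentiable (by simp) _).hasDerivAt.comp_hasFDerivAt x (a (rot ν)))
  change fderiv ℝ (fun x => ⟪x - y, ν⟫ - φ ⟪x - y, rot ν⟫) x v = _
  erw [this.fderiv]
  simp [nrm, inner_sub_right, real_inner_smul_right, real_inner_comm]

lemma inner_nrm (hν : ‖ν‖ = 1) (x : E) : ⟪ν, nrm y ν φ x⟫ = 1 := by
  simp [nrm, inner_sub_right, real_inner_smul_right, inner_rot, hν]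

lemma inner_nrm' (hν : ‖ν‖ = 1) (x : E) :
    ⟪rot ν, nrm y ν φ x⟫ = -deriv φ ⟪x - y, rot ν⟫ := by
  simp [nrm, inner_sub_right, real_inner_smul_right, real_inner_comm ν, inner_rot, norm_rot, hν]

lemma norm_nrm (hν : ‖ν‖ = 1) (x : E) : ‖nrm y ν φ x‖ ^ 2 = 1 + deriv φ ⟪x - y, rot ν⟫ ^ 2 := by
  rw [← real_inner_self_eq_norm_sq]
  nth_rewrite 1 [nrm]
  rw [inner_sub_left, real_inner_smul_left, inner_nrm hν, inner_nrm' hν]
  ring

/-- `n / |n|²` -/
def NN (y ν : E) (φ : ℝ → ℝ) (x : E) : E := (‖nrm y ν φ x‖ ^ 2)⁻¹ • nrm y ν φ x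

lemma sm_NN (hν : ‖ν‖ = 1) (hφ : ContDiff ℝ ∞ φ) : ContDiff ℝ ∞ (NN y ν φ) :=
  (((sm_nrm hφ).norm_sq ℝ).inv fun x => by rw [norm_nrm hν]; positivity).smul (sm_nrm hφ)

lemma norm_NN (hν : ‖ν‖ = 1) (x : E) : ‖NN y ν φ x‖ ≤ 1 := by
  have h1 : 1 ≤ ‖nrm y ν φ x‖ := by
    rw [← one_le_sq_iff₀ (norm_nonneg _), norm_nrm hν]
    nlinarith [sq_nonneg (deriv φ ⟪x - y, rot ν⟫)]
  rw [NN, norm_smul, norm_inv, norm_pow, norm_norm, inv_mul_le_iff₀ (by positivity)]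
  nlinarith

/-- charts in which the slope is small -/
def Flat (φ : ℝ → ℝ) (r : ℝ) : Prop := ∀ t, |t| < r → |deriv φ t| ≤ 1 / 8

lemma IsChart.flat {Ω : Set E} {r : ℝ} (h : IsChart Ω y ν φ r) :
    ∃ r', IsChart Ω y ν φ r' ∧ Flat φ r' := by
  obtain ⟨h1, h2, h3, h4, h5, h6⟩ := h
  obtain ⟨δ, hδ, hd⟩ := Metric.continuousAt_iff.1
    ((contDiff_infty_iff_deriv.1 h3).2.continuous.continuousAt (x := 0)) (1 / 8) (by norm_num)
  refine ⟨min r δ, ⟨h1, lt_min h2 hδ, h3, h4, h5, fun x hx =>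
    h6 x (Metric.ball_subset_ball (min_le_left _ _) hx)⟩, fun t ht => ?_⟩
  have := hd (x := t) (by simpa using ht.trans_le (min_le_right _ _))
  rw [h5, Real.dist_eq, sub_zero] at this
  exact this.le

lemma Flat.lip {r : ℝ} (h : Flat φ r) (hφ : ContDiff ℝ ∞ φ) {x x' : E} (hx : |⟪x - y, rot ν⟫| < r)
    (hx' : |⟪x' - y, rot ν⟫| < r) :
    |rho y ν φ x' - rho y ν φ x - ⟪x' - x, ν⟫| ≤ 1 / 8 * |⟪x' - x, rot ν⟫| := by
  have := (convex_Ioo (-r) r).norm_image_sub_le_of_norm_deriv_le (f := φ) (C := 1 / 8)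
    (fun t _ => hφ.differentiable (by simp) t) (fun t ht => h t (abs_lt.2 ht)) (abs_lt.1 hx)
    (abs_lt.1 hx')
  have e1 : ⟪x' - y, rot ν⟫ - ⟪x - y, rot ν⟫ = ⟪x' - x, rot ν⟫ := by
    simp only [inner_sub_left]; ring
  rw [e1, Real.norm_eq_abs, Real.norm_eq_abs, abs_sub_comm] at this
  convert this using 2
  simp only [rho, inner_sub_left]
  ring

lemma abs_inner_le {v : E} (hv : ‖v‖ = 1) (x : E) : |⟪x, v⟫| ≤ ‖x‖ := by
  simpa [hv] using abs_real_inner_le_norm x v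

lemma Flat.lip' {r : ℝ} (h : Flat φ r) (hφ : ContDiff ℝ ∞ φ) (hν : ‖ν‖ = 1) {x x' : E}
    (hx : |⟪x - y, rot ν⟫| < r) (hx' : |⟪x' - y, rot ν⟫| < r) :
    |rho y ν φ x' - rho y ν φ x| ≤ 2 * ‖x' - x‖ := by
  have h1 := abs_le.1 (h.lip hφ hx hx')
  have h2 := abs_le.1 (abs_inner_le hν (x' - x))
  have h3 := abs_inner_le ((norm_rot ν).trans hν) (x' - x)
  have := norm_nonneg (x' - x)
  rw [abs_le]
  constructor <;> linarith

/-- a point of the closed region that is close to the mirror image of another one -/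
lemma Flat.geo {r : ℝ} (h : Flat φ r) (hφ : ContDiff ℝ ∞ φ) (hν : ‖ν‖ = 1) {x x' : E}
    (hx : |⟪x - y, rot ν⟫| < r) (hx' : |⟪x' - y, rot ν⟫| < r) (p : 0 ≤ rho y ν φ x)
    (p' : 0 ≤ rho y ν φ x') {m : ℝ} (hm : ‖x' - x + (2 * rho y ν φ x) • NN y ν φ x‖ ≤ m) :
    rho y ν φ x ≤ 2 * m := by
  have h1 := (abs_le.1 (h.lip hφ hx hx')).2
  have h2 := (abs_le.1 ((abs_inner_le hν _).trans hm)).2
  have h3 := (abs_inner_le ((norm_rot ν).trans hν) _).trans hm
  have h4 := abs_le.1 (h _ hx)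
  rw [inner_add_left, NN, real_inner_smul_left, real_inner_smul_left, norm_nrm hν,
    real_inner_comm _ (nrm y ν φ x)] at h2 h3
  rw [inner_nrm hν] at h2
  rw [inner_nrm' hν] at h3
  generalize deriv φ ⟪x - y, rot ν⟫ = q at *
  have k1 : (1 + q ^ 2)⁻¹ ≤ 1 := inv_le_one_of_one_le₀ (by nlinarith)
  have k2 : 7 / 8 ≤ (1 + q ^ 2)⁻¹ := by
    rw [le_inv_comm₀ (by norm_num) (by positivity)]
    nlinarith
  generalize (1 + q ^ 2)⁻¹ = κ at *
  have k3 : |2 * rho y ν φ x * (κ * -q)| ≤ 2 * rho y ν φ x * (1 * (1 / 8)) := by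
    rw [abs_mul, abs_mul κ, abs_of_nonneg (by positivity), abs_of_nonneg (by linarith), abs_neg]
    gcongr
    exact abs_le.2 h4
  have k4 := abs_sub (⟪x' - x, rot ν⟫ + 2 * rho y ν φ x * (κ * -q)) (2 * rho y ν φ x * (κ * -q))
  rw [add_sub_cancel_right] at k4
  have := mul_le_mul_of_nonneg_left k2 p
  linarith [abs_nonneg (⟪x' - x, rot ν⟫ + 2 * rho y ν φ x * (κ * -q))]

end chart

end

end Pool.Agent.P.MP_6b977f_mp
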