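import Pool.Agent.P.MP_6b977f_mp.QK3

/-!
The transport identity for correlations near a smooth boundary point.
-/

namespace Pool.Agent.P.MP_6b977f_mp

open Real MeasureTheory Filter Topology Laplacian Asymptotics
open scoped RealInnerProductSpace ContDiff

noncomputable section

def th : ContDiffBump (0 : ℝ) := ⟨1 / 2, 1, by norm_num, by norm_num⟩

abbrev V4 : Type := E × E × ℝ × ℝ

/-- the reflected part of the kernel, in rescaled variables -/
def Rf (y ν : E) (φ : ℝ → ℝ) (β : E × E → ℝ) (q : V4) : ℝ :=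
  β (q.1, q.2.1 + (2 * q.2.2.1) • NN y ν φ q.1) + th q.2.2.2 *
    (β (q.1, q.2.1 - q.2.2.2 • ν) - β (q.1, q.2.1 - q.2.2.2 • ν + (2 * q.2.2.1) • NN y ν φ q.1))

def Xi (y ν : E) (φ : ℝ → ℝ) (c : ℝ) (p : E × E) : V4 :=
  (p.1, c⁻¹ • (p.2 - p.1), c⁻¹ • rho y ν φ p.1, c⁻¹ • rho y ν φ p.2)

def Bad (y ν : E) (φ : ℝ → ℝ) (K : Set E) (M : ℝ) (q : V4) : Prop :=
  q.1 ∈ K ∧ (‖q.2.1 + (2 * q.2.2.1) • NN y ν φ q.1‖ ≤ M ∨ |q.2.2.2| ≤ 1 ∧
    (‖q.2.1 - q.2.2.2 • ν‖ ≤ M ∨ ‖q.2.1 - q.2.2.2 • ν + (2 * q.2.2.1) • NN y ν φ q.1‖ ≤ M))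

variable {y ν : E} {φ : ℝ → ℝ} {K : Set E} {M : ℝ} {β : E × E → ℝ}

lemma sm_Rf (hν : ‖ν‖ = 1) (hφ : ContDiff ℝ ∞ φ) (hβ : ContDiff ℝ ∞ β) :
    ContDiff ℝ ∞ (Rf y ν φ β) := by
  have h1 := sm_NN (y := y) hν hφ
  have h2 : ContDiff ℝ ∞ th := th.contDiff
  unfold Rf
  fun_prop

lemma sm_Xi (hφ : ContDiff ℝ ∞ φ) (c : ℝ) : ContDiff ℝ ∞ (Xi y ν φ c) := by
  have h1 := sm_rho (y := y) (ν := ν) hφ
  unfold Xi
  fun_prop

lemma Symb.bad (h : Symb K M β) {q : V4} (hq : Rf y ν φ β q ≠ 0) : Bad y ν φ K M q := by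
  by_contra hb
  refine hq ?_
  have z : ∀ w, ¬(q.1 ∈ K ∧ ‖w‖ ≤ M) → β (q.1, w) = 0 := fun w hw =>
    by_contra fun h0 => hw (h.supp _ h0)
  unfold Rf
  rw [z _ fun h0 => hb ⟨h0.1, Or.inl h0.2⟩, zero_add]
  by_cases h1 : |q.2.2.2| ≤ 1
  · rw [z _ fun h0 => hb ⟨h0.1, Or.inr ⟨h1, Or.inl h0.2⟩⟩,
      z _ fun h0 => hb ⟨h0.1, Or.inr ⟨h1, Or.inr h0.2⟩⟩, sub_zero, mul_zero]
  · rw [th.zero_of_le_dist (by simpa [th] using (not_le.1 h1).le), zero_mul]

lemma closed_Bad (hν : ‖ν‖ = 1) (hφ : ContDiff ℝ ∞ φ) (hK : IsCompact K) :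
    IsClosed {q | Bad y ν φ K M q} := by
  have h1 := (sm_NN (y := y) hν hφ).continuous
  refine (hK.isClosed.preimage continuous_fst).inter (IsClosed.union
    (isClosed_le (f := fun q : V4 => ‖q.2.1 + (2 * q.2.2.1) • NN y ν φ q.1‖) (by fun_prop)
      continuous_const) (IsClosed.inter
    (isClosed_le (f := fun q : V4 => |q.2.2.2|) (by fun_prop) continuous_const) (IsClosed.union
    (isClosed_le (f := fun q : V4 => ‖q.2.1 - q.2.2.2 • ν‖) (by fun_prop) continuous_const)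
    (isClosed_le (f := fun q : V4 => ‖q.2.1 - q.2.2.2 • ν + (2 * q.2.2.1) • NN y ν φ q.1‖)
      (by fun_prop) continuous_const))))

lemma Rf_sym (hν : ‖ν‖ = 1) (hs : ∀ x w, β (x, refl (nrm y ν φ x) w) = β (x, w)) (x w : E)
    (s : ℝ) : Rf y ν φ β (x, w, s, s + ⟪w, nrm y ν φ x⟫) = β (x, w + (2 * s) • NN y ν φ x) := by
  have := hs x (w - (s + ⟪w, nrm y ν φ x⟫) • ν)
  rw [refl, inner_sub_left, real_inner_smul_left, inner_nrm hν] at this
  unfold Rf
  simp only []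
  rw [← this, NN, smul_smul, sub_eq_add_neg (w - _), ← neg_smul, add_eq_left, mul_eq_zero,
    sub_eq_zero]
  right
  congr 4
  ring

lemma trace_refl (B : E × E →L[ℝ] E × E →L[ℝ] ℝ) {n : E} (hn : ‖n‖ ^ 2 ≠ 0) :
    ∑ j, (B (0, 0 - ee j + (2 * ⟪ee j, n⟫) • (‖n‖ ^ 2)⁻¹ • n)
      (0, 0 - ee j + (2 * ⟪ee j, n⟫) • (‖n‖ ^ 2)⁻¹ • n) - B (0, ee j) (0, ee j)) = 0 := by
  have e : ∀ (v : E), ((0 : E), v) = v 0 • ((0 : E), ee 0) + v 1 • ((0 : E), ee 1) := fun v => by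
    ext i <;> fin_cases i <;> simp
  have k : (‖n‖ ^ 2)⁻¹ * (n 0 ^ 2 + n 1 ^ 2) = 1 := by rw [← nsq, inv_mul_cancel₀ hn]
  rw [Fin.sum_univ_two, e (0 - ee 0 + _), e (0 - ee 1 + _)]
  generalize (‖n‖ ^ 2)⁻¹ = κ at *
  simp only [map_add, map_smul, add_apply, smul_apply, smul_eq_mul]
  simp [EuclideanSpace.inner_single_left]
  linear_combination 4 * κ * (n 0 ^ 2 * B (0, ee 0) (0, ee 0) + n 0 * n 1 *
    (B (0, ee 0) (0, ee 1) + B (0, ee 1) (0, ee 0)) + n 1 ^ 2 * B (0, ee 1) (0, ee 1)) * k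

/-- jet of the rescaled variables along a line -/
lemma jet_Xi (hφ : ContDiff ℝ ∞ φ) {c : ℝ} (hc : c ≠ 0) (z w : E) (e : E × E) :
    HJ (fun t : ℝ => Xi y ν φ c ((z, z + c • w) + t • c • e))
      ((z, w, c⁻¹ * rho y ν φ z, c⁻¹ * rho y ν φ (z + c • w)),
        (c • e.1, e.2 - e.1, ⟪e.1, nrm y ν φ z⟫, ⟪e.2, nrm y ν φ (z + c • w)⟫),
        (0, 0, c * sd (rho y ν φ) z e.1, c * sd (rho y ν φ) (z + c • w) e.2)) := by
  have k : ∀ x v : E, c⁻¹ • jc (rho y ν φ) (x, c • v, 0) =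
      (c⁻¹ * rho y ν φ x, ⟪v, nrm y ν φ x⟫, c * sd (rho y ν φ) x v) := fun x v => by
    simp only [jc, d2_smul, inner_zero_left, add_zero, real_inner_smul_left, fderiv_rho hφ,
      Prod.smul_mk, smul_eq_mul]
    congr 2 <;> field_simp
  have := (HJ.aff z (c • e.1)).prod ((HJ.aff w (e.2 - e.1)).prod
    ((((HJ.aff z (c • e.1)).comp (sm_rho (y := y) (ν := ν) hφ)).smul c⁻¹).prod
      (((HJ.aff (z + c • w) (c • e.2)).comp (sm_rho (y := y) (ν := ν) hφ)).smul c⁻¹)))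
  simp only [k] at this
  convert this using 2 with t
  unfold Xi
  congr 2
  simp only [Prod.snd_add, Prod.fst_add, Prod.smul_snd, Prod.smul_fst]
  match_scalars <;> (field_simp; try simp)

lemma layer (hν : ‖ν‖ = 1) (hφ : ContDiff ℝ ∞ φ) (hβ : ContDiff ℝ ∞ β)
    (hs : ∀ x w, β (x, refl (nrm y ν φ x) w) = β (x, w)) (hK : IsCompact K) (M : ℝ) :
    ∃ C, 0 ≤ C ∧ ∀ᶠ c in 𝓝[>] (0 : ℝ), ∀ z w, z ∈ K → ‖w‖ ≤ M → |rho y ν φ z| ≤ M * c →
      |c * LL (fun p => Rf y ν φ β (Xi y ν φ c p)) (z, z + c • w)| ≤ C := by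
  set l : Filter (ℝ × E × E) := comap Prod.fst (𝓝[>] 0) ⊓
    𝓟 {i | i.2.1 ∈ K ∧ ‖i.2.2‖ ≤ M ∧ |rho y ν φ i.2.1| ≤ M * i.1} with hl
  have p1 : ∀ᶠ i in l, i.1 ∈ Set.Ioo (0 : ℝ) 1 :=
    (tendsto_comap.eventually (Ioo_mem_nhdsGT one_pos)).filter_mono inf_le_left
  have p2 : ∀ᶠ i in l, i.2.1 ∈ K ∧ ‖i.2.2‖ ≤ M ∧ |rho y ν φ i.2.1| ≤ M * i.1 :=
    mem_inf_of_right (mem_principal_self _)
  obtain ⟨R, hR⟩ := hK.isBounded.exists_norm_le
  have hc : (fun i => i.1) =O[l] fun _ => (1 : ℝ) := IsBigO.of_bound 1 (p1.mono fun i hi => by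
    simpa [abs_of_pos hi.1] using hi.2.le)
  have hz : (fun i => i.2.1) =O[l] fun _ => (1 : ℝ) := IsBigO.of_bound R (p2.mono fun i hi => by
    simpa using hR _ hi.1)
  have hw : (fun i => i.2.2) =O[l] fun _ => (1 : ℝ) := IsBigO.of_bound M (p2.mono fun i hi => by
    simpa using hi.2.1)
  have h0 : (fun i => i.1⁻¹ * rho y ν φ i.2.1) =O[l] fun _ => (1 : ℝ) := by
    refine IsBigO.of_bound M ?_
    filter_upwards [p1, p2] with i h1 h2
    rw [norm_mul, norm_inv, Real.norm_of_nonneg h1.1.le, norm_one, mul_one, inv_mul_le_iff₀ h1.1]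
    exact h2.2.2.trans_eq (mul_comm _ _)
  have hcw : (fun i => i.1 • i.2.2) =O[l] fun i => i.1 := by
    simpa using (isBigO_refl (fun i : ℝ × E × E => i.1) l).smul hw
  have hz' := hz.add (hcw.trans hc)
  have sρ := sm_rho (y := y) (ν := ν) hφ
  have sn := sm_nrm (y := y) (ν := ν) hφ
  have key : ∀ e : E × E, (fun i : ℝ × E × E =>
      i.1 ^ 2 * sd (fun p => Rf y ν φ β (Xi y ν φ i.1 p)) (i.2.1, i.2.1 + i.1 • i.2.2) e -
      sd β (i.2.1, i.2.2 + (2 * (i.1⁻¹ * rho y ν φ i.2.1)) • NN y ν φ i.2.1)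
        (0, e.2 - e.1 + (2 * ⟪e.1, nrm y ν φ i.2.1⟫) • NN y ν φ i.2.1)) =O[l] fun i => i.1 := by
    intro e
    set Θ : E × E × ℝ → V4 × V4 × V4 := fun q => ((q.1, q.2.1, q.2.2, q.2.2 + ⟪q.2.1, nrm y ν φ q.1⟫),
      (0, e.2 - e.1, ⟪e.1, nrm y ν φ q.1⟫, ⟪e.2, nrm y ν φ q.1⟫), 0) with hΘ
    have sΘ : ContDiff ℝ ∞ Θ := by
      have a : ∀ {f : E × E × ℝ → E}, ContDiff ℝ ∞ f →
        ContDiff ℝ ∞ fun q : E × E × ℝ => ⟪f q, nrm y ν φ q.1⟫ := fun hf =>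
          hf.inner ℝ (sn.comp contDiff_fst)
      have a1 := a contDiff_snd.fst
      have a2 := a (contDiff_const (c := e.1))
      have a3 := a (contDiff_const (c := e.2))
      fun_prop
    have hY := bddO sΘ (hz.prod_left (hw.prod_left h0))
    set JX : ℝ × E × E → V4 × V4 × V4 := fun i =>
      ((i.2.1, i.2.2, i.1⁻¹ * rho y ν φ i.2.1, i.1⁻¹ * rho y ν φ (i.2.1 + i.1 • i.2.2)),
        (i.1 • e.1, e.2 - e.1, ⟪e.1, nrm y ν φ i.2.1⟫, ⟪e.2, nrm y ν φ (i.2.1 + i.1 • i.2.2)⟫),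
        (0, 0, i.1 * sd (rho y ν φ) i.2.1 e.1, i.1 * sd (rho y ν φ) (i.2.1 + i.1 • i.2.2) e.2))
      with hJX
    have b : ∀ {X : ℝ × E × E → E} (v : E), (X =O[l] fun _ => (1 : ℝ)) →
        (fun i => i.1 * sd (rho y ν φ) (X i) v) =O[l] fun i => i.1 := fun v hX => by
      simpa using (isBigO_refl (fun i : ℝ × E × E => i.1) l).mul
        (bddO (sm_d2 sρ) (hX.prod_left (isBigO_const_one ℝ v l)))
    have hXY : (fun i => JX i - Θ (i.2.1, i.2.2, i.1⁻¹ * rho y ν φ i.2.1)) =O[l] fun i => i.1 := by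
      simp only [hJX, hΘ, Prod.mk_sub_mk, sub_self, sub_zero, isBigO_prod_left]
      refine ⟨⟨isBigO_zero _ _, isBigO_zero _ _, isBigO_zero _ _, ?_⟩, ⟨?_, isBigO_zero _ _,
        isBigO_zero _ _, ?_⟩, ?_⟩
      · have := (isBigO_refl (fun i : ℝ × E × E => i.1⁻¹) l).mul
          ((taylorO sρ hz (hcw.trans hc)).trans (hcw.norm_left.mul hcw.norm_left))
        refine this.congr' (p1.mono fun i hi => ?_) (p1.mono fun i hi => ?_)
        · have := hi.1.ne'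
          simp only [fderiv_rho hφ, real_inner_smul_left]
          field_simp
          ring
        · have := hi.1.ne'
          simp only []
          field_simp
      · simpa using (isBigO_refl (fun i : ℝ × E × E => i.1) l).smul (isBigO_const_one ℝ e.1 l)
      · exact (lipO (F := fun x => ⟪e.2, nrm y ν φ x⟫) (contDiff_const.inner ℝ sn) hz' hz).trans
          (by simpa using hcw)
      · exact ⟨isBigO_zero _ _, isBigO_zero _ _, b _ hz, b _ hz'⟩
    have hX : JX =O[l] fun _ => (1 : ℝ) := by simpa using (hXY.trans hc).add hY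
    refine ((lipO (sm_jc (sm_Rf (y := y) hν hφ hβ)) hX hY).trans hXY).congr'
      (p1.mono fun i hi => ?_) EventuallyEq.rfl
    obtain ⟨c, z, w⟩ := i
    simp only []
    congr 1
    · rw [← smul_eq_mul, ← d2_smul]
      exact (d2_eq ((sm_Rf hν hφ hβ).comp (sm_Xi hφ c))
        ((jet_Xi hφ hi.1.ne' z w e).comp (sm_Rf hν hφ hβ))).symm
    · have j1 := (HJ.aff (Θ (z, w, c⁻¹ * rho y ν φ z)).1 (Θ (z, w, c⁻¹ * rho y ν φ z)).2.1).comp
        (sm_Rf (y := y) hν hφ hβ)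
      refine (d2_eq hβ ?_).symm
      convert j1 using 2 with t
      have := Rf_sym hν hs z (w + t • (e.2 - e.1)) (c⁻¹ * rho y ν φ z + t * ⟪e.1, nrm y ν φ z⟫)
      simp only [hΘ, Prod.smul_mk, Prod.mk_add_mk, smul_zero, add_zero, smul_eq_mul]
      convert this.symm using 3
      · module
      · simp only [inner_add_left, inner_sub_left, real_inner_smul_left, Prod.mk.injEq, true_and]
        ring
  have sum := IsBigO.sum (s := Finset.univ) fun j _ => (key (ee j, 0)).sub (key (0, ee j))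
  obtain ⟨C, hC0, hC⟩ := sum.exists_nonneg
  refine ⟨C, hC0, ?_⟩
  have := hC.bound
  rw [hl, eventually_inf_principal, eventually_comap] at this
  filter_upwards [this, self_mem_nhdsWithin] with c h1 h2 z w a1 a2 a3
  have hc0 : 0 < c := h2
  have h3 := h1 (c, z, w) rfl ⟨a1, a2, a3⟩
  have h4 := trace_refl (fderiv ℝ (fderiv ℝ β) (z, w + (2 * (c⁻¹ * rho y ν φ z)) • NN y ν φ z))
    (n := nrm y ν φ z) (by rw [norm_nrm hν]; positivity)
  simp only [Fin.sum_univ_two, Pi.add_apply, inner_zero_left, mul_zero, zero_smul, add_zero, sub_zero,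
    Real.norm_eq_abs, abs_of_pos hc0] at h3 h4
  refine le_of_mul_le_mul_right (le_of_eq_of_le ?_ h3) hc0
  rw [← abs_of_pos hc0, ← abs_mul, abs_of_pos hc0]
  congr 1
  simp only [LL, Fin.sum_univ_two]
  unfold sd NN
  unfold NN at h4
  linear_combination h4

lemma Bad.norm_le (hν : ‖ν‖ = 1) {q : V4} (h : Bad y ν φ K M q) :
    ‖q.2.1‖ ≤ M + 1 + 2 * |q.2.2.1| := by
  have a : ‖(2 * q.2.2.1) • NN y ν φ q.1‖ ≤ 2 * |q.2.2.1| := by
    rw [norm_smul, norm_mul, Real.norm_two]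
    exact mul_le_of_le_one_right (by positivity) (norm_NN hν _)
  have b : ‖q.2.2.2 • ν‖ = |q.2.2.2| := by rw [norm_smul, hν, mul_one, Real.norm_eq_abs]
  have c := norm_le_norm_sub_add q.2.1 (q.2.2.2 • ν)
  have d := fun v : E => norm_le_add_norm_add v ((2 * q.2.2.1) • NN y ν φ q.1)
  obtain ⟨-, h | ⟨h, h' | h'⟩⟩ := h
  · linarith [d q.2.1]
  · linarith [abs_nonneg q.2.2.1]
  · linarith [d (q.2.1 - q.2.2.2 • ν)]

lemma Bad.layer {r c : ℝ} (hf : Flat φ r) (hφ : ContDiff ℝ ∞ φ) (hν : ‖ν‖ = 1) (hc : 0 < c)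
    {z z' : E} (hz : |⟪z - y, rot ν⟫| < r) (hz' : |⟪z' - y, rot ν⟫| < r) (p : 0 ≤ rho y ν φ z)
    (p' : 0 ≤ rho y ν φ z') (h : Bad y ν φ K M (Xi y ν φ c (z, z'))) :
    rho y ν φ z ≤ 2 * (c * M) := by
  have sc : ∀ {a b : E}, a = c • b → ‖b‖ ≤ M → ‖a‖ ≤ c * M := fun h1 h2 => by
    rw [h1, norm_smul, Real.norm_of_nonneg hc.le]
    exact mul_le_mul_of_nonneg_left h2 hc.le
  have e1 : ⟪z' - rho y ν φ z' • ν - y, rot ν⟫ = ⟪z' - y, rot ν⟫ := by
    simp [inner_sub_left, real_inner_smul_left, inner_rot]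
  have e2 : rho y ν φ (z' - rho y ν φ z' • ν) = 0 := by
    rw [rho, e1, sub_right_comm, inner_sub_left, real_inner_smul_left, real_inner_self_eq_norm_sq,
      hν, rho]
    ring
  have := hc.ne'
  obtain ⟨-, h | ⟨-, h | h⟩⟩ := h
  · refine hf.geo hφ hν hz hz' p p' (sc ?_ h)
    simp only [Xi, smul_eq_mul]
    match_scalars <;> field_simp
  · have h1 := hf.lip' hφ hν hz (e1 ▸ hz')
    have h2 : ‖z' - rho y ν φ z' • ν - z‖ ≤ c * M := sc (by
      simp only [Xi, smul_eq_mul]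
      match_scalars <;> field_simp) h
    rw [e2, zero_sub, abs_neg] at h1
    linarith [le_abs_self (rho y ν φ z)]
  · refine hf.geo hφ hν hz (e1 ▸ hz') p e2.ge (sc ?_ h)
    simp only [Xi, smul_eq_mul]
    match_scalars <;> field_simp

lemma Ctx.boundary (hwk : S_WK) {Ω : Set E} {u : ℕ → E → ℝ} {lam : ℕ → ℝ} (h : Ctx Ω u lam)
    {r0 : ℝ} (hc0 : IsChart Ω y ν φ r0) : ∃ r' > 0, ∀ K M β, Symb K M β → 0 ≤ M →
      K ⊆ Metric.ball y r' → (∀ x w, β (x, refl (nrm y ν φ x) w) = β (x, w)) →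
      Small fun n => ∫ w, cr Ω u lam (fun x => gam β (x, w)) w n := by
  obtain ⟨r, hc, hf⟩ := hc0.flat
  obtain ⟨hν, hr, hφ, φ0, -, hch⟩ := id hc
  refine ⟨r / 16, by positivity, fun K M β hβ hM hK hs => ?_⟩
  have ht : ∀ x ∈ Metric.ball y r, |⟪x - y, rot ν⟫| < r := fun x hx =>
    (abs_inner_le ((norm_rot ν).trans hν) _).trans_lt (by rwa [← mem_ball_iff_norm])
  have hp : ∀ x ∈ Ω ∩ Metric.ball y r, 0 < rho y ν φ x := fun x hx =>
    sub_pos.2 ((hch x hx.2).1 hx.1)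
  have hKb : ∀ x ∈ K, x ∈ Metric.ball y r := fun x hx =>
    Metric.ball_subset_ball (by linarith) (hK hx)
  have sG := fun c => (sm_Rf (y := y) hν hφ hβ.sm).comp (sm_Xi (y := y) (ν := ν) hφ c)
  have sF := fun c => (hβ.sm_K0 c).sub (sG c)
  obtain ⟨C, hC0, hC⟩ := layer hν hφ hβ.sm hs hβ.cpt (5 * M + 1)
  obtain ⟨e, he, he'⟩ := eps_mul (A := M + 1) (show 0 < r / 16 by positivity)
  have ne : ∀ c p, K0 β c p - Rf y ν φ β (Xi y ν φ c p) ≠ 0 →
      p.1 ∈ K ∧ ‖c⁻¹ • (p.2 - p.1)‖ ≤ M + 1 + 2 * |c⁻¹ * rho y ν φ p.1| := fun c p hp => by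
    by_cases h1 : K0 β c p = 0
    · have := hβ.bad (y := y) (ν := ν) (φ := φ) (q := Xi y ν φ c p) fun h2 => hp (by simp [h1, h2])
      exact ⟨this.1, this.norm_le hν⟩
    · have := abs_nonneg (c⁻¹ * rho y ν φ p.1)
      exact (hβ.supp _ h1).imp_right fun h2 => le_trans h2 (by linarith)
  refine h.of_kernel (h.op.inter Metric.isOpen_ball).measurableSet Set.inter_subset_left
    hβ.cont_gam (C := C) (M := 5 * M + 1) (fun p hp => hβ.gam_zero fun h0 => by linarith [h0.2]) sF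
    (Eventually.of_forall fun c n z' _ => hwk Ω _ _ h.op (h.db.smooth n) (h.db.helm n) (h.db.h10 n)
      y ν φ r hc _ ((sF c).comp (contDiff_id.prodMk contDiff_const)) (fun z _ hz => ?_)
      fun z _ hz => by_contra fun h0 => ?_) ?_ fun L hL hLΩ δ hδ => ?_
  · simp [K0, Rf, Xi, hz]
  · linarith [Metric.mem_ball.1 (hK (ne c (z, z') h0).1)]
  · filter_upwards [Ioo_mem_nhdsGT he] with c hc1 n z _
    refine hwk Ω _ _ h.op (h.db.smooth n) (h.db.helm n) (h.db.h10 n) y ν φ r hc _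
      ((sF c).comp (contDiff_const.prodMk contDiff_id)) (fun z' _ hz => ?_)
      fun z' _ hz => by_contra fun h0 => ?_
    · simp [K0, Rf, Xi, hz, th.one_of_mem_closedBall (Metric.mem_closedBall_self th.rIn_pos.le)]
    · obtain ⟨h1, h2⟩ := ne c (z, z') h0
      have h3 := hf.lip' hφ hν (ht y (Metric.mem_ball_self hr)) (ht z (hKb z h1))
      have h4 := mem_ball_iff_norm.1 (hK h1)
      have h5 : rho y ν φ y = 0 := by simp [rho, φ0]
      rw [norm_smul, abs_mul, norm_inv, abs_inv, Real.norm_of_nonneg hc1.1.le, abs_of_pos hc1.1,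
        inv_mul_le_iff₀ hc1.1, mul_add, mul_left_comm, mul_inv_cancel_left₀ hc1.1.ne'] at h2
      have h6 := (mul_le_mul_of_nonneg_right hc1.2.le (by linarith)).trans (he' _ le_rfl)
      have h7 := norm_sub_le_norm_sub_add_norm_sub z' z y
      rw [h5, sub_zero] at h3
      rw [dist_eq_norm] at hz
      simp only [] at h2 h3 h4
      linarith
  · obtain ⟨m, hm, hm'⟩ := (hL.inter hβ.cpt).exists_forall_le'
      (sm_rho (y := y) (ν := ν) hφ).continuous.continuousOn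
      (fun x hx => hp x ⟨hLΩ hx.1, hKb x hx.2⟩)
    obtain ⟨e2, he2, he2'⟩ := eps_mul (A := 2 * M) (half_pos hm)
    filter_upwards [Ioo_mem_nhdsGT he, Ioo_mem_nhdsGT he2, hC,
      hβ.small_K0 hδ (show M ≤ 5 * M + 1 by linarith)] with c hc1 hc2 a1 a2 z w h1 h2
    have i0 : 0 ≤ Lᶜ.indicator (fun _ => C) z := Set.indicator_nonneg (fun _ _ => hC0) _
    by_cases hU : (z, z + c • w) ∈ (Ω ∩ Metric.ball y r) ×ˢ (Ω ∩ Metric.ball y r)
    · have e : c * LL (fun p => K0 β c p - (Rf y ν φ β ∘ Xi y ν φ c) p) (z, z + c • w) +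
          2 * gam β (z, w) = (c * LL (K0 β c) (z, z + c • w) + 2 * gam β (z, w)) -
            c * LL (fun p => Rf y ν φ β (Xi y ν φ c p)) (z, z + c • w) := by
        simp only [LL, d2_sub (hβ.sm_K0 c) (sG c), Fin.sum_univ_two]
        simp only [Function.comp_def]
        ring
      rw [Set.indicator_of_mem hU, e]
      have a3 := a2 z w
      by_cases hb : Bad y ν φ K M (Xi y ν φ c (z, z + c • w))
      · have b1 := hb.layer hf hφ hν hc1.1 (ht _ hU.1.2) (ht _ hU.2.2) (hp _ hU.1).le (hp _ hU.2).le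
        have b2 := hb.norm_le hν
        have b3 := hp _ hU.1
        simp only [Xi, add_sub_cancel_left, smul_smul, inv_mul_cancel₀ hc1.1.ne', one_smul,
          smul_eq_mul] at b2 b3
        have b4 : |c⁻¹ * rho y ν φ z| ≤ 2 * M := by
          rw [abs_of_pos (mul_pos (inv_pos.2 hc1.1) b3), inv_mul_le_iff₀ hc1.1]
          linarith
        have b5 : ‖w‖ ≤ 5 * M + 1 := by linarith
        have b6 : z ∉ L := fun hz => by
          have := hm' z ⟨hz, hb.1⟩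
          have := (mul_le_mul_of_nonneg_right hc2.2.le (by linarith)).trans (he2' _ le_rfl)
          linarith
        rw [if_pos b5] at a3 ⊢
        rw [Set.indicator_of_mem (Set.mem_compl b6)]
        refine (abs_sub _ _).trans (add_le_add a3 (a1 z w hb.1 b5 ?_))
        rw [abs_of_pos b3]
        nlinarith [mul_nonneg hc1.1.le hM, hc1.1]
      · have : (fun p => Rf y ν φ β (Xi y ν φ c p)) =ᶠ[𝓝 (z, z + c • w)] fun _ => 0 := by
          filter_upwards [((closed_Bad hν hφ hβ.cpt).preimage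
            (sm_Xi hφ c).continuous).isOpen_compl.mem_nhds hb] with q hq
          exact by_contra fun h0 => hq (hβ.bad h0)
        simp only [LL, d2_zero this, sub_self, Finset.sum_const_zero, mul_zero, sub_zero] at a3 ⊢
        refine a3.trans ?_
        split_ifs <;> linarith
    · rw [Set.indicator_of_notMem hU, hβ.gam_zero fun h0 => hU ⟨⟨h1, hKb z h0.1⟩, h2, ?_⟩,
        mul_zero, add_zero, abs_zero]
      · split_ifs <;> linarith
      · have h4 := mem_ball_iff_norm.1 (hK h0.1)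
        have h6 := (mul_le_mul hc1.2.le (show ‖w‖ ≤ M + 1 by linarith [h0.2]) (norm_nonneg _)
          he.le).trans (he' _ le_rfl)
        have h7 := norm_add_le (z - y) (c • w)
        rw [norm_smul, Real.norm_of_nonneg hc1.1.le] at h7
        rw [mem_ball_iff_norm, add_sub_right_comm]
        simp only [] at h4
        linarith

end

end Pool.Agent.P.MP_6b977f_mp
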