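import Pool.Agent.P.MP_6b977f_mp.QC

/-!
The local Weyl bound for finite sums of correlations.
-/

namespace Pool.Agent.P.MP_6b977f_mp

open Real MeasureTheory Filter Topology Laplacian Metric
open scoped RealInnerProductSpace ContDiff

noncomputable section

namespace W2

/-- direction of a vector -/
def dir (η : E) : E := ‖η‖⁻¹ • η

@[fun_prop] lemma measurable_dir : Measurable dir := by unfold dir; fun_prop

lemma norm_dir (η : E) : ‖dir η‖ ≤ 1 := by
  rw [dir, norm_smul, norm_inv, norm_norm]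
  exact inv_mul_le_one_of_le₀ le_rfl (norm_nonneg _)

lemma polar {F : E → ℝ} (hF : Measurable F) {R : ℝ} (hR : 0 ≤ R) :
    ∫ η in closedBall (0 : E) R, F (dir η) = π * R ^ 2 * ∫ ξ, F ξ ∂om := by
  set T := Complex.orthonormalBasisOneI.repr
  have hT : ∀ p : ℝ × ℝ, T (Complex.polarCoord.symm p) = p.1 • cir p.2 := by
    intro p
    ext i
    fin_cases i <;> simp [T, cir, Complex.polarCoord_symm_apply, Complex.cos_ofReal_re,
      Complex.sin_ofReal_re, Complex.cos_ofReal_im, Complex.sin_ofReal_im]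
  rw [← integral_indicator measurableSet_closedBall,
    ← T.measurePreserving.integral_comp T.toHomeomorph.measurableEmbedding,
    ← Complex.integral_comp_polarCoord_symm]
  have e : ∫ p in polarCoord.target, p.1 • (closedBall (0 : E) R).indicator (fun η => F (dir η))
      (T (Complex.polarCoord.symm p)) = ∫ p in Set.Ioi (0 : ℝ) ×ˢ Set.Ioo (-π) π,
        (Set.Iic R).indicator (fun r => r) p.1 * F (cir p.2) := by
    refine setIntegral_congr_fun (measurableSet_Ioi.prod measurableSet_Ioo) fun p hp => ?_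
    have h0 : 0 < p.1 := hp.1
    have n : ‖p.1 • cir p.2‖ = p.1 := by
      rw [norm_smul, norm_cir, mul_one, Real.norm_of_nonneg h0.le]
    simp only [hT]
    by_cases hp : p.1 ≤ R
    · rw [Set.indicator_of_mem (by simpa only [mem_closedBall_zero_iff, n] using hp),
        Set.indicator_of_mem (show p.1 ∈ Set.Iic R from hp), dir, n, smul_smul,
        inv_mul_cancel₀ h0.ne', one_smul, smul_eq_mul]
    · rw [Set.indicator_of_notMem (by simpa only [mem_closedBall_zero_iff, n] using hp),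
        Set.indicator_of_notMem (show p.1 ∉ Set.Iic R from hp), smul_zero, zero_mul]
  have hp : Function.Periodic (fun t => F (cir t)) (2 * π) := fun t => by simp [cir]
  have e2 := hp.intervalIntegral_add_eq (-π) 0
  rw [show -π + 2 * π = π by ring, zero_add,
    intervalIntegral.integral_of_le (by linarith [Real.pi_pos]),
    intervalIntegral.integral_of_le Real.two_pi_pos.le, integral_Ioc_eq_integral_Ioo] at e2
  rw [e, Measure.volume_eq_prod, setIntegral_prod_mul (fun r => (Set.Iic R).indicator (fun r => r) r)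
    (fun t => F (cir t)), e2, setIntegral_indicator measurableSet_Iic, Set.Ioi_inter_Iic,
    ← intervalIntegral.integral_of_le hR, integral_id, om, integral_smul_measure,
    integral_map continuous_cir.aemeasurable hF.aestronglyMeasurable]
  simp only [ENNReal.toReal_inv, ENNReal.toReal_ofReal Real.two_pi_pos.le, smul_eq_mul]
  field_simp
  ring

lemma norm_ex_sub (s t : ℝ) : ‖ex s - ex t‖ ≤ |s - t| := by
  have : ex s - ex t = ex t * (Complex.exp (Complex.I * ((s - t : ℝ) : ℂ)) - 1) := by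
    rw [mul_comm Complex.I, mul_sub, mul_one]
    change _ = ex t * ex (s - t) - _
    rw [← ex_add, add_sub_cancel]
  rw [this, norm_mul, norm_ex, one_mul]
  exact Real.norm_exp_I_mul_ofReal_sub_one_le

lemma sym_le {k : ℝ} (hk : 0 < k) (v ξ : E) :
    ‖ex ⟪ξ, k⁻¹ • v⟫ - (closedBall (0 : E) (2 * k)).indicator (fun ξ => ex ⟪dir ξ, v⟫) ξ‖ ≤
      (‖v‖ + 1) / k * (1 + dd k ξ) := by
  have h0 := dd_nonneg k ξ
  have hv := norm_nonneg v
  rw [div_mul_eq_mul_div, le_div_iff₀ hk]
  by_cases h : ξ ∈ closedBall (0 : E) (2 * k)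
  · rw [Set.indicator_of_mem h]
    refine (mul_le_mul_of_nonneg_right (norm_ex_sub _ _) hk.le).trans ?_
    rcases eq_or_ne ξ 0 with rfl | hξ
    · simp only [dir, smul_zero, inner_zero_left, sub_self, abs_zero, zero_mul]
      positivity
    have hn := norm_pos_iff.2 hξ
    have e : ⟪ξ, k⁻¹ • v⟫ - ⟪dir ξ, v⟫ = (‖ξ‖ - k) * (⟪ξ, v⟫ / ‖ξ‖) / k := by
      rw [dir, real_inner_smul_left, real_inner_smul_right]
      field_simp
    have b : |⟪ξ, v⟫ / ‖ξ‖| ≤ ‖v‖ := by
      rw [abs_div, abs_of_pos hn, div_le_iff₀' hn]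
      exact abs_real_inner_le_norm _ _
    rw [e, abs_div, abs_of_pos hk, div_mul_cancel₀ _ hk.ne', abs_mul]
    have := mul_le_mul_of_nonneg_left b h0
    unfold dd at *
    nlinarith
  · rw [Set.indicator_of_notMem h, sub_zero, norm_ex]
    rw [mem_closedBall_zero_iff, not_le] at h
    have : k ≤ dd k ξ := le_trans (by linarith) (le_abs_self _)
    nlinarith [mul_nonneg hv h0]

lemma sq_le2 (x y : ℂ) : ‖x‖ ^ 2 ≤ 2 * ‖y‖ ^ 2 + 2 * ‖x - y‖ ^ 2 := by
  have h := norm_le_insert' x y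
  nlinarith [norm_nonneg x, norm_nonneg y, norm_nonneg (x - y), sq_nonneg (‖y‖ - ‖x - y‖)]

variable {Ω : Set E} {u : ℕ → E → ℝ} {lam : ℕ → ℝ} (h : Ctx Ω u lam)
include h

lemma fin : IsFiniteMeasure (volume.restrict Ω) :=
  isFiniteMeasure_restrict.2 h.bd.measure_lt_top.ne

lemma mem2 {f : E → ℝ} (hf : Continuous f) : MemLp f 2 (volume.restrict Ω) := by
  have := fin h
  obtain ⟨B, -, hB⟩ := h.bound hf
  exact MemLp.of_bound hf.aestronglyMeasurable B
    (ae_restrict_of_forall_mem h.op.measurableSet hB)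

lemma bessel {g : E → ℂ} (hg : Continuous g) (s : Finset ℕ) :
    ∑ n ∈ s, ‖∫ x in Ω, g x * u n x‖ ^ 2 ≤ volume.real Ω * ∫ x in Ω, ‖g x‖ ^ 2 := by
  have m1 : MemLp (fun x => (g x).re) 2 (volume.restrict Ω) := mem2 h (by fun_prop)
  have m2 : MemLp (fun x => (g x).im) 2 (volume.restrict Ω) := mem2 h (by fun_prop)
  have b := add_le_add (h.db.bessel h.op h.bd h.ne m1 s) (h.db.bessel h.op h.bd h.ne m2 s)
  rw [← Finset.sum_add_distrib, ← mul_add, ← integral_add m1.integrable_sq m2.integrable_sq] at b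
  refine le_trans (le_of_eq ?_) (b.trans (le_of_eq ?_))
  · refine Finset.sum_congr rfl fun n _ => ?_
    have j1 : Integrable (fun x => (((g x).re * u n x : ℝ) : ℂ)) (volume.restrict Ω) :=
      (m1.integrable_mul (h.db.memLp h.op n)).ofReal
    have j2 : Integrable (fun x => (((g x).im * u n x : ℝ) : ℂ)) (volume.restrict Ω) :=
      (m2.integrable_mul (h.db.memLp h.op n)).ofReal
    have e : ∫ x in Ω, g x * u n x = ((∫ x in Ω, (g x).re * u n x : ℝ) : ℂ) +
        ((∫ x in Ω, (g x).im * u n x : ℝ) : ℂ) * Complex.I := by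
      rw [← integral_complex_ofReal, ← integral_complex_ofReal, ← integral_mul_const,
        ← integral_add j1 (j2.mul_const _)]
      congr 1
      ext x
      conv_lhs => rw [← Complex.re_add_im (g x)]
      push_cast
      ring
    rw [e, Complex.sq_norm, Complex.normSq_add_mul_I]
  · simp only [Complex.sq_norm, Complex.normSq_apply]
    simp only [sq]

lemma bnd {H : E × E → ℝ} (hH : Continuous H) :
    ∃ M, ∀ x ∈ Ω, ∀ ξ : E, ‖ξ‖ ≤ 1 → ‖H (x, ξ)‖ ≤ M := by
  obtain ⟨M, hM⟩ := (h.bd.isCompact_closure.prod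
    (isCompact_closedBall (0 : E) 1)).exists_bound_of_continuousOn hH.continuousOn
  exact ⟨M, fun x hx ξ hξ => hM _ ⟨subset_closure hx, mem_closedBall_zero_iff.2 hξ⟩⟩

lemma intL {H : E × E → ℝ} (hH : Continuous H) : Integrable H (liouville Ω) := by
  have := fin h
  obtain ⟨M, hM⟩ := bnd h hH
  rw [liouville, circle_eq]
  refine Integrable.of_bound hH.aestronglyMeasurable M ?_
  rw [Measure.ae_prod_iff_ae_ae (measurableSet_le (by fun_prop) measurable_const)]
  filter_upwards [ae_restrict_mem h.op.measurableSet] with x hx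
  filter_upwards [ae_om_norm] with ξ hξ
  exact hM x hx ξ hξ.le

lemma polarL {H : E × E → ℝ} (hH : Continuous H) {R : ℝ} (hR : 0 ≤ R) :
    IntegrableOn (fun η => ∫ x in Ω, H (x, dir η)) (closedBall (0 : E) R) ∧
    ∫ η in closedBall (0 : E) R, ∫ x in Ω, H (x, dir η) = π * R ^ 2 * ∫ p, H p ∂(liouville Ω) := by
  have := fin h
  obtain ⟨M, hM⟩ := bnd h hH
  have m : Measurable fun ξ => ∫ x in Ω, H (x, ξ) :=
    (hH.stronglyMeasurable.integral_prod_left' (μ := volume.restrict Ω)).measurable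
  refine ⟨Measure.integrableOn_of_bounded (M := M * volume.real Ω) measure_closedBall_lt_top.ne
    (m.comp measurable_dir).aestronglyMeasurable (Eventually.of_forall fun η => ?_), ?_⟩
  · exact norm_setIntegral_le_of_norm_le_const h.bd.measure_lt_top
      fun x hx => hM x hx _ (norm_dir η)
  · have i := intL h hH
    rw [liouville, circle_eq] at i ⊢
    rw [polar m hR, integral_prod_symm _ i]

lemma sol {K : Set E} (hK : IsCompact K) (hKO : K ⊆ Ω) :
    ∃ O χ, IsOpen O ∧ IsTest Ω χ ∧ K ⊆ O ∧ (∀ x, 0 ≤ χ x ∧ χ x ≤ 1) ∧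
      (∀ n, ∀ x ∈ O, χ x * u n x = Ω.indicator (u n) x) ∧
      (∀ n, ∫ x, (χ x * u n x) ^ 2 ≤ volume.real Ω) ∧
      Sol O (kk lam) (fun n x => χ x * u n x) := by
  obtain ⟨L, hL, h1, h2⟩ := exists_compact_between hK h.op hKO
  obtain ⟨χ, hχ, h3, h4⟩ := exists_test h.op hL h2
  have e : ∀ n, ∀ x ∈ interior L, χ x * u n x = u n x := fun n x hx => by
    rw [h3 x (interior_subset hx), one_mul]
  have s := fun n => sm_mul_on h.op (h.db.smooth n) hχ
  have l2 : ∀ n, ∫ x, (χ x * u n x) ^ 2 ≤ volume.real Ω := fun n => by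
    rw [← h.mass n]
    refine integral_mono (s n).sq.integrable (h.memLp n).integrable_sq fun x => ?_
    by_cases hx : x ∈ Ω
    · simp only [Set.indicator_of_mem hx, mul_pow]
      exact mul_le_of_le_one_left (sq_nonneg _) (pow_le_one₀ (h4 x).1 (h4 x).2)
    · simp [hx, image_eq_zero_of_notMem_tsupport (mt (fun h => hχ.2.2 h) hx)]
  refine ⟨interior L, χ, isOpen_interior, hχ, h1, h4, fun n x hx => ?_, l2, s,
    ⟨_, Eventually.of_forall l2⟩, fun K' _ hK' => ?_⟩
  · rw [e n x hx, Set.indicator_of_mem (h2 (interior_subset hx))]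
  · filter_upwards [h.db.tend.eventually_ge_atTop 0] with n hn x hx
    have e1 : (fun x => χ x * u n x) =ᶠ[𝓝 x] u n :=
      (isOpen_interior.eventually_mem (hK' hx)).mono (e n)
    have e2 : (2 * π * kk lam n) ^ 2 = lam n := by
      rw [kk, mul_div_cancel₀ _ (by positivity), Real.sq_sqrt hn]
    rw [← lap_eq (s n), (InnerProductSpace.laplacian_congr_nhds e1).eq_of_nhds, e2,
      e n x (hK' hx)]
    linarith [h.db.helm n x (h2 (interior_subset (hK' hx)))]

omit h in
lemma int_pair {f g : E → ℝ} (hf : Sm f) (hg : Sm g) {σ : E → ℂ} (hσ : Measurable σ)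
    (h1 : ∀ ξ, ‖σ ξ‖ ≤ 1) : Integrable fun ξ => FT f ξ * (σ ξ * FT g (-ξ)) :=
  hf.integrable_FT.mul_bdd (c := 1 * ∫ x, |g x|)
    (hσ.mul (hg.continuous_FT.measurable.comp measurable_neg)).aestronglyMeasurable
    (Eventually.of_forall fun ξ => (norm_mul_le _ _).trans
      (mul_le_mul (h1 ξ) (norm_FT_le _ _) (norm_nonneg _) zero_le_one))

lemma single {O : Set E} (hO : IsOpen O) {V : ℕ → E → ℝ}
    (e : ∀ n, ∀ x ∈ O, V n x = Ω.indicator (u n) x) (l2 : ∀ n, ∫ x, V n x ^ 2 ≤ volume.real Ω)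
    (hV : Sol O (kk lam) V) {a : E → ℝ} (ha : IsTest O a) (v : E) :
    Tendsto (fun n => (cr Ω u lam a v n : ℂ) - ∫ η in closedBall (0 : E) (2 * kk lam n),
      FT (V n) η * (ex ⟪dir η, v⟫ * FT (fun x => a x * V n x) (-η))) atTop (𝓝 0) := by
  have hk := tendsto_kk h.db.tend
  obtain ⟨C, hC⟩ := hV.wb hk 1 a ha
  obtain ⟨K, -, hKO, hev⟩ := ev_shift hO ha.2.1 ha.2.2
  have t := (hk.const_div_atTop (‖v‖ + 1)).mul_const (volume.real Ω + C)
  rw [zero_mul] at t
  refine squeeze_zero_norm' ?_ t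
  filter_upwards [hC, (tendsto_hv h.db.tend v).eventually hev, hk.eventually_gt_atTop 0]
    with n wb sh k0
  have s1 := hV.sm n
  have s2 := ha.sm.mul s1
  have e1 : (cr Ω u lam a v n : ℂ) =
      ∫ η, FT (V n) η * (ex ⟪η, (kk lam n)⁻¹ • v⟫ * FT (fun x => a x * V n x) (-η)) := by
    have := (s1.shift ((√(lam n))⁻¹ • v)).FT_pair s2
    rw [← mo_FT] at this
    simp only [mo, mul_assoc] at this
    simp only [mul_left_comm (FT (V n) _)]
    rw [this, cr]
    congr 2
    ext z
    by_cases hz : z ∈ tsupport a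
    · rw [e n _ (ha.2.2 hz), e n _ (hKO (sh z hz))]; ring
    · rw [image_eq_zero_of_notMem_tsupport hz]; ring
  have e2 : ∫ η in closedBall (0 : E) (2 * kk lam n),
      FT (V n) η * (ex ⟪dir η, v⟫ * FT (fun x => a x * V n x) (-η)) = ∫ η, FT (V n) η *
      ((closedBall (0 : E) (2 * kk lam n)).indicator (fun ξ => ex ⟪dir ξ, v⟫) η *
        FT (fun x => a x * V n x) (-η)) := by
    rw [← integral_indicator measurableSet_closedBall]
    congr 1
    ext η
    by_cases hη : η ∈ closedBall (0 : E) (2 * kk lam n)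
    · simp only [Set.indicator_of_mem hη]
    · simp only [Set.indicator_of_notMem hη, zero_mul, mul_zero]
  have i1 := s1.integrable_sq_FT
  have i2 := wb.int.comp_neg
  have i3 : Integrable fun η => ‖FT (V n) η‖ ^ 2 +
    ((1 + dd (kk lam n) (-η)) ^ 1 * ‖FT (fun x => a x * V n x) (-η)‖) ^ 2 := i1.add i2
  have c0 : 0 ≤ (‖v‖ + 1) / kk lam n := by positivity
  rw [e1, e2, ← integral_sub (int_pair s1 s2 (by fun_prop) fun _ => (norm_ex _).le)
    (int_pair s1 s2 (Measurable.indicator (by fun_prop) measurableSet_closedBall) fun _ =>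
      (norm_indicator_le_norm_self _ _).trans (norm_ex _).le)]
  refine (norm_integral_le_of_norm_le (i3.const_mul ((‖v‖ + 1) / kk lam n))
    (Eventually.of_forall fun η => ?_)).trans ?_
  · rw [← mul_sub, ← sub_mul, norm_mul, norm_mul, dd_neg, pow_one]
    refine (mul_le_mul_of_nonneg_left (mul_le_mul_of_nonneg_right (sym_le k0 v η)
      (norm_nonneg _)) (norm_nonneg _)).trans ?_
    rw [mul_assoc, mul_left_comm]
    refine mul_le_mul_of_nonneg_left ?_ c0
    generalize (1 + dd (kk lam n) η) * ‖FT (fun x => a x * V n x) (-η)‖ = y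
    nlinarith [sq_nonneg (‖FT (V n) η‖ - y), sq_nonneg y, sq_nonneg ‖FT (V n) η‖]
  · rw [integral_const_mul, integral_add i1 i2, s1.plancherel, integral_neg_eq_self
      (fun η => ((1 + dd (kk lam n) η) ^ 1 * ‖FT (fun x => a x * V n x) η‖) ^ 2)]
    exact mul_le_mul_of_nonneg_left (add_le_add (l2 n) wb.l2) c0

lemma tests {C : ℝ} (hw : ∀ᶠ N : ℕ in atTop, lam N ≤ C * N) {ι : Type} (s : Finset ι)
    (c : ι → ℂ) {a : ι → E → ℝ} (v : ι → E) (ha : ∀ i, IsTest Ω (a i)) {ε : ℝ} (hε : 0 < ε) :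
    ∀ᶠ N : ℕ in atTop,
      ∑ n ∈ Finset.range N, ‖∑ i ∈ s, c i * (cr Ω u lam (a i) (v i) n : ℂ)‖ ^ 2 ≤
        (2 * volume.real Ω ^ 2 * C * (∫ p, ‖∑ i ∈ s, c i * ((a i p.1 : ℂ) * ex ⟪p.2, v i⟫)‖ ^ 2
          ∂(liouville Ω)) + ε) * N := by
  have hA := h.vol
  have ca := fun i => (ha i).sm.continuous
  obtain ⟨O, χ, hO, hχ, hKO, h01, e, l2, hV⟩ := sol h (K := ⋃ i ∈ s, tsupport (a i))
    (s.isCompact_biUnion fun i _ => (ha i).2.1) (Set.iUnion₂_subset fun i _ => (ha i).2.2)
  have cχ := hχ.sm.continuous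
  have s2 := fun i n => (ha i).sm.mul (hV.sm n)
  set Ψ : ℕ → E → ℂ := fun n η =>
    ∑ i ∈ s, c i * (ex ⟪dir η, v i⟫ * FT (fun x => a i x * (χ x * u n x)) (-η)) with hΨ
  have fb : ∀ R, IsFiniteMeasure (volume.restrict (closedBall (0 : E) R)) := fun R =>
    isFiniteMeasure_restrict.2 measure_closedBall_lt_top.ne
  have mΨ : ∀ n R, MemLp (fun η => ‖Ψ n η‖) 2 (volume.restrict (closedBall (0 : E) R)) := by
    intro n R
    refine MemLp.norm (memLp_finsetSum s fun i _ => MemLp.const_mul (MemLp.of_bound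
      (Measurable.aestronglyMeasurable (Measurable.mul (by fun_prop)
        ((s2 i n).continuous_FT.measurable.comp measurable_neg)))
      (∫ x, |a i x * (χ x * u n x)|) (Eventually.of_forall fun η => ?_)) _)
    rw [Pi.mul_apply, norm_mul, norm_ex, one_mul]
    exact norm_FT_le _ _
  have t := (tendsto_finsetSum s fun i hi => (single h hO e l2 hV (a := a i) ⟨(ha i).1, (ha i).2.1,
    (Set.subset_biUnion_of_mem (u := fun i => tsupport (a i)) hi).trans hKO⟩
      (v i)).const_mul (c i)).norm.pow 2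
  simp only [mul_zero, Finset.sum_const_zero, norm_zero, zero_pow two_ne_zero] at t
  have ev : ∀ᶠ n in atTop, ‖∑ i ∈ s, c i * (cr Ω u lam (a i) (v i) n : ℂ)‖ ^ 2 ≤
      2 * volume.real Ω * (∫ η in closedBall (0 : E) (2 * kk lam n), ‖Ψ n η‖ ^ 2) + ε / 2 := by
    filter_upwards [t.eventually (gt_mem_nhds (show 0 < ε / 4 by positivity))] with n hn
    have s1 := hV.sm n
    simp only [mul_sub, Finset.sum_sub_distrib, ← integral_const_mul] at hn
    rw [← integral_finsetSum s fun i _ => ((int_pair s1 (s2 i n) (by fun_prop)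
      fun _ => (norm_ex _).le).const_mul (c i)).integrableOn] at hn
    simp only [mul_left_comm (c _) (FT (fun x => χ x * u n x) _), ← Finset.mul_sum] at hn
    have m1 : MemLp (fun η => ‖FT (fun x => χ x * u n x) η‖) 2
        (volume.restrict (closedBall (0 : E) (2 * kk lam n))) :=
      (MemLp.of_bound s1.continuous_FT.aestronglyMeasurable _
        (Eventually.of_forall (norm_FT_le _))).norm
    have b1 := cs_sq m1 (mΨ n _)
    have b2 : ∫ η in closedBall (0 : E) (2 * kk lam n), ‖FT (fun x => χ x * u n x) η‖ ^ 2 ≤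
        volume.real Ω := (setIntegral_le_integral s1.integrable_sq_FT
      (Eventually.of_forall fun _ => sq_nonneg _)).trans (s1.plancherel.le.trans (l2 n))
    have b3 := b1.trans (mul_le_mul_of_nonneg_right b2 (integral_nonneg fun _ => sq_nonneg _))
    have b4 := pow_le_pow_left₀ (norm_nonneg _) (norm_integral_le_integral_norm
      (μ := volume.restrict (closedBall (0 : E) (2 * kk lam n)))
      fun η => FT (fun x => χ x * u n x) η * Ψ n η) 2
    simp only [abs_norm, ← norm_mul] at b3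
    have b5 := sq_le2 (∑ i ∈ s, c i * (cr Ω u lam (a i) (v i) n : ℂ))
      (∫ η in closedBall (0 : E) (2 * kk lam n), FT (fun x => χ x * u n x) η * Ψ n η)
    have hn' : ‖∑ i ∈ s, c i * (cr Ω u lam (a i) (v i) n : ℂ) -
      ∫ η in closedBall (0 : E) (2 * kk lam n), FT (fun x => χ x * u n x) η * Ψ n η‖ ^ 2 < ε / 4 :=
      hn
    linarith
  have cH : Continuous fun p : E × E => ‖∑ i ∈ s, c i * ((a i p.1 : ℂ) * ex ⟪p.2, v i⟫)‖ ^ 2 := by
    fun_prop
  have bes : ∀ N η, ∑ n ∈ Finset.range N, ‖Ψ n η‖ ^ 2 ≤ volume.real Ω *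
      ∫ x in Ω, ‖∑ i ∈ s, c i * ((a i x : ℂ) * ex ⟪dir η, v i⟫)‖ ^ 2 := by
    intro N η
    have := fin h
    have b := bessel h (g := fun x => ex (-2 * π * ⟪x, -η⟫) * (χ x *
      ∑ i ∈ s, c i * ((a i x : ℂ) * ex ⟪dir η, v i⟫))) (by fun_prop) (Finset.range N)
    refine le_trans (le_of_eq (Finset.sum_congr rfl fun n _ => ?_)) (b.trans
      (mul_le_mul_of_nonneg_left (integral_mono_of_nonneg (Eventually.of_forall fun _ => sq_nonneg _)
        (mem2 h (by fun_prop)).integrable_sq (Eventually.of_forall fun x => ?_)) hA.le))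
    · simp only [hΨ, FT_eq, ← integral_const_mul]
      have j : ∀ i, Integrable fun x =>
          ex (-2 * π * ⟪x, -η⟫) * ((a i x * (χ x * u n x) : ℝ) : ℂ) := fun i =>
        ((s2 i n).integrable.ofReal (𝕜 := ℂ)).bdd_mul (c := 1)
          (by fun_prop) (Eventually.of_forall fun x => (norm_ex _).le)
      rw [← integral_finsetSum s fun i _ => ((j i).const_mul _).const_mul _,
        setIntegral_eq_integral_of_forall_compl_eq_zero fun x hx => by
          simp [image_eq_zero_of_notMem_tsupport (mt (fun h => hχ.2.2 h) hx)]]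
      congr 3
      ext x
      simp only [Finset.mul_sum, Finset.sum_mul]
      refine Finset.sum_congr rfl fun i _ => ?_
      push_cast
      ring
    · simp only [norm_mul, norm_ex, one_mul, Complex.norm_real, Real.norm_of_nonneg (h01 x).1]
      exact pow_le_pow_left₀ (mul_nonneg (h01 x).1 (norm_nonneg _))
        (mul_le_of_le_one_left (norm_nonneg _) (h01 x).2) 2
  filter_upwards [avg_of_ev (half_pos hε) ev, hw, h.db.tend.eventually_ge_atTop 0] with N h1 h2 h3
  have k0 : 0 ≤ 2 * kk lam N := by unfold kk; positivity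
  obtain ⟨p1, p2⟩ := polarL h cH k0
  have q1 : ∑ n ∈ Finset.range N, ∫ η in closedBall (0 : E) (2 * kk lam n), ‖Ψ n η‖ ^ 2 ≤
      ∑ n ∈ Finset.range N, ∫ η in closedBall (0 : E) (2 * kk lam N), ‖Ψ n η‖ ^ 2 := by
    refine Finset.sum_le_sum fun n hn => setIntegral_mono_set (mΨ n _).integrable_sq
      (Eventually.of_forall fun _ => sq_nonneg _) (closedBall_subset_closedBall ?_).eventuallyLE
    have := h.db.mono (Finset.mem_range.1 hn).le
    unfold kk
    gcongr
  rw [← integral_finsetSum _ fun n _ => (mΨ n _).integrable_sq] at q1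
  have q2 := q1.trans (integral_mono (integrable_finsetSum _ fun n _ => (mΨ n _).integrable_sq)
    (p1.const_mul _) (bes N))
  rw [integral_const_mul, p2] at q2
  have q3 : π * (2 * kk lam N) ^ 2 ≤ C * N := by
    refine le_trans ?_ h2
    rw [kk, mul_div_assoc', mul_div_mul_left _ _ two_ne_zero, div_pow, Real.sq_sqrt h3,
      mul_div_assoc', div_le_iff₀ (by positivity)]
    nlinarith [mul_nonneg h3 Real.pi_pos.le, Real.pi_gt_three]
  have q4 := mul_le_mul_of_nonneg_left (q2.trans (mul_le_mul_of_nonneg_left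
    (mul_le_mul_of_nonneg_right q3 (integral_nonneg fun _ => sq_nonneg _)) hA.le))
    (show 0 ≤ 2 * volume.real Ω by positivity)
  rw [Finset.sum_add_distrib, ← Finset.mul_sum, Finset.sum_const, Finset.card_range,
    nsmul_eq_mul] at h1
  linarith

end W2

theorem w2 : S_W2 := by
  intro Ω u lam h
  obtain ⟨C, hw⟩ := h.weyl
  have hA := h.vol
  have hw' : ∀ᶠ N : ℕ in atTop, lam N ≤ |C| * N := hw.mono fun N hN =>
    hN.trans (mul_le_mul_of_nonneg_right (le_abs_self C) N.cast_nonneg)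
  refine ⟨2 * (2 * volume.real Ω ^ 2 * |C|), fun ι s c a v ha ε hε => ?_⟩
  have ca := fun i => (ha i).continuous
  choose B hB0 hB using fun i => h.bound (ca i)
  obtain ⟨δ, hδ, hd⟩ := eps_mul (A := (∑ i ∈ s, ‖c i‖ * B i) ^ 2 * volume.real Ω)
    (show 0 < ε / 4 by positivity)
  obtain ⟨K, hK, hKO, hev⟩ := h.esc δ hδ
  obtain ⟨χ, hχ, h1, h01⟩ := exists_test h.op hK hKO
  have cχ := hχ.sm.continuous
  filter_upwards [hev, W2.tests h hw' s c v (fun i => hχ.mul_left (ha i))
    (show 0 < ε / 4 by positivity)] with N e1 e2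
  have m : ∫ p, ‖∑ i ∈ s, c i * (((a i p.1 * χ p.1 : ℝ) : ℂ) * ex ⟪p.2, v i⟫)‖ ^ 2 ∂(liouville Ω) ≤
      ∫ p, ‖∑ i ∈ s, c i * ((a i p.1 : ℂ) * ex ⟪p.2, v i⟫)‖ ^ 2 ∂(liouville Ω) := by
    refine integral_mono_of_nonneg (Eventually.of_forall fun _ => sq_nonneg _)
      (W2.intL h (by fun_prop)) (Eventually.of_forall fun p => ?_)
    have : ∑ i ∈ s, c i * (((a i p.1 * χ p.1 : ℝ) : ℂ) * ex ⟪p.2, v i⟫) =
        χ p.1 * ∑ i ∈ s, c i * ((a i p.1 : ℂ) * ex ⟪p.2, v i⟫) := by
      rw [Finset.mul_sum]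
      refine Finset.sum_congr rfl fun i _ => ?_
      push_cast
      ring
    simp only [this, norm_mul, Complex.norm_real, Real.norm_of_nonneg (h01 p.1).1]
    exact pow_le_pow_left₀ (mul_nonneg (h01 _).1 (norm_nonneg _))
      (mul_le_of_le_one_left (norm_nonneg _) (h01 _).2) 2
  have r : ∀ n, ‖∑ i ∈ s, c i * (cr Ω u lam (a i) (v i) n : ℂ) -
      ∑ i ∈ s, c i * (cr Ω u lam (fun x => a i x * χ x) (v i) n : ℂ)‖ ^ 2 ≤
      (∑ i ∈ s, ‖c i‖ * B i) ^ 2 * volume.real Ω * ∫ x in Ω \ K, u n x ^ 2 := by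
    intro n
    have z : 0 ≤ (∫ x in Ω \ K, u n x ^ 2) * volume.real Ω :=
      mul_nonneg (integral_nonneg fun _ => sq_nonneg _) hA.le
    rw [mul_assoc, mul_comm (volume.real Ω), ← Real.sq_sqrt z, ← mul_pow, ← Finset.sum_sub_distrib,
      Finset.sum_mul]
    refine pow_le_pow_left₀ (norm_nonneg _) (norm_sum_le_of_le _ fun i _ => ?_) 2
    rw [← mul_sub, ← Complex.ofReal_sub, h.cr_sub (b := fun x => a i x * χ x) (ca i) (by fun_prop),
      norm_mul, mul_assoc, Complex.norm_real]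
    refine mul_le_mul_of_nonneg_left (abs_le_of_sq_le_sq ?_
      (mul_nonneg (hB0 i) (Real.sqrt_nonneg _))) (norm_nonneg _)
    rw [mul_pow, Real.sq_sqrt z]
    refine h.cr_sq_le (fun x hx => le_trans ?_ (hB i x hx)) hK.measurableSet
      (fun x hx => by simp [h1 x hx]) _ _
    rw [← mul_one_sub, abs_mul, abs_of_nonneg (sub_nonneg.2 (h01 x).2)]
    exact mul_le_of_le_one_right (abs_nonneg _) (by linarith [(h01 x).1])
  have r2 := Finset.sum_le_sum fun n (_ : n ∈ Finset.range N) => (W2.sq_le2 _ _).trans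
    (add_le_add_right (mul_le_mul_of_nonneg_left (r n) zero_le_two) _)
  rw [Finset.sum_add_distrib, ← Finset.mul_sum, ← Finset.mul_sum, ← Finset.mul_sum] at r2
  have r3 := mul_le_mul_of_nonneg_left e1
    (show 0 ≤ (∑ i ∈ s, ‖c i‖ * B i) ^ 2 * volume.real Ω by positivity)
  have r4 := mul_le_mul_of_nonneg_right (hd _ le_rfl) N.cast_nonneg
  have r5 := mul_le_mul_of_nonneg_right (mul_le_mul_of_nonneg_left m
    (show 0 ≤ 2 * volume.real Ω ^ 2 * |C| by positivity)) (N.cast_nonneg (α := ℝ))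
  linarith

end

end Pool.Agent.P.MP_6b977f_mp
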