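import Pool.Agent.P.MP_6b977f_mp.QK4
import Pool.Agent.P.MP_6b977f_mp.QW2

/-!
Limits of weighted averages and their density in phase space.
-/

namespace Pool.Agent.P.MP_6b977f_mp

open Real MeasureTheory Filter Topology Laplacian BoundedContinuousFunction
open scoped RealInnerProductSpace ContDiff

noncomputable section

open Classical in
/-- a bounded sequence as an element of a Banach space -/
def bs (q : ℕ → ℝ) : ℕ →ᵇ ℝ :=
  if h : ∃ C, ∀ n, ‖q n‖ ≤ C then ofNormedAddCommGroupDiscrete q h.choose h.choose_spec else 0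

lemma bs_apply {q : ℕ → ℝ} {C : ℝ} (h : ∀ n, |q n| ≤ C) (n : ℕ) : bs q n = q n := by
  rw [bs, dif_pos ⟨C, h⟩]
  rfl

/-- `Λ` is the limit along `𝒰` of the averages weighted by `p` -/
def IsLim (𝒰 : Ultrafilter ℕ) (p : ℕ →ᵇ ℝ) (Λ : (ℕ →ᵇ ℝ) →L[ℝ] ℝ) : Prop :=
  ∀ q, Tendsto (fun N : ℕ => (N : ℝ)⁻¹ * ∑ n ∈ Finset.range N, q n * p n) 𝒰 (𝓝 (Λ q))

lemma avg_le (p : ℕ →ᵇ ℝ) (q : ℕ → ℝ) {N : ℕ} {ε : ℝ} (hε : 0 ≤ ε)
    (h : ∑ n ∈ Finset.range N, |q n| ≤ ε * N) :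
    |(N : ℝ)⁻¹ * ∑ n ∈ Finset.range N, q n * p n| ≤ ‖p‖ * ε := by
  have h1 : |∑ n ∈ Finset.range N, q n * p n| ≤ ‖p‖ * (ε * N) := by
    refine (Finset.abs_sum_le_sum_abs _ _).trans (le_trans ?_
      (mul_le_mul_of_nonneg_left h (norm_nonneg _)))
    rw [Finset.mul_sum]
    refine Finset.sum_le_sum fun n _ => ?_
    rw [abs_mul, mul_comm]
    exact mul_le_mul_of_nonneg_right (p.norm_coe_le_norm n) (abs_nonneg _)
  rw [abs_mul, abs_inv, Nat.abs_cast]
  rcases Nat.eq_zero_or_pos N with rfl | hN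
  · simp only [Nat.cast_zero, inv_zero, zero_mul]
    positivity
  · rw [inv_mul_le_iff₀ (by positivity)]
    linarith

lemma exists_lim (𝒰 : Ultrafilter ℕ) (p : ℕ →ᵇ ℝ) : ∃ Λ, IsLim 𝒰 p Λ := by
  have hb : ∀ (q : ℕ →ᵇ ℝ) (N : ℕ), |(N : ℝ)⁻¹ * ∑ n ∈ Finset.range N, q n * p n| ≤ ‖p‖ * ‖q‖ :=
    fun q N => avg_le p q (norm_nonneg _) (by
      simpa [mul_comm] using Finset.sum_le_card_nsmul (Finset.range N) (fun n => |q n|) ‖q‖
        fun n _ => q.norm_coe_le_norm n)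
  have : ∀ q : ℕ →ᵇ ℝ, ∃ x ∈ Set.Icc (-(‖p‖ * ‖q‖)) (‖p‖ * ‖q‖), Tendsto
      (fun N : ℕ => (N : ℝ)⁻¹ * ∑ n ∈ Finset.range N, q n * p n) 𝒰 (𝓝 x) := fun q =>
    isCompact_Icc.ultrafilter_le_nhds' (𝒰.map _) (mem_map.2 (univ_mem' fun N => abs_le.1 (hb q N)))
  choose Λ h1 h2 using this
  refine ⟨LinearMap.mkContinuous ⟨⟨Λ, fun a b => tendsto_nhds_unique (h2 _) ?_⟩,
    fun c a => tendsto_nhds_unique (h2 _) ?_⟩ ‖p‖ fun q => abs_le.2 (h1 q), h2⟩
  · simpa [add_mul, Finset.sum_add_distrib, mul_add] using (h2 a).add (h2 b)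
  · simpa [Finset.mul_sum, mul_assoc, mul_left_comm c] using (h2 a).const_mul c

lemma IsLim.small {𝒰 : Ultrafilter ℕ} (hU : (𝒰 : Filter ℕ) ≤ atTop) {p : ℕ →ᵇ ℝ}
    {Λ : (ℕ →ᵇ ℝ) →L[ℝ] ℝ} (h : IsLim 𝒰 p Λ) {q : ℕ →ᵇ ℝ} (hq : Small q) : Λ q = 0 := by
  refine abs_nonpos_iff.1 (le_of_forall_pos_le_add fun ε hε => ?_)
  obtain ⟨e, he, he'⟩ := eps_mul (A := ‖p‖) hε
  refine le_of_tendsto (h q).abs (((hq e he).filter_mono hU).mono fun N hN => ?_)
  linarith [avg_le p q he.le hN, he' _ le_rfl]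

abbrev SI : Type := {a : E → ℝ // ContDiff ℝ ∞ a} × E

namespace Ctx

variable {Ω : Set E} {u : ℕ → E → ℝ} {lam : ℕ → ℝ} (h : Ctx Ω u lam)
include h

lemma bs_cr {a : E → ℝ} (ha : Continuous a) (v : E) (n : ℕ) :
    bs (cr Ω u lam a v) n = cr Ω u lam a v n := by
  obtain ⟨B, -, hB⟩ := h.bound ha
  exact bs_apply (h.cr_le ha hB v) n

lemma finL : IsFiniteMeasure (liouville Ω) := by
  have := W2.fin h
  rw [liouville, circle_eq]
  infer_instance

lemma aeL : ∀ᵐ p ∂(liouville Ω), p ∈ closure Ω ×ˢ Metric.closedBall (0 : E) 1 := by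
  rw [liouville, circle_eq]
  refine (Measure.ae_prod_iff_ae_ae
    (isClosed_closure.prod Metric.isClosed_closedBall).measurableSet).2 ?_
  filter_upwards [ae_restrict_mem h.op.measurableSet] with x hx
  filter_upwards [ae_om_norm] with ξ hξ
  exact ⟨subset_closure hx, by simp [hξ]⟩

lemma bdL {G : Type} [NormedAddCommGroup G] {g : E × E → G} (hg : Continuous g) :
    ∃ B, ∀ᵐ p ∂(liouville Ω), ‖g p‖ ≤ B := by
  obtain ⟨B, hB⟩ := (h.bd.isCompact_closure.prod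
    (isCompact_closedBall (0 : E) 1)).exists_bound_of_continuousOn hg.continuousOn
  exact ⟨B, h.aeL.mono hB⟩

lemma density {𝒰 : Ultrafilter ℕ} (hU : (𝒰 : Filter ℕ) ≤ atTop) {p : ℕ →ᵇ ℝ}
    {Λ : (ℕ →ᵇ ℝ) →L[ℝ] ℝ} (hΛ : IsLim 𝒰 p Λ) : ∃ f : E × E → ℂ, Integrable f (liouville Ω) ∧
      ∀ a, ContDiff ℝ ∞ a → ∀ v, (Λ (bs (cr Ω u lam a v)) : ℂ) =
        ∫ q, f q * ((a q.1 : ℂ) * ex ⟪q.2, v⟫) ∂(liouville Ω) := by
  have := h.finL
  obtain ⟨C, hC⟩ := w2 Ω u lam h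
  have mem : ∀ i : SI, MemLp (fun q : E × E => (i.1.1 q.1 : ℂ) * ex ⟪q.2, i.2⟫) 2 (liouville Ω) := by
    intro i
    have hc : Continuous fun q : E × E => (i.1.1 q.1 : ℂ) * ex ⟪q.2, i.2⟫ := by
      have := i.1.2.continuous
      fun_prop
    obtain ⟨B, hB⟩ := h.bdL hc
    exact MemLp.of_bound hc.aestronglyMeasurable B hB
  let e : (SI →₀ ℂ) →ₗ[ℂ] Lp ℂ 2 (liouville Ω) :=
    Finsupp.linearCombination ℂ fun i => (mem i).toLp _
  let T : (SI →₀ ℂ) →ₗ[ℂ] ℂ :=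
    Finsupp.linearCombination ℂ fun i => (Λ (bs (cr Ω u lam i.1.1 i.2)) : ℂ)
  have hb : ∀ x, ‖T x‖ ≤ ‖p‖ * √|C| * ‖e x‖ := by
    intro x
    set I := ∫ q, ‖∑ i ∈ x.support, x i * ((i.1.1 q.1 : ℂ) * ex ⟪q.2, i.2⟫)‖ ^ 2 ∂(liouville Ω)
      with hI
    have e1 : ‖e x‖ ^ 2 = I := by
      rw [@norm_sq_eq_re_inner ℂ, L2.inner_def, ← integral_re (L2.integrable_inner _ _)]
      refine integral_congr_ae ?_
      have a1 := Lp.coeFn_finsetSum x.support fun i => x i • (mem i).toLp _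
      have a2 : ∀ᵐ q ∂(liouville Ω), ∀ i ∈ x.support, (x i • (mem i).toLp _) q =
          x i * ((i.1.1 q.1 : ℂ) * ex ⟪q.2, i.2⟫) := by
        rw [Filter.eventually_all_finset]
        intro i _
        filter_upwards [Lp.coeFn_smul (x i) ((mem i).toLp _), (mem i).coeFn_toLp] with q b1 b2
        rw [b1, Pi.smul_apply, b2, smul_eq_mul]
      filter_upwards [a1, a2] with q b1 b2
      rw [← @norm_sq_eq_re_inner ℂ, ← Finset.sum_congr rfl b2, ← Finset.sum_apply, ← b1]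
      rfl
    have t : Tendsto (fun N : ℕ => ((N : ℝ)⁻¹ : ℂ) * ∑ n ∈ Finset.range N,
        (∑ i ∈ x.support, x i * (cr Ω u lam i.1.1 i.2 n : ℂ)) * p n) 𝒰 (𝓝 (T x)) := by
      refine (tendsto_finsetSum x.support fun i _ => ((Complex.continuous_ofReal.tendsto _).comp
        (hΛ (bs (cr Ω u lam i.1.1 i.2)))).const_mul (x i)).congr fun N => ?_
      simp only [Function.comp, fun i : SI => h.bs_cr i.1.2.continuous i.2,
        Finset.sum_mul, Finset.mul_sum, Complex.ofReal_sum]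
      rw [Finset.sum_comm]
      refine Finset.sum_congr rfl fun _ _ => Finset.sum_congr rfl fun _ _ => ?_
      push_cast
      ring
    have hI0 : 0 ≤ I := e1 ▸ sq_nonneg _
    refine (abs_le_of_sq_le_sq' ?_ (by positivity)).2
    rw [mul_pow, mul_pow, Real.sq_sqrt (abs_nonneg _), e1]
    refine le_of_forall_pos_le_add fun ε hε => ?_
    obtain ⟨δ, hδ, hδ'⟩ := eps_mul (A := ‖p‖ ^ 2) hε
    refine le_of_tendsto (t.norm.pow 2) ?_
    filter_upwards [(hC SI x.support x (fun i => i.1.1) (fun i => i.2) (fun i => i.1.2) δ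
      hδ).filter_mono hU, (eventually_gt_atTop 0).filter_mono hU] with N b1 b2
    have hN : (0 : ℝ) < N := by positivity
    generalize hS : (fun n => ∑ i ∈ x.support, x i * (cr Ω u lam i.1.1 i.2 n : ℂ)) = S
    simp only [congrFun hS] at b1 ⊢
    have b3 : ‖∑ n ∈ Finset.range N, S n * p n‖ ≤ ‖p‖ * ∑ n ∈ Finset.range N, ‖S n‖ := by
      rw [Finset.mul_sum]
      refine norm_sum_le_of_le _ fun n _ => ?_
      rw [norm_mul, mul_comm, Complex.norm_real]
      exact mul_le_mul_of_nonneg_right (p.norm_coe_le_norm n) (norm_nonneg _)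
    have b4 := sq_sum_le_card_mul_sum_sq (s := Finset.range N) (f := fun n => ‖S n‖)
    rw [Finset.card_range] at b4
    have b5 := (pow_le_pow_left₀ (norm_nonneg _) b3 2).trans ((mul_pow _ _ _).le.trans
      (mul_le_mul_of_nonneg_left (b4.trans (mul_le_mul_of_nonneg_left b1 hN.le)) (sq_nonneg _)))
    rw [norm_mul, mul_pow, norm_inv, Complex.norm_real, Real.norm_of_nonneg hN.le, inv_pow,
      inv_mul_le_iff₀ (by positivity)]
    refine b5.trans ?_
    have b6 := mul_le_mul_of_nonneg_left (mul_le_mul_of_nonneg_right (le_abs_self C) hI0)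
      (sq_nonneg ‖p‖)
    have := hδ' _ le_rfl
    calc _ = (N : ℝ) ^ 2 * (‖p‖ ^ 2 * (C * I) + δ * ‖p‖ ^ 2) := by ring
      _ ≤ _ := mul_le_mul_of_nonneg_left (by linarith) (sq_nonneg _)
  obtain ⟨g, hg, -⟩ := exists_extension_norm_eq (LinearMap.range e) (T.compLeftInverse e)
  set F := (InnerProductSpace.toDual ℂ _).symm g with hF
  refine ⟨fun q => (starRingEnd ℂ) (F q), Complex.conjCLE.toContinuousLinearMap.integrable_comp
    ((Lp.memLp F).integrable one_le_two), fun a ha v => ?_⟩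
  have a1 := (hg ⟨_, Finsupp.single (⟨a, ha⟩, v) 1, rfl⟩).trans
    (T.compLeftInverse_apply_of_bdd e ⟨_, hb⟩ _ _ rfl)
  simp only [e, T, Finsupp.linearCombination_single, one_smul] at a1
  rw [← a1, ← InnerProductSpace.toDual_symm_apply, L2.inner_def]
  refine integral_congr_ae ?_
  filter_upwards [(mem (⟨a, ha⟩, v)).coeFn_toLp] with q hq
  rw [hq, RCLike.inner_apply, mul_comm]

/-- the limit functional commutes with integration over the shift -/
lemma transport {𝒰 : Ultrafilter ℕ} (hU : (𝒰 : Filter ℕ) ≤ atTop) {p : ℕ →ᵇ ℝ}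
    {Λ : (ℕ →ᵇ ℝ) →L[ℝ] ℝ} (hΛ : IsLim 𝒰 p Λ) {γ : E × E → ℝ} (hγ : Continuous γ)
    (hs : HasCompactSupport γ) (hq : Small fun n => ∫ w, cr Ω u lam (fun x => γ (x, w)) w n) :
    ∫ w, Λ (bs (cr Ω u lam (fun x => γ (x, w)) w)) = 0 := by
  have c : ∀ w, Continuous fun x => γ (x, w) := fun w => by fun_prop
  obtain ⟨B, hB⟩ := hγ.bounded_above_of_compact_support hs
  have hB0 := (norm_nonneg _).trans (hB 0)
  have hA := h.vol
  have hc : Continuous fun w => bs (cr Ω u lam (fun x => γ (x, w)) w) := by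
    refine Metric.continuous_iff.2 fun w ε hε => ?_
    obtain ⟨e, he, he'⟩ := eps_mul (A := (1 + B) * volume.real Ω) (half_pos hε)
    obtain ⟨δ, hδ, hd⟩ := Metric.uniformContinuous_iff.1 (hs.uniformContinuous_of_continuous hγ) e he
    refine ⟨min δ e, lt_min hδ he, fun w' hw => lt_of_le_of_lt ?_ (half_lt_self hε)⟩
    refine (dist_le (half_pos hε).le).2 fun n => ?_
    rw [h.bs_cr (c _), h.bs_cr (c _), Real.dist_eq]
    refine (h.cr_lip (c w') (c w) (e := e) (B := B) (fun x _ => (hd (by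
      simpa using hw.trans_le (min_le_left _ _))).le) (fun x _ => hB _) w' w n).trans
      (le_trans ?_ (he' _ le_rfl))
    have := (hw.trans_le (min_le_right _ _)).le
    rw [dist_eq_norm] at this
    calc _ ≤ (e + B * e) * volume.real Ω := by gcongr
      _ = _ := by ring
  have i : Integrable fun w => bs (cr Ω u lam (fun x => γ (x, w)) w) := by
    refine hc.integrable_of_hasCompactSupport (HasCompactSupport.intro
      (hs.image continuous_snd) fun w hw => ?_)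
    ext n
    have : ∀ x, γ (x, w) = 0 := fun x =>
      image_eq_zero_of_notMem_tsupport fun h0 => hw ⟨_, h0, rfl⟩
    rw [h.bs_cr (c _)]
    simp [cr, this]
  rw [Λ.integral_comp_comm i]
  refine hΛ.small hU ?_
  convert hq using 2 with n
  rw [← evalCLM_apply (𝕜 := ℝ), ← ContinuousLinearMap.integral_comp_comm _ i]
  simp only [evalCLM_apply, h.bs_cr (c _)]

end Ctx

end

end Pool.Agent.P.MP_6b977f_mp
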