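import Pool.Agent.P.MP_6b977f_mp.QO1

/-!
From the transport identity for correlations to the weak transport equation in phase space.
-/

namespace Pool.Agent.P.MP_6b977f_mp

open Real MeasureTheory Filter Topology Laplacian Complex
open scoped RealInnerProductSpace ContDiff

noncomputable section

/-- a smooth family of orthogonal involutions -/
structure Refl (R : E × E → E) : Prop where
  sm : ContDiff ℝ ∞ R
  sym : ∀ x u v, ⟪R (x, u), v⟫ = ⟪u, R (x, v)⟫
  inv : ∀ x u, R (x, R (x, u)) = u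
  int : ∀ x (F : E → ℂ), ∫ w, F (R (x, w)) = ∫ w, F w

def bet (R : E × E → E) (a c : E → ℝ) (p : E × E) : ℝ := a p.1 * (c p.2 + c (R p))

def gg (R : E × E → E) (a : E → ℝ) (p : E × E) (w : E) : ℂ :=
  (fderiv ℝ a p.1 p.2 : ℝ) * (ex ⟪p.2, w⟫ + ex ⟪R p, w⟫) +
    a p.1 * (I * (⟪fderiv ℝ R p (p.2, 0), w⟫ : ℝ) * ex ⟪R p, w⟫)

lemma sm_ex : ContDiff ℝ ∞ ex := (ofRealCLM.contDiff.mul contDiff_const).cexp

lemma hasDerivAt_ex {f : ℝ → ℝ} {f' t : ℝ} (h : HasDerivAt f f' t) :
    HasDerivAt (fun t => ex (f t)) (I * f' * ex (f t)) t := by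
  have := (h.ofReal_comp.mul_const I).cexp
  rwa [show cexp (f t * I) * (f' * I) = I * f' * ex (f t) by unfold ex; ring] at this

lemma hd_line {V W : Type} [NormedAddCommGroup V] [NormedSpace ℝ V] [NormedAddCommGroup W]
    [NormedSpace ℝ W] {F : V → W} (hF : ContDiff ℝ ∞ F) (x v : V) :
    HasDerivAt (fun t : ℝ => F (x + t • v)) (fderiv ℝ F x v) 0 := by
  have := (hF.differentiable (by simp) (x + (0 : ℝ) • v)).hasFDerivAt.comp_hasDerivAt 0
    (((hasDerivAt_id (0 : ℝ)).smul_const v).const_add x)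
  simpa [Function.comp_def] using this

lemma hd_line' {W : Type} [NormedAddCommGroup W] [NormedSpace ℝ W] {F : E × E → W}
    (hF : ContDiff ℝ ∞ F) (x v w : E) :
    HasDerivAt (fun t : ℝ => F (x + t • v, w)) (fderiv ℝ F (x, w) (v, 0)) 0 := by
  simpa using hd_line hF (x, w) (v, 0)

lemma dui {Ψ : ℝ × E → ℂ} (hΨ : ContDiff ℝ ∞ Ψ) {M : ℝ} (hM : ∀ t w, M < ‖w‖ → Ψ (t, w) = 0)
    {D : E → ℂ} (hD : ∀ w, HasDerivAt (fun t => Ψ (t, w)) (D w) 0) :
    HasDerivAt (fun t => ∫ w, Ψ (t, w)) (∫ w, D w) 0 := by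
  have c0 := hΨ.continuous
  have c1 : Continuous fun q => fderiv ℝ Ψ q (1, 0) :=
    ((sm_fderiv hΨ).clm_apply contDiff_const).continuous
  have d : ∀ w t, HasDerivAt (fun t => Ψ (t, w)) (fderiv ℝ Ψ (t, w) (1, 0)) t := fun w t =>
    (hΨ.differentiable (by simp) _).hasFDerivAt.comp_hasDerivAt t
      ((hasDerivAt_id t).prodMk (hasDerivAt_const t w))
  obtain ⟨B, hB⟩ := ((isCompact_closedBall (0 : ℝ) 1).prod
    (isCompact_closedBall (0 : E) M)).exists_bound_of_continuousOn c1.continuousOn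
  rw [show D = fun w => fderiv ℝ Ψ (0, w) (1, 0) from funext fun w => (hD w).unique (d w 0)]
  refine (hasDerivAt_integral_of_dominated_loc_of_deriv_le (μ := volume)
    (F := fun t w => Ψ (t, w)) (F' := fun t w => fderiv ℝ Ψ (t, w) (1, 0))
    (bound := (Metric.closedBall (0 : E) M).indicator fun _ => B)
    (Metric.closedBall_mem_nhds (0 : ℝ) one_pos)
    (Eventually.of_forall fun t => Continuous.aestronglyMeasurable (by fun_prop))
    (Continuous.integrable_of_hasCompactSupport (by fun_prop) (HasCompactSupport.intro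
      (isCompact_closedBall (0 : E) M) fun w hw => hM _ _ (by simpa using hw)))
    (Continuous.aestronglyMeasurable (by fun_prop)) (Eventually.of_forall fun w t ht => ?_)
    ((integrable_indicator_iff measurableSet_closedBall).2
      (integrableOn_const measure_closedBall_lt_top.ne))
    (Eventually.of_forall fun w t _ => d w t)).2
  by_cases hw : w ∈ Metric.closedBall (0 : E) M
  · rw [Set.indicator_of_mem hw]
    exact hB (t, w) ⟨ht, hw⟩
  · have := d w t
    simp only [fun t => hM t w (by simpa using hw)] at this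
    rw [Set.indicator_of_notMem hw, this.unique (hasDerivAt_const _ _), norm_zero]

lemma int_ex {c : E → ℂ} (hc : Integrable c) {g : E → ℝ} (hg : Continuous g) :
    Integrable fun w => c w * ex (g w) :=
  hc.mul_bdd (c := 1) (Continuous.aestronglyMeasurable (by fun_prop))
    (Eventually.of_forall fun _ => (norm_ex _).le)

lemma E_eq (v : E) : v = ∑ j, v j • ee j := by
  ext i
  fin_cases i <;> simp [Fin.sum_univ_two]

lemma Symb.int_gam {K : Set E} {M : ℝ} {β : E × E → ℝ} (h : Symb K M β) (x ξ : E) :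
    ∫ w, (gam β (x, w) : ℂ) * ex ⟪ξ, w⟫ =
      -I * ∫ w, (fderiv ℝ β (x, w) (ξ, 0) : ℝ) * ex ⟪ξ, w⟫ := by
  have s : ∀ j, Sm fun w => fderiv ℝ β (x, w) (ee j, 0) := fun j =>
    ⟨((sm_fderiv h.sm).comp (contDiff_const.prodMk contDiff_id)).clm_apply contDiff_const,
      HasCompactSupport.intro (isCompact_closedBall (0 : E) M) fun w hw => by
        rw [(h.off (p := (x, w)) fun h0 => hw (by simpa using h0.2)).fderiv_eq]
        simp⟩
  have d : ∀ j w, fderiv ℝ (fderiv ℝ β) (x, w) (0, ee j) (ee j, 0) =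
      D j (fun w => fderiv ℝ β (x, w) (ee j, 0)) w := fun j w => by
    refine HasDerivAt.unique ?_ (hd_line (s j).smooth w (ee j))
    simpa using (hd_line (sm_fderiv h.sm) (x, w) (0, ee j)).clm_apply
      (hasDerivAt_const (0 : ℝ) (ee j, (0 : E)))
  have f : ∀ g : E → ℝ, ∫ w, (g w : ℂ) * ex ⟪ξ, w⟫ = FT g (-(2 * π)⁻¹ • ξ) := fun g => by
    rw [FT_eq]
    congr 1
    ext w
    rw [mul_comm, real_inner_smul_right, real_inner_comm]
    congr 2
    field_simp
  have e : ∀ w, fderiv ℝ β (x, w) (ξ, 0) = ξ 0 * fderiv ℝ β (x, w) (ee 0, 0) +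
      ξ 1 * fderiv ℝ β (x, w) (ee 1, 0) := fun w => by
    have : (ξ, (0 : E)) = ξ 0 • (ee 0, (0 : E)) + ξ 1 • (ee 1, (0 : E)) := by
      simpa [Fin.sum_univ_two] using E_eq ξ
    rw [this, map_add, map_smul, map_smul, smul_eq_mul, smul_eq_mul]
  simp only [f, gam, d, e, Fin.sum_univ_two]
  rw [FT_add ((s 0).D 0).integrable ((s 1).D 1).integrable, (s 0).FT_D, (s 1).FT_D,
    FT_add ((s 0).const_mul _).integrable ((s 1).const_mul _).integrable, FT_const_mul,
    FT_const_mul]
  have : (π : ℂ) ≠ 0 := ofReal_ne_zero.2 Real.pi_ne_zero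
  simp only [PiLp.smul_apply, smul_eq_mul]
  push_cast
  field_simp
  ring

namespace Refl

variable {R : E × E → E} (hR : Refl R) {a : E → ℝ} (ha : ContDiff ℝ ∞ a)
include hR

lemma norm (x v : E) : ‖R (x, v)‖ = ‖v‖ := by
  rw [← sq_eq_sq₀ (norm_nonneg _) (norm_nonneg _), ← real_inner_self_eq_norm_sq, hR.sym, hR.inv,
    real_inner_self_eq_norm_sq]

lemma symb {c : E → ℝ} (ha : Sm a) (hc : Sm c) :
    ∃ M, 0 ≤ M ∧ (∀ w, M < ‖w‖ → c w = 0) ∧ Symb (tsupport a) M (bet R a c) := by
  obtain ⟨M, hM0, hM⟩ := hc.supp.isBounded.exists_pos_norm_le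
  have h0 : ∀ w, M < ‖w‖ → c w = 0 := fun w hw =>
    image_eq_zero_of_notMem_tsupport fun h => hw.not_ge (hM w h)
  refine ⟨M, hM0.le, h0, (ha.smooth.comp contDiff_fst).mul ((hc.smooth.comp contDiff_snd).add
    (hc.smooth.comp hR.sm)), ha.supp, fun p hp => ⟨subset_tsupport _ (left_ne_zero_of_mul hp), ?_⟩⟩
  by_contra h
  refine right_ne_zero_of_mul hp ?_
  rw [h0 _ (not_le.1 h), h0 (R (p.1, p.2)) (by rw [hR.norm]; exact not_le.1 h), add_zero]

include ha

lemma cont_gg : Continuous fun q : (E × E) × E => gg R a q.1 q.2 := by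
  have c1 := ha.continuous
  have c2 := hR.sm.continuous
  have c3 := (sm_fderiv ha).continuous
  have c4 := (sm_fderiv hR.sm).continuous
  unfold gg
  fun_prop

lemma hd_gg (x ξ w : E) : HasDerivAt (fun t : ℝ => (a (x + t • ξ) : ℂ) *
    (ex ⟪ξ, w⟫ + ex ⟪R (x + t • ξ, ξ), w⟫)) (gg R a (x, ξ) w) 0 := by
  have := (hd_line ha x ξ).ofReal_comp.fun_mul ((hasDerivAt_ex
    ((hd_line' hR.sm x ξ ξ).inner ℝ (hasDerivAt_const (0 : ℝ) w))).const_add (ex ⟪ξ, w⟫))
  simpa [gg] using this

lemma int_bet {c : E → ℝ} (hc : Sm c) {M : ℝ} (hM : ∀ w, M < ‖w‖ → c w = 0) (x ξ : E) :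
    ∫ w, (fderiv ℝ (bet R a c) (x, w) (ξ, 0) : ℝ) * ex ⟪ξ, w⟫ = ∫ w, c w * gg R a (x, ξ) w := by
  have s1 := hR.sm
  have s2 := hc.smooth
  have s3 := sm_ex
  have s4 : ContDiff ℝ ∞ fun t : ℝ => (t : ℂ) := ofRealCLM.contDiff
  have sb : ContDiff ℝ ∞ (bet R a c) := by unfold bet; fun_prop
  have i1 : ContDiff ℝ ∞ fun q : ℝ × E => ⟪ξ, q.2⟫ := contDiff_const.inner ℝ contDiff_snd
  have i2 : ContDiff ℝ ∞ fun q : ℝ × E => ⟪R (x + q.1 • ξ, ξ), q.2⟫ :=
    ContDiff.inner ℝ (by fun_prop) contDiff_snd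
  have d1 := dui (Ψ := fun q => (bet R a c (x + q.1 • ξ, q.2) : ℂ) * ex ⟪ξ, q.2⟫) (by fun_prop)
    (M := M) (fun t w hw => by simp [bet, hM w hw, hM _ (by rwa [hR.norm] : M < ‖R (x + t • ξ, w)‖)])
    fun w => (hd_line' sb x ξ w).ofReal_comp.mul_const (ex ⟪ξ, w⟫)
  have d2 := dui (Ψ := fun q => (c q.2 : ℂ) * ((a (x + q.1 • ξ) : ℂ) *
    (ex ⟪ξ, q.2⟫ + ex ⟪R (x + q.1 • ξ, ξ), q.2⟫))) (by fun_prop) (M := M)
    (fun t w hw => by simp [hM w hw]) fun w => (hR.hd_gg ha x ξ w).const_mul (c w : ℂ)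
  refine d1.unique (d2.congr_of_eventuallyEq (Eventually.of_forall fun t => ?_))
  simp only []
  generalize x + t • ξ = z
  have j : Integrable fun w => (c w : ℂ) := hc.integrable.ofReal
  have j' : Integrable fun w => (c (R (z, w)) : ℂ) := Continuous.integrable_of_hasCompactSupport
    (by have := s1.continuous; have := s2.continuous; fun_prop) (HasCompactSupport.intro
      (isCompact_closedBall (0 : E) M) fun w hw => by
        rw [hM _ (by simpa [hR.norm] using hw), ofReal_zero])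
  have e := hR.int z fun w => c w * ex ⟪R (z, ξ), w⟫
  simp only [hR.sym z ξ, hR.inv] at e
  simp only [bet, ofReal_mul, ofReal_add, mul_left_comm (c _ : ℂ), mul_assoc, add_mul, mul_add]
  rw [integral_add ((int_ex j (by fun_prop)).const_mul _) ((int_ex j' (by fun_prop)).const_mul _),
    integral_add ((int_ex j (by fun_prop)).const_mul _) ((int_ex j (by fun_prop)).const_mul _)]
  simp only [integral_const_mul, e, hR.sym z ξ]

lemma fderiv_eq {m : E → ℝ} (hm : Sm m) (x ξ : E) :
    ((fderiv ℝ (fun x => a x * (m ξ + m (R (x, ξ)))) x ξ : ℝ) : ℂ) =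
      ∫ y, FT m y * gg R a (x, ξ) ((2 * π) • y) := by
  have s1 := hR.sm
  have s2 := hm.smooth
  have e1 := (hd_line (F := fun x => a x * (m ξ + m (R (x, ξ)))) (by fun_prop) x ξ).unique
    ((hd_line ha x ξ).mul (((s2.differentiable (by simp) _).hasFDerivAt.comp_hasDerivAt 0
      (hd_line' s1 x ξ ξ)).const_add (m ξ)))
  simp only [zero_smul, add_zero] at e1
  simp only [e1, gg]
  generalize R (x, ξ) = η
  generalize fderiv ℝ R (x, ξ) (ξ, 0) = T
  have e2 : fderiv ℝ m η T = T 0 * D 0 m η + T 1 * D 1 m η := by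
    conv_lhs => rw [E_eq T]
    simp [Fin.sum_univ_two, D]
  have j := fun η => int_ex hm.integrable_FT (g := fun y => 2 * π * ⟪y, η⟫) (by fun_prop)
  have j' := fun i => int_ex (hm.D i).integrable_FT (g := fun y => 2 * π * ⟪y, η⟫) (by fun_prop)
  rw [e2]
  push_cast
  rw [hm.inversion, hm.inversion, (hm.D 0).inversion, (hm.D 1).inversion,
    ← integral_add' (j _) (j _), ← integral_const_mul, ← integral_const_mul, ← integral_const_mul,
    ← integral_add' ((j' 0).const_mul _) ((j' 1).const_mul _), ← integral_const_mul,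
    ← integral_add' (((j _).add (j _)).const_mul _)
      ((((j' 0).const_mul _).add ((j' 1).const_mul _)).const_mul _)]
  congr 1
  ext y
  have : ⟪y, T⟫ = T 0 * y 0 + T 1 * y 1 := by simp [PiLp.inner_apply, Fin.sum_univ_two]
  simp only [Pi.add_apply, hm.FT_D, real_inner_smul_right, real_inner_comm y, this]
  push_cast
  ring

end Refl

namespace Ctx

variable {Ω : Set E} {u : ℕ → E → ℝ} {lam : ℕ → ℝ} (h : Ctx Ω u lam) {f : E × E → ℂ}
  (hf : Integrable f (liouville Ω))
include h hf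

lemma intP {H : (E × E) × E → ℂ} (hH : Continuous H) {b : E → ℝ} (hb : Integrable b)
    (hle : ∀ᵐ p ∂(liouville Ω), ∀ w, ‖H (p, w)‖ ≤ b w) :
    Integrable (fun q : (E × E) × E => f q.1 * H q) ((liouville Ω).prod volume) := by
  have := h.finL
  refine (hf.norm.mul_prod hb).mono' (hf.1.comp_fst.mul hH.aestronglyMeasurable) ?_
  filter_upwards [Measure.quasiMeasurePreserving_fst.ae hle] with q hq
  rw [norm_mul]
  exact mul_le_mul_of_nonneg_left (hq q.2) (norm_nonneg _)

lemma weak {R : E × E → E} (hR : Refl R) {a : E → ℝ} (ha : Sm a)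
    (hK : ∀ c, Sm c → ∫ w, ∫ q, f q * ((gam (bet R a c) (q.1, w) : ℂ) * ex ⟪q.2, w⟫)
      ∂(liouville Ω) = 0) {m : E → ℝ} (hm : Sm m) :
    Integrable (fun q => f q * (fderiv ℝ (fun x => a x * (m q.2 + m (R (x, q.2)))) q.1 q.2 : ℝ))
      (liouville Ω) ∧ ∫ q, f q * (fderiv ℝ (fun x => a x * (m q.2 + m (R (x, q.2)))) q.1 q.2 : ℝ)
        ∂(liouville Ω) = 0 := by
  have := h.finL
  have cg := hR.cont_gg ha.smooth
  obtain ⟨B, hB0, hB⟩ : ∃ B, 0 ≤ B ∧ ∀ᵐ p ∂(liouville Ω), ∀ w, ‖gg R a p w‖ ≤ B * (1 + ‖w‖) := by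
    have c1 := ha.continuous
    have c3 := (sm_fderiv ha.smooth).continuous
    have c4 := (sm_fderiv hR.sm).continuous
    obtain ⟨B, hB⟩ := h.bdL (g := fun p =>
      2 * |fderiv ℝ a p.1 p.2| + |a p.1| * ‖fderiv ℝ R p (p.2, 0)‖) (by fun_prop)
    refine ⟨|B|, abs_nonneg _, hB.mono fun p hp w => (norm_add_le _ _).trans ?_⟩
    have h1 := (le_abs_self _).trans (hp.trans (le_abs_self B))
    have h2 := norm_add_le (ex ⟪p.2, w⟫) (ex ⟪R p, w⟫)
    have h3 := abs_real_inner_le_norm (fderiv ℝ R p (p.2, 0)) w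
    simp only [norm_mul, norm_ex, Complex.norm_real, Real.norm_eq_abs, norm_I, one_mul,
      mul_one] at h2 ⊢
    refine le_trans ?_ (mul_le_mul_of_nonneg_right h1 (by positivity))
    have := mul_le_mul_of_nonneg_left h2 (abs_nonneg (fderiv ℝ a p.1 p.2))
    have := mul_le_mul_of_nonneg_left h3 (abs_nonneg (a p.1))
    have := mul_nonneg (abs_nonneg (fderiv ℝ a p.1 p.2)) (norm_nonneg w)
    have := mul_nonneg (abs_nonneg (a p.1)) (norm_nonneg (fderiv ℝ R p (p.2, 0)))
    nlinarith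
  set G : E → ℂ := fun w => ∫ q, f q * gg R a q w ∂(liouville Ω) with hG
  have cG : Continuous G := continuous_iff_continuousAt.2 fun w => continuousAt_of_dominated
    (bound := fun q => ‖f q‖ * (B * (1 + (‖w‖ + 1))))
    (Eventually.of_forall fun w => hf.1.mul (Continuous.aestronglyMeasurable (by fun_prop)))
    (((continuous_norm.tendsto w).eventually (gt_mem_nhds (lt_add_one _))).mono fun w' hw =>
      hB.mono fun q hq => by
        rw [norm_mul]
        exact mul_le_mul_of_nonneg_left ((hq w').trans (by gcongr)) (norm_nonneg _))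
    (hf.norm.mul_const _) (Eventually.of_forall fun q => Continuous.continuousAt (by fun_prop))
  have sw : ∀ {c : E → ℂ} (s : ℝ), Continuous c → Integrable (fun w => ‖c w‖ * (1 + ‖w‖)) →
      Integrable (fun q => f q * ∫ w, c w * gg R a q (s • w)) (liouville Ω) ∧
      ∫ q, f q * ∫ w, c w * gg R a q (s • w) ∂volume ∂(liouville Ω) = ∫ w, c w * G (s • w) := by
    intro c s hc hi
    have i := h.intP hf (H := fun q => c q.2 * gg R a q.1 (s • q.2)) (by fun_prop)
      (hi.mul_const (B * (1 + |s|))) (hB.mono fun p hp w => by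
        rw [norm_mul, mul_assoc]
        refine mul_le_mul_of_nonneg_left ((hp _).trans ?_) (norm_nonneg _)
        rw [norm_smul, Real.norm_eq_abs, mul_left_comm]
        refine mul_le_mul_of_nonneg_left ?_ hB0
        nlinarith [abs_nonneg s, norm_nonneg w])
    simp only [← integral_const_mul, hG]
    refine ⟨i.integral_prod_left, (integral_integral_swap i).trans ?_⟩
    simp only [mul_left_comm]
  have G0 : G = 0 := by
    refine (Continuous.ae_eq_iff_eq volume cG continuous_zero).1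
      (ae_eq_zero_of_integral_contDiff_smul_eq_zero cG.locallyIntegrable fun c h1 h2 => ?_)
    have hc : Sm c := ⟨h1, h2⟩
    obtain ⟨M, -, hM, hβ⟩ := hR.symb ha hc
    have cγ := hβ.cont_gam
    have cc := hc.continuous
    obtain ⟨B', hB'⟩ := (hβ.cpt.prod (isCompact_closedBall (0 : E) M)).exists_bound_of_continuousOn
      cγ.continuousOn
    have i := h.intP hf (H := fun q => (gam (bet R a c) (q.1.1, q.2) : ℂ) * ex ⟪q.1.2, q.2⟫)
      (by fun_prop) (b := (Metric.closedBall (0 : E) M).indicator fun _ => |B'|)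
      ((integrable_indicator_iff measurableSet_closedBall).2
        (integrableOn_const measure_closedBall_lt_top.ne)) (Eventually.of_forall fun p w => by
          rw [norm_mul, norm_ex, mul_one, Complex.norm_real]
          by_cases hp : p.1 ∈ tsupport a ∧ ‖w‖ ≤ M
          · rw [Set.indicator_of_mem (by simpa using hp.2)]
            exact (hB' (p.1, w) ⟨hp.1, by simpa using hp.2⟩).trans (le_abs_self _)
          · rw [hβ.gam_zero (p := (p.1, w)) hp, norm_zero]
            exact Set.indicator_nonneg (fun _ _ => abs_nonneg _) _)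
    have k := hK c hc
    rw [← integral_integral_swap i] at k
    simp only [integral_const_mul, hβ.int_gam, hR.int_bet ha.smooth hc hM] at k
    simp only [mul_left_comm (f _), integral_const_mul] at k
    have k2 := (sw (c := fun w => (c w : ℂ)) 1 (by fun_prop)
      (Continuous.integrable_of_hasCompactSupport (by fun_prop)
        (h2.comp_left (g := fun t : ℝ => ‖(t : ℂ)‖) (by simp)).mul_right)).2
    simp only [one_smul] at k2
    rw [k2] at k
    simpa using k
  have k := sw (c := FT m) (2 * π) hm.continuous_FT (by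
    refine (hm.integrable_FT.norm.add ((FourierTransform.fourier hm.toS).integrable_pow_mul
      volume 1)).congr (Eventually.of_forall fun w => ?_)
    simp [hm.FT_eq_toS, add_mul, mul_comm])
  simp only [← hR.fderiv_eq ha.smooth hm, G0, Pi.zero_apply, mul_zero, integral_zero] at k
  simpa only [hR.fderiv_eq ha.smooth hm] using k

end Ctx

end

end Pool.Agent.P.MP_6b977f_mp
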