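import Pool.Agent.P.MP_6b977f_mp.QI

namespace Pool.Agent.P.MP_6b977f_mp

open Real MeasureTheory Filter Topology Laplacian
open scoped RealInnerProductSpace ContDiff

noncomputable section

/-- convergence in `L²` -/
def WCv (μ : Measure E) (f : ℕ → E → ℝ) (F : E → ℝ) : Prop :=
  ∃ (hf : ∀ j, MemLp (f j) 2 μ) (hF : MemLp F 2 μ),
    Tendsto (fun j => (hf j).toLp (f j)) atTop (𝓝 (hF.toLp F))

lemma WCv.mul {μ : Measure E} {f g : ℕ → E → ℝ} {F G : E → ℝ} (h : WCv μ f F) (k : WCv μ g G) :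
    Tendsto (fun j => ∫ x, f j x * g j x ∂μ) atTop (𝓝 (∫ x, F x * G x ∂μ)) := by
  obtain ⟨hf, hF, h⟩ := h
  obtain ⟨hg, hG, k⟩ := k
  simpa only [inner_toLp] using h.inner (𝕜 := ℝ) k

lemma WCv.sq {μ : Measure E} {f : ℕ → E → ℝ} {F : E → ℝ} (h : WCv μ f F) :
    Tendsto (fun j => ∫ x, f j x ^ 2 ∂μ) atTop (𝓝 (∫ x, F x ^ 2 ∂μ)) := by
  simpa only [_root_.sq] using h.mul h

lemma WCv.const {μ : Measure E} {F : E → ℝ} (hF : MemLp F 2 μ) : WCv μ (fun _ => F) F :=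
  ⟨fun _ => hF, hF, tendsto_const_nhds⟩

lemma WCv.sub {μ : Measure E} {f g : ℕ → E → ℝ} {F G : E → ℝ} (h : WCv μ f F) (k : WCv μ g G) :
    WCv μ (fun j x => f j x - g j x) (fun x => F x - G x) := by
  obtain ⟨hf, hF, h⟩ := h
  obtain ⟨hg, hG, k⟩ := k
  exact ⟨fun j => (hf j).sub (hg j), hF.sub hG, h.sub k⟩

lemma wCv_of {μ : Measure E} {f : ℕ → E → ℝ} {F : E → ℝ} (hf : ∀ j, MemLp (f j) 2 μ)
    (hF : AEStronglyMeasurable F μ)
    (h : Tendsto (fun j => ∫⁻ x, ‖f j x - F x‖ₑ ^ 2 ∂μ) atTop (𝓝 0)) : WCv μ f F := by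
  obtain ⟨j, hj⟩ := (h.eventually (gt_mem_nhds ENNReal.zero_lt_top)).exists
  have b : MemLp (fun x => f j x - F x) 2 μ := by
    refine ⟨(hf j).1.sub hF, ?_⟩
    rw [eLpNorm_lt_top_iff_lintegral_rpow_enorm_lt_top (by norm_num) (by norm_num)]
    simpa using hj
  have c : MemLp F 2 μ := by
    have e : F = f j - fun x => f j x - F x := by
      ext x
      simp
    rw [e]
    exact (hf j).sub b
  refine ⟨hf, c, (Lp.tendsto_Lp_iff_tendsto_eLpNorm'' f hf F c).2 ?_⟩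
  have e : ∀ j, eLpNorm (f j - F) 2 μ = (∫⁻ x, ‖f j x - F x‖ₑ ^ 2 ∂μ) ^ (1 / 2 : ℝ) := fun j => by
    rw [eLpNorm_eq_lintegral_rpow_enorm_toReal (by norm_num) (by norm_num)]
    simp
  simp only [e]
  have := (ENNReal.continuous_rpow_const (y := (1 / 2 : ℝ))).continuousAt.tendsto.comp h
  simpa [Function.comp_def] using this

lemma IsTest.zero {Ω : Set E} {φ : E → ℝ} (h : IsTest Ω φ) {x : E} (hx : x ∉ Ω) : φ x = 0 :=
  image_eq_zero_of_notMem_tsupport (mt (fun k => h.2.2 k) hx)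

lemma Sm.memLp {f : E → ℝ} (hf : Sm f) : MemLp f 2 volume :=
  hf.continuous.memLp_of_hasCompactSupport hf.supp

lemma w_h10 {Ω : Set E} (hΩ : IsOpen Ω) {u : E → ℝ} (hu : ContDiffOn ℝ ∞ u Ω) (h : InH10 Ω u) :
    ∃ φ : ℕ → E → ℝ, (∀ j, IsTest Ω (φ j)) ∧ WCv (volume.restrict Ω) φ u ∧
      (∀ i, WCv (volume.restrict Ω) (fun j => D i (φ j)) (D i u)) ∧
      ∀ y, WCv volume (fun j z => φ j (z + y)) (fun z => Ω.indicator u (z + y)) := by
  obtain ⟨φ, h1, h2⟩ := h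
  have m : AEStronglyMeasurable u (volume.restrict Ω) :=
    hu.continuousOn.aestronglyMeasurable hΩ.measurableSet
  have h3 : Tendsto (fun j => ∫⁻ x in Ω, ‖φ j x - u x‖ₑ ^ 2) atTop (𝓝 0) :=
    tendsto_of_tendsto_of_tendsto_of_le_of_le tendsto_const_nhds h2 (fun _ => zero_le)
      fun j => lintegral_mono fun x => le_self_add
  refine ⟨φ, h1, wCv_of (fun j => (h1 j).sm.memLp.restrict _) m h3, fun i => ?_, fun y => ?_⟩
  · refine wCv_of (fun j => ((h1 j).sm.D i).memLp.restrict _)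
      (measurable_fderiv_apply_const ℝ u _).aestronglyMeasurable ?_
    refine tendsto_of_tendsto_of_tendsto_of_le_of_le tendsto_const_nhds h2 (fun _ => zero_le)
      fun j => lintegral_mono fun x => le_trans ?_ le_add_self
    gcongr
    have := (fderiv ℝ (φ j) x - fderiv ℝ u x).le_opNorm (EuclideanSpace.single i 1)
    rw [← ofReal_norm, ← ofReal_norm]
    refine ENNReal.ofReal_le_ofReal ?_
    simpa [D] using this
  · have m2 : AEStronglyMeasurable (Ω.indicator u) volume :=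
      (aestronglyMeasurable_indicator_iff hΩ.measurableSet).2 m
    refine wCv_of (fun j => ((h1 j).sm.shift y).memLp)
      (m2.comp_measurePreserving (measurePreserving_add_right volume y)) ?_
    refine h3.congr fun j => ?_
    rw [lintegral_add_right_eq_self (fun z => ‖φ j z - Ω.indicator u z‖ₑ ^ 2) y,
      ← lintegral_indicator hΩ.measurableSet]
    refine lintegral_congr fun x => ?_
    by_cases hx : x ∈ Ω
    · simp [hx]
    · simp [hx, (h1 j).zero hx]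

/-- the Dirichlet energy -/
def wen (f : E → ℝ) : ℝ := (∫ x, D 0 f x ^ 2) + ∫ x, D 1 f x ^ 2

lemma wen_nonneg (f : E → ℝ) : 0 ≤ wen f :=
  add_nonneg (integral_nonneg fun _ => sq_nonneg _) (integral_nonneg fun _ => sq_nonneg _)

lemma IsTest.setl {Ω : Set E} {φ : E → ℝ} (h : IsTest Ω φ) (g : E → ℝ) :
    ∫ x in Ω, φ x * g x = ∫ x, φ x * g x :=
  setIntegral_eq_integral_of_forall_compl_eq_zero fun x hx => by rw [h.zero hx, zero_mul]

lemma IsTest.setr {Ω : Set E} {φ : E → ℝ} (h : IsTest Ω φ) (g : E → ℝ) :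
    ∫ x in Ω, g x * φ x = ∫ x, g x * φ x :=
  setIntegral_eq_integral_of_forall_compl_eq_zero fun x hx => by rw [h.zero hx, mul_zero]

lemma IsTest.setsq {Ω : Set E} {φ : E → ℝ} (h : IsTest Ω φ) :
    ∫ x in Ω, φ x ^ 2 = ∫ x, φ x ^ 2 := by
  simp only [sq, h.setl]

/-- Green's identity, split into its terms -/
lemma w_green {Ω : Set E} (hΩ : IsOpen Ω) {u : E → ℝ} {lam : ℝ} (hu : ContDiffOn ℝ ∞ u Ω)
    (hH : ∀ x ∈ Ω, Δ u x + lam * u x = 0) (hm : MemLp u 2 (volume.restrict Ω)) {v : E → ℝ}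
    (hv : IsTest Ω v) :
    (∫ z in Ω, u z * D 0 (D 0 v) z) + (∫ z in Ω, u z * D 1 (D 1 v) z) +
      lam * ∫ z in Ω, u z * v z = 0 := by
  have i : ∀ {g : E → ℝ}, Sm g → Integrable (fun z => u z * g z) (volume.restrict Ω) :=
    fun hg => hm.integrable_mul (hg.memLp.restrict _)
  have i0 := i ((hv.sm.D 0).D 0)
  have i1 := i ((hv.sm.D 1).D 1)
  have i2 : Integrable (fun z => u z * D 0 (D 0 v) z + u z * D 1 (D 1 v) z) (volume.restrict Ω) :=
    i0.add i1
  rw [← green_test hΩ hu hH hv, ← integral_add i0 i1, ← integral_const_mul,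
    ← integral_add i2 ((i hv.sm).const_mul lam)]
  refine integral_congr_ae (Eventually.of_forall fun z => ?_)
  simp only [lap_eq hv.sm]
  ring

lemma w_energy {Ω : Set E} (hΩ : IsOpen Ω) {u : ℕ → E → ℝ} {lam : ℕ → ℝ}
    (h : DirichletBasis Ω u lam) (n : ℕ) :
    ∃ φ : ℕ → E → ℝ, (∀ j, IsTest Ω (φ j)) ∧ WCv (volume.restrict Ω) φ (u n) ∧
      (∀ y, WCv volume (fun j z => φ j (z + y)) (fun z => Ω.indicator (u n) (z + y))) ∧
      Tendsto (fun j => ∫ x, φ j x ^ 2) atTop (𝓝 (volume.real Ω)) ∧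
      Tendsto (fun j => wen (φ j)) atTop (𝓝 (lam n * volume.real Ω)) := by
  obtain ⟨φ, h1, h2, h3, h4⟩ := w_h10 hΩ (h.smooth n) (h.h10 n)
  have hA : ∫ x in Ω, u n x * u n x = volume.real Ω := by rw [h.orth, if_pos rfl]
  refine ⟨φ, h1, h2, h4, ?_, ?_⟩
  · have := h2.mul h2
    simpa only [hA, (h1 _).setl, sq] using this
  have k1 : ∀ (i : Fin 2) {v : E → ℝ}, Sm v →
      ∫ z in Ω, u n z * D i (D i v) z = -∫ z in Ω, D i (u n) z * D i v z := by
    intro i v hv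
    have a := h2.mul (WCv.const (((hv.D i).D i).memLp.restrict Ω))
    have b := ((h3 i).mul (WCv.const ((hv.D i).memLp.restrict Ω))).neg
    refine tendsto_nhds_unique a (b.congr fun j => ?_)
    rw [(h1 j).setl, ((h1 j).D i).setl, (h1 j).sm.ibp (hv.D i)]
  have k2 : ∀ j, (∫ z in Ω, D 0 (u n) z * D 0 (φ j) z) + ∫ z in Ω, D 1 (u n) z * D 1 (φ j) z =
      lam n * ∫ z in Ω, u n z * φ j z := fun j => by
    have := w_green hΩ (h.smooth n) (h.helm n) (h.memLp hΩ n) (h1 j)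
    rw [k1 0 (h1 j).sm, k1 1 (h1 j).sm] at this
    linarith
  have c : ∀ i, WCv (volume.restrict Ω) (fun _ => D i (u n)) (D i (u n)) :=
    fun i => WCv.const (h3 i).2.1
  have k3 := tendsto_nhds_unique (((c 0).mul (h3 0)).add ((c 1).mul (h3 1)))
    ((((WCv.const (h.memLp hΩ n)).mul h2).const_mul (lam n)).congr fun j => (k2 j).symm)
  have := ((h3 0).mul (h3 0)).add ((h3 1).mul (h3 1))
  rw [k3, hA] at this
  refine this.congr fun j => ?_
  simp only [wen, sq, ((h1 j).D _).setl]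

lemma w_FT_en {f : E → ℝ} (hf : Sm f) (η : E) :
    4 * π ^ 2 * ‖η‖ ^ 2 * ‖FT f η‖ ^ 2 = ‖FT (D 0 f) η‖ ^ 2 + ‖FT (D 1 f) η‖ ^ 2 := by
  rw [hf.FT_D, hf.FT_D, EuclideanSpace.real_norm_sq_eq, Fin.sum_univ_two]
  simp only [norm_mul, Complex.norm_I, Complex.norm_real, Complex.norm_ofNat, mul_pow,
    Real.norm_eq_abs, sq_abs]
  ring

lemma w_en_int {f : E → ℝ} (hf : Sm f) :
    Integrable fun η : E => 4 * π ^ 2 * ‖η‖ ^ 2 * ‖FT f η‖ ^ 2 := by
  simp only [w_FT_en hf]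
  exact (hf.D 0).integrable_sq_FT.add (hf.D 1).integrable_sq_FT

lemma w_en_eq {f : E → ℝ} (hf : Sm f) :
    ∫ η : E, 4 * π ^ 2 * ‖η‖ ^ 2 * ‖FT f η‖ ^ 2 = wen f := by
  simp only [w_FT_en hf]
  rw [integral_add (hf.D 0).integrable_sq_FT (hf.D 1).integrable_sq_FT, (hf.D 0).plancherel,
    (hf.D 1).plancherel, wen]

lemma w_shift_sm {f : E → ℝ} (hf : Sm f) (y : E) :
    ∫ z, (f (z + y) - f z) ^ 2 ≤ ‖y‖ ^ 2 * wen f := by
  have s : Sm fun z => f (z + y) + -1 * f z := (hf.shift y).add (hf.const_mul _)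
  have e : ∀ z, f (z + y) - f z = f (z + y) + -1 * f z := fun z => by ring
  simp only [e]
  rw [← s.plancherel, ← w_en_eq hf, ← integral_const_mul]
  refine integral_mono s.integrable_sq_FT ((w_en_int hf).const_mul _) fun η => ?_
  have e2 : FT (fun z => f (z + y) + -1 * f z) η = (ex (2 * π * ⟪y, η⟫) - 1) * FT f η := by
    rw [FT_add (hf.shift y).integrable (hf.const_mul _).integrable, FT_shift, FT_const_mul]
    push_cast
    ring
  have e3 : ‖ex (2 * π * ⟪y, η⟫) - 1‖ ≤ 2 * π * (‖y‖ * ‖η‖) := by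
    have := Real.norm_exp_I_mul_ofReal_sub_one_le (x := 2 * π * ⟪y, η⟫)
    rw [mul_comm Complex.I] at this
    refine this.trans ?_
    rw [norm_mul, Real.norm_of_nonneg (by positivity)]
    gcongr
    exact norm_inner_le_norm _ _
  simp only [e2, norm_mul, mul_pow]
  have := pow_le_pow_left₀ (norm_nonneg _) e3 2
  nlinarith [sq_nonneg ‖FT f η‖]

lemma w_shift {Ω : Set E} (hΩ : IsOpen Ω) {u : ℕ → E → ℝ} {lam : ℕ → ℝ}
    (h : DirichletBasis Ω u lam) (n : ℕ) (y : E) :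
    ∫ z, (Ω.indicator (u n) (z + y) - Ω.indicator (u n) z) ^ 2 ≤
      ‖y‖ ^ 2 * (lam n * volume.real Ω) := by
  obtain ⟨φ, h1, -, h3, -, h5⟩ := w_energy hΩ h n
  have := ((h3 y).sub (h3 0)).sq
  simp only [add_zero] at this
  exact le_of_tendsto_of_tendsto' this (h5.const_mul _) fun j => w_shift_sm (h1 j).sm y

lemma w_lam_nonneg {Ω : Set E} (hΩ : IsOpen Ω) (hb : Bornology.IsBounded Ω) (hn : Ω.Nonempty)
    {u : ℕ → E → ℝ} {lam : ℕ → ℝ} (h : DirichletBasis Ω u lam) (n : ℕ) : 0 ≤ lam n := by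
  obtain ⟨φ, -, -, -, -, h5⟩ := w_energy hΩ h n
  exact nonneg_of_mul_nonneg_left (ge_of_tendsto' h5 fun j => wen_nonneg _) (vol_pos hΩ hb hn)

/-- the weight of the Berezin and Kroeger bounds -/
def ww (t : ℝ) (η : E) : ℝ := max (t - 4 * π ^ 2 * ‖η‖ ^ 2) 0

lemma ww_nonneg (t : ℝ) (η : E) : 0 ≤ ww t η := le_max_right _ _

lemma ww_cont (t : ℝ) : Continuous (ww t) := by
  unfold ww
  fun_prop

lemma ww_supp (t : ℝ) : HasCompactSupport (ww t) := by
  refine HasCompactSupport.intro (isCompact_closedBall (0 : E) (|t| + 1)) fun η hη => ?_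
  rw [mem_closedBall_zero_iff, not_le] at hη
  refine max_eq_right ?_
  have := Real.pi_gt_three
  have a := le_abs_self t
  have b := abs_nonneg t
  have c : ‖η‖ ≤ ‖η‖ ^ 2 := by nlinarith
  have d : 1 ≤ 4 * π ^ 2 := by nlinarith
  nlinarith [sq_nonneg ‖η‖]

lemma ww_int (t : ℝ) : Integrable (ww t) := (ww_cont t).integrable_of_hasCompactSupport (ww_supp t)

lemma ww_pos : 0 < ∫ η, ww 1 η :=
  (ww_cont 1).integral_pos_of_hasCompactSupport_nonneg_nonzero (x := 0) (ww_supp 1) (ww_nonneg 1)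
    (by simp [ww])

lemma ww_scale {t : ℝ} (ht : 0 < t) : ∫ η, ww t η = t ^ 2 * ∫ η, ww 1 η := by
  have hs : (√t)⁻¹ ^ 2 = t⁻¹ := by rw [inv_pow, Real.sq_sqrt ht.le]
  have e : ∀ η, ww t η = t * ww 1 ((√t)⁻¹ • η) := fun η => by
    rw [ww, ww, mul_max_of_nonneg _ _ ht.le, norm_smul, mul_pow, Real.norm_eq_abs, sq_abs, hs]
    congr 1
    · field_simp
    · simp
  simp only [e]
  rw [integral_const_mul, Measure.integral_comp_smul volume (ww 1), finrank_euclideanSpace_fin, hs,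
    inv_inv, abs_of_pos ht, smul_eq_mul]
  ring

lemma w_normsq {g : E → ℝ} (hg : Integrable g) (η : E) : ‖FT g η‖ ^ 2 =
    (∫ x, cos (-2 * π * ⟪x, η⟫) * g x) ^ 2 + (∫ x, sin (-2 * π * ⟪x, η⟫) * g x) ^ 2 := by
  rw [FT_cos_sin hg, Complex.sq_norm, Complex.normSq_add_mul_I]

lemma w_bdd {Ω : Set E} (hb : Bornology.IsBounded Ω) {g : E → ℝ} (hg : Continuous g)
    (h1 : ∀ x, |g x| ≤ 1) : MemLp g 2 (volume.restrict Ω) := by
  have : IsFiniteMeasure (volume.restrict Ω) := isFiniteMeasure_restrict.2 hb.measure_lt_top.ne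
  exact MemLp.of_bound hg.aestronglyMeasurable 1 (Eventually.of_forall h1)

lemma w_ber_sm {f : E → ℝ} (hf : Sm f) (t : ℝ) :
    Integrable (fun η => ww t η * ‖FT f η‖ ^ 2) ∧
      t * (∫ x, f x ^ 2) - wen f ≤ ∫ η, ww t η * ‖FT f η‖ ^ 2 := by
  have i : Integrable (fun η => ww t η * ‖FT f η‖ ^ 2) :=
    ((ww_cont t).mul (hf.continuous_FT.norm.pow 2)).integrable_of_hasCompactSupport
      (ww_supp t).mul_right
  refine ⟨i, ?_⟩
  rw [← hf.plancherel, ← w_en_eq hf, ← integral_const_mul,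
    ← integral_sub (hf.integrable_sq_FT.const_mul t) (w_en_int hf)]
  refine integral_mono ((hf.integrable_sq_FT.const_mul t).sub (w_en_int hf)) i fun η => ?_
  have : t - 4 * π ^ 2 * ‖η‖ ^ 2 ≤ ww t η := le_max_left _ _
  simp only
  nlinarith [sq_nonneg ‖FT f η‖]

/-- the Berezin, Li and Yau bound -/
lemma w_berezin {Ω : Set E} (hΩ : IsOpen Ω) (hb : Bornology.IsBounded Ω) (hn : Ω.Nonempty)
    {u : ℕ → E → ℝ} {lam : ℕ → ℝ} (h : DirichletBasis Ω u lam) (s : Finset ℕ) {t : ℝ}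
    (ht : 0 < t) : ∑ n ∈ s, (t - lam n) * volume.real Ω ≤
      volume.real Ω ^ 2 * (t ^ 2 * ∫ η, ww 1 η) := by
  have : IsFiniteMeasure (volume.restrict Ω) := isFiniteMeasure_restrict.2 hb.measure_lt_top.ne
  choose φ h1 h2 h3 h4 h5 using w_energy hΩ h
  have hc : ∀ η : E, MemLp (fun x => cos (-2 * π * ⟪x, η⟫)) 2 (volume.restrict Ω) :=
    fun η => w_bdd hb (by fun_prop) fun _ => Real.abs_cos_le_one _
  have hs : ∀ η : E, MemLp (fun x => sin (-2 * π * ⟪x, η⟫)) 2 (volume.restrict Ω) :=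
    fun η => w_bdd hb (by fun_prop) fun _ => Real.abs_sin_le_one _
  set A := volume.real Ω with hA
  have l1 : Tendsto (fun j => ∑ n ∈ s, (t * (∫ x, φ n j x ^ 2) - wen (φ n j))) atTop
      (𝓝 (∑ n ∈ s, (t - lam n) * A)) :=
    tendsto_finsetSum s fun n _ => by
      rw [sub_mul]
      exact ((h4 n).const_mul t).sub (h5 n)
  have l2 : Tendsto (fun j => ∫ η, ∑ n ∈ s, ww t η * ‖FT (φ n j) η‖ ^ 2) atTop
      (𝓝 (∫ η, ∑ n ∈ s, ww t η * ((∫ x in Ω, cos (-2 * π * ⟪x, η⟫) * u n x) ^ 2 +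
        (∫ x in Ω, sin (-2 * π * ⟪x, η⟫) * u n x) ^ 2))) := by
    refine tendsto_integral_filter_of_dominated_convergence
      (fun η => ∑ n ∈ s, ww t η * (A + 1) ^ 2) (Eventually.of_forall fun j => ?_) ?_ ?_ ?_
    · exact (integrable_finsetSum s fun n _ => (w_ber_sm (h1 n j).sm t).1).1
    · have : ∀ᶠ j in atTop, ∀ n ∈ s, ∫ x, φ n j x ^ 2 < A + 1 :=
        (eventually_all_finset s).2 fun n _ => (h4 n).eventually (gt_mem_nhds (lt_add_one A))
      filter_upwards [this] with j hj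
      refine Eventually.of_forall fun η => ?_
      rw [Real.norm_of_nonneg (Finset.sum_nonneg fun n _ =>
        mul_nonneg (ww_nonneg _ _) (sq_nonneg _))]
      refine Finset.sum_le_sum fun n hn => mul_le_mul_of_nonneg_left ?_ (ww_nonneg _ _)
      refine pow_le_pow_left₀ (norm_nonneg _) ((norm_FT_le _ _).trans ?_) 2
      have a : ∫ x, |φ n j x| ≤ ∫ x in Ω, (1 + φ n j x ^ 2) / 2 := by
        rw [← setIntegral_eq_integral_of_forall_compl_eq_zero (s := Ω)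
          fun x hx => by rw [(h1 n j).zero hx, abs_zero]]
        refine integral_mono (h1 n j).sm.integrable.abs.restrict
          (((integrable_const 1).add (h1 n j).sm.sq.integrable.restrict).div_const 2) fun x => ?_
        simp only
        nlinarith [sq_nonneg (|φ n j x| - 1), sq_abs (φ n j x)]
      rw [integral_div, integral_add (integrable_const 1) (h1 n j).sm.sq.integrable.restrict,
        (h1 n j).setsq, setIntegral_const, smul_eq_mul] at a
      linarith [hj n hn]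
    · exact integrable_finsetSum s fun n _ => (ww_int t).mul_const _
    · refine Eventually.of_forall fun η => tendsto_finsetSum s fun n _ => Tendsto.const_mul _ ?_
      refine ((((WCv.const (hc η)).mul (h2 n)).pow 2).add
        (((WCv.const (hs η)).mul (h2 n)).pow 2)).congr fun j => ?_
      rw [w_normsq (h1 n j).sm.integrable, (h1 n j).setr, (h1 n j).setr]
  refine (le_of_tendsto_of_tendsto' l1 l2 fun j => ?_).trans ?_
  · rw [integral_finsetSum s fun n _ => (w_ber_sm (h1 n j).sm t).1]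
    exact Finset.sum_le_sum fun n _ => (w_ber_sm (h1 n j).sm t).2
  rw [← ww_scale ht, ← integral_const_mul]
  refine integral_mono_of_nonneg (Eventually.of_forall fun η => Finset.sum_nonneg fun n _ =>
    mul_nonneg (ww_nonneg _ _) (by positivity)) ((ww_int t).const_mul _)
    (Eventually.of_forall fun η => ?_)
  simp only [← Finset.mul_sum, Finset.sum_add_distrib]
  rw [mul_comm]
  refine mul_le_mul_of_nonneg_right ?_ (ww_nonneg _ _)
  have e : (∫ x in Ω, cos (-2 * π * ⟪x, η⟫) ^ 2) + ∫ x in Ω, sin (-2 * π * ⟪x, η⟫) ^ 2 = A := by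
    rw [← integral_add (hc η).integrable_sq (hs η).integrable_sq]
    simp [hA]
  have a := h.bessel hΩ hb hn (hc η) s
  have b := h.bessel hΩ hb hn (hs η) s
  rw [← hA] at a b
  calc _ ≤ A * _ + A * _ := add_le_add a b
    _ = _ := by rw [← mul_add, e, sq]

lemma w_pars {Ω : Set E} (hΩ : IsOpen Ω) (hb : Bornology.IsBounded Ω) (hn : Ω.Nonempty)
    {u : ℕ → E → ℝ} {lam : ℕ → ℝ} (h : DirichletBasis Ω u lam) {g : E → ℝ} (hg : IsTest Ω g)
    (t : ℝ) : HasSum (fun n => (t - lam n) * (∫ x in Ω, g x * u n x) ^ 2)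
      (volume.real Ω * (t * (∫ x, g x ^ 2) - wen g)) := by
  have m := hg.sm.memLp.restrict Ω
  have a := (h.parseval hΩ hb hn m m).mul_left t
  have b := fun i : Fin 2 => h.parseval hΩ hb hn (((hg.sm.D i).D i).memLp.restrict Ω) m
  have e : ∀ i : Fin 2, ∫ x in Ω, D i (D i g) x * g x = -∫ x, D i g x ^ 2 := fun i => by
    rw [hg.setr, ← neg_eq_iff_eq_neg, ← (hg.sm.D i).ibp hg.sm]
    simp only [sq]
  have := a.add ((b 0).add (b 1))
  rw [e, e, hg.setl] at this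
  have e1 : volume.real Ω * (t * (∫ x, g x ^ 2) - wen g) = t * (volume.real Ω * ∫ x, g x * g x) +
      (volume.real Ω * -(∫ x, D 0 g x ^ 2) + volume.real Ω * -∫ x, D 1 g x ^ 2) := by
    simp only [wen, ← sq]
    ring
  rw [e1]
  have e2 : ∀ n, (t - lam n) * (∫ x in Ω, g x * u n x) ^ 2 =
      t * ((∫ x in Ω, g x * u n x) * ∫ x in Ω, g x * u n x) +
      ((∫ x in Ω, D 0 (D 0 g) x * u n x) * (∫ x in Ω, g x * u n x) +
        (∫ x in Ω, D 1 (D 1 g) x * u n x) * ∫ x in Ω, g x * u n x) := fun n => by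
    have := w_green hΩ (h.smooth n) (h.helm n) (h.memLp hΩ n) hg
    simp only [mul_comm (u n _)] at this
    linear_combination (-∫ x in Ω, g x * u n x) * this
  simp only [e2]
  exact this

lemma w_D_cos {ψ : E → ℝ} (hψ : Sm ψ) (η : E) (i : Fin 2) (x : E) :
    D i (fun x => cos (-2 * π * ⟪x, η⟫) * ψ x) x ^ 2 +
      D i (fun x => sin (-2 * π * ⟪x, η⟫) * ψ x) x ^ 2 =
      D i ψ x ^ 2 + 4 * π ^ 2 * η i ^ 2 * ψ x ^ 2 := by
  have a : HasFDerivAt (fun x : E => -2 * π * ⟪x, η⟫) ((-2 * π) • innerSL ℝ η) x := by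
    simp only [← real_inner_comm _ η]
    exact (innerSL ℝ η).hasFDerivAt.const_mul (-2 * π)
  have b := (hψ.smooth.differentiable (by simp) x).hasFDerivAt
  rw [D, D, (a.cos.fun_mul b).fderiv, (a.sin.fun_mul b).fderiv, D]
  simp only [add_apply, smul_apply, innerSL_apply_apply,
    EuclideanSpace.inner_single_right, smul_eq_mul, conj_trivial, one_mul]
  linear_combination ((fderiv ℝ ψ x) (EuclideanSpace.single i 1) ^ 2 +
    4 * π ^ 2 * η i ^ 2 * ψ x ^ 2) * Real.cos_sq_add_sin_sq (-2 * π * ⟪x, η⟫)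

/-- the Kroeger bound at one frequency -/
lemma w_kr_pt {Ω : Set E} (hΩ : IsOpen Ω) (hb : Bornology.IsBounded Ω) (hn : Ω.Nonempty)
    {u : ℕ → E → ℝ} {lam : ℕ → ℝ} (h : DirichletBasis Ω u lam) {ψ : E → ℝ} (hψ : IsTest Ω ψ)
    (t : ℝ) (η : E) : HasSum (fun n => (t - lam n) * ‖FT (fun x => ψ x * u n x) η‖ ^ 2)
      (volume.real Ω * ((t - 4 * π ^ 2 * ‖η‖ ^ 2) * (∫ x, ψ x ^ 2) - wen ψ)) := by
  have c0 : ContDiff ℝ ∞ fun x : E => -2 * π * ⟪x, η⟫ :=
    contDiff_const.mul (contDiff_id.inner ℝ contDiff_const)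
  have hc := hψ.mul_left c0.cos
  have hs := hψ.mul_left c0.sin
  have := (w_pars hΩ hb hn h hc t).add (w_pars hΩ hb hn h hs t)
  have e0 : (∫ x, (cos (-2 * π * ⟪x, η⟫) * ψ x) ^ 2) + ∫ x, (sin (-2 * π * ⟪x, η⟫) * ψ x) ^ 2 =
      ∫ x, ψ x ^ 2 := by
    rw [← integral_add hc.sm.sq.integrable hs.sm.sq.integrable]
    refine integral_congr_ae (Eventually.of_forall fun x => ?_)
    simp only
    linear_combination ψ x ^ 2 * Real.cos_sq_add_sin_sq (-2 * π * ⟪x, η⟫)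
  have e1 : ∀ i : Fin 2, (∫ x, D i (fun x => cos (-2 * π * ⟪x, η⟫) * ψ x) x ^ 2) +
      ∫ x, D i (fun x => sin (-2 * π * ⟪x, η⟫) * ψ x) x ^ 2 =
      (∫ x, D i ψ x ^ 2) + 4 * π ^ 2 * η i ^ 2 * ∫ x, ψ x ^ 2 := fun i => by
    rw [← integral_add (hc.sm.D i).sq.integrable (hs.sm.D i).sq.integrable, ← integral_const_mul,
      ← integral_add (hψ.sm.D i).sq.integrable (hψ.sm.sq.integrable.const_mul _)]
    simp only [w_D_cos hψ.sm]
  have e2 : ∀ n, (t - lam n) * ‖FT (fun x => ψ x * u n x) η‖ ^ 2 =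
      (t - lam n) * (∫ x in Ω, cos (-2 * π * ⟪x, η⟫) * ψ x * u n x) ^ 2 +
      (t - lam n) * (∫ x in Ω, sin (-2 * π * ⟪x, η⟫) * ψ x * u n x) ^ 2 := fun n => by
    rw [w_normsq (sm_mul_on hΩ (h.smooth n) hψ).integrable, hc.setl, hs.setl, mul_add]
    simp only [mul_assoc]
  simp only [e2]
  refine (congrArg (fun z => HasSum _ z) ?_).mp this
  rw [EuclideanSpace.real_norm_sq_eq, Fin.sum_univ_two]
  simp only [wen]
  linear_combination volume.real Ω * (t * e0 - e1 0 - e1 1)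

/-- the Kroeger bound -/
lemma w_kroeger {Ω : Set E} (hΩ : IsOpen Ω) (hb : Bornology.IsBounded Ω) (hn : Ω.Nonempty)
    {u : ℕ → E → ℝ} {lam : ℕ → ℝ} (h : DirichletBasis Ω u lam) {ψ : E → ℝ} (hψ : IsTest Ω ψ)
    (ha : 0 < ∫ x, ψ x ^ 2) {t : ℝ} (ht : wen ψ / (∫ x, ψ x ^ 2) < t) {s : Finset ℕ}
    (h1 : ∀ n ∈ s, lam n ≤ t) (h2 : ∀ n ∉ s, t ≤ lam n) :
    volume.real Ω * (∫ x, ψ x ^ 2) * ((t - wen ψ / ∫ x, ψ x ^ 2) ^ 2 * ∫ η, ww 1 η) ≤
      ∑ n ∈ s, (t - lam n) * ∫ x, (ψ x * u n x) ^ 2 := by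
  have hA := vol_pos hΩ hb hn
  have m := fun n => sm_mul_on hΩ (h.smooth n) hψ
  have i := fun n => (m n).integrable_sq_FT.const_mul (t - lam n)
  rw [← ww_scale (sub_pos.2 ht), ← integral_const_mul]
  have e : ∀ n, (t - lam n) * ∫ x, (ψ x * u n x) ^ 2 =
      ∫ η, (t - lam n) * ‖FT (fun x => ψ x * u n x) η‖ ^ 2 := fun n => by
    rw [integral_const_mul, (m n).plancherel]
  simp only [e]
  rw [← integral_finsetSum s fun n _ => i n]
  refine integral_mono ((ww_int _).const_mul _) (integrable_finsetSum s fun n _ => i n) fun η => ?_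
  have a := sum_le_hasSum s (fun n hn => neg_nonneg.2 (mul_nonpos_of_nonpos_of_nonneg
    (sub_nonpos.2 (h2 n hn)) (sq_nonneg _))) (w_kr_pt hΩ hb hn h hψ t η).neg
  rw [Finset.sum_neg_distrib, neg_le_neg_iff] at a
  simp only [ww]
  rw [mul_max_of_nonneg _ _ (by positivity), mul_zero]
  refine max_le (le_trans (le_of_eq ?_) a)
    (Finset.sum_nonneg fun n hn => mul_nonneg (sub_nonneg.2 (h1 n hn)) (sq_nonneg _))
  field_simp
  ring

lemma w_test {Ω : Set E} (hΩ : IsOpen Ω) (hb : Bornology.IsBounded Ω) {δ : ℝ} (hδ : 0 < δ) :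
    ∃ ψ, IsTest Ω ψ ∧ (∀ x, ψ x ^ 2 ≤ 1) ∧ volume.real Ω - δ ≤ ∫ x, ψ x ^ 2 := by
  obtain ⟨K, h1, h2, h3⟩ := hΩ.measurableSet.exists_isCompact_lt_add (μ := volume)
    hb.measure_lt_top.ne (ENNReal.ofReal_pos.2 hδ).ne'
  obtain ⟨ψ, p1, p2, p3⟩ := exists_test hΩ h2 h1
  refine ⟨ψ, p1, fun x => by nlinarith [p3 x], ?_⟩
  have a : volume.real Ω ≤ volume.real K + δ := by
    have := ENNReal.toReal_mono (ENNReal.add_ne_top.2 ⟨h2.measure_lt_top.ne,
      ENNReal.ofReal_ne_top⟩) h3.le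
    rwa [ENNReal.toReal_add h2.measure_lt_top.ne ENNReal.ofReal_ne_top,
      ENNReal.toReal_ofReal hδ.le] at this
  have b : ∫ x in K, ψ x ^ 2 = volume.real K := by
    rw [setIntegral_congr_fun h2.measurableSet (g := fun _ => (1 : ℝ))
      fun x hx => by simp [p2 x hx]]
    simp
  have c : ∫ x in K, ψ x ^ 2 ≤ ∫ x, ψ x ^ 2 :=
    setIntegral_le_integral p1.sm.sq.integrable (Eventually.of_forall fun x => sq_nonneg _)
  linarith

lemma w_mass {Ω : Set E} (hΩ : IsOpen Ω) {u : ℕ → E → ℝ} {lam : ℕ → ℝ}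
    (h : DirichletBasis Ω u lam) {ψ : E → ℝ} (hψ : IsTest Ω ψ) (h1 : ∀ x, ψ x ^ 2 ≤ 1) (n : ℕ) :
    ∫ x in Ω \ tsupport ψ, u n x ^ 2 ≤ volume.real Ω - ∫ x, (ψ x * u n x) ^ 2 := by
  have i := (h.memLp hΩ n).integrable_sq
  have hA : ∫ x in Ω, u n x ^ 2 = volume.real Ω := by simp only [sq, h.orth, if_true]
  have m : MeasurableSet (tsupport ψ) := (isClosed_tsupport ψ).measurableSet
  rw [setIntegral_sdiff m i hψ.2.2, hA, ← setIntegral_eq_integral_of_forall_compl_eq_zero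
    (s := tsupport ψ) (f := fun x => (ψ x * u n x) ^ 2)
    fun x hx => by rw [image_eq_zero_of_notMem_tsupport hx]; simp]
  refine sub_le_sub_left (setIntegral_mono (sm_mul_on hΩ (h.smooth n) hψ).sq.integrable.integrableOn
    (IntegrableOn.mono_set i hψ.2.2) fun x => ?_) _
  simp only [mul_pow]
  nlinarith [h1 x, sq_nonneg (u n x)]

lemma w_weyl {Ω : Set E} (hΩ : IsOpen Ω) (hb : Bornology.IsBounded Ω) (hn : Ω.Nonempty)
    {u : ℕ → E → ℝ} {lam : ℕ → ℝ} (h : DirichletBasis Ω u lam) :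
    ∃ C : ℝ, 0 < C ∧ ∀ᶠ N : ℕ in atTop, lam N ≤ C * N := by
  have hA := vol_pos hΩ hb hn
  have hV := ww_pos
  obtain ⟨ψ, p1, p2, p3⟩ := w_test hΩ hb (half_pos hA)
  have ha : 0 < ∫ x, ψ x ^ 2 := by linarith
  have hc : 0 ≤ wen ψ / ∫ x, ψ x ^ 2 := div_nonneg (wen_nonneg ψ) ha.le
  refine ⟨4 / ((∫ x, ψ x ^ 2) * ∫ η, ww 1 η), by positivity, ?_⟩
  filter_upwards [h.tend.eventually_gt_atTop (2 * (wen ψ / ∫ x, ψ x ^ 2))] with N hN
  have k := w_kroeger hΩ hb hn h p1 ha (t := lam N) (by linarith) (s := Finset.range N)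
    (fun n hn => h.mono (Finset.mem_range.1 hn).le)
    fun n hn => h.mono (not_lt.1 (mt Finset.mem_range.2 hn))
  have hl : 0 < lam N := by linarith
  have k2 : ∑ n ∈ Finset.range N, (lam N - lam n) * ∫ x, (ψ x * u n x) ^ 2 ≤
      N * (lam N * volume.real Ω) := by
    refine (Finset.sum_le_card_nsmul _ _ (lam N * volume.real Ω) fun n _ => ?_).trans (by simp)
    have a := w_mass hΩ h p1 p2 n
    have b : 0 ≤ ∫ x in Ω \ tsupport ψ, u n x ^ 2 := integral_nonneg fun _ => sq_nonneg _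
    exact mul_le_mul (by linarith [w_lam_nonneg hΩ hb hn h n]) (by linarith)
      (integral_nonneg fun _ => sq_nonneg _) hl.le
  generalize wen ψ / ∫ x, ψ x ^ 2 = c at *
  generalize ∫ x, ψ x ^ 2 = a at *
  generalize ∫ η, ww 1 η = V at *
  have k3 : (lam N / 2) ^ 2 ≤ (lam N - c) ^ 2 := pow_le_pow_left₀ (by linarith) (by linarith) 2
  have k4 : volume.real Ω * a * ((lam N / 2) ^ 2 * V) ≤ N * (lam N * volume.real Ω) :=
    le_trans (by gcongr) (k.trans k2)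
  rw [div_mul_eq_mul_div, le_div_iff₀ (by positivity)]
  refine le_of_mul_le_mul_left ?_ (mul_pos hl hA)
  linarith

theorem w : S_W := by
  intro Ω u lam hΩ hb hn h
  obtain ⟨C, hC, hW⟩ := w_weyl hΩ hb hn h
  refine ⟨⟨C, hW⟩, fun ε hε => ?_, w_shift hΩ h⟩
  have hA := vol_pos hΩ hb hn
  have hV := ww_pos
  set δ := min (volume.real Ω / 2) (ε / (8 * volume.real Ω * (∫ η, ww 1 η) * C)) with hδ
  have d0 : 0 < δ := lt_min (half_pos hA) (by positivity)
  have d1 : δ ≤ volume.real Ω / 2 := min_le_left _ _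
  have d2 : δ * (8 * volume.real Ω * (∫ η, ww 1 η) * C) ≤ ε :=
    (le_div_iff₀ (by positivity)).1 (min_le_right _ _)
  obtain ⟨ψ, p1, p2, p3⟩ := w_test hΩ hb d0
  have ha : 0 < ∫ x, ψ x ^ 2 := by linarith
  have hc : 0 ≤ wen ψ / ∫ x, ψ x ^ 2 := div_nonneg (wen_nonneg ψ) ha.le
  refine ⟨tsupport ψ, p1.2.1, p1.2.2, ?_⟩
  filter_upwards [hW, h.tend.eventually_gt_atTop (wen ψ / ∫ x, ψ x ^ 2),
    (tendsto_natCast_atTop_atTop (R := ℝ)).eventually_ge_atTop
      (8 * volume.real Ω * (∫ η, ww 1 η) * wen ψ / ε)] with N q1 q2 q3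
  have hl : 0 < lam N := by linarith
  have ex : ∃ M, 2 * lam N ≤ lam M := (h.tend.eventually_ge_atTop _).exists
  have s1 : ∀ n ∈ Finset.range (Nat.find ex), lam n ≤ 2 * lam N := fun n hn =>
    (not_le.1 (Nat.find_min ex (Finset.mem_range.1 hn))).le
  have s2 : ∀ n ∉ Finset.range (Nat.find ex), 2 * lam N ≤ lam n := fun n hn =>
    (Nat.find_spec ex).trans (h.mono (not_lt.1 (mt Finset.mem_range.2 hn)))
  have s3 : Finset.range N ⊆ Finset.range (Nat.find ex) := fun n hn => by_contra fun k => by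
    linarith [s2 n k, h.mono (Finset.mem_range.1 hn).le]
  have k := w_kroeger hΩ hb hn h p1 ha (by linarith) s1 s2
  have b := w_berezin hΩ hb hn h (Finset.range (Nat.find ex)) (t := 2 * lam N) (by linarith)
  have z : ∀ n, 0 ≤ ∫ x in Ω \ tsupport ψ, u n x ^ 2 :=
    fun n => integral_nonneg fun _ => sq_nonneg _
  have c : lam N * ∑ n ∈ Finset.range N, ∫ x in Ω \ tsupport ψ, u n x ^ 2 ≤
      (∑ n ∈ Finset.range (Nat.find ex), (2 * lam N - lam n) * volume.real Ω) -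
      ∑ n ∈ Finset.range (Nat.find ex), (2 * lam N - lam n) * ∫ x, (ψ x * u n x) ^ 2 := by
    rw [← Finset.sum_sub_distrib, Finset.mul_sum]
    simp only [← mul_sub]
    refine le_trans (Finset.sum_le_sum fun n hn => ?_) (Finset.sum_le_sum_of_subset_of_nonneg s3
      fun n hn _ => mul_nonneg (sub_nonneg.2 (s1 n hn)) ((z n).trans (w_mass hΩ h p1 p2 n)))
    have := h.mono (Finset.mem_range.1 hn).le
    exact mul_le_mul (by linarith) (w_mass hΩ h p1 p2 n) (z n) (by linarith)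
  have e : wen ψ = wen ψ / (∫ x, ψ x ^ 2) * ∫ x, ψ x ^ 2 := by field_simp
  rw [div_le_iff₀ hε, e] at q3
  generalize wen ψ / ∫ x, ψ x ^ 2 = c0 at *
  generalize ∫ x, ψ x ^ 2 = a at *
  generalize ∫ η, ww 1 η = V at *
  generalize volume.real Ω = A at *
  refine le_of_mul_le_mul_left (c.trans ((sub_le_sub b k).trans ?_)) hl
  have f1 : (A - a) * lam N ≤ δ * (C * N) := mul_le_mul (by linarith) q1 hl.le d0.le
  have f2 : 0 ≤ A * V := by positivity
  have f3 := mul_le_mul_of_nonneg_left f1 f2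
  have f4 := mul_le_mul_of_nonneg_right d2 (Nat.cast_nonneg (α := ℝ) N)
  have f5 : 4 * (A * V) * ((A - a) * lam N + c0 * a) ≤ ε * N := by linarith
  have f6 := mul_le_mul_of_nonneg_left f5 hl.le
  have f7 : 0 ≤ A * V * (a * c0 ^ 2) := by positivity
  linarith

end

end Pool.Agent.P.MP_6b977f_mp
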