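import Pool.Agent.P.MP_6b977f_mp.QI

/-!
Weak form of the Dirichlet condition near a smooth boundary point.
-/

namespace Pool.Agent.P.MP_6b977f_mp

open Real MeasureTheory Filter Topology Laplacian
open scoped RealInnerProductSpace ContDiff

noncomputable section

lemma QWK_lim {μ : Measure E} {F : ℕ → E → ℝ} {f : E → ℝ} (hF : ∀ j, MemLp (F j) 2 μ)
    (hf : AEStronglyMeasurable f μ)
    (h : Tendsto (fun j => ∫⁻ x, ‖F j x - f x‖ₑ ^ 2 ∂μ) atTop (𝓝 0)) :
    MemLp f 2 μ ∧ ∀ g, MemLp g 2 μ →
      Tendsto (fun j => ∫ x, F j x * g x ∂μ) atTop (𝓝 (∫ x, f x * g x ∂μ)) := by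
  have e : ∀ j, eLpNorm (F j - f) 2 μ = (∫⁻ x, ‖F j x - f x‖ₑ ^ 2 ∂μ) ^ (1 / 2 : ℝ) := by
    intro j
    rw [eLpNorm_eq_lintegral_rpow_enorm_toReal (by norm_num) (by norm_num)]
    simp
  have t : Tendsto (fun j => eLpNorm (F j - f) 2 μ) atTop (𝓝 0) := by
    simp only [e]
    have := (ENNReal.continuous_rpow_const (y := (1 / 2 : ℝ))).tendsto 0
    rw [ENNReal.zero_rpow_of_pos (by norm_num)] at this
    exact this.comp h
  have m : MemLp f 2 μ := by
    obtain ⟨j, hj⟩ := (t.eventually (gt_mem_nhds ENNReal.zero_lt_top)).exists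
    have b : MemLp (F j - f) 2 μ := ⟨(hF j).1.sub hf, hj⟩
    simpa using (hF j).sub b
  refine ⟨m, fun g hg => ?_⟩
  have t2 := (Lp.tendsto_Lp_iff_tendsto_eLpNorm'' F hF f m).2 t
  have t3 := t2.inner (𝕜 := ℝ) (tendsto_const_nhds (x := hg.toLp g))
  simpa only [inner_toLp] using t3

lemma QWK_memLp {f : E → ℝ} (hf : Sm f) (Ω : Set E) : MemLp f 2 (volume.restrict Ω) :=
  (hf.continuous.memLp_of_hasCompactSupport hf.supp).restrict _

lemma QWK_D_le (j : Fin 2) (f g : E → ℝ) (z : E) :
    ‖D j f z - D j g z‖ₑ ≤ ‖fderiv ℝ f z - fderiv ℝ g z‖ₑ := by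
  have : D j f z - D j g z = (fderiv ℝ f z - fderiv ℝ g z) (EuclideanSpace.single j 1) := rfl
  rw [this, ← ofReal_norm, ← ofReal_norm]
  refine ENNReal.ofReal_le_ofReal ?_
  simpa using (fderiv ℝ f z - fderiv ℝ g z).le_opNorm (EuclideanSpace.single j 1)

/-- integration by parts for an element of the Sobolev space against a smooth function -/
lemma QWK_ibp {Ω : Set E} (hΩ : IsOpen Ω) {u : E → ℝ} (hu : ContDiffOn ℝ ∞ u Ω)
    (h : InH10 Ω u) (j : Fin 2) : MemLp (D j u) 2 (volume.restrict Ω) ∧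
      ∀ g, Sm g → ∫ z in Ω, u z * D j g z = -∫ z in Ω, D j u z * g z := by
  obtain ⟨φ, h1, h2⟩ := h
  have a := QWK_lim (μ := volume.restrict Ω) (F := φ) (f := u)
    (fun n => QWK_memLp (h1 n).sm Ω) (hu.continuousOn.aestronglyMeasurable hΩ.measurableSet)
    (tendsto_of_tendsto_of_tendsto_of_le_of_le tendsto_const_nhds h2 (fun _ => zero_le)
      fun n => lintegral_mono fun z => le_self_add)
  have b := QWK_lim (μ := volume.restrict Ω) (F := fun n => D j (φ n)) (f := D j u)
    (fun n => QWK_memLp ((h1 n).sm.D j) Ω)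
    (measurable_fderiv_apply_const ℝ u _).aestronglyMeasurable
    (tendsto_of_tendsto_of_tendsto_of_le_of_le tendsto_const_nhds h2 (fun _ => zero_le)
      fun n => lintegral_mono fun z => le_add_left (by gcongr; exact QWK_D_le j _ _ z))
  refine ⟨b.1, fun g hg => ?_⟩
  refine tendsto_nhds_unique (a.2 _ (QWK_memLp (hg.D j) Ω)) ?_
  refine ((b.2 _ (QWK_memLp hg Ω)).neg).congr fun n => ?_
  rw [setIntegral_eq_integral_of_forall_compl_eq_zero fun z hz => by
      rw [image_eq_zero_of_notMem_tsupport (mt (fun h => ((h1 n).D j).2.2 h) hz), zero_mul],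
    setIntegral_eq_integral_of_forall_compl_eq_zero fun z hz => by
      rw [image_eq_zero_of_notMem_tsupport (mt (fun h => (h1 n).2.2 h) hz), zero_mul],
    (h1 n).sm.ibp hg]

/-- the integrand of the weak equation -/
def QWKform (u : E → ℝ) (lam : ℝ) (w : E → ℝ) (z : E) : ℝ :=
  lam * (u z * w z) - D 0 u z * D 0 w z - D 1 u z * D 1 w z

lemma QWK_weak {Ω : Set E} (hΩ : IsOpen Ω) {u : E → ℝ} (hu : ContDiffOn ℝ ∞ u Ω)
    (h : InH10 Ω u) (lam : ℝ) {w : E → ℝ} (hw : Sm w) :
    ∫ z in Ω, u z * (Δ w z + lam * w z) = ∫ z in Ω, QWKform u lam w z := by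
  have m := h.memLp hΩ hu
  obtain ⟨m0, e0⟩ := QWK_ibp hΩ hu h 0
  obtain ⟨m1, e1⟩ := QWK_ibp hΩ hu h 1
  have i0 : Integrable (fun z => u z * D 0 (D 0 w) z) (volume.restrict Ω) :=
    m.integrable_mul (QWK_memLp ((hw.D 0).D 0) Ω)
  have i1 : Integrable (fun z => u z * D 1 (D 1 w) z) (volume.restrict Ω) :=
    m.integrable_mul (QWK_memLp ((hw.D 1).D 1) Ω)
  have i2 : Integrable (fun z => lam * (u z * w z)) (volume.restrict Ω) :=
    (m.integrable_mul (QWK_memLp hw Ω)).const_mul lam
  have j0 : Integrable (fun z => D 0 u z * D 0 w z) (volume.restrict Ω) :=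
    m0.integrable_mul (QWK_memLp (hw.D 0) Ω)
  have j1 : Integrable (fun z => D 1 u z * D 1 w z) (volume.restrict Ω) :=
    m1.integrable_mul (QWK_memLp (hw.D 1) Ω)
  have e : ∀ z, u z * (Δ w z + lam * w z) =
      u z * D 0 (D 0 w) z + u z * D 1 (D 1 w) z + lam * (u z * w z) := fun z => by
    rw [lap_eq hw]; ring
  have i3 : Integrable (fun z => u z * D 0 (D 0 w) z + u z * D 1 (D 1 w) z)
    (volume.restrict Ω) := i0.add i1
  have j3 : Integrable (fun z => lam * (u z * w z) - D 0 u z * D 0 w z)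
    (volume.restrict Ω) := i2.sub j0
  simp only [e, QWKform]
  rw [integral_add i3 i2, integral_add i0 i1, e0 _ (hw.D 0), e1 _ (hw.D 1), integral_sub j3 j1,
    integral_sub i2 j0]
  ring

lemma QWK_rho_smooth (y ν : E) {φ : ℝ → ℝ} (hφ : ContDiff ℝ ∞ φ) : ContDiff ℝ ∞ (rho y ν φ) := by
  have a : ∀ n : E, ContDiff ℝ ∞ fun x : E => ⟪x - y, n⟫ := fun n =>
    (contDiff_id.sub contDiff_const).inner ℝ contDiff_const
  exact (a ν).sub (hφ.comp (a (rot ν)))

lemma QWK_rho_foot (y : E) {ν : E} (hν : ‖ν‖ = 1) (φ : ℝ → ℝ) (z : E) :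
    rho y ν φ (z - rho y ν φ z • ν) = 0 := by
  have h0 : ⟪ν, rot ν⟫ = 0 := by
    simp [rot, PiLp.inner_apply, Fin.sum_univ_two]
    ring
  have h1 : ⟪ν, ν⟫ = 1 := by rw [real_inner_self_eq_norm_sq, hν]; norm_num
  have e : ∀ n : E, ⟪z - rho y ν φ z • ν - y, n⟫ = ⟪z - y, n⟫ - rho y ν φ z * ⟪ν, n⟫ := fun n => by
    rw [sub_right_comm, inner_sub_left, real_inner_smul_left]
  rw [rho, e, e, h0, h1, rho]
  simp

lemma QWK_theta : ∃ M : ℝ, 0 ≤ M ∧ ∀ t, |deriv smoothTransition t * (t + 1)| ≤ M := by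
  have c : Continuous fun t => deriv smoothTransition t * (t + 1) :=
    ((smoothTransition.contDiff (n := 1)).continuous_deriv le_rfl).mul
      (continuous_id.add continuous_const)
  obtain ⟨M, hM⟩ := (isCompact_Icc (a := (0 : ℝ)) (b := 1)).exists_bound_of_continuousOn
    c.continuousOn
  have M0 : 0 ≤ M := (norm_nonneg _).trans (hM 0 (by simp))
  refine ⟨M, M0, fun t => ?_⟩
  by_cases ht : t ∈ Set.Icc (0 : ℝ) 1
  · exact hM t ht
  · have : deriv smoothTransition t = 0 := by
      rcases not_and_or.1 ht with h | h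
      · have : smoothTransition =ᶠ[𝓝 t] fun _ => 0 :=
          (gt_mem_nhds (not_le.1 h)).mono fun s hs => smoothTransition.zero_of_nonpos hs.le
        rw [this.deriv_eq, deriv_const]
      · have : smoothTransition =ᶠ[𝓝 t] fun _ => 1 :=
          (lt_mem_nhds (not_le.1 h)).mono fun s hs => smoothTransition.one_of_one_le hs.le
        rw [this.deriv_eq, deriv_const]
    simpa [this] using M0

lemma QWK_D_cut {w ρ : E → ℝ} (hw : ContDiff ℝ ∞ w) (hρ : ContDiff ℝ ∞ ρ) (c : ℝ) (j : Fin 2)
    (z : E) : D j (fun x => smoothTransition (c * ρ x - 1) * w x) z =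
      smoothTransition (c * ρ z - 1) * D j w z +
        w z * (deriv smoothTransition (c * ρ z - 1) * (c * D j ρ z)) := by
  have a := (hw.differentiable (by simp) z).hasFDerivAt
  have b := ((hρ.differentiable (by simp) z).hasFDerivAt.const_mul c).sub_const 1
  have d := (((smoothTransition.contDiff (n := 1)).differentiable (by simp))
    (c * ρ z - 1)).hasDerivAt.comp_hasFDerivAt z b
  have := (d.mul a).fderiv
  unfold D
  rw [show (fun x => smoothTransition (c * ρ x - 1) * w x) =
    (smoothTransition ∘ fun x => c * ρ x - 1) * w from rfl, this]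
  simp

theorem wk : S_WK := by
  intro Ω u lam hΩ hu hH h y ν φ r hc v hv hv0 hv1
  obtain ⟨hν, hr, hφ, -, -, hc⟩ := hc
  set ρ := rho y ν φ with hρ
  have sρ : ContDiff ℝ ∞ ρ := QWK_rho_smooth y ν hφ
  set w := (Metric.ball y r).indicator v with hw
  have wv : ∀ z ∈ Metric.ball y r, w =ᶠ[𝓝 z] v := fun z hz =>
    (Metric.isOpen_ball.eventually_mem hz).mono fun x hx => Set.indicator_of_mem hx v
  have w0 : ∀ z, z ∉ Metric.closedBall y (r / 2) → w z = 0 := fun z hz => by
    by_cases hb : z ∈ Metric.ball y r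
    · rw [hw, Set.indicator_of_mem hb]
      exact hv1 z hb (not_le.1 hz).le
    · exact Set.indicator_of_notMem hb v
  have sub : Metric.closedBall y (r / 2) ⊆ Metric.ball y r :=
    Metric.closedBall_subset_ball (by linarith)
  have ts : tsupport w ⊆ Metric.closedBall y (r / 2) :=
    closure_minimal (fun z hz => by_contra fun hh => hz (w0 z hh)) Metric.isClosed_closedBall
  have sw : Sm w := by
    refine ⟨contDiff_iff_contDiffAt.2 fun z => ?_,
      (isCompact_closedBall y (r / 2)).of_isClosed_subset (isClosed_tsupport w) ts⟩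
    by_cases hz : z ∈ Metric.ball y r
    · exact hv.contDiffAt.congr_of_eventuallyEq (wv z hz)
    · exact (contDiffAt_const (c := (0 : ℝ))).congr_of_eventuallyEq
        (notMem_tsupport_iff_eventuallyEq.1 fun hh => hz (sub (ts hh)))
  have tw : IsTest (Metric.closedBall y (r / 2)) w := ⟨sw.smooth, sw.supp, ts⟩
  have red : ∫ z in Ω ∩ Metric.ball y r, u z * (Δ v z + lam * v z) =
      ∫ z in Ω, u z * (Δ w z + lam * w z) := by
    rw [setIntegral_eq_of_subset_of_forall_sdiff_eq_zero hΩ.measurableSet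
      (Set.inter_subset_left (t := Metric.ball y r))]
    · refine setIntegral_congr_fun (hΩ.inter Metric.isOpen_ball).measurableSet fun z hz => ?_
      simp only [(InnerProductSpace.laplacian_congr_nhds (wv z hz.2)).eq_of_nhds,
        (wv z hz.2).eq_of_nhds]
    · intro z hz
      have hz' : z ∉ Metric.closedBall y (r / 2) := fun hh => hz.2 ⟨hz.1, sub hh⟩
      rw [lap_eq sw, w0 z hz',
        image_eq_zero_of_notMem_tsupport (mt (fun h => ((tw.D 0).D 0).2.2 h) hz'),
        image_eq_zero_of_notMem_tsupport (mt (fun h => ((tw.D 1).D 1).2.2 h) hz')]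
      ring
  rw [red, QWK_weak hΩ hu h lam sw]
  obtain ⟨K, hK⟩ := ContDiff.lipschitzWith_of_hasCompactSupport sw.supp sw.smooth (by simp)
  have lin : ∀ z, |w z| ≤ K * |ρ z| := fun z => by
    have z0 : w (z - ρ z • ν) = 0 := by
      by_cases hb : z - ρ z • ν ∈ Metric.ball y r
      · rw [hw, Set.indicator_of_mem hb]
        exact hv0 _ hb (QWK_rho_foot y hν φ z)
      · exact Set.indicator_of_notMem hb v
    have := hK.dist_le_mul z (z - ρ z • ν)
    rw [z0, dist_zero_right, dist_eq_norm, sub_sub_cancel, norm_smul, hν, mul_one] at this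
    exact this
  set W : ℕ → E → ℝ := fun n x => smoothTransition ((n : ℝ) * ρ x - 1) * w x with hW
  have tW : ∀ n, IsTest Ω (W n) := fun n => by
    have s : ContDiff ℝ ∞ fun x => smoothTransition ((n : ℝ) * ρ x - 1) :=
      smoothTransition.contDiff.comp ((contDiff_const.mul sρ).sub contDiff_const)
    have t := tw.mul_left s
    refine ⟨t.1, t.2.1, fun z hz => ?_⟩
    have h1 : tsupport (W n) ⊆ {x | 1 ≤ (n : ℝ) * ρ x} := by
      refine closure_minimal (fun x hx => by_contra fun hh => hx ?_)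
        (isClosed_le continuous_const (continuous_const.mul sρ.continuous))
      have hh' : ¬ 1 ≤ (n : ℝ) * ρ x := hh
      have : (n : ℝ) * ρ x - 1 ≤ 0 := by linarith [not_le.1 hh']
      simp only [hW, smoothTransition.zero_of_nonpos this, zero_mul]
    have h2 : 0 < ρ z := by
      by_contra hh
      have := mul_nonpos_of_nonneg_of_nonpos (Nat.cast_nonneg (α := ℝ) n) (not_lt.1 hh)
      have h3 : 1 ≤ (n : ℝ) * ρ z := h1 hz
      linarith
    exact (hc z (sub (t.2.2 hz))).2 (sub_pos.1 h2)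
  have zero : ∀ n, ∫ z in Ω, QWKform u lam (W n) z = 0 := fun n => by
    rw [← QWK_weak hΩ hu h lam (tW n).sm, green_test hΩ hu hH (tW n)]
  obtain ⟨χ, hχ, χ1, χ0⟩ := exists_test isOpen_univ (isCompact_closedBall y (r / 2))
    (Set.subset_univ _)
  obtain ⟨M, M0, hM⟩ := QWK_theta
  have bd : ∀ j : Fin 2, ∃ C : ℝ, ∀ n z, |D j (W n) z| ≤ C * χ z := fun j => by
    obtain ⟨A, A0, hA⟩ := (sw.D j).bound
    have c : Continuous (D j ρ) :=
      ((sρ.fderiv_right (m := ∞) (by simp)).clm_apply contDiff_const).continuous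
    obtain ⟨R, hR⟩ := (isCompact_closedBall y (r / 2)).exists_bound_of_continuousOn c.continuousOn
    have R0 : 0 ≤ R := (norm_nonneg _).trans (hR y (Metric.mem_closedBall_self (by linarith)))
    refine ⟨A + K * M * R, fun n z => ?_⟩
    rw [hW, QWK_D_cut sw.smooth sρ]
    by_cases hz : z ∈ Metric.closedBall y (r / 2)
    · rw [χ1 z hz, mul_one]
      refine (abs_add_le _ _).trans (add_le_add ?_ ?_)
      · rw [abs_mul, abs_of_nonneg (smoothTransition.nonneg _)]
        exact (mul_le_of_le_one_left (abs_nonneg _) (smoothTransition.le_one _)).trans (hA z)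
      · have h1 := hM ((n : ℝ) * ρ z - 1)
        have h2 : |D j ρ z| ≤ R := hR z hz
        rw [sub_add_cancel, abs_mul, abs_mul] at h1
        rw [abs_mul, abs_mul, abs_mul]
        calc |w z| * (|deriv smoothTransition (n * ρ z - 1)| * (|(n : ℝ)| * |D j ρ z|))
            ≤ K * |ρ z| * (|deriv smoothTransition (n * ρ z - 1)| * (|(n : ℝ)| * R)) := by
              gcongr
              exact lin z
          _ = K * (|deriv smoothTransition (n * ρ z - 1)| * (|(n : ℝ)| * |ρ z|)) * R := by ring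
          _ ≤ K * M * R := by gcongr
    · rw [w0 z hz, image_eq_zero_of_notMem_tsupport (mt (fun h => (tw.D j).2.2 h) hz)]
      simp only [mul_zero, zero_mul, add_zero, abs_zero]
      exact mul_nonneg (by positivity) (χ0 z).1
  obtain ⟨C0, hC0⟩ := bd 0
  obtain ⟨C1, hC1⟩ := bd 1
  obtain ⟨A, A0, hA⟩ := sw.bound
  have bW : ∀ n z, |W n z| ≤ A * χ z := fun n z => by
    rw [hW]
    by_cases hz : z ∈ Metric.closedBall y (r / 2)
    · rw [χ1 z hz, mul_one, abs_mul, abs_of_nonneg (smoothTransition.nonneg _)]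
      exact (mul_le_of_le_one_left (abs_nonneg _) (smoothTransition.le_one _)).trans (hA z)
    · simp only [w0 z hz, mul_zero, abs_zero]
      exact mul_nonneg A0 (χ0 z).1
  have m := h.memLp hΩ hu
  have m0 := (QWK_ibp hΩ hu h 0).1
  have m1 := (QWK_ibp hΩ hu h 1).1
  have mχ := QWK_memLp hχ.sm Ω
  have lim := tendsto_integral_of_dominated_convergence (μ := volume.restrict Ω)
    (F := fun n => QWKform u lam (W n)) (f := QWKform u lam w)
    (fun z => |lam| * A * (|u z| * χ z) + C0 * (|D 0 u z| * χ z) + C1 * (|D 1 u z| * χ z))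
    (fun n => (((m.1.mul (tW n).sm.continuous.aestronglyMeasurable).const_mul lam).sub
      (m0.1.mul ((tW n).sm.D 0).continuous.aestronglyMeasurable)).sub
      (m1.1.mul ((tW n).sm.D 1).continuous.aestronglyMeasurable))
    ((((m.abs.integrable_mul mχ).const_mul _).add ((m0.abs.integrable_mul mχ).const_mul _)).add
      ((m1.abs.integrable_mul mχ).const_mul _))
    (fun n => Eventually.of_forall fun z => by
      rw [Real.norm_eq_abs, QWKform]
      refine (abs_sub _ _).trans (add_le_add ((abs_sub _ _).trans (add_le_add ?_ ?_)) ?_)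
      · rw [abs_mul, abs_mul]
        calc |lam| * (|u z| * |W n z|) ≤ |lam| * (|u z| * (A * χ z)) := by
              gcongr
              exact bW n z
          _ = _ := by ring
      · rw [abs_mul]
        calc |D 0 u z| * |D 0 (W n) z| ≤ |D 0 u z| * (C0 * χ z) := by
              gcongr
              exact hC0 n z
          _ = _ := by ring
      · rw [abs_mul]
        calc |D 1 u z| * |D 1 (W n) z| ≤ |D 1 u z| * (C1 * χ z) := by
              gcongr
              exact hC1 n z
          _ = _ := by ring)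
    ((ae_restrict_mem hΩ.measurableSet).mono fun z hz => by
      have ev : ∀ᶠ n : ℕ in atTop, W n =ᶠ[𝓝 z] w := by
        by_cases hb : z ∈ Metric.ball y r
        · have p : 0 < ρ z := sub_pos.2 ((hc z hb).1 hz)
          filter_upwards [(tendsto_natCast_atTop_atTop.atTop_mul_const p).eventually_gt_atTop 2]
            with n hn
          have c : Continuous fun x => (n : ℝ) * ρ x := continuous_const.mul sρ.continuous
          filter_upwards [c.continuousAt.eventually (lt_mem_nhds hn)] with x hx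
          have : 1 ≤ (n : ℝ) * ρ x - 1 := by linarith
          simp only [hW, smoothTransition.one_of_one_le this, one_mul]
        · refine Eventually.of_forall fun n => ?_
          filter_upwards [notMem_tsupport_iff_eventuallyEq.1 fun hh => hb (sub (ts hh))] with x hx
          simp only [hW, hx, Pi.zero_apply, mul_zero]
      refine tendsto_const_nhds.congr' (ev.mono fun n hn => ?_)
      simp only [QWKform, D, hn.eq_of_nhds, hn.fderiv_eq])
  simp only [zero] at lim
  exact tendsto_nhds_unique lim tendsto_const_nhds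

end

end Pool.Agent.P.MP_6b977f_mp
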