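import Pool.Agent.P.MP_6b977f_mp.QI

/-!
Extraction of a subsequence of full density.
-/

namespace Pool.Agent.P.MP_6b977f_mp

open Filter Topology

noncomputable section

/-- indices at which one of the first `i + 1` sequences is not small -/
def QXbad (q : ℕ → ℕ → ℝ) (i n : ℕ) : Prop := ∃ i' ≤ i, 1 / ((i : ℝ) + 1) ≤ |q i' n|

lemma QXbad_mono (q : ℕ → ℕ → ℝ) {i k n : ℕ} (h : i ≤ k) (hb : QXbad q i n) : QXbad q k n := by
  obtain ⟨i', h1, h2⟩ := hb
  refine ⟨i', h1.trans h, le_trans ?_ h2⟩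
  have : (i : ℝ) ≤ k := by exact_mod_cast h
  gcongr

open Classical in
lemma QX_cheb (q : ℕ → ℕ → ℝ) (hq : ∀ i, ∀ ε > 0, ∀ᶠ N : ℕ in atTop,
      ∑ n ∈ Finset.range N, q i n ^ 2 ≤ ε * N) (i : ℕ) :
    ∃ M : ℕ, ∀ N ≥ M, (((Finset.range N).filter (QXbad q i)).card : ℝ) ≤ N / ((i : ℝ) + 1) := by
  have hi : (0 : ℝ) < (i : ℝ) + 1 := by positivity
  have h1 : ∀ᶠ N : ℕ in atTop, ∀ i' ∈ Finset.range (i + 1),
      ∑ n ∈ Finset.range N, q i' n ^ 2 ≤ (1 / ((i : ℝ) + 1)) ^ 4 * N :=
    (Finset.eventually_all _).2 fun i' _ => hq i' _ (by positivity)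
  obtain ⟨M, hM⟩ := eventually_atTop.1 h1
  refine ⟨M, fun N hN => ?_⟩
  have h2 : (((Finset.range N).filter (QXbad q i)).card : ℝ) * (1 / ((i : ℝ) + 1)) ^ 2 ≤
      ∑ n ∈ Finset.range N, ∑ i' ∈ Finset.range (i + 1), q i' n ^ 2 := by
    rw [← nsmul_eq_mul, ← Finset.sum_const]
    refine le_trans (Finset.sum_le_sum fun n hn => ?_)
      (Finset.sum_le_sum_of_subset_of_nonneg (Finset.filter_subset _ _)
        fun n _ _ => Finset.sum_nonneg fun _ _ => sq_nonneg _)
    obtain ⟨i', h1, h2⟩ := (Finset.mem_filter.1 hn).2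
    refine le_trans ?_ (Finset.single_le_sum (f := fun i' => q i' n ^ 2)
      (fun _ _ => sq_nonneg _) (Finset.mem_range.2 (Nat.lt_succ_of_le h1)))
    rw [← sq_abs (q i' n)]
    gcongr
  rw [Finset.sum_comm] at h2
  have h3 : ∑ i' ∈ Finset.range (i + 1), ∑ n ∈ Finset.range N, q i' n ^ 2 ≤
      ((i : ℝ) + 1) * ((1 / ((i : ℝ) + 1)) ^ 4 * N) := by
    refine (Finset.sum_le_sum (hM N hN)).trans (le_of_eq ?_)
    rw [Finset.sum_const, Finset.card_range, nsmul_eq_mul]
    push_cast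
    ring
  have h4 := h2.trans h3
  have e : ((i : ℝ) + 1) * ((1 / ((i : ℝ) + 1)) ^ 4 * N) =
      N / ((i : ℝ) + 1) * (1 / ((i : ℝ) + 1)) ^ 2 := by field_simp
  rw [e] at h4
  exact le_of_mul_le_mul_right h4 (by positivity)

theorem x : S_X := by
  classical
  intro q hq
  choose M hM using QX_cheb q hq
  set l : ℕ → ℕ := fun n => Nat.findGreatest (fun i => ∀ j ≤ i, M j ≤ n) n with hl
  have lmono : Monotone l := fun a b hab =>
    Nat.findGreatest_mono (fun i hi j hj => (hi j hj).trans hab) hab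
  have ltop : Tendsto l atTop atTop := by
    refine tendsto_atTop_atTop.2 fun i => ⟨max i ((Finset.range (i + 1)).sup M), fun n hn => ?_⟩
    refine Nat.le_findGreatest (le_of_max_le_left hn) fun j hj => ?_
    exact (Finset.le_sup (f := M) (Finset.mem_range.2 (Nat.lt_succ_of_le hj))).trans
      (le_of_max_le_right hn)
  have lspec : ∀ n ≥ M 0, M (l n) ≤ n := fun n hn =>
    Nat.findGreatest_spec (P := fun i => ∀ j ≤ i, M j ≤ n) (Nat.zero_le n)
      (fun j hj => by rwa [Nat.le_zero.1 hj]) (l n) le_rfl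
  set p : ℕ → Prop := fun n => ¬ QXbad q (l n) n with hp
  set b : ℕ → ℝ := fun N => (((Finset.range N).filter (fun n => ¬ p n)).card : ℝ) with hb
  have hb0 : ∀ N, 0 ≤ b N := fun N => Nat.cast_nonneg _
  have hbl : ∀ N ≥ M 0, b N ≤ N / ((l N : ℝ) + 1) := by
    intro N hN
    refine le_trans ?_ (hM (l N) N (lspec N hN))
    refine Nat.cast_le.2 (Finset.card_le_card fun n hn => ?_)
    rw [Finset.mem_filter] at hn ⊢
    exact ⟨hn.1, QXbad_mono q (lmono (Finset.mem_range.1 hn.1).le) (not_not.1 hn.2)⟩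
  have hcount : ∀ N, (Nat.count p N : ℝ) = N - b N := by
    intro N
    rw [Nat.count_eq_card_filter_range, eq_sub_iff_add_eq, hb]
    have := Finset.card_filter_add_card_filter_not (s := Finset.range N) p
    rw [Finset.card_range] at this
    beta_reduce
    exact_mod_cast this
  have hinv : Tendsto (fun N => 1 / ((l N : ℝ) + 1)) atTop (𝓝 0) :=
    tendsto_one_div_add_atTop_nhds_zero_nat.comp ltop
  have hbN : Tendsto (fun N : ℕ => b N / N) atTop (𝓝 0) := by
    refine squeeze_zero' (Eventually.of_forall fun N => div_nonneg (hb0 N) (Nat.cast_nonneg _))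
      ?_ hinv
    filter_upwards [eventually_ge_atTop (M 0), eventually_gt_atTop 0] with N h1 h2
    have h3 : (0 : ℝ) < N := by exact_mod_cast h2
    rw [div_le_iff₀ h3]
    refine (hbl N h1).trans (le_of_eq ?_)
    ring
  have hinf : {n | p n}.Infinite := by
    intro hfin
    have h1 : ∀ N, (Nat.count p N : ℝ) ≤ hfin.toFinset.card := fun N => by
      exact_mod_cast Nat.count_le_card hfin N
    have h2 := (hbN.eventually (gt_mem_nhds (by norm_num : (0 : ℝ) < 1 / 2))).and
      (eventually_gt_atTop (2 * hfin.toFinset.card))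
    obtain ⟨N, h3, h4⟩ := h2.exists
    have h5 : (2 * hfin.toFinset.card : ℝ) < N := by exact_mod_cast h4
    have h6 : (0 : ℝ) < N := lt_of_le_of_lt (by positivity) h5
    rw [div_lt_iff₀ h6] at h3
    have := h1 N
    rw [hcount] at this
    linarith
  have hs : StrictMono (Nat.nth p) := Nat.nth_strictMono hinf
  refine ⟨Nat.nth p, ⟨hs, ?_⟩, fun i => ?_⟩
  · have e : ∀ N : ℕ, (({j | Nat.nth p j ≤ N} : Set ℕ).ncard : ℝ) = (N + 1 : ℕ) - b (N + 1) := by
      intro N
      have : ({j | Nat.nth p j ≤ N} : Set ℕ) = ↑(Finset.range (Nat.count p (N + 1))) := by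
        ext j
        simp only [Set.mem_ofPred_eq, Finset.coe_range, Set.mem_Iio]
        rw [Nat.lt_nth_iff_count_lt hinf, Nat.lt_succ_iff]
      rw [this, Set.ncard_coe_finset, Finset.card_range, hcount]
    have t1 : Tendsto (fun N : ℕ => b (N + 1) / ((N + 1 : ℕ) : ℝ)) atTop (𝓝 0) :=
      hbN.comp (tendsto_add_atTop_nat 1)
    have t2 : Tendsto (fun N : ℕ => 1 + (N : ℝ)⁻¹) atTop (𝓝 (1 + 0)) :=
      tendsto_const_nhds.add tendsto_inv_atTop_nhds_zero_nat
    have t3 := t2.mul ((tendsto_const_nhds (x := (1 : ℝ))).sub t1)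
    simp only [add_zero, sub_zero, mul_one] at t3
    refine t3.congr' ?_
    filter_upwards [eventually_gt_atTop 0] with N hN
    have h3 : (0 : ℝ) < N := by exact_mod_cast hN
    rw [e]
    push_cast
    field_simp
  · have t := (ltop.comp hs.tendsto_atTop).eventually (eventually_ge_atTop i)
    refine squeeze_zero_norm' ?_ (hinv.comp hs.tendsto_atTop)
    filter_upwards [t] with j hj
    have h1 : p (Nat.nth p j) := Nat.nth_mem_of_infinite hinf j
    rw [Real.norm_eq_abs]
    by_contra h2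
    exact h1 ⟨i, hj, (not_le.1 h2).le⟩

end

end Pool.Agent.P.MP_6b977f_mp
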