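import Pool.Agent.P.MP_6b977f_mp.QO2
import Pool.Agent.P.MP_6b977f_mp.QD1
import Pool.Agent.P.MP_6b977f_mp.QD2
import Pool.Agent.P.MP_6b977f_mp.QW
import Pool.Agent.P.MP_6b977f_mp.QWK
import Pool.Agent.P.MP_6b977f_mp.QX

/-!
Quantum ergodicity for Dirichlet eigenfunctions of an ergodic billiard.
-/

namespace Pool.Agent.P.MP_6b977f_mp

open Real MeasureTheory Filter Topology Laplacian
open scoped RealInnerProductSpace ContDiff

noncomputable section

lemma refl_snd : Refl Prod.snd := ⟨contDiff_snd, fun _ _ _ => rfl, fun _ _ => rfl, fun _ _ => rfl⟩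

lemma refl_eq (n w : E) : refl n w = (ℝ ∙ n)ᗮ.reflection w := by
  rw [Submodule.reflection_orthogonal_apply, Submodule.reflection_singleton_apply, refl, neg_sub,
    real_inner_comm, two_smul, ← add_smul]
  congr 2
  simp only [RCLike.ofReal_real_eq_id, id]
  ring

lemma refl_nrm {y ν : E} {φ : ℝ → ℝ} (hν : ‖ν‖ = 1) (hφ : ContDiff ℝ ∞ φ) :
    Refl fun p => refl (nrm y ν φ p.1) p.2 := by
  have h0 : ∀ x, ‖nrm y ν φ x‖ ^ 2 ≠ 0 := fun x => by rw [norm_nrm hν]; positivity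
  have sn : ContDiff ℝ ∞ fun p : E × E => nrm y ν φ p.1 := (sm_nrm hφ).comp contDiff_fst
  have s1 : ContDiff ℝ ∞ fun p : E × E => 2 * ⟪p.2, nrm y ν φ p.1⟫ / ‖nrm y ν φ p.1‖ ^ 2 :=
    (contDiff_const.mul (contDiff_snd.inner ℝ sn)).div (sn.norm_sq ℝ) fun p => h0 _
  refine ⟨contDiff_snd.sub (s1.smul sn), fun x u v => D2.refl_inner (nrm y ν φ x) u v,
    fun x u => D2.refl_refl (n := nrm y ν φ x) (fun h => h0 x (by simp [h])) u, fun x F => ?_⟩
  simp only [refl_eq]
  exact (ℝ ∙ nrm y ν φ x)ᗮ.reflection.measurePreserving.integral_comp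
    (ℝ ∙ nrm y ν φ x)ᗮ.reflection.toHomeomorph.measurableEmbedding F

lemma J0_le (v : E) : |J0 v| ≤ 1 := by
  have := norm_integral_le_of_norm_le_const (μ := om) (f := fun x => ex ⟪x, v⟫) (C := 1)
    (Eventually.of_forall fun x => (norm_ex _).le)
  simpa [integral_om_ex] using this

lemma J0_lip (v w : E) : |J0 v - J0 w| ≤ ‖v - w‖ := by
  have i : ∀ v : E, Integrable (fun x => ex ⟪x, v⟫) om := fun v => Integrable.of_bound
    (Continuous.aestronglyMeasurable (by fun_prop)) 1 (Eventually.of_forall fun x => (norm_ex _).le)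
  have := norm_integral_le_of_norm_le_const (μ := om) (f := fun x => ex ⟪x, v⟫ - ex ⟪x, w⟫)
    (C := ‖v - w‖) (ae_om_norm.mono fun x hx => (W2.norm_ex_sub _ _).trans (by
      rw [← inner_sub_right, real_inner_comm]
      exact abs_inner_le hx _))
  rw [integral_sub (i v) (i w), integral_om_ex, integral_om_ex, ← Complex.ofReal_sub,
    Complex.norm_real] at this
  simpa using this

namespace Ctx

variable {Ω : Set E} {u : ℕ → E → ℝ} {lam : ℕ → ℝ} (h : Ctx Ω u lam) (he : ErgodicBilliard Ω)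
include h he

lemma lim_zero {𝒰 : Ultrafilter ℕ} (hU : (𝒰 : Filter ℕ) ≤ atTop) {p : BoundedContinuousFunction ℕ ℝ}
    {Λ : BoundedContinuousFunction ℕ ℝ →L[ℝ] ℝ} (hΛ : IsLim 𝒰 p Λ) : ∃ c : ℂ, ∀ a, ContDiff ℝ ∞ a →
      ∀ v, (Λ (bs (cr Ω u lam a v)) : ℂ) = c * ((∫ x in Ω, a x : ℝ) * J0 v) := by
  obtain ⟨f, hf, hd⟩ := h.density hU hΛ
  have key : ∀ R a, Refl R → Sm a → (∀ c M, Symb (tsupport a) M (bet R a c) → 0 ≤ M →
      Small fun n => ∫ w, cr Ω u lam (fun x => gam (bet R a c) (x, w)) w n) → ∀ m, Sm m →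
      ∀ T : ℂ →L[ℝ] ℝ, ∫ q, T (f q) * fderiv ℝ (fun x => a x * (m q.2 + m (R (x, q.2)))) q.1 q.2
        ∂(liouville Ω) = 0 := by
    intro R a hR ha hs m hm T
    refine (h.weak hf hR ha (fun c hc => ?_) hm).elim fun i e => ?_
    swap
    · have := T.integral_comp_comm i
      rw [e, map_zero] at this
      refine Eq.trans ?_ this
      congr 1
      ext q
      rw [mul_comm (f q), ← Complex.real_smul, map_smul, smul_eq_mul, mul_comm]
    · obtain ⟨M, hM, -, hβ⟩ := hR.symb ha hc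
      have sγ : ContDiff ℝ ∞ (gam (bet R a c)) := ContDiff.sum fun _ _ =>
        ((sm_fderiv (sm_fderiv hβ.sm)).clm_apply contDiff_const).clm_apply contDiff_const
      have := h.transport hU hΛ hβ.cont_gam (HasCompactSupport.intro (hβ.cpt.prod
        (isCompact_closedBall (0 : E) M)) fun q hq => hβ.gam_zero (by simpa using hq))
        (hs c M hβ hM)
      rw [← Complex.ofReal_eq_zero, ← integral_complex_ofReal] at this
      rw [← this]
      congr 1
      ext w
      exact (hd _ (sγ.comp (contDiff_id.prodMk contDiff_const)) w).symm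
  have k2 : ∀ T : ℂ →L[ℝ] ℝ, ∃ c : ℝ, (fun q => T (f q)) =ᵐ[liouville Ω] fun _ => c := by
    intro T
    have i := T.integrable_comp hf
    obtain ⟨g, g1, g2, g3⟩ := d1 Ω h.op h.bd _ i fun a m ha hm => by
      have := key _ a refl_snd ha.sm (fun c M hβ _ => h.interior hβ ha.2.2) m hm T
      simp only [fun x => fderiv_mul_const (ha.1.differentiable (by simp) x)] at this
      simp only [← two_mul, smul_apply,
        smul_eq_mul, mul_assoc, mul_left_comm _ (2 : ℝ), integral_const_mul] at this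
      simpa [mul_comm] using this
    obtain ⟨c, hc⟩ := d2 Ω h.op h.bd he g g1 (i.congr g2.symm) g3 fun y ν φ r hc => by
      obtain ⟨r', hr, hb⟩ := h.boundary wk hc
      have hR := refl_nrm (y := y) hc.1 hc.2.2.1
      refine ⟨r', hr, fun a m ha hm => Eq.trans (integral_congr_ae ?_) (key _ a hR ha.sm
        (fun c M hβ hM => hb _ M _ hβ hM ha.2.2 fun x w => ?_) m hm T)⟩
      · filter_upwards [g2] with q hq
        rw [hq]
      · have := hR.inv x w
        simp only [bet] at this ⊢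
        rw [this, add_comm]
    exact ⟨c, g2.symm.trans hc⟩
  obtain ⟨c1, h1⟩ := k2 Complex.reCLM
  obtain ⟨c2, h2⟩ := k2 Complex.imCLM
  refine ⟨⟨c1, c2⟩, fun a ha v => ?_⟩
  rw [hd a ha v, ← integral_om_ex, ← integral_complex_ofReal, ← integral_prod_mul,
    ← integral_const_mul]
  refine integral_congr_ae ?_
  filter_upwards [h1, h2] with q a1 a2
  rw [show f q = ⟨c1, c2⟩ from Complex.ext a1 a2]

lemma avg {a : E → ℝ} (ha : ContDiff ℝ ∞ a) (v : E) {ε : ℝ} (hε : 0 < ε) : ∀ᶠ N : ℕ in atTop,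
    ∑ n ∈ Finset.range N, (cr Ω u lam a v n - J0 v * ∫ x in Ω, a x) ^ 2 ≤ ε * N := by
  by_contra hc
  have := frequently_iff_neBot.1 (not_eventually.1 hc)
  obtain ⟨𝒰, hU⟩ := exists_ultrafilter_le (atTop ⊓ 𝓟 {N : ℕ |
    ¬∑ n ∈ Finset.range N, (cr Ω u lam a v n - J0 v * ∫ x in Ω, a x) ^ 2 ≤ ε * N})
  have hA := h.vol
  set p := bs (cr Ω u lam a v) -
    ((J0 v * ∫ x in Ω, a x) / volume.real Ω) • bs (cr Ω u lam (fun _ => 1) 0) with hp
  have e : ∀ n, p n = cr Ω u lam a v n - J0 v * ∫ x in Ω, a x := fun n => by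
    have : cr Ω u lam (fun _ => 1) 0 n = volume.real Ω := by simp [cr, ← sq, h.mass]
    simp only [hp, BoundedContinuousFunction.sub_apply, BoundedContinuousFunction.smul_apply,
      h.bs_cr ha.continuous, h.bs_cr continuous_const, this, smul_eq_mul]
    field_simp
  obtain ⟨Λ, hΛ⟩ := exists_lim 𝒰 p
  obtain ⟨c, hc⟩ := h.lim_zero he (hU.trans inf_le_left) hΛ
  have z : Λ p = 0 := by
    rw [← Complex.ofReal_eq_zero, hp, map_sub, map_smul, smul_eq_mul]
    push_cast
    rw [hc a ha, hc _ contDiff_const, J0_zero]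
    have : (volume.real Ω : ℂ) ≠ 0 := Complex.ofReal_ne_zero.2 hA.ne'
    simp only [integral_const, measureReal_restrict_apply_univ, smul_eq_mul, mul_one]
    field_simp
    simp
  refine hε.not_ge (z ▸ ge_of_tendsto (hΛ p) ?_)
  filter_upwards [hU (mem_inf_of_right (mem_principal_self _)),
    hU (mem_inf_of_left (eventually_gt_atTop 0))] with N h1 h2
  have hN : (0 : ℝ) < N := Nat.cast_pos.2 h2
  rw [le_inv_mul_iff₀ hN, mul_comm]
  simpa only [e, sq] using (not_le.1 h1).le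

lemma qe : ∃ s, FullDensity s ∧ Equidistributed Ω (fun j => u (s j)) fun j => lam (s j) := by
  have := isCompact_iff_compactSpace.1 h.bd.isCompact_closure
  let Φ : SI → C(closure Ω, ℝ) × E := fun i =>
    (⟨fun x => i.1.1 x, i.1.2.continuous.comp continuous_subtype_val⟩, i.2)
  obtain ⟨d, hd⟩ : ∃ d : ℕ → SI, ∀ i, ∀ e > 0, ∃ k, dist (Φ i) (Φ (d k)) < e := by
    let _ : TopologicalSpace SI := TopologicalSpace.induced Φ inferInstance
    have : SecondCountableTopology SI := TopologicalSpace.secondCountableTopology_induced _ _ Φ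
    have : Nonempty SI := ⟨(⟨0, contDiff_const⟩, 0)⟩
    refine ⟨TopologicalSpace.denseSeq SI, fun i e he => ?_⟩
    exact (TopologicalSpace.denseRange_denseSeq SI).exists_mem_open
      (isOpen_induced (f := Φ) (Metric.isOpen_ball (x := Φ i) (ε := e)))
      ⟨i, Metric.mem_ball_self he⟩ |>.imp fun k hk => Metric.mem_ball'.1 hk
  obtain ⟨s, hs, ht⟩ := x (fun k n => cr Ω u lam (d k).1.1 (d k).2 n -
    J0 (d k).2 * ∫ x in Ω, (d k).1.1 x) fun k ε hε => h.avg he (d k).1.2 _ hε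
  refine ⟨s, hs, fun a ha v => Tendsto.congr' (corr_congr h.op (h.db.tend.comp hs.1.tendsto_atTop)
    (U := fun j => Ω.indicator (u (s j))) (fun n x hx => Set.indicator_of_mem hx _) ha _) ?_⟩
  rw [← setIntegral_eq_integral_of_forall_compl_eq_zero (s := Ω) fun x hx =>
    image_eq_zero_of_notMem_tsupport fun h0 => hx (ha.2.2 h0), Metric.tendsto_nhds]
  intro ε hε
  obtain ⟨B, hB0, hB⟩ := h.bound ha.1.continuous
  have hA := h.vol
  obtain ⟨e, he0, he'⟩ := eps_mul (A := (2 + B) * volume.real Ω + |∫ x in Ω, a x|) (half_pos hε)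
  obtain ⟨k, hk⟩ := hd (⟨a, ha.1⟩, v) e he0
  filter_upwards [Metric.tendsto_nhds.1 (ht k) _ (half_pos hε)] with j hj
  generalize d k = i at hk hj
  obtain ⟨⟨b, hb⟩, w⟩ := i
  rw [dist_comm, Prod.dist_eq, max_lt_iff] at hk
  have h1 : ∀ x ∈ Ω, |b x - a x| ≤ e := fun x hx =>
    (ContinuousMap.dist_apply_le_dist (⟨x, subset_closure hx⟩ : closure Ω)).trans hk.1.le
  have h2 : ‖w - v‖ ≤ e := by simpa [Φ, dist_eq_norm] using hk.2.le
  have h3 := h.cr_lip hb.continuous ha.1.continuous h1 hB w v (s j)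
  have h4 : |(∫ x in Ω, b x) - ∫ x in Ω, a x| ≤ e * volume.real Ω := by
    have := W2.fin h
    rw [← integral_sub ((W2.mem2 h hb.continuous).integrable one_le_two)
      ((W2.mem2 h ha.1.continuous).integrable one_le_two)]
    exact norm_setIntegral_le_of_norm_le_const (f := fun x => b x - a x) h.bd.measure_lt_top h1
  have h5 : |J0 w * (∫ x in Ω, b x) - J0 v * ∫ x in Ω, a x| ≤
      1 * (e * volume.real Ω) + e * |∫ x in Ω, a x| := by
    rw [show J0 w * (∫ x in Ω, b x) - J0 v * ∫ x in Ω, a x = J0 w * ((∫ x in Ω, b x) -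
      ∫ x in Ω, a x) + (J0 w - J0 v) * ∫ x in Ω, a x by ring]
    refine (abs_add_le _ _).trans ?_
    rw [abs_mul, abs_mul]
    gcongr
    · exact J0_le _
    · exact (J0_lip _ _).trans h2
  have h6 : corr (fun j => Ω.indicator (u (s j))) (lam ∘ s) a ![0, v] j = cr Ω u lam a v (s j) := by
    simp [corr, cr, Fin.prod_univ_two]
  have h7 := mul_le_mul_of_nonneg_right (mul_le_mul_of_nonneg_left h2 hB0) hA.le
  have h8 := he' _ le_rfl
  rw [h6, Real.dist_eq]
  rw [dist_zero_right, Real.norm_eq_abs] at hj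
  rw [abs_lt] at hj ⊢
  rw [_root_.abs_le] at h3 h5
  constructor <;> linarith [h3.1, h3.2, h5.1, h5.2, hj.1, hj.2]

end Ctx

/-- quantum ergodicity, in the form used by the moment theorems -/
theorem qe_data {Ω : Set E} (hΩ : IsOpen Ω) (hb : Bornology.IsBounded Ω) (hn : Ω.Nonempty)
    (he : ErgodicBilliard Ω) {u : ℕ → E → ℝ} {lam : ℕ → ℝ} (hu : DirichletBasis Ω u lam) :
    ∃ s, FullDensity s ∧ ∀ t : ℕ → ℕ, Tendsto t atTop atTop →
      Data Ω (fun j => u (s (t j))) fun j => lam (s (t j)) := by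
  obtain ⟨h1, h2, h3⟩ := w Ω u lam hΩ hb hn hu
  obtain ⟨s, hs, hq⟩ := Ctx.qe ⟨hΩ, hb, hn, hu, h1, h2, h3⟩ he
  exact ⟨s, hs, fun t ht => ⟨hΩ, fun _ => hu.smooth _, fun _ => hu.helm _,
    (hu.tend.comp hs.1.tendsto_atTop).comp ht, fun a ha v => (hq a ha v).comp ht⟩⟩

end

end Pool.Agent.P.MP_6b977f_mp
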