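import Pool.Agent.P.MP_6b977f_mp.Lam

namespace Pool.Agent.P.MP_6b977f_mp

open Real MeasureTheory Filter Topology Complex BoundedContinuousFunction
open scoped RealInnerProductSpace

noncomputable section

def ip3 (p w : E3) : ℝ := ⟪p.1, w.1⟫ + ⟪p.2.1, w.2.1⟫ + ⟪p.2.2, w.2.2⟫

def L3 : E3 →ₗ[ℝ] E3 →ₗ[ℝ] ℝ :=
  LinearMap.mk₂ ℝ ip3
    (fun p q w => by simp only [ip3, Prod.fst_add, Prod.snd_add, inner_add_left]; ring)
    (fun c p w => by
      simp only [ip3, Prod.smul_fst, Prod.smul_snd, real_inner_smul_left, smul_eq_mul]; ring)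
    (fun p q w => by simp only [ip3, Prod.fst_add, Prod.snd_add, inner_add_right]; ring)
    (fun c p w => by
      simp only [ip3, Prod.smul_fst, Prod.smul_snd, real_inner_smul_right, smul_eq_mul]; ring)

lemma L3_cont : Continuous fun p : E3 × E3 => L3 p.1 p.2 := by
  change Continuous fun p : E3 × E3 => ip3 p.1 p.2
  unfold ip3
  fun_prop

lemma L3_ne (v : E3) (hv : v ≠ 0) : L3 v ≠ 0 := by
  intro h
  have h1 : ip3 v v = 0 := congrArg (fun f : E3 →ₗ[ℝ] ℝ => f v) h
  simp only [ip3, real_inner_self_eq_norm_sq] at h1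
  apply hv
  have a1 : ‖v.1‖ = 0 := by nlinarith [sq_nonneg ‖v.1‖, sq_nonneg ‖v.2.1‖, sq_nonneg ‖v.2.2‖]
  have a2 : ‖v.2.1‖ = 0 := by nlinarith [sq_nonneg ‖v.1‖, sq_nonneg ‖v.2.1‖, sq_nonneg ‖v.2.2‖]
  have a3 : ‖v.2.2‖ = 0 := by nlinarith [sq_nonneg ‖v.1‖, sq_nonneg ‖v.2.1‖, sq_nonneg ‖v.2.2‖]
  exact Prod.ext (norm_eq_zero.1 a1) (Prod.ext (norm_eq_zero.1 a2) (norm_eq_zero.1 a3))

lemma approx_exp {K : Set E3} (hK : IsCompact K) {f : E3 → ℂ} (hf : Continuous f) {ε : ℝ}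
    (hε : 0 < ε) : ∃ (s : Finset E3) (c : E3 → ℂ),
      ∀ x ∈ K, ‖f x - ∑ w ∈ s, c w * ex (ip3 x w)‖ ≤ ε := by
  have : CompactSpace K := isCompact_iff_compactSpace.1 hK
  let ι : C(K, E3) := ⟨Subtype.val, continuous_subtype_val⟩
  let A0 := (charPoly continuous_probChar L3_cont).map (toContinuousMapStarₐ ℂ)
  let A := A0.map (ContinuousMap.compStarAlgHom' ℂ ℂ ι)
  have hA : A.SeparatesPoints := by
    intro x y hxy
    obtain ⟨g, ⟨g0, hg0, rfl⟩, hne⟩ := separatesPoints_charPoly continuous_probChar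
      probChar_ne_one L3_cont L3_ne (show (x : E3) ≠ y from fun h => hxy (Subtype.ext h))
    exact ⟨_, ⟨g0.comp ι, ⟨g0, hg0, rfl⟩, rfl⟩, hne⟩
  have htop := ContinuousMap.starSubalgebra_topologicalClosure_eq_top_of_separatesPoints A hA
  have hmem : (⟨f, hf⟩ : C(E3, ℂ)).comp ι ∈ A.topologicalClosure := by rw [htop]; trivial
  have hmem' : (⟨f, hf⟩ : C(E3, ℂ)).comp ι ∈ closure (A : Set C(K, ℂ)) := hmem
  obtain ⟨g, ⟨g1, ⟨g0, hg0, rfl⟩, rfl⟩, hd⟩ := Metric.mem_closure_iff.1 hmem' ε hε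
  obtain ⟨w, hw⟩ := (mem_charPoly g0).1 hg0
  refine ⟨w.coeff.support, w.coeff, fun x hx => ?_⟩
  have h1 := (ContinuousMap.dist_apply_le_dist (⟨x, hx⟩ : K)).trans hd.le
  rw [dist_eq_norm] at h1
  have h2 : g0 x = ∑ a ∈ w.coeff.support, w.coeff a * ex (ip3 x a) := by
    rw [congrFun hw x, Finsupp.sum]
    refine Finset.sum_congr rfl fun a _ => ?_
    congr 1
  rw [← h2]
  exact h1

/-- control of a weighted integral -/
structure Ctl {α : Type} [MeasurableSpace α] (μ : Measure α) (K : Set E3) (C : ℝ)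
    (T : α → E3) (Z : α → ℂ) : Prop where
  meas : Measurable T
  int : Integrable Z μ
  le : ∫ p, ‖Z p‖ ∂μ ≤ C
  mem : ∀ᵐ p ∂μ, Z p ≠ 0 → T p ∈ K

lemma Ctl.integrable {α : Type} [MeasurableSpace α] {μ : Measure α} {K : Set E3} {C : ℝ}
    {T : α → E3} {Z : α → ℂ} (h : Ctl μ K C T Z) (hK : IsCompact K) {f : E3 → ℂ}
    (hf : Continuous f) : Integrable (fun p => f (T p) * Z p) μ := by
  obtain ⟨B, hB⟩ := hK.exists_bound_of_continuousOn hf.continuousOn
  refine (h.int.norm.const_mul B).mono'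
    ((hf.measurable.comp h.meas).aestronglyMeasurable.mul h.int.aestronglyMeasurable) ?_
  filter_upwards [h.mem] with p hp
  by_cases hz : Z p = 0
  · simp [hz]
  · rw [norm_mul]
    exact mul_le_mul_of_nonneg_right (hB _ (hp hz)) (norm_nonneg _)

lemma Ctl.norm_sub_le {α : Type} [MeasurableSpace α] {μ : Measure α} {K : Set E3} {C : ℝ}
    {T : α → E3} {Z : α → ℂ} (h : Ctl μ K C T Z) (hK : IsCompact K) {f g : E3 → ℂ}
    (hf : Continuous f) (hg : Continuous g) {ε : ℝ} (hε : 0 ≤ ε)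
    (hfg : ∀ x ∈ K, ‖f x - g x‖ ≤ ε) :
    ‖∫ p, f (T p) * Z p ∂μ - ∫ p, g (T p) * Z p ∂μ‖ ≤ ε * C := by
  rw [← integral_sub (h.integrable hK hf) (h.integrable hK hg)]
  refine le_trans ?_ (mul_le_mul_of_nonneg_left h.le hε)
  rw [← integral_const_mul]
  refine norm_integral_le_of_norm_le (h.int.norm.const_mul _) ?_
  filter_upwards [h.mem] with p hp
  by_cases hz : Z p = 0
  · simp [hz]
  · rw [← sub_mul, norm_mul]
    exact mul_le_mul_of_nonneg_right (hfg _ (hp hz)) (norm_nonneg _)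

lemma Ctl.integral_sum {α : Type} [MeasurableSpace α] {μ : Measure α} {K : Set E3} {C : ℝ}
    {T : α → E3} {Z : α → ℂ} (h : Ctl μ K C T Z) (hK : IsCompact K) (s : Finset E3)
    (c : E3 → ℂ) :
    ∫ p, (∑ w ∈ s, c w * ex (ip3 (T p) w)) * Z p ∂μ =
      ∑ w ∈ s, c w * ∫ p, ex (ip3 (T p) w) * Z p ∂μ := by
  simp_rw [Finset.sum_mul, mul_assoc]
  rw [integral_finsetSum]
  · simp_rw [integral_const_mul]
  · intro w _
    refine (h.integrable hK (f := fun x => ex (ip3 x w)) ?_).const_mul _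
    unfold ip3
    fun_prop

lemma SW_tendsto {α β : Type} [MeasurableSpace α] [MeasurableSpace β] {μ : Measure α}
    {ν : Measure β} {K : Set E3} (hK : IsCompact K) {C : ℝ} {T : ℕ → α → E3} {Z : ℕ → α → ℂ}
    {T0 : β → E3} {Z0 : β → ℂ} (h : ∀ᶠ n in atTop, Ctl μ K C (T n) (Z n)) (h0 : Ctl ν K C T0 Z0)
    (he : ∀ w, Tendsto (fun n => ∫ p, ex (ip3 (T n p) w) * Z n p ∂μ) atTop
      (𝓝 (∫ p, ex (ip3 (T0 p) w) * Z0 p ∂ν)))
    {f : E3 → ℂ} (hf : Continuous f) :
    Tendsto (fun n => ∫ p, f (T n p) * Z n p ∂μ) atTop (𝓝 (∫ p, f (T0 p) * Z0 p ∂ν)) := by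
  have hC : 0 ≤ C := (integral_nonneg fun p => norm_nonneg _).trans h0.le
  rw [Metric.tendsto_nhds]
  intro ε hε
  obtain ⟨s, c, hsc⟩ := approx_exp hK hf (ε := ε / (3 * (C + 1))) (by positivity)
  have hg : Continuous fun x => ∑ w ∈ s, c w * ex (ip3 x w) := by
    refine continuous_finsetSum _ fun w _ => ?_
    unfold ip3
    fun_prop
  have ht : Tendsto (fun n => ∑ w ∈ s, c w * ∫ p, ex (ip3 (T n p) w) * Z n p ∂μ) atTop
      (𝓝 (∑ w ∈ s, c w * ∫ p, ex (ip3 (T0 p) w) * Z0 p ∂ν)) :=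
    tendsto_finsetSum _ fun w _ => (he w).const_mul _
  have hsm : ε / (3 * (C + 1)) * C ≤ ε / 3 := by
    rw [div_mul_eq_mul_div, div_le_div_iff₀ (by positivity) (by positivity)]
    nlinarith
  filter_upwards [h, Metric.tendsto_nhds.1 ht (ε / 3) (by positivity)] with n hn hn2
  have a1 := hn.norm_sub_le hK hf hg (by positivity) hsc
  have a2 := h0.norm_sub_le hK hf hg (by positivity) hsc
  rw [hn.integral_sum hK] at a1
  rw [h0.integral_sum hK] at a2
  rw [dist_eq_norm] at hn2 ⊢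
  set x1 := ∫ p, f (T n p) * Z n p ∂μ
  set x2 := ∑ w ∈ s, c w * ∫ p, ex (ip3 (T n p) w) * Z n p ∂μ
  set x3 := ∑ w ∈ s, c w * ∫ p, ex (ip3 (T0 p) w) * Z0 p ∂ν
  set x4 := ∫ p, f (T0 p) * Z0 p ∂ν
  have : x1 - x4 = (x1 - x2) + (x2 - x3) - (x4 - x3) := by ring
  rw [this]
  have := (norm_sub_le (x1 - x2 + (x2 - x3)) (x4 - x3)).trans
    (add_le_add_left (norm_add_le (x1 - x2) (x2 - x3)) _)
  linarith

/-! The uniform measure on the unit circle -/

def cir (t : ℝ) : E := !₂[Real.cos t, Real.sin t]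

@[fun_prop] lemma continuous_cir : Continuous cir := by
  unfold cir
  refine (PiLp.continuous_toLp 2 _).comp ?_
  refine continuous_pi fun i => ?_
  fin_cases i <;> simp <;> fun_prop

lemma norm_cir (t : ℝ) : ‖cir t‖ = 1 := by
  have : ‖cir t‖ ^ 2 = 1 := by
    rw [EuclideanSpace.real_norm_sq_eq, Fin.sum_univ_two]
    simp [cir]
  nlinarith [norm_nonneg (cir t)]

lemma inner_cir (t : ℝ) (v : E) : ⟪cir t, v⟫ = v 0 * Real.cos t + v 1 * Real.sin t := by
  simp [cir, PiLp.inner_apply, Fin.sum_univ_two]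

def om : Measure E :=
  (ENNReal.ofReal (2 * π))⁻¹ • (volume.restrict (Set.Ioc 0 (2 * π))).map cir

instance : IsProbabilityMeasure om := by
  constructor
  rw [om, Measure.smul_apply, Measure.map_apply continuous_cir.measurable MeasurableSet.univ]
  simp only [Set.preimage_univ, Measure.restrict_apply_univ, Real.volume_Ioc, sub_zero, smul_eq_mul]
  exact ENNReal.inv_mul_cancel (by simp [Real.pi_pos]) ENNReal.ofReal_ne_top

lemma ae_om {p : E → Prop} (hp : MeasurableSet {x | p x}) (h : ∀ᵐ t : ℝ, p (cir t)) :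
    ∀ᵐ x ∂om, p x := by
  unfold om
  refine Measure.ae_smul_measure ?_ _
  rw [ae_map_iff continuous_cir.aemeasurable hp]
  exact ae_restrict_of_ae h

lemma ae_om_norm : ∀ᵐ x ∂om, ‖x‖ = 1 :=
  ae_om (measurableSet_eq_fun (by fun_prop) measurable_const) (Eventually.of_forall norm_cir)

lemma ae_om_range : ∀ᵐ x ∂om, ∃ t, x = cir t := by
  unfold om
  refine Measure.ae_smul_measure ?_ _
  have hm : MeasurableSet {x : E | ∃ t, x = cir t} := by
    have : {x : E | ∃ t, x = cir t} = cir '' Set.Icc 0 (2 * π) := by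
      ext x
      constructor
      · rintro ⟨t, rfl⟩
        refine ⟨toIcoMod Real.two_pi_pos 0 t, ?_, ?_⟩
        · have := toIcoMod_mem_Ico Real.two_pi_pos 0 t
          exact ⟨this.1, by simpa using this.2.le⟩
        · rw [← self_sub_toIcoDiv_zsmul Real.two_pi_pos 0 t, zsmul_eq_mul]
          unfold cir
          rw [Real.cos_sub_int_mul_two_pi, Real.sin_sub_int_mul_two_pi]
      · rintro ⟨t, -, rfl⟩
        exact ⟨t, rfl⟩
    rw [this]
    exact (isCompact_Icc.image continuous_cir).measurableSet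
  rw [ae_map_iff continuous_cir.aemeasurable hm]
  exact Eventually.of_forall fun t => ⟨t, rfl⟩

lemma integral_om {f : E → ℂ} (hf : Continuous f) :
    ∫ x, f x ∂om = ((2 * π)⁻¹ : ℝ) * ∫ t in (0 : ℝ)..(2 * π), f (cir t) := by
  unfold om
  rw [integral_smul_measure, integral_map continuous_cir.aemeasurable hf.aestronglyMeasurable,
    intervalIntegral.integral_of_le Real.two_pi_pos.le]
  simp [Real.pi_pos.le]

lemma integral_om_ex (v : E) : ∫ x, ex ⟪x, v⟫ ∂om = (J0 v : ℂ) := by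
  rw [integral_om (by fun_prop)]
  simp_rw [ex_eq, inner_cir]
  have hs : ∫ t in (0 : ℝ)..(2 * π), Real.sin (v 0 * Real.cos t + v 1 * Real.sin t) = 0 := by
    set g : ℝ → ℝ := fun t => Real.sin (v 0 * Real.cos t + v 1 * Real.sin t) with hg
    have hper : Function.Periodic g (2 * π) := by
      intro t; simp [hg]
    have h1 := hper.intervalIntegral_add_eq π 0
    have h2 : ∫ t in π..(π + 2 * π), g t = ∫ t in (0 : ℝ)..(2 * π), g (t + π) := by
      rw [intervalIntegral.integral_comp_add_right]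
      congr 1 <;> ring
    have h3 : ∀ t, g (t + π) = -g t := by
      intro t
      simp only [hg, Real.cos_add_pi, Real.sin_add_pi]
      rw [← Real.sin_neg (v 0 * Real.cos t + v 1 * Real.sin t)]
      congr 1
      ring
    simp_rw [h3] at h2
    rw [intervalIntegral.integral_neg, h1, zero_add] at h2
    linarith
  rw [intervalIntegral.integral_add (by apply Continuous.intervalIntegrable; fun_prop)
    (by apply Continuous.intervalIntegrable; fun_prop), intervalIntegral.integral_mul_const,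
    intervalIntegral.integral_ofReal, intervalIntegral.integral_ofReal, hs, J0]
  push_cast
  ring

lemma countable_cos (t0 s : ℝ) : {t : ℝ | Real.cos (t - t0) = s}.Countable := by
  by_cases h : ∃ t1, Real.cos (t1 - t0) = s
  · obtain ⟨t1, ht1⟩ := h
    refine ((Set.countable_range (fun k : ℤ => 2 * k * π + (t1 - t0) + t0)).union
      (Set.countable_range (fun k : ℤ => 2 * k * π - (t1 - t0) + t0))).mono ?_
    intro t ht
    obtain ⟨k, hk | hk⟩ := Real.cos_eq_cos_iff.1 (ht1.trans (Eq.symm ht))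
    · left; exact ⟨k, by simp only []; linarith⟩
    · right; exact ⟨k, by simp only []; linarith⟩
  · push Not at h
    convert Set.countable_empty
    ext t
    simpa using h t

lemma ae_inner_ne (s : ℝ) : ∀ᵐ p ∂(om.prod om), ⟪p.1, p.2⟫ ≠ s := by
  have hm : MeasurableSet {p : E × E | ⟪p.1, p.2⟫ ≠ s} :=
    (measurableSet_eq_fun (by fun_prop) measurable_const).compl
  rw [Measure.ae_prod_iff_ae_ae hm]
  filter_upwards [ae_om_range] with x ⟨t0, hx⟩
  subst hx
  refine ae_om (measurableSet_eq_fun (by fun_prop) measurable_const).compl ?_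
  have := (countable_cos t0 s).ae_notMem (volume : Measure ℝ)
  filter_upwards [this] with t ht
  rw [inner_cir]
  intro h
  apply ht
  simp only [Real.cos_sub]
  simp only [cir] at h
  simpa using h

lemma ae_norm_prod : ∀ᵐ p ∂(om.prod om), ‖p.1‖ = 1 ∧ ‖p.2‖ = 1 := by
  have hm : MeasurableSet {p : E × E | ‖p.1‖ = 1 ∧ ‖p.2‖ = 1} :=
    (measurableSet_eq_fun (by fun_prop) measurable_const).inter
      (measurableSet_eq_fun (by fun_prop) measurable_const)
  rw [Measure.ae_prod_iff_ae_ae hm]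
  filter_upwards [ae_om_norm] with x hx
  filter_upwards [ae_om_norm] with y hy
  exact ⟨hx, hy⟩

end

end Pool.Agent.P.MP_6b977f_mp
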