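import Pool.Agent.P.MP_6b977f_mp.Helm

namespace Pool.Agent.P.MP_6b977f_mp

open Real MeasureTheory Filter Topology Complex
open scoped RealInnerProductSpace ContDiff

noncomputable section

structure NB (A : ℝ) (F : E → ℂ) : Prop where
  good : Good F
  le : ∀ ξ, ‖F ξ‖ ≤ A
  l1 : ∫ ξ, ‖F ξ‖ ≤ A

lemma NB.nonneg {A : ℝ} {F : E → ℂ} (h : NB A F) : 0 ≤ A := (norm_nonneg _).trans (h.le 0)

lemma NB.mono {A A' : ℝ} {F : E → ℂ} (h : NB A F) (hA : A ≤ A') : NB A' F :=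
  ⟨h.good, fun ξ => (h.le ξ).trans hA, h.l1.trans hA⟩

def c0 : ℝ := 1 + ∫ ξ : E, (1 + ‖ξ‖) ^ (-3 : ℝ)

lemma one_le_c0 : 1 ≤ c0 := by
  unfold c0
  have : 0 ≤ ∫ ξ : E, (1 + ‖ξ‖) ^ (-3 : ℝ) := integral_nonneg fun ξ => by positivity
  linarith

lemma NB_of_decay {k A : ℝ} (hk : 0 ≤ k) {F : E → ℂ} (hF : Measurable F)
    (h : ∀ ξ, (1 + dd k ξ) ^ 3 * ‖F ξ‖ ≤ A) : NB (A * c0 * (1 + k) ^ 3) F := by
  have hA : 0 ≤ A := le_trans (wt_nonneg k F 0) (h 0)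
  have hint : Integrable (fun η : E => A * (1 + k) ^ 3 * (1 + ‖η‖) ^ (-3 : ℝ)) :=
    (integrable_one_add_norm (by simp; norm_num)).const_mul _
  have hle : ∀ ξ, ‖F ξ‖ ≤ A * (1 + k) ^ 3 * (1 + ‖ξ‖) ^ (-3 : ℝ) := by
    intro ξ
    have hη : 0 < 1 + ‖ξ‖ := by positivity
    have hd := dd_nonneg k ξ
    rw [Real.rpow_neg hη.le, show (3 : ℝ) = ((3 : ℕ) : ℝ) by norm_num, Real.rpow_natCast,
      ← div_eq_mul_inv, le_div_iff₀ (by positivity)]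
    have h1 : 1 + ‖ξ‖ ≤ (1 + dd k ξ) * (1 + k) := by
      have : ‖ξ‖ - k ≤ dd k ξ := le_abs_self _
      nlinarith [mul_nonneg hd hk]
    calc ‖F ξ‖ * (1 + ‖ξ‖) ^ 3 ≤ ‖F ξ‖ * ((1 + dd k ξ) * (1 + k)) ^ 3 := by gcongr
      _ = (1 + dd k ξ) ^ 3 * ‖F ξ‖ * (1 + k) ^ 3 := by ring
      _ ≤ A * (1 + k) ^ 3 := by gcongr; exact h ξ
  have hi : Integrable F := hint.mono' hF.aestronglyMeasurable (Eventually.of_forall hle)
  have hs : ∀ ξ, ‖F ξ‖ ≤ A := fun ξ => (norm_le_wt k F ξ).trans (h ξ)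
  have h1 : 1 ≤ (1 + k) ^ 3 := one_le_pow₀ (by linarith)
  refine ⟨⟨hF, hi, A, hs⟩, fun ξ => (hs ξ).trans ?_, (integral_mono hi.norm hint hle).trans ?_⟩
  · rw [mul_assoc]
    exact le_mul_of_one_le_right hA (one_le_mul_of_one_le_of_one_le one_le_c0 h1)
  · rw [integral_const_mul, mul_right_comm]
    gcongr
    unfold c0
    linarith

lemma norm_Lam_le' {M : E3 → ℂ} {B : ℝ} (hM : Bdd M B) {F1 F2 F3 F4 : E → ℂ} {A1 A2 A3 A4 : ℝ}
    (h1 : NB A1 F1) (h2 : NB A2 F2) (h3 : NB A3 F3) (h4 : NB A4 F4) :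
    ‖Lam M F1 F2 F3 F4‖ ≤ B * (A1 * A2 * A3 * A4) := by
  refine (norm_Lam_le hM h1.good h2.good h3.good h4.le).trans ?_
  have hB0 : 0 ≤ B := (norm_nonneg _).trans (hM.le 0)
  have := h1.nonneg
  have := h2.nonneg
  have := h4.nonneg
  have p2 : 0 ≤ ∫ ξ, ‖F2 ξ‖ := integral_nonneg fun _ => norm_nonneg _
  have p3 : 0 ≤ ∫ ξ, ‖F3 ξ‖ := integral_nonneg fun _ => norm_nonneg _
  calc _ ≤ B * A4 * (A1 * A2 * A3) := by gcongr <;> [exact h1.l1; exact h2.l1; exact h3.l1]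
    _ = _ := by ring

def Close (k : ℕ → ℝ) (F G : ℕ → E → ℂ) : Prop :=
  ∃ C, ∀ᶠ n in atTop, NB (C * (1 + k n) ^ 3) (F n) ∧ NB (C * (1 + k n) ^ 3) (G n) ∧
    NB (C / (1 + k n) ^ 10) (fun ξ => F n ξ - G n ξ)

lemma tendsto_div_one_add {k : ℕ → ℝ} (hk : Tendsto k atTop atTop) (C : ℝ) :
    Tendsto (fun n => C / (1 + k n)) atTop (𝓝 0) :=
  Tendsto.div_atTop tendsto_const_nhds (tendsto_atTop_add_const_left _ _ hk)

lemma Lam_close {k : ℕ → ℝ} (hk : Tendsto k atTop atTop) {F1 F2 F3 F4 G1 G2 G3 G4 : ℕ → E → ℂ}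
    (h1 : Close k F1 G1) (h2 : Close k F2 G2) (h3 : Close k F3 G3) (h4 : Close k F4 G4)
    {M : ℕ → E3 → ℂ} {B : ℝ} (hM : ∀ n, Bdd (M n) B) :
    Tendsto (fun n => Lam (M n) (F1 n) (F2 n) (F3 n) (F4 n) -
      Lam (M n) (G1 n) (G2 n) (G3 n) (G4 n)) atTop (𝓝 0) := by
  obtain ⟨C1, h1⟩ := h1
  obtain ⟨C2, h2⟩ := h2
  obtain ⟨C3, h3⟩ := h3
  obtain ⟨C4, h4⟩ := h4
  refine squeeze_zero_norm' ?_ (tendsto_div_one_add hk (4 * (B * (C1 * C2 * C3 * C4))))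
  filter_upwards [h1, h2, h3, h4, hk.eventually_ge_atTop 0] with n a1 a2 a3 a4 hk0
  rw [Lam_telescope (hM n) a1.1.good a2.1.good a3.1.good a4.1.good a1.2.1.good a2.2.1.good
    a3.2.1.good a4.2.1.good]
  have t1 := norm_Lam_le' (hM n) a1.2.2 a2.1 a3.1 a4.1
  have t2 := norm_Lam_le' (hM n) a1.2.1 a2.2.2 a3.1 a4.1
  have t3 := norm_Lam_le' (hM n) a1.2.1 a2.2.1 a3.2.2 a4.1
  have t4 := norm_Lam_le' (hM n) a1.2.1 a2.2.1 a3.2.1 a4.2.2
  refine (norm_add_le _ _).trans ((add_le_add ((norm_add_le _ _).trans (add_le_add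
    ((norm_add_le _ _).trans (add_le_add t1 t2)) t3)) t4).trans (le_of_eq ?_))
  have : 0 < 1 + k n := by linarith
  field_simp
  ring

lemma pair_bound {e F G : E → ℂ} (hm : Measurable e) (he : ∀ ξ, ‖e ξ‖ ≤ 1) {A A' : ℝ}
    (hF : NB A F) (hG : NB A' G) (η : E) :
    Integrable (fun ξ => e ξ * (F ξ * G (η - ξ))) ∧ ‖∫ ξ, e ξ * (F ξ * G (η - ξ))‖ ≤ A * A' := by
  have hle : ∀ ξ, ‖e ξ * (F ξ * G (η - ξ))‖ ≤ ‖F ξ‖ * A' := by
    intro ξ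
    rw [norm_mul, norm_mul]
    exact (mul_le_of_le_one_left (by positivity) (he ξ)).trans
      (mul_le_mul_of_nonneg_left (hG.le _) (norm_nonneg _))
  have hi := hF.good.int.norm.mul_const A'
  have m1 := hF.good.meas
  have m2 := hG.good.meas
  refine ⟨hi.mono' (Measurable.aestronglyMeasurable (by fun_prop)) (Eventually.of_forall hle),
    (norm_integral_le_of_norm_le hi (Eventually.of_forall hle)).trans ?_⟩
  rw [integral_mul_const]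
  exact mul_le_mul_of_nonneg_right hF.l1 hG.nonneg

lemma Corr.close {k : ℕ → ℝ} (hk : Tendsto k atTop atTop) {F1 F2 G1 G2 : ℕ → E → ℂ}
    (h1 : Close k F1 G1) (h2 : Close k F2 G2) {c : E → ℂ} {v0 : E} (h : Corr k F1 F2 c v0) :
    Corr k G1 G2 c v0 := by
  intro η v
  obtain ⟨C1, h1⟩ := h1
  obtain ⟨C2, h2⟩ := h2
  have key : Tendsto (fun n => (∫ ξ, ex ⟪(k n)⁻¹ • ξ, v⟫ * (F1 n ξ * F2 n (η - ξ))) -
      ∫ ξ, ex ⟪(k n)⁻¹ • ξ, v⟫ * (G1 n ξ * G2 n (η - ξ))) atTop (𝓝 0) := by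
    refine squeeze_zero_norm' ?_ (tendsto_div_one_add hk (2 * |C1 * C2|))
    filter_upwards [h1, h2, hk.eventually_ge_atTop 0] with n a1 a2 hk0
    have hm : Measurable fun ξ : E => ex ⟪(k n)⁻¹ • ξ, v⟫ := by fun_prop
    have he : ∀ ξ : E, ‖ex ⟪(k n)⁻¹ • ξ, v⟫‖ ≤ 1 := fun ξ => (norm_ex _).le
    obtain ⟨i1, -⟩ := pair_bound hm he a1.1 a2.1 η
    obtain ⟨i2, -⟩ := pair_bound hm he a1.2.1 a2.2.1 η
    obtain ⟨i3, b3⟩ := pair_bound hm he a1.2.2 a2.1 η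
    obtain ⟨i4, b4⟩ := pair_bound hm he a1.2.1 a2.2.2 η
    have : (∫ ξ, ex ⟪(k n)⁻¹ • ξ, v⟫ * (F1 n ξ * F2 n (η - ξ))) -
        ∫ ξ, ex ⟪(k n)⁻¹ • ξ, v⟫ * (G1 n ξ * G2 n (η - ξ)) =
        (∫ ξ, ex ⟪(k n)⁻¹ • ξ, v⟫ * ((F1 n ξ - G1 n ξ) * F2 n (η - ξ))) +
        ∫ ξ, ex ⟪(k n)⁻¹ • ξ, v⟫ * (G1 n ξ * (F2 n (η - ξ) - G2 n (η - ξ))) := by
      rw [← integral_sub i1 i2, ← integral_add i3 i4]
      congr 1
      ext ξ
      ring
    rw [this]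
    refine (norm_add_le _ _).trans ((add_le_add b3 b4).trans ?_)
    have h0 : 1 ≤ 1 + k n := by linarith
    calc _ = 2 * (C1 * C2) / (1 + k n) ^ 7 := by field_simp; ring
      _ ≤ 2 * |C1 * C2| / (1 + k n) ^ 7 := by gcongr; exact le_abs_self _
      _ ≤ 2 * |C1 * C2| / (1 + k n) ^ 1 := by gcongr; norm_num
      _ = _ := by rw [pow_one]
  have := (h η v).sub key
  simpa using this

structure Conc (k : ℕ → ℝ) (F : ℕ → E → ℂ) : Prop where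
  meas : ∀ n, Measurable (F n)
  wb : ∀ s, ∃ C, ∀ᶠ n in atTop, WB s (k n) C (F n)

def tr (k : ℕ → ℝ) (F : ℕ → E → ℂ) (n : ℕ) (ξ : E) : ℂ :=
  if dd (k n) ξ ≤ √(k n) then F n ξ else 0

lemma norm_tr_le (k : ℕ → ℝ) (F : ℕ → E → ℂ) (n : ℕ) (ξ : E) : ‖tr k F n ξ‖ ≤ ‖F n ξ‖ := by
  unfold tr
  split_ifs <;> simp

lemma Conc.meas_tr {k : ℕ → ℝ} {F : ℕ → E → ℂ} (h : Conc k F) (n : ℕ) : Measurable (tr k F n) :=
  Measurable.ite (measurableSet_le (by fun_prop) measurable_const) (h.meas n) measurable_const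

lemma Conc.close {k : ℕ → ℝ} (hk : Tendsto k atTop atTop) {F : ℕ → E → ℂ} (h : Conc k F) :
    Close k F (tr k F) := by
  obtain ⟨C, hC⟩ := h.wb 3
  obtain ⟨C', hC'⟩ := h.wb 29
  refine ⟨max C C' * c0, ?_⟩
  filter_upwards [hC, hC', hk.eventually_ge_atTop 0] with n a a' hk0
  refine ⟨NB_of_decay hk0 (h.meas n) fun ξ => (a.le ξ).trans (le_max_left _ _),
    NB_of_decay hk0 (h.meas_tr n) fun ξ => le_trans ?_ ((a.le ξ).trans (le_max_left _ _)), ?_⟩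
  · have := dd_nonneg (k n) ξ
    gcongr
    exact norm_tr_le _ _ _ _
  · have h0 : 0 < 1 + k n := by linarith
    have e : max C C' * c0 / (1 + k n) ^ 10 = max C C' / (1 + k n) ^ 13 * c0 * (1 + k n) ^ 3 := by
      field_simp
    rw [e]
    refine NB_of_decay hk0 ((h.meas n).sub (h.meas_tr n)) fun ξ => ?_
    have hd := dd_nonneg (k n) ξ
    have hC0 : 0 ≤ C' := le_trans (by positivity) (a'.le ξ)
    unfold tr
    split_ifs with hx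
    · simp only [sub_self, norm_zero, mul_zero]
      have : 0 ≤ max C C' := hC0.trans (le_max_right _ _)
      positivity
    · rw [sub_zero, le_div_iff₀ (by positivity)]
      refine le_trans ?_ ((a'.le ξ).trans (le_max_right _ _))
      have h1 : 1 + k n ≤ (1 + dd (k n) ξ) ^ 2 := by
        have h2 := Real.sq_sqrt hk0
        have h3 := Real.sqrt_nonneg (k n)
        nlinarith [not_le.1 hx]
      calc _ ≤ (1 + dd (k n) ξ) ^ 3 * ‖F n ξ‖ * ((1 + dd (k n) ξ) ^ 2) ^ 13 := by gcongr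
        _ = _ := by ring

lemma Conc.good {k : ℕ → ℝ} (hk : Tendsto k atTop atTop) {F : ℕ → E → ℂ} (h : Conc k F) :
    ∀ᶠ n in atTop, Good (F n) := by
  obtain ⟨C, hC⟩ := h.close hk
  exact hC.mono fun n hn => hn.1.good

lemma Conc.Tr {k : ℕ → ℝ} (hk : Tendsto k atTop atTop) {F : ℕ → E → ℂ} (h : Conc k F) :
    Tr k (tr k F) := by
  obtain ⟨C, hC⟩ := h.wb 3
  obtain ⟨C', hC'⟩ := h.close hk
  refine ⟨C, ?_⟩
  filter_upwards [hC, hC'] with n a a'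
  have hle : ∀ ξ, wt (k n) (tr k F n) ξ ^ 2 ≤ ((1 + dd (k n) ξ) ^ 3 * ‖F n ξ‖) ^ 2 := by
    intro ξ
    have := dd_nonneg (k n) ξ
    unfold wt
    gcongr
    exact norm_tr_le _ _ _ _
  have hi : Integrable (fun ξ => wt (k n) (tr k F n) ξ ^ 2) := by
    refine a.int.mono' ((measurable_wt (h.meas_tr n)).pow_const 2).aestronglyMeasurable
      (Eventually.of_forall fun ξ => ?_)
    rw [Real.norm_of_nonneg (sq_nonneg _)]
    exact hle ξ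
  refine ⟨a'.2.1.good, fun ξ hξ => ?_, hi, (integral_mono hi a.int hle).trans a.l2⟩
  by_contra hc
  exact hξ (if_neg hc)

lemma wick_one {k : ℕ → ℝ} (hk : Tendsto k atTop atTop) {F : ℕ → E → ℂ} (h : Conc k F)
    {c : E → ℂ} (hc : Corr k F F c 0) {M : E3 → ℂ} (hM : Continuous M) {B ρ : ℝ}
    (hB : ∀ p, ‖M p‖ ≤ B) (hρ : 0 < ρ) (hV : Van ρ M) :
    Tendsto (fun n => Lam (fun p => M ((k n)⁻¹ • p)) (F n) (F n) (F n) (F n)) atTop
      (𝓝 ((∫ η, c η * c (-η)) *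
        (W M 0 0 + W (fun p => M (sw12 p)) 0 0 + W (fun p => M (sw13 p)) 0 0))) := by
  have hcl := h.close hk
  have ht := h.Tr hk
  have hc' := hc.close hk hcl hcl
  have := (Lam_close hk hcl hcl hcl hcl (fun n => Bdd.scale hM hB (k n)⁻¹)).add
    (wick_lam hk ht ht ht ht hc' hc' hc' hc' hc' hc' hM hB hρ hV)
  simp only [sub_add_cancel, zero_add] at this
  convert this using 2
  ring

lemma Lam_near {k : ℕ → ℝ} (hk : Tendsto k atTop atTop) {F : ℕ → E → ℂ} (h : Conc k F)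
    {M N : E3 → ℂ} {B B' r : ℝ} (hM : Bdd M B) (hN : Bdd N B') (hr : 0 < r)
    (hMN : ∀ p, Near r p → M p = N p) :
    Tendsto (fun n => Lam (fun p => M ((k n)⁻¹ • p)) (F n) (F n) (F n) (F n) -
      Lam (fun p => N ((k n)⁻¹ • p)) (F n) (F n) (F n) (F n)) atTop (𝓝 0) := by
  have hcl := h.close hk
  have ht := h.Tr hk
  have := (Lam_close hk hcl hcl hcl hcl (M := fun n p => M ((k n)⁻¹ • p))
    (fun n => hM.comp (by fun_prop))).sub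
    (Lam_close hk hcl hcl hcl hcl (M := fun n p => N ((k n)⁻¹ • p))
    (fun n => hN.comp (by fun_prop)))
  rw [sub_zero] at this
  refine this.congr' ?_
  filter_upwards [near_of_P4 hk ht ht ht ht hr] with n hn
  rw [Lam_congr (M := fun p => M ((k n)⁻¹ • p)) (N := fun p => N ((k n)⁻¹ • p))
    (F1 := tr k F n) (F2 := tr k F n) (F3 := tr k F n) (F4 := tr k F n)
    (fun q hq => hMN _ (hn.2 q hq))]
  ring

lemma Sol.conc {O : Set E} {k : ℕ → ℝ} (hk : Tendsto k atTop atTop) {V : ℕ → E → ℝ}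
    (h : Sol O k V) {ψ : E → ℝ} (hψ : IsTest O ψ) :
    Conc k (fun n => FT (fun x => ψ x * V n x)) :=
  ⟨fun n => (hψ.sm.mul (h.sm n)).continuous_FT.measurable, fun s => h.wb hk s ψ hψ⟩

end

end Pool.Agent.P.MP_6b977f_mp
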