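import Pool.Agent.P.MP_6b977f_mp.Main

namespace Pool.Agent.P.MP_6b977f_mp

open Real MeasureTheory Filter Topology Complex
open scoped RealInnerProductSpace

noncomputable section

def cl (t : ℝ) : ℝ := max 0 (min 1 t)

lemma cl_nonneg (t : ℝ) : 0 ≤ cl t := le_max_left _ _

lemma cl_le_one (t : ℝ) : cl t ≤ 1 := max_le zero_le_one (min_le_left _ _)

lemma cl_of_nonpos {t : ℝ} (h : t ≤ 0) : cl t = 0 :=
  max_eq_left ((min_le_right _ _).trans h)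

lemma cl_of_one_le {t : ℝ} (h : 1 ≤ t) : cl t = 1 := by
  unfold cl; rw [min_eq_left h]; exact max_eq_right zero_le_one

@[fun_prop] lemma continuous_cl : Continuous cl := by unfold cl; fun_prop

lemma norm_cl_le (t : ℝ) : ‖(cl t : ℂ)‖ ≤ 1 := by
  rw [Complex.norm_real, Real.norm_of_nonneg (cl_nonneg t)]; exact cl_le_one t

def sg (r : ℝ) (x : E) : ℂ := (cl ((‖x‖ ^ 2 - r) / r) : ℝ)

@[fun_prop] lemma continuous_sg (r : ℝ) : Continuous (sg r) := by unfold sg; fun_prop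

lemma norm_sg_le (r : ℝ) (x : E) : ‖sg r x‖ ≤ 1 := norm_cl_le _

lemma sg_zero {r : ℝ} (hr : 0 < r) {x : E} (h : ‖x‖ ^ 2 ≤ r) : sg r x = 0 := by
  unfold sg
  rw [cl_of_nonpos (div_nonpos_of_nonpos_of_nonneg (by linarith) hr.le)]
  simp

lemma sg_one {r : ℝ} (hr : 0 < r) {x : E} (h : 2 * r ≤ ‖x‖ ^ 2) : sg r x = 1 := by
  unfold sg
  rw [cl_of_one_le (by rw [le_div_iff₀ hr]; linarith)]
  simp

def SS (p : E3) : ℝ := ‖p.1‖ ^ 2 + ‖p.2.1‖ ^ 2 + ‖p.2.2‖ ^ 2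

def Van (ρ : ℝ) (M : E3 → ℂ) : Prop :=
  ∀ p : E3, SS p ≤ 4 + ρ → (4 - ρ ≤ ‖p.1‖ ^ 2 ∨ 4 - ρ ≤ ‖p.2.1‖ ^ 2 ∨ 4 - ρ ≤ ‖p.2.2‖ ^ 2) → M p = 0

def Near (r : ℝ) (p : E3) : Prop :=
  |SS p - 4| ≤ r ∧ (‖p.1‖ ^ 2 ≤ r ∨ ‖p.2.1‖ ^ 2 ≤ r ∨ ‖p.2.2‖ ^ 2 ≤ r)

lemma near_of_dd {r : ℝ} (hr : 0 < r) : ∀ᶠ k : ℝ in atTop, ∀ η ξ ζ : E, dd k ξ ≤ √k →
    dd k (η - ξ) ≤ √k → dd k ζ ≤ √k → dd k (-η - ζ) ≤ √k → Near r (k⁻¹ • abc (η, ξ, ζ)) := by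
  filter_upwards [eventually_ge_atTop 1, eventually_ge_atTop (72 / r ^ 2),
    eventually_ge_atTop ((12 / r) ^ 2), eventually_ge_atTop ((68 / r) ^ 2 / r)]
    with k hk h2 h3 h4 η ξ ζ d1 d2 d3 d4
  have hk0 : 0 < k := by linarith
  have hs : 0 < √k := Real.sqrt_pos.2 hk0
  have hss : √k * √k = k := Real.mul_self_sqrt hk0.le
  simp only [Near, SS, abc, Prod.smul_mk, norm_sq_smul_inv hk0]
  constructor
  · have := sum_sq_bounds hk η ξ ζ d1 d2 d3 d4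
    have e : ‖η‖ ^ 2 / k ^ 2 + ‖ξ + ζ‖ ^ 2 / k ^ 2 + ‖ξ - η - ζ‖ ^ 2 / k ^ 2 - 4 =
        (‖η‖ ^ 2 + ‖ξ + ζ‖ ^ 2 + ‖ξ - η - ζ‖ ^ 2 - 4 * k ^ 2) / k ^ 2 := by field_simp
    rw [e, abs_div, abs_of_pos (by positivity : 0 < k ^ 2), div_le_iff₀ (by positivity)]
    refine this.trans ?_
    have h5 : 12 / r ≤ √k := Real.le_sqrt_of_sq_le h3
    rw [div_le_iff₀ hr] at h5
    calc 12 * k * √k ≤ (√k * r) * k * √k := by gcongr
      _ = r * k * (√k * √k) := by ring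
      _ = r * k ^ 2 := by rw [hss]; ring
  · by_contra hcon
    simp only [not_or, not_le] at hcon
    obtain ⟨ha, hb, hc⟩ := hcon
    rw [lt_div_iff₀ (by positivity)] at ha hb hc
    rw [div_le_iff₀ (by positivity)] at h2
    have g := geom1 hr hk (by linarith) η ξ ζ d1 d2 d3 d4 hb.le hc.le
    have g2 : ‖η‖ ≤ 68 / r * √k := by
      refine g.trans ?_
      have : 68 / r * √k = 17 / r * (√k + √k + √k + √k) := by ring
      rw [this]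
      gcongr
    have g3 := pow_le_pow_left₀ (norm_nonneg _) g2 2
    rw [mul_pow, Real.sq_sqrt hk0.le] at g3
    rw [div_le_iff₀ hr] at h4
    have : (68 / r) ^ 2 * k ≤ k * r * k := by gcongr
    nlinarith

lemma near_of_P4 {k : ℕ → ℝ} (hk : Tendsto k atTop atTop) {F1 F2 F3 F4 : ℕ → E → ℂ}
    (h1 : Tr k F1) (h2 : Tr k F2) (h3 : Tr k F3) (h4 : Tr k F4) {r : ℝ} (hr : 0 < r) :
    ∀ᶠ n in atTop, (Good (F1 n) ∧ Good (F2 n) ∧ Good (F3 n) ∧ Good (F4 n)) ∧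
      ∀ q, P4 (F1 n) (F2 n) (F3 n) (F4 n) q ≠ 0 → Near r ((k n)⁻¹ • abc q) := by
  obtain ⟨C, h⟩ := Tr4 h1 h2 h3 h4
  filter_upwards [h, hk.eventually (near_of_dd hr)] with n hn hk
  refine ⟨⟨hn.1.good, hn.2.1.good, hn.2.2.1.good, hn.2.2.2.good⟩, fun q hq => ?_⟩
  obtain ⟨n1, n2, n3, n4⟩ := P4_ne hq
  exact hk q.1 q.2.1 q.2.2 (hn.1.supp _ n1) (hn.2.1.supp _ n2) (hn.2.2.1.supp _ n3)
    (hn.2.2.2.supp _ n4)

lemma norm_add_sub_sq {x y : E} (hx : ‖x‖ = 1) (hy : ‖y‖ = 1) :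
    ‖x + y‖ ^ 2 = 2 + 2 * ⟪x, y⟫ ∧ ‖x - y‖ ^ 2 = 2 - 2 * ⟪x, y⟫ := by
  rw [norm_add_sq_real, norm_sub_sq_real, hx, hy]
  constructor <;> ring

lemma W_cut {ρ : ℝ} (hρ : 0 < ρ) {M : E3 → ℂ} (hV : Van ρ M) (v v' : E) :
    W (fun p => M p * (sg (ρ / 4) p.2.1 * sg (ρ / 4) p.2.2)) v v' = W M v v' := by
  unfold W
  refine integral_congr_ae ?_
  filter_upwards [ae_norm_prod] with p hp
  obtain ⟨e1, e2⟩ := norm_add_sub_sq hp.1 hp.2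
  by_cases hM : M (0, p.1 + p.2, p.1 - p.2) = 0
  · simp [hM]
  have := mt (hV (0, p.1 + p.2, p.1 - p.2) (by simp only [SS, e1, e2, norm_zero]; linarith)) hM
  simp only [not_or, not_le] at this
  rw [sg_one (by positivity) (by linarith [this.2.2]),
    sg_one (by positivity) (by linarith [this.2.1])]
  ring

lemma Van.sw12 {ρ : ℝ} {M : E3 → ℂ} (hV : Van ρ M) : Van ρ (fun p => M (sw12 p)) := by
  intro p h1 h2
  refine hV _ ?_ ?_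
  · simp only [SS, MP_6b977f_mp.sw12] at h1 ⊢; linarith
  · simp only [MP_6b977f_mp.sw12]; tauto

lemma Van.sw13 {ρ : ℝ} {M : E3 → ℂ} (hV : Van ρ M) : Van ρ (fun p => M (sw13 p)) := by
  intro p h1 h2
  refine hV _ ?_ ?_
  · simp only [SS, MP_6b977f_mp.sw13] at h1 ⊢; linarith
  · simp only [MP_6b977f_mp.sw13]; tauto

lemma main_cut {k : ℕ → ℝ} (hk : Tendsto k atTop atTop) {F1 F2 F3 F4 : ℕ → E → ℂ}
    (h1 : Tr k F1) (h2 : Tr k F2) (h3 : Tr k F3) (h4 : Tr k F4) {c c' : E → ℂ} {v v' : E}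
    (hc : Corr k F1 F2 c v) (hc' : Corr k F3 F4 c' v') {M : E3 → ℂ} (hM : Continuous M) {B ρ : ℝ}
    (hB : ∀ p, ‖M p‖ ≤ B) (hρ : 0 < ρ) (hV : Van ρ M) :
    Tendsto (fun n => Lam (fun p => M ((k n)⁻¹ • p) *
      (sg (ρ / 4) ((k n)⁻¹ • p.2.1) * sg (ρ / 4) ((k n)⁻¹ • p.2.2))) (F1 n) (F2 n) (F3 n) (F4 n))
      atTop (𝓝 ((∫ η, c η * c' (-η)) * W M v v')) := by
  rw [← W_cut hρ hV]
  refine main_pair hk h1 h2 h3 h4 hc hc'
    (M := fun p => M p * (sg (ρ / 4) p.2.1 * sg (ρ / 4) p.2.2)) (by fun_prop) (B := B)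
    (r := ρ / 4) (fun p => ?_) (by positivity) (fun p hp => ?_)
  · rw [norm_mul, norm_mul]
    have := mul_le_one₀ (norm_sg_le (ρ / 4) p.2.1) (norm_nonneg _) (norm_sg_le (ρ / 4) p.2.2)
    exact (mul_le_of_le_one_right (norm_nonneg _) this).trans (hB p)
  · rcases hp with hp | hp
    · rw [sg_zero (by positivity) hp.le]; ring
    · rw [sg_zero (x := p.2.2) (by positivity) hp.le]; ring

lemma split_one {ρ : ℝ} (hρ : 0 < ρ) {M : E3 → ℂ} (hV : Van ρ M) {p : E3} (hp : Near (ρ / 4) p) :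
    M p = M p * (sg (ρ / 4) p.2.1 * sg (ρ / 4) p.2.2) + M p * (sg (ρ / 4) p.1 * sg (ρ / 4) p.2.2) +
      M p * (sg (ρ / 4) p.2.1 * sg (ρ / 4) p.1) := by
  by_cases hM : M p = 0
  · simp [hM]
  obtain ⟨hS, hm⟩ := hp
  have hS' := abs_le.1 hS
  have := mt (hV p (by linarith [hS'.2])) hM
  simp only [not_or, not_le] at this
  obtain ⟨t1, t2, t3⟩ := this
  have hr : 0 < ρ / 4 := by positivity
  unfold SS at hS'
  rcases hm with h | h | h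
  · rw [sg_zero hr h, sg_one (x := p.2.1) hr (by linarith [hS'.1]),
      sg_one (x := p.2.2) hr (by linarith [hS'.1])]
    ring
  · rw [sg_zero hr h, sg_one (x := p.1) hr (by linarith [hS'.1]),
      sg_one (x := p.2.2) hr (by linarith [hS'.1])]
    ring
  · rw [sg_zero hr h, sg_one (x := p.1) hr (by linarith [hS'.1]),
      sg_one (x := p.2.1) hr (by linarith [hS'.1])]
    ring

lemma wick_lam {k : ℕ → ℝ} (hk : Tendsto k atTop atTop) {F1 F2 F3 F4 : ℕ → E → ℂ}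
    (h1 : Tr k F1) (h2 : Tr k F2) (h3 : Tr k F3) (h4 : Tr k F4)
    {c12 c34 c13 c24 c14 c32 : E → ℂ} {v12 v34 v13 v24 v14 v32 : E}
    (h12 : Corr k F1 F2 c12 v12) (h34 : Corr k F3 F4 c34 v34)
    (h13 : Corr k F1 F3 c13 v13) (h24 : Corr k F2 F4 c24 v24)
    (h14 : Corr k F1 F4 c14 v14) (h32 : Corr k F3 F2 c32 v32)
    {M : E3 → ℂ} (hM : Continuous M) {B ρ : ℝ}
    (hB : ∀ p, ‖M p‖ ≤ B) (hρ : 0 < ρ) (hV : Van ρ M) :
    Tendsto (fun n => Lam (fun p => M ((k n)⁻¹ • p)) (F1 n) (F2 n) (F3 n) (F4 n)) atTop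
      (𝓝 ((∫ η, c12 η * c34 (-η)) * W M v12 v34 +
        (∫ η, c13 η * c24 (-η)) * W (fun p => M (sw12 p)) v13 v24 +
        (∫ η, c14 η * c32 (-η)) * W (fun p => M (sw13 p)) v14 v32)) := by
  have t1 := main_cut hk h1 h2 h3 h4 h12 h34 hM hB hρ hV
  have t2 := main_cut hk h1 h3 h2 h4 h13 h24 (M := fun p => M (sw12 p)) (by fun_prop)
    (fun p => hB _) hρ hV.sw12
  have t3 := main_cut hk h1 h4 h3 h2 h14 h32 (M := fun p => M (sw13 p)) (by fun_prop)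
    (fun p => hB _) hρ hV.sw13
  refine ((t1.add t2).add t3).congr' ?_
  filter_upwards [near_of_P4 hk h1 h2 h3 h4 (r := ρ / 4) (by positivity)] with n hn
  obtain ⟨⟨g1, g2, g3, g4⟩, hn⟩ := hn
  have hb : ∀ {f g : E3 → E}, Continuous f → Continuous g → Bdd (fun p => M ((k n)⁻¹ • p) *
      (sg (ρ / 4) ((k n)⁻¹ • f p) * sg (ρ / 4) ((k n)⁻¹ • g p))) (B * (1 * 1)) := by
    intro f g hf hg
    exact (Bdd.scale hM hB _).mul (Bdd.mul ⟨by fun_prop, fun p => norm_sg_le _ _⟩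
      ⟨by fun_prop, fun p => norm_sg_le _ _⟩)
  rw [Lam_congr (M := fun p => M ((k n)⁻¹ • p)) (N := fun p => M ((k n)⁻¹ • p) *
      (sg (ρ / 4) ((k n)⁻¹ • p.2.1) * sg (ρ / 4) ((k n)⁻¹ • p.2.2)) +
      M ((k n)⁻¹ • p) * (sg (ρ / 4) ((k n)⁻¹ • p.1) * sg (ρ / 4) ((k n)⁻¹ • p.2.2)) +
      M ((k n)⁻¹ • p) * (sg (ρ / 4) ((k n)⁻¹ • p.2.1) * sg (ρ / 4) ((k n)⁻¹ • p.1)))
      (fun q hq => split_one hρ hV (hn q hq)),
    Lam_add ((hb (by fun_prop) (by fun_prop)).add (hb (by fun_prop) (by fun_prop)))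
      (hb (by fun_prop) (by fun_prop)) g1 g2 g3 g4,
    Lam_add (hb (by fun_prop) (by fun_prop)) (hb (by fun_prop) (by fun_prop)) g1 g2 g3 g4]
  congr 1
  · congr 1
    rw [Lam_sw12 _ (F1 n) (F2 n)]
    rfl
  · rw [Lam_sw13 _ (F1 n) (F2 n)]
    rfl

end

end Pool.Agent.P.MP_6b977f_mp
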